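import Pool.Agent.Lib.MP_d41870_lc.Small

/-!
# The additivity of the ideal of small edge sets
-/

set_option autoImplicit false

namespace Pool.Agent.Lib.MP_d41870_lc

open Cardinal Set

universe u

variable {V X : Type u} {G : SimpleGraph V}

theorem chr_le (C : Type u) (c : G.Coloring C) : chr G ≤ #C :=
  csInf_le' ⟨C, rfl, ⟨c⟩⟩

theorem exists_coloring_chr (G : SimpleGraph V) :
    ∃ C : Type u, #C = chr G ∧ Nonempty (G.Coloring C) :=
  csInf_mem (s := {κ | ∃ C : Type u, #C = κ ∧ Nonempty (G.Coloring C)})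
    ⟨#V, V, rfl, ⟨G.selfColoring⟩⟩

theorem not_small_univ (h : #X < chr G) : ¬ Small G X (fun _ _ => True) := by
  rintro ⟨c, hc⟩
  exact h.not_ge (chr_le X ⟨c, fun {a b} hab => hc a b hab trivial⟩)

theorem isBad_chr (hX : 2 ≤ #X) (h : #X < chr G) : IsBad G X (chr G) := by
  obtain ⟨C, hC, ⟨c⟩⟩ := exists_coloring_chr G
  refine ⟨C, fun p u v => c u = p ∧ c v ≠ p, hC, fun p => Small.bipartite hX c p, fun hs => ?_⟩
  exact not_small_univ h (hs.mono fun u v huv _ => ⟨c u, rfl, (c.valid huv).symm⟩)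

theorem isBad_add (hX : 2 ≤ #X) (h : #X < chr G) : IsBad G X (add G X) :=
  add_mem ⟨_, isBad_chr hX h⟩

theorem add_le_chr (hX : 2 ≤ #X) (h : #X < chr G) : add G X ≤ chr G :=
  csInf_le' (isBad_chr hX h)

theorem lt_add {ρ : Cardinal.{u}} (hρ : ℵ₀ ≤ ρ) (hX : #X = 2 ^ ρ) (h : #X < chr G) :
    ρ < add G X := by
  have hX2 : 2 ≤ #X := by
    rw [hX]
    exact (Cardinal.natCast_le_aleph0 (n := 2)).trans (hρ.trans (cantor ρ).le)
  by_contra hle
  rw [not_lt] at hle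
  obtain ⟨I, R, hI, hR, hn⟩ := isBad_add hX2 h
  apply hn
  apply Small.iUnion_of_power _ hR
  rw [hX, ← power_mul, hI]
  apply power_le_power_left two_ne_zero
  calc ρ * add G X ≤ ρ * ρ := by gcongr
    _ = ρ := mul_eq_self hρ

theorem isRegular_add (hω : ℵ₀ ≤ add G X) (hb : IsBad G X (add G X)) :
    (add G X).IsRegular := by
  refine ⟨hω, ?_⟩
  by_contra! hlt
  obtain ⟨I, R, hI, hR, hn⟩ := hb
  have hI' : #I = #(add G X).ord.ToType := by simp [hI]
  obtain ⟨e⟩ := Cardinal.eq.1 hI'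
  obtain ⟨S, hS, hS'⟩ := Order.exists_cof_eq (add G X).ord.ToType
  rw [Ordinal.cof_toType] at hS'
  apply hn
  have h1 : ∀ s : S, Small G X (fun u v => ∃ k : Iic s.1, R (e.symm k) u v) := by
    intro s
    apply Small.iUnion_of_lt_add _ (fun k => hR _)
    have : #(Iic s.1) = #(Iio s.1) + 1 := by
      rw [← Iio_insert, mk_insert (by simp)]
    rw [this]
    exact add_lt_of_lt hω (mk_Iio_toType_ord_lt s.1) (one_lt_aleph0.trans_le hω)
  have h2 := Small.iUnion_of_lt_add (G := G) (X := X) (by rw [hS']; exact hlt) h1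
  refine h2.mono fun u v _ h => ?_
  obtain ⟨i, hi⟩ := h
  obtain ⟨s, hs, his⟩ := hS (e i)
  exact ⟨⟨s, hs⟩, ⟨e i, his⟩, by simpa using hi⟩

end Pool.Agent.Lib.MP_d41870_lc
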