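import Pool.Agent.Lib.MP_d41870_lc.IdealLemma

/-!
# Case A: the vertex set is not the union of `κ` many small sets
-/

set_option autoImplicit false

namespace Pool.Agent.Lib.MP_d41870_lc

open Cardinal Set

universe u

variable {V X ι : Type u} {G : SimpleGraph V}

/-- A set of fewer than `κ` elements of the well order of type `κ` (regular) is bounded. -/
theorem exists_bound {κ : Cardinal.{u}} (hκ : κ.IsRegular) {I : Type u} (hI : #I < κ)
    (f : I → κ.ord.ToType) : ∃ k, ∀ i, f i < k := by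
  by_contra! h
  have hcof : IsCofinal (Set.range f) := by
    intro k
    obtain ⟨i, hi⟩ := h k
    exact ⟨f i, ⟨i, rfl⟩, hi⟩
  have h1 := Order.cof_le hcof
  rw [Ordinal.cof_toType, hκ.cof_ord] at h1
  exact absurd (h1.trans mk_range_le) (not_le.2 hI)

theorem mk_sigma_le {κ : Cardinal.{u}} (hω : ℵ₀ ≤ κ) (P : κ.ord.ToType → Type u)
    (hP : ∀ k, #(P k) < κ) : #(Σ k, P k) ≤ κ := by
  calc #(Σ k, P k) = Cardinal.sum fun k => #(P k) := mk_sigma _
    _ ≤ Cardinal.sum fun _ : κ.ord.ToType => κ := sum_le_sum _ _ fun k => (hP k).le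
    _ = κ * κ := by simp
    _ = κ := mul_eq_self hω

theorem caseA [Nonempty ι] (hns : ¬ SplitsTo G #ι) (hX : 2 ≤ #X) {κ : Cardinal.{u}}
    (hκadd : add G X = κ) (hκ : κ.IsInaccessible) (hι : #ι < κ)
    {bot : κ.ord.ToType} {Φ τ : κ.ord.ToType → κ.ord.ToType}
    {s : κ.ord.ToType → κ.ord.ToType → κ.ord.ToType}
    (D : SingData bot Φ τ s) {F : V → V → Prop} (ψ : Sym2 V → κ.ord.ToType)
    (hψ : ∀ k, Small G X (fun u v => F u v ∧ ψ s(u, v) = k))
    (hf : ∀ f : V → κ.ord.ToType,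
      ∃ k, ¬ Small G X (fun u v => F u v ∧ f u = k ∧ f v = k)) : False := by
  classical
  have hXne : Nonempty X := by
    rw [← mk_ne_zero_iff]
    rintro h
    rw [h] at hX
    exact absurd hX (by simp)
  have hω : ℵ₀ ≤ κ := hκ.aleph0_lt.le
  have hreg : κ.IsRegular := hκ.isRegular
  have hIio : ∀ k : κ.ord.ToType, #(Iio k) < κ := fun k => mk_Iio_toType_ord_lt k
  have hKinf : Infinite κ.ord.ToType := by
    rw [infinite_iff, mk_ord_toType]
    exact hω
  -- the colourings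
  let J : Type u := List (Option κ.ord.ToType) × (Σ k : κ.ord.ToType, (ι → Iio k))
  have hJ : #J ≤ #κ.ord.ToType := by
    have h1 : #(List (Option κ.ord.ToType)) ≤ κ := by
      rw [mk_list_eq_mk, mk_option, mk_ord_toType]
      exact (add_one_eq hω).le
    have h2 : #(Σ k : κ.ord.ToType, (ι → Iio k)) ≤ κ := by
      apply mk_sigma_le hω
      intro k
      calc #(ι → Iio k) = #(Iio k) ^ #ι := by simp
        _ ≤ (2 ^ #(Iio k)) ^ #ι := power_le_power_right (cantor _).le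
        _ = 2 ^ (#(Iio k) * #ι) := by rw [← power_mul]
        _ < κ := two_power_mul_lt hω (hκ.isStrongPrelimit (hIio k))
            (hκ.isStrongPrelimit hι)
    rw [mk_ord_toType]
    calc #J = #(List (Option κ.ord.ToType)) * #(Σ k : κ.ord.ToType, (ι → Iio k)) := by
          simp [J]
      _ ≤ κ * κ := mul_le_mul' h1 h2
      _ = κ := mul_eq_self hω
  obtain ⟨e⟩ := hJ
  let c' : J → Sym2 V → ι := fun j x =>
    Function.invFun (fun a => (j.2.2 a).1) (ev Φ τ s j.1 (ψ x))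
  obtain ⟨k₁, hk₁⟩ := exists_bound hreg (I := PUnit) (by simpa using hκ.nat_lt 1)
    fun _ => bot
  have hJne : Nonempty J := ⟨⟨[], k₁, fun _ => ⟨bot, hk₁ PUnit.unit⟩⟩⟩
  let c : κ.ord.ToType → Sym2 V → ι := fun k => c' (Function.invFun e k)
  choose p o hp using fun k => exists_partition hns (c k)
  -- the classes
  let A : V → κ.ord.ToType → Set V := fun w k => {u | ∀ j < k, p j u = p j w}
  have hAanti : ∀ w k k', k ≤ k' → A w k' ⊆ A w k := fun w k k' hk u hu j hj =>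
    hu j (hj.trans_le hk)
  have hw : ∃ w, ∀ k, ¬ Small G X (fun u v => F u v ∧ u ∈ A w k ∧ v ∈ A w k) := by
    by_contra! hall
    choose k hk using hall
    have hS : #(Σ k : κ.ord.ToType, (Iio k → ℕ)) ≤ #κ.ord.ToType := by
      rw [mk_ord_toType]
      apply mk_sigma_le hω
      intro k
      calc #(Iio k → ℕ) = ℵ₀ ^ #(Iio k) := by simp
        _ ≤ (2 ^ ℵ₀) ^ #(Iio k) := power_le_power_right (cantor _).le
        _ = 2 ^ (ℵ₀ * #(Iio k)) := by rw [← power_mul]
        _ < κ := two_power_mul_lt hω (hκ.isStrongPrelimit hκ.aleph0_lt)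
            (hκ.isStrongPrelimit (hIio k))
    obtain ⟨g⟩ := hS
    obtain ⟨k₀, hk₀⟩ := hf fun w => g ⟨k w, fun j => p j w⟩
    apply hk₀
    by_cases hex : ∃ w, g ⟨k w, fun j => p j w⟩ = k₀
    · obtain ⟨w, hw⟩ := hex
      have key : ∀ u, g ⟨k u, fun j => p j u⟩ = k₀ → u ∈ A w (k w) := by
        intro u hu
        have h := g.injective (hu.trans hw.symm)
        rw [Sigma.mk.injEq] at h
        obtain ⟨h1, h2⟩ := h
        intro j hj
        have h3 : ∀ (k₁ k₂ : κ.ord.ToType) (y₁ : Iio k₁ → ℕ) (y₂ : Iio k₂ → ℕ), k₁ = k₂ →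
            y₁ ≍ y₂ → ∀ (h₁ : j < k₁) (h₂ : j < k₂), y₁ ⟨j, h₁⟩ = y₂ ⟨j, h₂⟩ := by
          rintro k₁ k₂ y₁ y₂ rfl h h₁ h₂
          rw [eq_of_heq h]
        exact h3 _ _ _ _ h1 h2 (h1 ▸ hj) hj
      refine (hk w).mono fun u v _ h => ⟨h.1, key u h.2.1, key v h.2.2⟩
    · exact Small.of_empty fun u v _ h => hex ⟨u, h.2.1⟩
  obtain ⟨w, hw⟩ := hw
  -- the ideal
  let N : Set κ.ord.ToType → Prop := fun Y =>
    ∃ k, Small G X (fun u v => F u v ∧ ψ s(u, v) ∈ Y ∧ u ∈ A w k ∧ v ∈ A w k)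
  have mono : ∀ Y Z : Set κ.ord.ToType, Y ⊆ Z → N Z → N Y := by
    rintro Y Z hYZ ⟨k, hk⟩
    exact ⟨k, hk.mono fun u v _ h => ⟨h.1, hYZ h.2.1, h.2.2⟩⟩
  have union : ∀ (I : Type u) (Y : I → Set κ.ord.ToType), #I < κ → (∀ i, N (Y i)) →
      N (⋃ i, Y i) := by
    intro I Y hI hY
    choose k hk using hY
    obtain ⟨k', hk'⟩ := exists_bound hreg hI k
    refine ⟨k', (Small.iUnion_of_lt_add (hκadd.symm ▸ hI) hk).mono fun u v _ h => ?_⟩
    obtain ⟨h1, h2, h3, h4⟩ := h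
    rw [mem_iUnion] at h2
    obtain ⟨i, hi⟩ := h2
    exact ⟨i, h1, hi, hAanti w _ _ (hk' i).le h3, hAanti w _ _ (hk' i).le h4⟩
  have single : ∀ k, N {k} := fun k =>
    ⟨bot, (hψ k).mono fun u v _ h => ⟨h.1, h.2.1⟩⟩
  have sat : ∀ l, #(Zs Φ τ s N l) ≤ #ι := by
    intro l
    by_contra! hlt
    obtain ⟨Y⟩ := hlt.le
    obtain ⟨k, hk⟩ := exists_bound hreg hι fun a => (Y a).1
    let j : J := ⟨l, k, fun a => ⟨(Y a).1, hk a⟩⟩
    have hcj : c (e j) = c' j := by
      simp only [c]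
      rw [Function.leftInverse_invFun e.injective j]
    obtain ⟨k', hk'⟩ := exists_bound hreg (I := PUnit) (by simpa using hκ.nat_lt 1)
      fun _ => e j
    have hk'' := hk' PUnit.unit
    set a := o (e j) (p (e j) w) with ha
    refine (Y a).2 ⟨k', Small.of_empty fun u v huv h => ?_⟩
    obtain ⟨-, h1, h2, h3⟩ := h
    have h4 := h2 _ hk''
    have h5 := h3 _ hk''
    apply hp (e j) u v huv (h4.trans h5.symm)
    rw [h4, ← ha, hcj]
    have h6 : ev Φ τ s l (ψ s(u, v)) = (Y a).1 := h1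
    have hinj : Function.Injective (fun a => (Y a).1) := fun a b hab =>
      Y.injective (Subtype.ext hab)
    change Function.invFun (fun a => (Y a).1) (ev Φ τ s l (ψ s(u, v))) = a
    rw [h6]
    exact Function.leftInverse_invFun hinj a
  obtain ⟨k, hk⟩ := ideal_univ D hκ hIio N mono union single hι sat
  exact hw k (hk.mono fun u v _ h => ⟨h.1, mem_univ _, h.2⟩)

end Pool.Agent.Lib.MP_d41870_lc
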