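import Pool.Agent.Lib.MP_d41870_lc.Defs

/-!
# Inaccessible cardinals that are not Mahlo
-/

set_option autoImplicit false

namespace Pool.Agent.Lib.MP_d41870_lc

open Cardinal Set

universe u

/-- `Φ k` is the largest element of a club set which is at most `k` (or `bot`), `τ` and `s`
describe short cofinal sequences in the elements of the club set. -/
structure SingData {K : Type u} [LinearOrder K] (bot : K) (Φ τ : K → K) (s : K → K → K) :
    Prop where
  bot_le : ∀ k, bot ≤ k
  le : ∀ k, Φ k ≤ k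
  τ_bot : τ bot = bot
  s_bot : ∀ i, s bot i = bot
  τ_lt : ∀ k, Φ k ≠ bot → τ (Φ k) < Φ k
  s_lt : ∀ k i, Φ k ≠ bot → s (Φ k) i < Φ k
  cofinal : ∀ k, Φ k ≠ bot → ∀ b < Φ k, ∃ i < τ (Φ k), b ≤ s (Φ k) i
  bounded : ∀ γ, ∃ c, ∀ k, Φ k = γ → k < c

theorem SingData.eq_of_eq {K : Type u} [LinearOrder K] {bot : K} {Φ τ : K → K}
    {s : K → K → K} (D : SingData bot Φ τ s) {a b : K} (ha : Φ a ≠ bot) (hb : Φ b ≠ bot)
    (hτ : τ (Φ a) = τ (Φ b)) (hs : ∀ i < τ (Φ a), s (Φ a) i = s (Φ b) i) : Φ a = Φ b := by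
  rcases lt_trichotomy (Φ a) (Φ b) with h | h | h
  · obtain ⟨i, hi, hle⟩ := D.cofinal b hb _ h
    rw [← hτ] at hi
    rw [← hs i hi] at hle
    exact absurd (D.s_lt a i ha) (not_lt.2 hle)
  · exact h
  · obtain ⟨i, hi, hle⟩ := D.cofinal a ha _ h
    rw [hs i hi] at hle
    exact absurd (D.s_lt b i hb) (not_lt.2 hle)

/-- An element of a well order of regular type `κ` whose ordinal is neither `0` nor `1` nor a
regular cardinal has a short cofinal sequence. -/
theorem exists_short {κ : Cardinal.{u}} (bot k : κ.ord.ToType) (hbot : ∀ x, bot ≤ x)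
    (h1 : (1 : Ordinal) < Ordinal.typein (α := κ.ord.ToType) (· < ·) k)
    (hk : ∀ μ : Cardinal.{u}, μ.IsRegular →
      μ.ord ≠ Ordinal.typein (α := κ.ord.ToType) (· < ·) k) :
    ∃ (t : κ.ord.ToType) (f : κ.ord.ToType → κ.ord.ToType), t < k ∧ (∀ i, f i < k) ∧
      ∀ b < k, ∃ i < t, b ≤ f i := by
  classical
  set o : Ordinal.{u} := Ordinal.typein (α := κ.ord.ToType) (· < ·) k with ho
  have hlt : o.cof.ord < o := by
    refine lt_of_le_of_ne (Ordinal.ord_cof_le o) fun heq => ?_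
    by_cases hlim : Order.IsSuccLimit o
    · exact hk _ (Cardinal.isRegular_cof hlim) heq
    · have hle : ¬ 1 < o.cof := fun h => hlim (Ordinal.one_lt_cof_iff.1 h)
      rw [not_lt] at hle
      have : o ≤ 1 := by
        rw [← heq]
        calc o.cof.ord ≤ (1 : Cardinal).ord := ord_le_ord.2 hle
          _ = 1 := ord_one
      exact absurd h1 (not_lt.2 this)
  have hoκ : o < κ.ord := Ordinal.typein_lt_self k
  obtain ⟨S, hS, hS'⟩ := Order.exists_cof_eq (Iio k)
  rw [Order.cof_Iio, ← ho] at hS'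
  let t : κ.ord.ToType := Ordinal.ToType.mk ⟨o.cof.ord, hlt.trans hoκ⟩
  have ht : Ordinal.typein (α := κ.ord.ToType) (· < ·) t = o.cof.ord := by
    have := congrArg Subtype.val (Ordinal.ToType.mk.symm_apply_apply
      (⟨o.cof.ord, hlt.trans hoκ⟩ : Iio κ.ord))
    exact this
  have htk : t < k := by
    rw [← Ordinal.typein_lt_typein (α := κ.ord.ToType) (· < ·), ht, ← ho]
    exact hlt
  have hcard : #(Iio t) = #S := by
    rw [hS']
    have := Ordinal.card_typein (α := κ.ord.ToType) (r := (· < ·)) t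
    rw [ht, card_ord] at this
    exact this.symm
  obtain ⟨e⟩ := Cardinal.eq.1 hcard
  have hbk : bot < k := by
    refine lt_of_le_of_ne (hbot k) fun h => ?_
    have : bot ≤ t := hbot t
    rw [h] at this
    exact absurd htk (not_lt.2 this)
  refine ⟨t, fun i => if h : i < t then (e ⟨i, h⟩).1.1 else bot, htk, fun i => ?_, ?_⟩
  · by_cases h : i < t
    · simp only [h, dif_pos]
      exact (e ⟨i, h⟩).1.2
    · simp only [h, dif_neg, not_false_iff]
      exact hbk
  · intro b hb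
    obtain ⟨y, hy, hby⟩ := hS ⟨b, hb⟩
    refine ⟨(e.symm ⟨y, hy⟩).1, (e.symm ⟨y, hy⟩).2, ?_⟩
    have h : (e.symm ⟨y, hy⟩).1 < t := (e.symm ⟨y, hy⟩).2
    simp only [h, dif_pos]
    have h2 : e ⟨(e.symm ⟨y, hy⟩).1, h⟩ = ⟨y, hy⟩ := by
      have : (⟨(e.symm ⟨y, hy⟩).1, h⟩ : Iio t) = e.symm ⟨y, hy⟩ := rfl
      rw [this, Equiv.apply_symm_apply]
    rw [h2]
    exact hby

/-- If the inaccessible cardinal `κ` is not Mahlo, there is a club set of elements with short
cofinal sequences. -/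
theorem exists_singData {κ : Cardinal.{u}} (hκ : κ.IsInaccessible) (hM : ¬ IsMahlo κ) :
    ∃ (bot : κ.ord.ToType) (Φ τ : κ.ord.ToType → κ.ord.ToType)
      (s : κ.ord.ToType → κ.ord.ToType → κ.ord.ToType), SingData bot Φ τ s := by
  classical
  have hst : ¬ IsStationary {a : Set.Iio κ.ord | ∃ μ : Cardinal.{u}, μ.IsRegular ∧ μ.ord = a} :=
    fun h => hM ⟨hκ, h⟩
  rw [not_isStationary_iff] at hst
  obtain ⟨C, hC, hdis⟩ := hst
  have hω : ℵ₀ ≤ κ := hκ.aleph0_lt.le
  have hlim : Order.IsSuccLimit κ.ord := isSuccLimit_ord hω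
  let bot : κ.ord.ToType := Ordinal.ToType.mk ⟨0, hlim.bot_lt⟩
  have hbot : ∀ x, bot ≤ x := by
    intro x
    rw [← Ordinal.ToType.mk.symm.le_iff_le, OrderIso.symm_apply_apply]
    exact zero_le (a := ((Ordinal.ToType.mk.symm x).1))
  -- the club set transported to the type, without its elements `0`, `1`
  let C' : Set κ.ord.ToType := {k | Ordinal.ToType.mk.symm k ∈ C ∧
    (1 : Ordinal) < (Ordinal.ToType.mk.symm k).1}
  have hunb : ∀ k : κ.ord.ToType, ∃ c ∈ C', k < c := by
    intro k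
    have h1 : (max 1 (Ordinal.ToType.mk.symm k).1) + 1 < κ.ord := by
      apply hlim.add_one_lt
      apply max_lt
      · refine Ordinal.one_lt_omega0.trans_le ?_
        rw [← ord_aleph0]
        exact ord_le_ord.2 hω
      · exact (Ordinal.ToType.mk.symm k).2
    obtain ⟨c, hc, hle⟩ := hC.isCofinal ⟨_, h1⟩
    refine ⟨Ordinal.ToType.mk c, ⟨by simpa using hc, ?_⟩, ?_⟩
    · rw [OrderIso.symm_apply_apply]
      exact (lt_of_le_of_lt (le_max_left _ _) (Order.lt_add_one_iff.2 le_rfl)).trans_le hle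
    · rw [← Ordinal.ToType.mk.symm.lt_iff_lt, OrderIso.symm_apply_apply]
      show (Ordinal.ToType.mk.symm k).1 < c.1
      exact (lt_of_le_of_lt (le_max_right (1 : Ordinal) (Ordinal.ToType.mk.symm k).1)
        (Order.lt_add_one_iff.2 le_rfl)).trans_le hle
  have hmax : ∀ k : κ.ord.ToType, (∃ c ∈ C', c ≤ k) → ∃ m ∈ C', m ≤ k ∧ ∀ c ∈ C', c ≤ k →
      c ≤ m := by
    rintro k ⟨c, hc, hck⟩
    let U : Set κ.ord.ToType := {y | ∀ c ∈ C', c ≤ k → c ≤ y}
    have hU : U.Nonempty := ⟨k, fun c _ h => h⟩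
    let m := WellFounded.min (wellFounded_lt (α := κ.ord.ToType)) U hU
    have hm : m ∈ U := WellFounded.min_mem _ U hU
    have hmk : m ≤ k := by
      by_contra! h
      exact WellFounded.not_lt_min (wellFounded_lt (α := κ.ord.ToType)) U
        (show k ∈ U from fun c _ h => h) h
    have hmc : c ≤ m := hm c hc hck
    refine ⟨m, ⟨?_, ?_⟩, hmk, hm⟩
    · apply hC.isLUB_mem (t := {y | y ∈ C ∧ (1 : Ordinal) < y.1 ∧ Ordinal.ToType.mk y ≤ k})
        (fun y hy => hy.1)
      · refine ⟨Ordinal.ToType.mk.symm c, hc.1, hc.2, ?_⟩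
        rw [OrderIso.apply_symm_apply]
        exact hck
      · constructor
        · intro y hy
          have := hm (Ordinal.ToType.mk y) ⟨by simpa using hy.1, by simpa using hy.2.1⟩ hy.2.2
          rw [← Ordinal.ToType.mk.symm.le_iff_le, OrderIso.symm_apply_apply] at this
          exact this
        · intro y hy
          have hyU : Ordinal.ToType.mk y ∈ U := by
            intro c hc hck
            have := hy (show Ordinal.ToType.mk.symm c ∈
              {y : Iio κ.ord | y ∈ C ∧ (1 : Ordinal) < y.1 ∧ Ordinal.ToType.mk y ≤ k} from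
              ⟨hc.1, hc.2, by rw [OrderIso.apply_symm_apply]; exact hck⟩)
            rw [← Ordinal.ToType.mk.symm.le_iff_le, OrderIso.symm_apply_apply]
            exact this
          have h := not_lt.1 (WellFounded.not_lt_min (wellFounded_lt (α := κ.ord.ToType)) U hyU)
          rw [← Ordinal.ToType.mk.symm.le_iff_le, OrderIso.symm_apply_apply] at h
          exact h
    · refine hc.2.trans_le ?_
      exact (Ordinal.ToType.mk.symm.le_iff_le.2 hmc)
  let Φ : κ.ord.ToType → κ.ord.ToType := fun k =>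
    if h : ∃ c ∈ C', c ≤ k then (hmax k h).choose else bot
  have hΦ1 : ∀ k, Φ k ≠ bot → Φ k ∈ C' := by
    intro k hk
    by_cases h : ∃ c ∈ C', c ≤ k
    · have : Φ k = (hmax k h).choose := dif_pos h
      rw [this]
      exact (hmax k h).choose_spec.1
    · exact absurd (dif_neg h) hk
  have hΦ2 : ∀ k, Φ k ≤ k := by
    intro k
    by_cases h : ∃ c ∈ C', c ≤ k
    · have : Φ k = (hmax k h).choose := dif_pos h
      rw [this]
      exact (hmax k h).choose_spec.2.1
    · have : Φ k = bot := dif_neg h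
      rw [this]
      exact hbot k
  have hΦ3 : ∀ k, ∀ c ∈ C', c ≤ k → c ≤ Φ k := by
    intro k c hc hck
    have h : ∃ c ∈ C', c ≤ k := ⟨c, hc, hck⟩
    have : Φ k = (hmax k h).choose := dif_pos h
    rw [this]
    exact (hmax k h).choose_spec.2.2 c hc hck
  have hbotC : bot ∉ C' := by
    rintro ⟨-, h⟩
    rw [OrderIso.symm_apply_apply] at h
    exact absurd h (not_lt.2 (zero_le (a := (1 : Ordinal))))
  have hshort : ∀ k ∈ C', ∃ (t : κ.ord.ToType) (f : κ.ord.ToType → κ.ord.ToType), t < k ∧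
      (∀ i, f i < k) ∧ ∀ b < k, ∃ i < t, b ≤ f i := by
    intro k hk
    apply exists_short bot k hbot hk.2
    intro μ hμ hk'
    exact (Set.disjoint_left.1 hdis) (show Ordinal.ToType.mk.symm k ∈
      {a : Set.Iio κ.ord | ∃ μ : Cardinal.{u}, μ.IsRegular ∧ μ.ord = a} from ⟨μ, hμ, hk'⟩) hk.1
  have : Nonempty κ.ord.ToType := ⟨bot⟩
  choose! t f ht hf hcof using hshort
  refine ⟨bot, Φ, fun k => if k ∈ C' then t k else bot, fun k i => if k ∈ C' then f k i else bot,
    hbot, hΦ2, ?_, ?_, ?_, ?_, ?_, ?_⟩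
  · simp [hbotC]
  · simp [hbotC]
  · intro k hk
    simp only [hΦ1 k hk, if_true]
    exact ht _ (hΦ1 k hk)
  · intro k i hk
    simp only [hΦ1 k hk, if_true]
    exact hf _ (hΦ1 k hk) i
  · intro k hk b hb
    simp only [hΦ1 k hk, if_true]
    exact hcof _ (hΦ1 k hk) b hb
  · intro γ
    obtain ⟨c, hc, hγ⟩ := hunb γ
    refine ⟨c, fun k hk => ?_⟩
    by_contra! hle
    have := hΦ3 k c hc hle
    rw [hk] at this
    exact absurd hγ (not_lt.2 this)

end Pool.Agent.Lib.MP_d41870_lc
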