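import Pool.Agent.Lib.MP_d41870_lc.Additivity
import Pool.Agent.Lib.MP_d41870_lc.Sing

/-!
# Case B: the vertex set is the union of `κ` many small sets
-/

set_option autoImplicit false

namespace Pool.Agent.Lib.MP_d41870_lc

open Cardinal Set

universe u

variable {V X : Type u} {G : SimpleGraph V}

/-- The pairs of vertices whose two `g`-values are separated in `n` steps. -/
def T {K : Type u} [LinearOrder K] (Φ τ : K → K) (s : K → K → K) :
    ℕ → (V → K) → V → V → Prop
  | 0, _, _, _ => False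
  | n + 1, g, u, v => g u ≠ g v ∧ (Φ (g u) = Φ (g v) ∨ T Φ τ s n (fun w => τ (Φ (g w))) u v ∨
      (τ (Φ (g u)) = τ (Φ (g v)) ∧
        ∃ i < τ (Φ (g u)), T Φ τ s n (fun w => s (Φ (g w)) i) u v))

theorem T_small {K : Type u} [LinearOrder K] {bot : K} {Φ τ : K → K} {s : K → K → K}
    (D : SingData bot Φ τ s) (hX : 2 ≤ #X) (h2 : (2 : Cardinal.{u}) < add G X)
    (hIio : ∀ k : K, #(Iio k) < add G X) (n : ℕ) :
    ∀ g : V → K, Small G X (T Φ τ s n g) := by
  have hXne : Nonempty X := by
    rw [← mk_ne_zero_iff]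
    rintro h
    rw [h] at hX
    exact absurd hX (by simp)
  induction n with
  | zero => exact fun g => Small.of_empty fun u v _ h => h
  | succ n ih =>
    intro g
    have hA : Small G X (fun u v => g u ≠ g v ∧ Φ (g u) = Φ (g v)) := by
      apply Small.of_fibers (fun w => Φ (g w))
      intro γ
      obtain ⟨c, hc⟩ := D.bounded γ
      have := Small.iUnion_of_lt_add (G := G) (X := X) (I := Iio c) (hIio c)
        (R := fun i u v => g u = i.1 ∧ g v ≠ i.1) (fun i => Small.bipartite hX g i.1)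
      refine this.mono fun u v _ h => ⟨⟨g u, hc _ h.2.1⟩, rfl, h.1.symm⟩
    have hC : Small G X (fun u v => (∃ i < τ (Φ (g u)), T Φ τ s n (fun w => s (Φ (g w)) i) u v) ∧
        τ (Φ (g u)) = τ (Φ (g v))) := by
      apply Small.of_fibers (fun w => τ (Φ (g w)))
      intro t
      have := Small.iUnion_of_lt_add (G := G) (X := X) (I := Iio t) (hIio t)
        (R := fun i u v => T Φ τ s n (fun w => s (Φ (g w)) i.1) u v)
        (fun i => ih (fun w => s (Φ (g w)) i.1))
      refine this.mono fun u v _ h => ?_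
      obtain ⟨⟨i, hi, hT⟩, hu, -⟩ := h
      rw [hu] at hi
      exact ⟨⟨i, hi⟩, hT⟩
    have hAll := (hA.union h2 ((ih (fun w => τ (Φ (g w)))).union h2 hC))
    refine hAll.mono fun u v _ h => ?_
    rcases h with ⟨hne, h | h | h⟩
    · exact Or.inl ⟨hne, h⟩
    · exact Or.inr (Or.inl h)
    · exact Or.inr (Or.inr ⟨h.2, h.1⟩)

theorem T_exists {K : Type u} [LinearOrder K] [WellFoundedLT K] {bot : K} {Φ τ : K → K}
    {s : K → K → K} (D : SingData bot Φ τ s) (m : K) :
    ∀ (g : V → K) (u v : V), max (g u) (g v) ≤ m → g u ≠ g v → ∃ n, T Φ τ s n g u v := by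
  induction m using WellFoundedLT.induction with
  | ind m ih =>
    intro g u v hm hne
    by_cases hΦ : Φ (g u) = Φ (g v)
    · exact ⟨1, hne, Or.inl hΦ⟩
    -- the maximum of the two values is not `bot`
    have hMne : max (Φ (g u)) (Φ (g v)) ≠ bot := by
      intro h
      have h1 : Φ (g u) ≤ bot := (le_max_left _ _).trans h.le
      have h2 : Φ (g v) ≤ bot := (le_max_right _ _).trans h.le
      exact hΦ ((h1.antisymm (D.bot_le _)).trans (h2.antisymm (D.bot_le _)).symm)
    have hbM : bot < max (Φ (g u)) (Φ (g v)) := lt_of_le_of_ne (D.bot_le _) hMne.symm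
    have hMm : max (Φ (g u)) (Φ (g v)) ≤ m := (max_le_max (D.le _) (D.le _)).trans hm
    have hτlt : ∀ w, Φ (g w) ≤ max (Φ (g u)) (Φ (g v)) →
        τ (Φ (g w)) < max (Φ (g u)) (Φ (g v)) := by
      intro w hw
      by_cases hb : Φ (g w) = bot
      · rw [hb, D.τ_bot]
        exact hbM
      · exact (D.τ_lt _ hb).trans_le hw
    have hslt : ∀ w i, Φ (g w) ≤ max (Φ (g u)) (Φ (g v)) →
        s (Φ (g w)) i < max (Φ (g u)) (Φ (g v)) := by
      intro w i hw
      by_cases hb : Φ (g w) = bot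
      · rw [hb, D.s_bot]
        exact hbM
      · exact (D.s_lt _ i hb).trans_le hw
    by_cases hτ : τ (Φ (g u)) = τ (Φ (g v))
    · have key : ∃ i < τ (Φ (g u)), s (Φ (g u)) i ≠ s (Φ (g v)) i := by
        by_contra! hall
        by_cases hbu : Φ (g u) = bot
        · have hbv : Φ (g v) ≠ bot := fun h => hΦ (hbu.trans h.symm)
          obtain ⟨i, hi, -⟩ := D.cofinal (g v) hbv bot (lt_of_le_of_ne (D.bot_le _) hbv.symm)
          rw [← hτ, hbu, D.τ_bot] at hi
          exact absurd hi (not_lt.2 (D.bot_le _))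
        · by_cases hbv : Φ (g v) = bot
          · obtain ⟨i, hi, -⟩ := D.cofinal (g u) hbu bot
              (lt_of_le_of_ne (D.bot_le _) (Ne.symm hbu))
            rw [hτ, hbv, D.τ_bot] at hi
            exact absurd hi (not_lt.2 (D.bot_le _))
          · exact hΦ (D.eq_of_eq hbu hbv hτ hall)
      obtain ⟨i, hi, hsi⟩ := key
      obtain ⟨n, hn⟩ := ih (max (s (Φ (g u)) i) (s (Φ (g v)) i))
        ((max_lt (hslt u i (le_max_left _ _)) (hslt v i (le_max_right _ _))).trans_le hMm)
        (fun w => s (Φ (g w)) i) u v le_rfl hsi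
      exact ⟨n + 1, hne, Or.inr (Or.inr ⟨hτ, i, hi, hn⟩)⟩
    · obtain ⟨n, hn⟩ := ih (max (τ (Φ (g u))) (τ (Φ (g v))))
        ((max_lt (hτlt u (le_max_left _ _)) (hτlt v (le_max_right _ _))).trans_le hMm)
        (fun w => τ (Φ (g w))) u v le_rfl hτ
      exact ⟨n + 1, hne, Or.inr (Or.inl hn)⟩

/-- Case B: if the vertex set is the union of `κ` many sets on which `F` is small and `κ` is
not Mahlo, then `F` is small. -/
theorem caseB {K : Type u} [LinearOrder K] [WellFoundedLT K] {bot : K} {Φ τ : K → K}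
    {s : K → K → K} (D : SingData bot Φ τ s) (hX : 2 ≤ #X) (hω : ℵ₀ < add G X)
    (hIio : ∀ k : K, #(Iio k) < add G X) {F : V → V → Prop} (f : V → K)
    (hf : ∀ k, Small G X (fun u v => F u v ∧ f u = k ∧ f v = k)) : Small G X F := by
  have hXne : Nonempty X := by
    rw [← mk_ne_zero_iff]
    rintro h
    rw [h] at hX
    exact absurd hX (by simp)
  have h2 : (2 : Cardinal.{u}) < add G X := (natCast_lt_aleph0 (n := 2)).trans hω
  have h1 : Small G X (fun u v => F u v ∧ f u = f v) := Small.of_fibers f hf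
  have h3 : Small G X (fun u v => ∃ n : ULift.{u} ℕ, T Φ τ s n.down f u v) := by
    apply Small.iUnion_of_lt_add (by simpa using hω)
    exact fun n => T_small D hX h2 hIio n.down f
  refine (h1.union h2 h3).mono fun u v _ h => ?_
  by_cases he : f u = f v
  · exact Or.inl ⟨h, he⟩
  · obtain ⟨n, hn⟩ := T_exists D (max (f u) (f v)) f u v le_rfl he
    exact Or.inr ⟨⟨n⟩, hn⟩

end Pool.Agent.Lib.MP_d41870_lc
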