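import Mathlib

/-!
# Splitting graphs into parts of uncountable simultaneous chromatic number: definitions
-/

set_option autoImplicit false

namespace Pool.Agent.Lib.MP_d41870_lc

open Cardinal

universe u

/-- The chromatic number of a graph, as a cardinal: the least cardinality of a set of colours
of a proper colouring. -/
noncomputable def chr {V : Type u} (G : SimpleGraph V) : Cardinal.{u} :=
  sInf {κ | ∃ C : Type u, #C = κ ∧ Nonempty (G.Coloring C)}

/-- The system of graphs `H i` on the vertex set `V` has simultaneous chromatic number
`> ℵ₀`: for every partition of `V` into countably many pieces, one of the pieces contains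
an edge of every `H i`. -/
def SimUncountable {V ι : Type u} (H : ι → SimpleGraph V) : Prop :=
  ∀ p : V → ℕ, ∃ n : ℕ, ∀ i : ι, ∃ a b : V, (H i).Adj a b ∧ p a = n ∧ p b = n

/-- `G` splits to `δ` parts: the edge set of `G` is the union of `δ` pairwise disjoint sets
such that the corresponding system of graphs has simultaneous chromatic number `> ℵ₀`. -/
def SplitsTo {V : Type u} (G : SimpleGraph V) (δ : Cardinal.{u}) : Prop :=
  ∃ (ι : Type u) (H : ι → SimpleGraph V), #ι = δ ∧ (∀ i j, i ≠ j → Disjoint (H i) (H j)) ∧
    (⨆ i, H i) = G ∧ SimUncountable H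

/-- `κ` is a (strongly) Mahlo cardinal: it is strongly inaccessible and the set of the
regular cardinals below `κ` is stationary in `κ`. -/
def IsMahlo (κ : Cardinal.{u}) : Prop :=
  κ.IsInaccessible ∧
    IsStationary {a : Set.Iio κ.ord | ∃ μ : Cardinal.{u}, μ.IsRegular ∧ μ.ord = a}

end Pool.Agent.Lib.MP_d41870_lc
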