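import Pool.Agent.Lib.MP_d41870_lc.NSIter
import Pool.Agent.Lib.MP_9708fd_lc.FAxioms
import Pool.Agent.Lib.MP_9708fd_lc.FModel

set_option autoImplicit false

section

/-!
# Graphs, countable partitions and splittings inside a structure `(M, E)`

The readable definitions, the corresponding formulas, and the evaluation of the forcing relation
for them.
-/


namespace Pool.Agent.Lib.MP_d41870_lc.Forc

open MP9708F

universe u

/-! ### Formulas -/

/-- Implication. -/
def imp (φ ψ : SetFormula) : SetFormula := .neg (.and φ (.neg ψ))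

/-- Disjunction. -/
def or' (φ ψ : SetFormula) : SetFormula := .neg (.and (.neg φ) (.neg ψ))

/-- Equivalence. -/
def iff' (φ ψ : SetFormula) : SetFormula := .and (imp φ ψ) (imp ψ φ)

/-- `p = (a, b)`. -/
def fPair (p a b : ℕ) : SetFormula :=
  .all (iff' (.mem 0 (p + 1)) (or' (.all (iff' (.mem 0 1) (.eq 0 (a + 2))))
    (.all (iff' (.mem 0 1) (or' (.eq 0 (a + 2)) (.eq 0 (b + 2)))))))

/-- `(a, b) ∈ f`. -/
def fHas (f a b : ℕ) : SetFormula := (SetFormula.and (.mem 0 (f + 1)) (fPair 0 (a + 1) (b + 1))).ex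

/-- `w` is inductive. -/
def fInd (w : ℕ) : SetFormula :=
  .and (SetFormula.and (.mem 0 (w + 1)) (.all (.neg (.mem 0 1)))).ex
    (.all (imp (.mem 0 (w + 1)) (SetFormula.and (.mem 0 (w + 2))
      (.all (iff' (.mem 0 1) (or' (.mem 0 2) (.eq 0 2))))).ex))

/-- `w = ω`. -/
def fOm (w : ℕ) : SetFormula :=
  .and (fInd w) (.all (imp (fInd 0) (.all (imp (.mem 0 (w + 2)) (.mem 0 1)))))

/-- `f : x → y`. -/
def fFun (f x y : ℕ) : SetFormula :=
  .and (.all (imp (.mem 0 (f + 1)) (SetFormula.and (.mem 1 (x + 3))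
      (.and (.mem 0 (y + 3)) (fPair 2 1 0))).ex.ex))
    (.and (.all (imp (.mem 0 (x + 1)) (fHas (f + 2) 1 0).ex))
      (.all (.all (.all (imp (fHas (f + 3) 2 1) (imp (fHas (f + 3) 2 0) (.eq 1 0)))))))

/-- The class `n` of `f` contains an edge in `H`. -/
def fCls (f n H : ℕ) : SetFormula :=
  (SetFormula.and (.mem 0 (H + 1)) (.all (imp (.mem 0 1) (fHas (f + 2) 0 (n + 2))))).ex

/-- `⟨h, H⟩` is a graph. -/
def fGr (h H : ℕ) : SetFormula :=
  .all (imp (.mem 0 (H + 1)) (SetFormula.and (.mem 1 (h + 3)) (.and (.mem 0 (h + 3))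
    (.and (.neg (.eq 1 0)) (.all (iff' (.mem 0 3) (or' (.eq 0 2) (.eq 0 1))))))).ex.ex)

/-- `⟨h, H⟩` is uncountably chromatic. -/
def fUnc (h H : ℕ) : SetFormula :=
  .all (imp (fOm 0) (.all (imp (fFun 0 (h + 2) 1)
    (SetFormula.and (.mem 0 2) (fCls 1 0 (H + 3))).ex)))

/-- `⟨h, H⟩` splits to two parts. -/
def fSpl (h H : ℕ) : SetFormula :=
  (SetFormula.and (.all (iff' (.mem 0 (H + 3)) (or' (.mem 0 2) (.mem 0 1))))
    (.and (.all (.neg (.and (.mem 0 2) (.mem 0 1))))
      (.all (imp (fOm 0) (.all (imp (fFun 0 (h + 4) 1)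
        (SetFormula.and (.mem 0 2) (.and (fCls 1 0 4) (fCls 1 0 3))).ex)))))).ex.ex

section Holds

variable {M : Type u} (E : M → M → Prop) (v : ℕ → M)

@[simp] theorem push_zero' (x : M) : push x v 0 = x := rfl

@[simp] theorem push_succ' (x : M) (n : ℕ) : push x v (n + 1) = v n := rfl

theorem holds_imp (φ ψ : SetFormula) : (imp φ ψ).Holds E v ↔ (φ.Holds E v → ψ.Holds E v) := by
  simp [imp, SetFormula.Holds]

theorem holds_or (φ ψ : SetFormula) : (or' φ ψ).Holds E v ↔ (φ.Holds E v ∨ ψ.Holds E v) := by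
  simp [or', SetFormula.Holds]
  tauto

theorem holds_iff (φ ψ : SetFormula) : (iff' φ ψ).Holds E v ↔ (φ.Holds E v ↔ ψ.Holds E v) := by
  simp only [iff', SetFormula.Holds, holds_imp]
  tauto

theorem holds_ex (φ : SetFormula) : φ.ex.Holds E v ↔ ∃ x, φ.Holds E (push x v) := by
  simp [SetFormula.ex, SetFormula.Holds]

theorem holds_fPair (p a b : ℕ) : (fPair p a b).Holds E v ↔ IsPair E (v p) (v a) (v b) := by
  simp only [fPair, SetFormula.Holds, holds_iff, holds_or]
  rfl

theorem holds_fHas (f a b : ℕ) : (fHas f a b).Holds E v ↔ HasPair E (v f) (v a) (v b) := by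
  simp only [fHas, SetFormula.Holds, holds_ex, holds_fPair]
  rfl

theorem holds_fInd (w : ℕ) : (fInd w).Holds E v ↔ IsInductive E (v w) := by
  simp only [fInd, SetFormula.Holds, holds_ex, holds_imp, holds_iff, holds_or]
  rfl

theorem holds_fOm (w : ℕ) : (fOm w).Holds E v ↔ IsOmega E (v w) := by
  simp only [fOm, SetFormula.Holds, holds_imp, holds_fInd]
  rfl

theorem holds_fFun (f x y : ℕ) : (fFun f x y).Holds E v ↔ IsFunc E (v f) (v x) (v y) := by
  simp only [fFun, SetFormula.Holds, holds_imp, holds_ex, holds_fPair, holds_fHas]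
  rfl

theorem holds_fCls (f n H : ℕ) : (fCls f n H).Holds E v ↔ ClassHasEdge E (v f) (v n) (v H) := by
  simp only [fCls, SetFormula.Holds, holds_imp, holds_ex, holds_fHas]
  rfl

theorem holds_fGr (h H : ℕ) : (fGr h H).Holds E v ↔ IsGraph E (v h) (v H) := by
  simp only [fGr, SetFormula.Holds, holds_imp, holds_ex, holds_iff, holds_or]
  rfl

theorem holds_fUnc (h H : ℕ) : (fUnc h H).Holds E v ↔ UncountablyChromatic E (v h) (v H) := by
  simp only [fUnc, SetFormula.Holds, holds_imp, holds_ex, holds_fOm, holds_fFun, holds_fCls]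
  rfl

theorem holds_fSpl (h H : ℕ) : (fSpl h H).Holds E v ↔ SplitsToTwo E (v h) (v H) := by
  simp only [fSpl, SetFormula.Holds, holds_imp, holds_ex, holds_fOm, holds_fFun, holds_fCls,
    holds_iff, holds_or]
  rfl

end Holds

end Pool.Agent.Lib.MP_d41870_lc.Forc

end

section

/-!
# Evaluation of the forcing relation for the splitting statement
-/


namespace Pool.Agent.Lib.MP_d41870_lc.Forc

open MP9708F

universe u

section Connectives

variable {P : Type u} [Preorder P] {φ ψ : SetFormula} {v : ℕ → Nam P} {p : P}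

theorem forces_imp : (imp φ ψ).Forces v p ↔ ∀ q ≤ p, φ.Forces v q → ψ.Forces v q := by
  constructor
  · intro h q hq hφ
    refine (ψ.forces_reg v).reg fun r hr => ?_
    by_contra hcon
    push Not at hcon
    exact h r (hr.trans hq) ⟨φ.forces_mono v hr hφ, hcon⟩
  · intro h q hq hφψ
    exact hφψ.2 q le_rfl (h q hq hφψ.1)

theorem forces_or : (or' φ ψ).Forces v p ↔ DB (fun r => φ.Forces v r ∨ ψ.Forces v r) p := by
  constructor
  · intro h q hq
    by_contra hcon
    push Not at hcon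
    exact h q hq ⟨fun r hr => (hcon r hr).1, fun r hr => (hcon r hr).2⟩
  · intro h q hq hφψ
    obtain ⟨r, hr, h' | h'⟩ := h q hq
    · exact hφψ.1 r hr h'
    · exact hφψ.2 r hr h'

theorem forces_iff : (iff' φ ψ).Forces v p ↔ ∀ q ≤ p, (φ.Forces v q ↔ ψ.Forces v q) := by
  constructor
  · rintro ⟨h1, h2⟩ q hq
    exact ⟨forces_imp.1 h1 q hq, forces_imp.1 h2 q hq⟩
  · intro h
    exact ⟨forces_imp.2 fun q hq => (h q hq).1, forces_imp.2 fun q hq => (h q hq).2⟩

theorem forces_ex' : φ.ex.Forces v p ↔ DB (fun r => ∃ x, φ.Forces (push x v) r) p :=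
  SetFormula.forces_ex

end Connectives

section Pairs

variable {P : Type u} [Preorder P]

/-- The ordered pair name. -/
def opair (x y : Nam P) : Nam P := Nam.pair (Nam.pair x x) (Nam.pair x y)

theorem fmem_single {a w : Nam P} {p : P} : fmem w (Nam.pair a a) p ↔ feq w a p := by
  rw [fmem_pair]
  constructor
  · intro h
    refine feq_reg fun q hq => ?_
    obtain ⟨r, hr, h' | h'⟩ := h q hq
    · exact ⟨r, hr, h'⟩
    · exact ⟨r, hr, h'⟩
  · intro h q hq
    exact ⟨q, le_rfl, Or.inl (feq_mono hq h)⟩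

theorem feq_single {z a : Nam P} {p : P} :
    (∀ w, ∀ q ≤ p, (fmem w z q ↔ feq w a q)) ↔ feq z (Nam.pair a a) p := by
  rw [feq_iff_fmem]
  simp only [fmem_single]

theorem feq_pair' {z a b : Nam P} {p : P} :
    (∀ w, ∀ q ≤ p, (fmem w z q ↔ DB (fun r => feq w a r ∨ feq w b r) q)) ↔
      feq z (Nam.pair a b) p := by
  rw [feq_iff_fmem]
  simp only [fmem_pair]

theorem forces_fPair {v : ℕ → Nam P} {c : P} {p a b : ℕ} :
    (fPair p a b).Forces v c ↔ feq (v p) (opair (v a) (v b)) c := by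
  unfold fPair opair
  simp only [SetFormula.Forces, forces_iff, forces_or, push_succ', push_zero']
  rw [← feq_pair']
  simp only [← feq_single (P := P), ← feq_pair' (P := P) (a := v a) (b := v b)]

theorem forces_fHas {v : ℕ → Nam P} {c : P} {f a b : ℕ} :
    (fHas f a b).Forces v c ↔ fmem (opair (v a) (v b)) (v f) c := by
  unfold fHas
  simp only [SetFormula.Forces, forces_ex', forces_fPair, push_succ', push_zero']
  constructor
  · intro h
    refine fmem_reg fun q hq => ?_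
    obtain ⟨r, hr, x, h1, h2⟩ := h q hq
    exact ⟨r, hr, fmem_congr_left h2 h1⟩
  · intro h q hq
    exact ⟨q, le_rfl, opair (v a) (v b), fmem_mono hq h, feq_refl _ _⟩

theorem feq_pair_congr {a a' b b' : Nam P} {p : P} (h1 : feq a a' p) (h2 : feq b b' p) :
    feq (Nam.pair a b) (Nam.pair a' b') p := by
  refine feq_of_fmem fun z q hq => ?_
  rw [fmem_pair, fmem_pair]
  constructor
  · refine DB.imp fun r hr h => ?_
    rcases h with h | h
    · exact Or.inl (feq_trans h (feq_mono (hr.trans hq) h1))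
    · exact Or.inr (feq_trans h (feq_mono (hr.trans hq) h2))
  · refine DB.imp fun r hr h => ?_
    rcases h with h | h
    · exact Or.inl (feq_trans h (feq_symm (feq_mono (hr.trans hq) h1)))
    · exact Or.inr (feq_trans h (feq_symm (feq_mono (hr.trans hq) h2)))

theorem feq_opair {a a' b b' : Nam P} {p : P} (h1 : feq a a' p) (h2 : feq b b' p) :
    feq (opair a b) (opair a' b') p :=
  feq_pair_congr (feq_pair_congr h1 h1) (feq_pair_congr h1 h2)

theorem fmem_pair_left (a b : Nam P) (p : P) : fmem a (Nam.pair a b) p :=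
  fmem_pair.2 fun q _ => ⟨q, le_rfl, Or.inl (feq_refl _ _)⟩

theorem fmem_pair_right (a b : Nam P) (p : P) : fmem b (Nam.pair a b) p :=
  fmem_pair.2 fun q _ => ⟨q, le_rfl, Or.inr (feq_refl _ _)⟩

theorem opair_inj {a a' b b' : Nam P} {p : P} (h : feq (opair a b) (opair a' b') p) :
    feq a a' p ∧ feq b b' p := by
  have hA : ∀ q ≤ p, feq a a' q := by
    intro q hq
    refine feq_reg fun r hr => ?_
    have h1 : fmem (Nam.pair a a) (opair a' b') r :=
      fmem_congr_right (feq_mono (hr.trans hq) h) (fmem_pair_left _ _ _)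
    obtain ⟨s, hs, h2 | h2⟩ := fmem_pair.1 h1 r le_rfl
    · exact ⟨s, hs, feq_symm (fmem_single.1 (fmem_congr_right (feq_symm h2)
        (fmem_pair_left a' a' s)))⟩
    · exact ⟨s, hs, feq_symm (fmem_single.1 (fmem_congr_right (feq_symm h2)
        (fmem_pair_left a' b' s)))⟩
  refine ⟨hA p le_rfl, feq_reg fun q hq => ?_⟩
  have haa := hA q hq
  have h1 : fmem (Nam.pair a b) (opair a' b') q :=
    fmem_congr_right (feq_mono hq h) (fmem_pair_right _ _ _)
  obtain ⟨r, hr, h2⟩ := fmem_pair.1 h1 q le_rfl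
  have h3 : fmem (Nam.pair a' b') (opair a b) r :=
    fmem_congr_right (feq_symm (feq_mono (hr.trans hq) h)) (fmem_pair_right _ _ _)
  obtain ⟨s, hs, h4⟩ := fmem_pair.1 h3 r le_rfl
  have haa' := feq_mono (hs.trans hr) haa
  rcases h4 with h4 | h4
  · -- `b' = a`
    have hb' : feq b' a s := fmem_single.1 (fmem_congr_right h4 (fmem_pair_right _ _ _))
    rcases h2 with h2 | h2
    · have hb : feq b a' s := fmem_single.1 (fmem_congr_right (feq_mono hs h2)
        (fmem_pair_right _ _ _))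
      exact ⟨s, hs.trans hr, feq_trans hb (feq_trans (feq_symm haa') (feq_symm hb'))⟩
    · have hb : fmem b (Nam.pair a' b') s :=
        fmem_congr_right (feq_mono hs h2) (fmem_pair_right _ _ _)
      have hb2 : feq b a s := fmem_single.1 (fmem_congr_right h4 hb)
      exact ⟨s, hs.trans hr, feq_trans hb2 (feq_symm hb')⟩
  · -- `b' ∈ {a, b}`
    have hb' : fmem b' (Nam.pair a b) s := fmem_congr_right h4 (fmem_pair_right _ _ _)
    obtain ⟨t, ht, h5 | h5⟩ := fmem_pair.1 hb' s le_rfl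
    · have hb : fmem b (Nam.pair a' b') t :=
        fmem_congr_right (feq_symm (feq_mono ht h4)) (fmem_pair_right _ _ _)
      obtain ⟨w, hw, h6 | h6⟩ := fmem_pair.1 hb t le_rfl
      · exact ⟨w, ((hw.trans ht).trans hs).trans hr, feq_trans h6
          (feq_trans (feq_symm (feq_mono (hw.trans ht) haa')) (feq_symm (feq_mono hw h5)))⟩
      · exact ⟨w, ((hw.trans ht).trans hs).trans hr, h6⟩
    · exact ⟨t, (ht.trans hs).trans hr, feq_symm h5⟩

theorem not_fmem_self (x : Nam P) : ∀ p : P, ¬ fmem x x p := by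
  induction x with
  | mk ι w e ih =>
    intro p h
    obtain ⟨r, hr, j, h1, h2⟩ := h p le_rfl
    exact ih j r (fmem_congr_right h2 (fmem_of_wt h1))

theorem fin_mem_fin {n m : ℕ} (h : n < m) (p : P) : fmem (Nam.fin n) (Nam.fin m : Nam P) p := by
  induction m with
  | zero => omega
  | succ m ih =>
    refine fmem_succ.2 fun q _ => ⟨q, le_rfl, ?_⟩
    rcases Nat.lt_succ_iff_lt_or_eq.1 h with h | h
    · exact Or.inl (fmem_mono (by assumption) (ih h))
    · subst h
      exact Or.inr (feq_refl _ _)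

theorem fin_inj {n m : ℕ} {p : P} (h : feq (Nam.fin n) (Nam.fin m) p) : n = m := by
  rcases lt_trichotomy n m with h' | h' | h'
  · exact absurd (fmem_congr_right (feq_symm h) (fin_mem_fin h' p)) (not_fmem_self _ _)
  · exact h'
  · exact absurd (fmem_congr_right h (fin_mem_fin h' p)) (not_fmem_self _ _)

theorem fmem_omega {z : Nam P} {p : P} :
    fmem z Nam.omega p ↔ DB (fun q => ∃ n, feq z (Nam.fin n) q) p := by
  constructor
  · intro h q hq
    obtain ⟨r, hr, ⟨n⟩, -, h2⟩ := h q hq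
    exact ⟨r, hr, n, h2⟩
  · intro h q hq
    obtain ⟨r, hr, n, h2⟩ := h q hq
    exact ⟨r, hr, ⟨n⟩, trivial, h2⟩

theorem forces_fInd {v : ℕ → Nam P} {p : P} {w : ℕ} : (fInd w).Forces v p ↔
    fmem Nam.empty (v w) p ∧ ∀ y, ∀ q ≤ p, fmem y (v w) q → fmem (Nam.succ y) (v w) q := by
  unfold fInd
  simp only [SetFormula.Forces, forces_ex', forces_iff, forces_or, forces_imp, push_succ',
    push_zero']
  constructor
  · rintro ⟨h1, h2⟩
    constructor
    · refine fmem_reg fun q hq => ?_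
      obtain ⟨r, hr, y, h3, h4⟩ := h1 q hq
      refine ⟨r, hr, fmem_congr_left ?_ h3⟩
      exact feq_of_fmem fun z s hs => iff_of_false (h4 z s hs) (not_fmem_empty z s)
    · intro y q hq hy
      refine fmem_reg fun r hr => ?_
      obtain ⟨s, hs, z, h3, h4⟩ := h2 y q hq hy r hr
      refine ⟨s, hs, fmem_congr_left ?_ h3⟩
      refine feq_of_fmem fun u t ht => ?_
      rw [fmem_succ]
      exact h4 u t ht
  · rintro ⟨h1, h2⟩
    constructor
    · intro q hq
      exact ⟨q, le_rfl, Nam.empty, fmem_mono hq h1, fun z s _ => not_fmem_empty z s⟩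
    · intro y q hq hy r hr
      exact ⟨r, le_rfl, Nam.succ y, fmem_mono hr (h2 y q hq hy), fun u t _ => fmem_succ⟩

theorem forces_fOm {v : ℕ → Nam P} {p : P} {w : ℕ} :
    (fOm w).Forces v p ↔ feq (v w) Nam.omega p := by
  unfold fOm
  simp only [SetFormula.Forces, forces_imp, forces_fInd, push_succ', push_zero']
  constructor
  · rintro ⟨⟨h1, h2⟩, h3⟩
    have h4 := h3 Nam.omega p le_rfl ⟨infinity_forced.1 p, fun y q _ h => infinity_forced.2 y q h⟩
    have h5 : ∀ n : ℕ, fmem (Nam.fin n) (v w) p := by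
      intro n
      induction n with
      | zero => exact h1
      | succ n ih => exact h2 _ p le_rfl ih
    refine feq_of_fmem fun z q hq => ⟨fun h => h4 z q hq h, fun h => fmem_reg fun r hr => ?_⟩
    obtain ⟨s, hs, n, h6⟩ := fmem_omega.1 h r hr
    exact ⟨s, hs, fmem_congr_left (feq_symm h6) (fmem_mono ((hs.trans hr).trans hq) (h5 n))⟩
  · intro h
    refine ⟨⟨fmem_congr_right (feq_symm h) (infinity_forced.1 p), fun y q hq hy => ?_⟩, ?_⟩
    · have h' := feq_mono hq h
      exact fmem_congr_right (feq_symm h') (infinity_forced.2 y q (fmem_congr_right h' hy))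
    · intro w' q hq hw' y r hr hy
      have h5 : ∀ n : ℕ, fmem (Nam.fin n) w' q := by
        intro n
        induction n with
        | zero => exact hw'.1
        | succ n ih => exact hw'.2 _ q le_rfl ih
      refine fmem_reg fun s hs => ?_
      obtain ⟨t, ht, n, h6⟩ := fmem_omega.1 (fmem_congr_right (feq_mono (hr.trans hq) h) hy) s hs
      exact ⟨t, ht, fmem_congr_left (feq_symm h6) (fmem_mono ((ht.trans hs).trans hr) (h5 n))⟩

theorem forces_fFun {v : ℕ → Nam P} {p : P} {f x y : ℕ} : (fFun f x y).Forces v p ↔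
    (∀ z, ∀ q ≤ p, fmem z (v f) q → DB (fun r => ∃ a, DB (fun s => ∃ b, fmem a (v x) s ∧
      fmem b (v y) s ∧ feq z (opair a b) s) r) q) ∧
    (∀ a, ∀ q ≤ p, fmem a (v x) q → DB (fun r => ∃ b, fmem (opair a b) (v f) r) q) ∧
    ∀ a b b', ∀ q ≤ p, fmem (opair a b) (v f) q → ∀ r ≤ q, fmem (opair a b') (v f) r →
      feq b b' r := by
  unfold fFun
  simp only [SetFormula.Forces, forces_ex', forces_imp, forces_fPair, forces_fHas, push_succ',
    push_zero']

theorem forces_fCls {v : ℕ → Nam P} {p : P} {f n H : ℕ} : (fCls f n H).Forces v p ↔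
    DB (fun r => ∃ e, fmem e (v H) r ∧ ∀ z, ∀ s ≤ r, fmem z e s →
      fmem (opair z (v n)) (v f) s) p := by
  unfold fCls
  simp only [SetFormula.Forces, forces_ex', forces_imp, forces_fHas, push_succ', push_zero']

end Pairs

section Graph

variable {P K : Type} [Preorder P] [LinearOrder K] [WellFoundedLT K]

/-- Names for the vertices. -/
noncomputable def vert : K → Nam P :=
  (wellFounded_lt (α := K)).fix fun α rec => ⟨{β : K // β < α}, fun _ => ⊤, fun β => rec β.1 β.2⟩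

theorem vert_eq (α : K) :
    (vert α : Nam P) = ⟨{β : K // β < α}, fun _ => ⊤, fun β => vert β.1⟩ := by
  unfold vert
  rw [WellFounded.fix_eq]

theorem vert_mem {α β : K} (h : β < α) (p : P) : fmem (vert β : Nam P) (vert α) p := by
  rw [vert_eq α]
  exact fmem_of_wt (y := (⟨{β : K // β < α}, fun _ => ⊤, fun β => vert β.1⟩ : Nam P))
    (j := (⟨β, h⟩ : {β : K // β < α})) trivial

theorem vert_inj {α β : K} {p : P} (h : feq (vert α : Nam P) (vert β) p) : α = β := by
  rcases lt_trichotomy α β with h' | h' | h'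
  · exact absurd (fmem_congr_right (feq_symm h) (vert_mem h' p)) (not_fmem_self _ _)
  · exact h'
  · exact absurd (fmem_congr_right h (vert_mem h' p)) (not_fmem_self _ _)

variable (κ : Killer P K)

/-- The name of the vertex set. -/
noncomputable def hN (P K : Type) [Preorder P] [LinearOrder K] [WellFoundedLT K] : Nam P :=
  ⟨K, fun _ => ⊤, vert⟩

/-- The name of the edge set. -/
noncomputable def HN : Nam P :=
  ⟨{x : K × K // x.1 < x.2}, fun x => κ.edge x.1.1 x.1.2, fun x => Nam.pair (vert x.1.1)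
    (vert x.1.2)⟩

theorem vert_mem_hN (α : K) (p : P) : fmem (vert α) (hN P K) p :=
  fmem_of_wt (y := hN P K) (j := α) trivial

theorem edge_mem_HN {α β : K} (h : α < β) {p : P} (hp : p ∈ κ.edge α β) :
    fmem (Nam.pair (vert α) (vert β)) (HN κ) p :=
  fmem_of_wt (y := HN κ) (j := (⟨(α, β), h⟩ : {x : K × K // x.1 < x.2})) hp

theorem forces_graph (v : ℕ → Nam P) (h0 : v 0 = hN P K) (h1 : v 1 = HN κ) (p : P) :
    (fGr 0 1).Forces v p := by
  unfold fGr
  simp only [SetFormula.Forces, forces_ex', forces_iff, forces_or, forces_imp, push_succ',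
    push_zero', h0, h1]
  intro e q hq he r hr
  obtain ⟨s, hs, ⟨⟨α, β⟩, hαβ⟩, h2, h3⟩ := he r hr
  refine ⟨s, hs, vert α, fun t ht => ⟨t, le_rfl, vert β, vert_mem_hN α t, vert_mem_hN β t, ?_, ?_⟩⟩
  · intro w _ hw
    exact hαβ.ne (vert_inj hw)
  · exact feq_pair'.2 (feq_mono ht h3)

theorem forces_uncountable (v : ℕ → Nam P) (h0 : v 0 = hN P K) (h1 : v 1 = HN κ) (p : P) :
    (fUnc 0 1).Forces v p := by
  unfold fUnc
  simp only [SetFormula.Forces, forces_ex', forces_imp, forces_fOm, forces_fFun, forces_fCls,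
    push_succ', push_zero', h0, h1]
  intro w q _ hw f r hr hf q' hq'
  obtain ⟨hf1, hf2, -⟩ := hf
  have htot : ∀ α : K, ∀ s ≤ q', ∃ t ≤ s, ∃ n : ℕ, fmem (opair (vert α) (Nam.fin n)) f t := by
    intro α s hs
    obtain ⟨t, ht, b, hb⟩ := hf2 (vert α) s (hs.trans hq') (vert_mem_hN α s) s le_rfl
    obtain ⟨t1, ht1, a', ha'⟩ := hf1 _ t ((ht.trans hs).trans hq') hb t le_rfl
    obtain ⟨t2, ht2, b', -, hb', hpair⟩ := ha' t1 le_rfl
    have hwt : feq w Nam.omega t2 :=
      feq_mono (((((ht2.trans ht1).trans ht).trans hs).trans hq').trans hr) hw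
    obtain ⟨t3, ht3, n, hn⟩ := fmem_omega.1 (fmem_congr_right hwt hb') t2 le_rfl
    refine ⟨t3, ((ht3.trans ht2).trans ht1).trans ht, n, ?_⟩
    have h5 := (opair_inj hpair).2
    exact fmem_congr_left (feq_opair (feq_refl _ _) (feq_trans (feq_mono ht3 h5) hn))
      (fmem_mono ((ht3.trans ht2).trans ht1) hb)
  obtain ⟨α, β, n, hαβ, s, hs, hse, hα, hβ⟩ := κ.chrom
    (fun α n t => fmem (opair (vert α) (Nam.fin n)) f t) (fun α n t t' htt' h => fmem_mono htt' h)
    q' htot
  refine ⟨s, hs, Nam.fin n, ?_, ?_⟩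
  · exact fmem_congr_right (feq_symm (feq_mono ((hs.trans hq').trans hr) hw)) (fmem_omega_fin n s)
  · intro t ht
    refine ⟨t, le_rfl, Nam.pair (vert α) (vert β), edge_mem_HN κ hαβ ((κ.edge α β).lower ht hse),
      ?_⟩
    intro z t' ht' hz
    refine fmem_reg fun t2 ht2 => ?_
    obtain ⟨t3, ht3, h6 | h6⟩ := fmem_pair.1 hz t2 ht2
    · exact ⟨t3, ht3, fmem_congr_left (feq_opair (feq_symm h6) (feq_refl _ _))
        (fmem_mono (((ht3.trans ht2).trans ht').trans ht) hα)⟩
    · exact ⟨t3, ht3, fmem_congr_left (feq_opair (feq_symm h6) (feq_refl _ _))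
        (fmem_mono (((ht3.trans ht2).trans ht').trans ht) hβ)⟩

theorem forces_not_split (v : ℕ → Nam P) (h0 : v 0 = hN P K) (h1 : v 1 = HN κ) (p : P) :
    (SetFormula.neg (fSpl 0 1)).Forces v p := by
  intro q _ hsplit
  unfold fSpl at hsplit
  simp only [SetFormula.Forces, forces_ex', forces_iff, forces_or, forces_imp, forces_fOm,
    forces_fFun, forces_fCls, push_succ', push_zero', h0, h1] at hsplit
  obtain ⟨r, hr, H₀, hH₀⟩ := hsplit q le_rfl
  obtain ⟨s, hs, H₁, hA, hB, hC⟩ := hH₀ r le_rfl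
  obtain ⟨g, hg1, hg2, hg3⟩ := κ.homog
    (fun α β t => fmem (Nam.pair (vert α) (vert β)) H₁ t) fun α β t t' htt' h => fmem_mono htt' h
  set f : Nam P := ⟨K × ℕ, fun x => g x.1 x.2, fun x => opair (vert x.1) (Nam.fin x.2)⟩ with hf
  have hfmem : ∀ α n t, t ∈ g α n → fmem (opair (vert α) (Nam.fin n)) f t := fun α n t ht =>
    fmem_of_wt (y := f) (j := ((α, n) : K × ℕ)) ht
  -- evaluation of `f`
  have hfval : ∀ α (n : ℕ) (x : Nam P) t, feq x (Nam.fin n) t → fmem (opair (vert α) x) f t →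
      ∃ t' ≤ t, t' ∈ g α n := by
    intro α n x t hx h
    obtain ⟨t1, ht1, ⟨α', n'⟩, h2, h3⟩ := h t le_rfl
    obtain ⟨h4, h5⟩ := opair_inj h3
    have h6 : α = α' := vert_inj h4
    have h7 : n = n' := fin_inj (feq_trans (feq_symm (feq_mono ht1 hx)) h5)
    subst h6 h7
    exact ⟨t1, ht1, h2⟩
  obtain ⟨t, ht, n, hn, hcl⟩ := hC Nam.omega s le_rfl (feq_refl _ _) f s le_rfl (by
    refine ⟨?_, ?_, ?_⟩
    · intro z q' _ hz r' hr'
      obtain ⟨t1, ht1, ⟨α, n⟩, -, h3⟩ := hz r' hr'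
      refine ⟨t1, ht1, vert α, fun t2 ht2 => ⟨t2, le_rfl, Nam.fin n, vert_mem_hN α t2,
        fmem_omega_fin n t2, feq_mono ht2 h3⟩⟩
    · intro a q' _ ha r' hr'
      obtain ⟨t1, ht1, α, -, h3⟩ := ha r' hr'
      obtain ⟨t2, ht2, n, h4⟩ := hg1 α t1
      exact ⟨t2, ht2.trans ht1, Nam.fin n, fmem_congr_left
        (feq_opair (feq_symm (feq_mono ht2 h3)) (feq_refl _ _)) (hfmem α n t2 h4)⟩
    · intro a b b' q' _ hb r' hr' hb'
      refine feq_reg fun t1 ht1 => ?_
      obtain ⟨t2, ht2, ⟨α, n⟩, h2, h3⟩ := hb t1 (ht1.trans hr')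
      obtain ⟨t3, ht3, ⟨α', n'⟩, h4, h5⟩ := hb' t2 (ht2.trans ht1)
      obtain ⟨h6, h7⟩ := opair_inj h3
      obtain ⟨h8, h9⟩ := opair_inj h5
      have h10 : α = α' := vert_inj (feq_trans (feq_symm (feq_mono ht3 h6)) h8)
      subst h10
      have h11 : n = n' := hg2 α n n' t3 ((g α n).lower ht3 h2) h4
      subst h11
      exact ⟨t3, ht3.trans ht2, feq_trans (feq_mono ht3 h7) (feq_symm h9)⟩) s le_rfl
  obtain ⟨t1, ht1, m, hm⟩ := fmem_omega.1 hn t le_rfl
  -- an edge of `H_i` in the class `m`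
  have hedge : ∀ (H' : Nam P), (∀ e, ∀ r ≤ s, fmem e H' r → fmem e (HN κ) r) →
      (∀ q ≤ t, ∃ r ≤ q, ∃ e, fmem e H' r ∧ ∀ z, ∀ s ≤ r, fmem z e s →
        fmem (opair z n) f s) →
      ∃ α β, α < β ∧ ∃ r ≤ t1, r ∈ κ.edge α β ∧ r ∈ g α m ∧ r ∈ g β m ∧
        fmem (Nam.pair (vert α) (vert β)) H' r := by
    intro H' hH' hcls
    obtain ⟨r1, hr1, e, he, hz⟩ := hcls t1 ht1
    have hr1s : r1 ≤ s := (hr1.trans ht1).trans ht
    obtain ⟨r2, hr2, ⟨⟨α, β⟩, hαβ⟩, h2, h3⟩ := hH' e r1 hr1s he r1 le_rfl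
    have h4 : fmem (vert α) e r2 := fmem_congr_right (feq_symm h3) (fmem_pair_left _ _ _)
    have h5 : fmem (vert β) e r2 := fmem_congr_right (feq_symm h3) (fmem_pair_right _ _ _)
    obtain ⟨r3, hr3, h6⟩ := hfval α m n r2 (feq_mono (hr2.trans hr1) hm)
      (hz (vert α) r2 hr2 h4)
    obtain ⟨r4, hr4, h7⟩ := hfval β m n r3 (feq_mono ((hr3.trans hr2).trans hr1) hm)
      (fmem_mono hr3 (hz (vert β) r2 hr2 h5))
    refine ⟨α, β, hαβ, r4, ((hr4.trans hr3).trans hr2).trans hr1,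
      (κ.edge α β).lower (hr4.trans hr3) h2, (g α m).lower hr4 h6, h7, ?_⟩
    exact fmem_congr_left (feq_mono (hr4.trans hr3) h3) (fmem_mono ((hr4.trans hr3).trans hr2) he)
  have hsub0 : ∀ e, ∀ r ≤ s, fmem e H₀ r → fmem e (HN κ) r := fun e r hr h =>
    (hA e r hr).2 fun r' hr' => ⟨r', le_rfl, Or.inl (fmem_mono hr' h)⟩
  have hsub1 : ∀ e, ∀ r ≤ s, fmem e H₁ r → fmem e (HN κ) r := fun e r hr h =>
    (hA e r hr).2 fun r' hr' => ⟨r', le_rfl, Or.inr (fmem_mono hr' h)⟩
  rcases hg3 m with hm1 | hm0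
  · obtain ⟨α, β, hαβ, r1, hr1, h2, h3, h4, h5⟩ := hedge H₀ hsub0 hcl.1
    obtain ⟨r2, hr2, h6⟩ := hm1 α β r1 hαβ h2 h3 h4
    exact hB _ r2 ((hr2.trans hr1).trans (ht1.trans ht)) ⟨fmem_mono hr2 h5, h6⟩
  · obtain ⟨α, β, hαβ, r1, hr1, h2, h3, h4, h5⟩ := hedge H₁ hsub1 hcl.2
    exact hm0 α β r1 hαβ h2 h3 h4 h5

end Graph

end Pool.Agent.Lib.MP_d41870_lc.Forc

end

section

/-!
# A model of ZFC with an uncountably chromatic graph which does not split to two parts
-/


namespace Pool.Agent.Lib.MP_d41870_lc.Forc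

open MP9708F

theorem exists_model_of_killer {P K : Type} [Preorder P] [Nonempty P] [LinearOrder K]
    [WellFoundedLT K] (κ : Killer P K) :
    ∃ (M : Type 1) (E : M → M → Prop), ModelsZFC E ∧
      ∃ h H, IsGraph E h H ∧ UncountablyChromatic E h H ∧ ¬ SplitsToTwo E h H := by
  obtain ⟨M, E, i, -, hM, hi⟩ := exists_model P
  let v : ℕ → Nam P := push (hN P K) (push (HN κ) fun _ => Nam.empty)
  have h1 := hi (fGr 0 1) v fun p => forces_graph κ v rfl rfl p
  have h2 := hi (fUnc 0 1) v fun p => forces_uncountable κ v rfl rfl p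
  have h3 := hi (SetFormula.neg (fSpl 0 1)) v fun p => forces_not_split κ v rfl rfl p
  rw [holds_fGr] at h1
  rw [holds_fUnc] at h2
  have h3' : ¬ (fSpl 0 1).Holds E fun n => i (v n) := h3
  rw [holds_fSpl] at h3'
  exact ⟨M, E, hM, _, _, h1, h2, h3'⟩

theorem exists_nonsplitting {κ : Cardinal.{0}} (h : IsMeasurable κ) :
    ∃ (M : Type 1) (E : M → M → Prop), ModelsZFC E ∧
      ∃ h H, IsGraph E h H ∧ UncountablyChromatic E h H ∧ ¬ SplitsToTwo E h H := by
  classical
  obtain ⟨μ⟩ := exists_normalMeasure h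
  haveI : Infinite κ.ord.ToType := by
    rw [Cardinal.infinite_iff]
    simpa using h.1.le
  obtain ⟨Θ, _, _, _, nm, hcof, hnm⟩ := exists_book κ.ord.ToType
  obtain ⟨κ'⟩ := exists_killer (μ := μ) (nm := nm) hcof hnm
  haveI : Nonempty ↥(PT μ nm ⊤) := ⟨⟨_, base_mem_PT ∅ (fun _ _ => False) ⊤⟩⟩
  exact exists_model_of_killer κ'

end Pool.Agent.Lib.MP_d41870_lc.Forc

end
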