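import Pool.Agent.Lib.MP_d41870_lc.Additivity

/-!
# Graphs that do not split: homogeneous vertex classes
-/

set_option autoImplicit false

namespace Pool.Agent.Lib.MP_d41870_lc

open Cardinal Set

universe u

variable {V X ι : Type u} {G : SimpleGraph V}

/-- If `G` does not split to `#ι` parts, then for every colouring of its edges with the
elements of `ι` the vertices have a countable partition each class of which omits a colour. -/
theorem exists_partition (hns : ¬ SplitsTo G #ι) (c : Sym2 V → ι) :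
    ∃ (p : V → ℕ) (o : ℕ → ι), ∀ u v, G.Adj u v → p u = p v → c s(u, v) ≠ o (p u) := by
  let H : ι → SimpleGraph V := fun i =>
    { Adj := fun u v => G.Adj u v ∧ c s(u, v) = i
      symm := ⟨fun u v h => ⟨h.1.symm, by rw [Sym2.eq_swap]; exact h.2⟩⟩
      loopless := ⟨fun u h => G.loopless.irrefl u h.1⟩ }
  have h1 : ∀ i j, i ≠ j → Disjoint (H i) (H j) := by
    intro i j hij
    rw [disjoint_iff_inf_le]
    intro u v h
    exact absurd (h.1.2.symm.trans h.2.2) hij
  have h2 : (⨆ i, H i) = G := by
    ext u v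
    rw [SimpleGraph.iSup_adj]
    constructor
    · rintro ⟨i, h⟩
      exact h.1
    · intro h
      exact ⟨c s(u, v), h, rfl⟩
  have h3 : ¬ SimUncountable H := fun h => hns ⟨ι, H, rfl, h1, h2, h⟩
  unfold SimUncountable at h3
  push Not at h3
  obtain ⟨p, hp⟩ := h3
  choose o ho using hp
  refine ⟨p, o, fun u v huv hp hc => ?_⟩
  exact ho (p u) u v ⟨huv, hc⟩ rfl hp.symm

/-- Homogenisation of fewer than `add G X` colourings. -/
theorem exists_homogeneous (hns : ¬ SplitsTo G #ι) (hω : ℵ₀ < add G X) (hX : 2 ≤ #X)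
    {J : Type u} (hJ : #J < add G X) (c : J → Sym2 V → ι) {F : V → V → Prop}
    (hF : ¬ Small G X F) :
    ∃ A : Set V, ¬ Small G X (fun u v => F u v ∧ u ∈ A ∧ v ∈ A) ∧
      ∀ j, ∃ o : ι, ∀ u ∈ A, ∀ v ∈ A, G.Adj u v → c j s(u, v) ≠ o := by
  choose p o hp using fun j => exists_partition hns (c j)
  have hne : Nonempty X := by
    rw [← mk_ne_zero_iff]
    rintro h
    rw [h] at hX
    exact absurd hX (by simp)
  have key : ∃ b : J → ℕ, ¬ Small G X
      (fun u v => F u v ∧ (fun j => p j u) = b ∧ (fun j => p j v) = b) := by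
    by_contra! hall
    apply hF
    have h1 : Small G X (fun u v => F u v ∧ (fun j => p j u) = (fun j => p j v)) :=
      Small.of_fibers (fun w j => p j w) hall
    have h2 : Small G X (fun u v => ∃ j, p j u ≠ p j v) := by
      apply Small.iUnion_of_lt_add hJ
      intro j
      have := Small.of_coloring_lt (G := G) (X := X) hX (P := ULift.{u} ℕ)
        (by simpa using hω) (fun w => ⟨p j w⟩)
      exact this.mono fun u v _ h => by simpa using h
    have h3 := h1.union ((natCast_lt_aleph0 (n := 2)).trans hω) h2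
    refine h3.mono fun u v _ h => ?_
    by_cases hd : (fun j => p j u) = (fun j => p j v)
    · exact Or.inl ⟨h, hd⟩
    · right
      by_contra! hne
      exact hd (funext hne)
  obtain ⟨b, hb⟩ := key
  refine ⟨{w | (fun j => p j w) = b}, hb, fun j => ⟨o j (b j), fun u hu v hv huv => ?_⟩⟩
  have hu' : p j u = b j := congrFun hu j
  have hv' : p j v = b j := congrFun hv j
  have := hp j u v huv (hu'.trans hv'.symm)
  rwa [hu'] at this

/-- The edges in the witness of the additivity come with a function to the additivity all of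
whose fibres are small. -/
theorem exists_psi {K : Type u} (hK : #K = add G X) (hb : IsBad G X (add G X))
    (hne : add G X ≠ 0) :
    ∃ (F : V → V → Prop) (ψ : Sym2 V → K), ¬ Small G X F ∧
      ∀ k, Small G X (fun u v => F u v ∧ ψ s(u, v) = k) := by
  obtain ⟨I, R, hI, hR, hn⟩ := hb
  obtain ⟨e⟩ := Cardinal.eq.1 (hI.trans hK.symm)
  have hKne : Nonempty K := by
    rw [← mk_ne_zero_iff, hK]
    exact hne
  classical
  let ψ : Sym2 V → K := fun s =>
    if h : ∃ k : K, ∃ u v, s = s(u, v) ∧ R (e.symm k) u v then h.choose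
    else Classical.arbitrary K
  refine ⟨fun u v => ∃ i, R i u v, ψ, hn, fun k => ?_⟩
  refine ((hR (e.symm k)).symm).mono fun u v _ h => ?_
  obtain ⟨⟨i, hi⟩, hk⟩ := h
  have hex : ∃ k : K, ∃ u' v', s(u, v) = s(u', v') ∧ R (e.symm k) u' v' :=
    ⟨e i, u, v, rfl, by simpa using hi⟩
  have hψ : ψ s(u, v) = hex.choose := dif_pos hex
  obtain ⟨u', v', hs, hr⟩ := hex.choose_spec
  rw [← hψ, hk] at hr
  rw [Sym2.eq_iff] at hs
  rcases hs with ⟨rfl, rfl⟩ | ⟨rfl, rfl⟩
  · exact Or.inl hr
  · exact Or.inr hr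

end Pool.Agent.Lib.MP_d41870_lc
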