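import Pool.Agent.Lib.MP_d41870_lc.Homog

/-!
# If `G` does not split then the additivity is a strong limit
-/

set_option autoImplicit false

namespace Pool.Agent.Lib.MP_d41870_lc

open Cardinal Set

universe u

variable {V X ι : Type u} {G : SimpleGraph V}

theorem two_power_mul_lt {a b κ : Cardinal.{u}} (hκ : ℵ₀ ≤ κ) (ha : 2 ^ a < κ)
    (hb : 2 ^ b < κ) : (2 : Cardinal.{u}) ^ (a * b) < κ := by
  by_cases hfin : a * b < ℵ₀
  · exact (power_lt_aleph0 (natCast_lt_aleph0 (n := 2)) hfin).trans_le hκ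
  · rw [not_lt] at hfin
    have hmax : a * b ≤ max a b := by
      by_cases ha' : ℵ₀ ≤ a
      · exact mul_le_max_of_aleph0_le_left ha'
      · by_cases hb' : ℵ₀ ≤ b
        · exact mul_le_max_of_aleph0_le_right hb'
        · rw [not_le] at ha' hb'
          exact absurd (mul_lt_aleph0 ha' hb') (not_lt.2 hfin)
    refine (power_le_power_left two_ne_zero hmax).trans_lt ?_
    rcases max_choice a b with h | h <;> rw [h] <;> assumption

theorem power_mul_self_le (δ : Cardinal.{u}) : δ ^ (δ * δ) ≤ max ℵ₀ (2 ^ δ) := by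
  by_cases hδ : δ < ℵ₀
  · exact (power_lt_aleph0 hδ (mul_lt_aleph0 hδ hδ)).le.trans (le_max_left _ _)
  · rw [not_lt] at hδ
    rw [mul_eq_self hδ, power_self_eq hδ]
    exact le_max_right _ _

/-- A set of branches of length `θ` (an infinite cardinal) whose projections to all proper
initial segments of `θ` have size less than `δ` has size at most `max ℵ₀ (2 ^ δ)`. -/
theorem mk_branches_le {θ : Cardinal.{u}} (hθ : ℵ₀ ≤ θ) (Z : Set (θ.ord.ToType → Bool))
    (hZ : ∀ i : θ.ord.ToType, ¬ ∃ Y : ι → (Iio i → Bool), Function.Injective Y ∧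
      ∀ a, ∃ z ∈ Z, (fun t : Iio i => z t) = Y a) :
    #Z ≤ max ℵ₀ (2 ^ #ι) := by
  classical
  by_cases hlt : #Z < #ι
  · exact (hlt.le.trans (cantor #ι).le).trans (le_max_right _ _)
  rw [not_lt] at hlt
  obtain ⟨Y⟩ := hlt
  have hpos : θ.ord ≠ 0 := by
    intro h
    rw [ord_eq_zero] at h
    rw [h] at hθ
    exact lt_irrefl _ (aleph0_pos.trans_le hθ)
  have hne : Nonempty θ.ord.ToType := Ordinal.nonempty_toType_iff.2 hpos
  have hsep : ∀ x : ι × ι, ∃ d : θ.ord.ToType, x.1 ≠ x.2 → (Y x.1).1 d ≠ (Y x.2).1 d := by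
    intro x
    by_cases hx : x.1 = x.2
    · exact ⟨Classical.arbitrary _, fun h => absurd hx h⟩
    · have : (Y x.1).1 ≠ (Y x.2).1 := fun h => hx (Y.injective (Subtype.ext h))
      obtain ⟨d, hd⟩ := Function.ne_iff.1 this
      exact ⟨d, fun _ => hd⟩
  choose D hD using hsep
  by_cases hbd : ∃ i, ∀ x, D x < i
  · exfalso
    obtain ⟨i, hi⟩ := hbd
    refine hZ i ⟨fun a t => (Y a).1 t, ?_, fun a => ⟨(Y a).1, (Y a).2, rfl⟩⟩
    intro a b hab
    by_contra hne
    exact hD (a, b) hne (congrFun hab ⟨D (a, b), hi _⟩)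
  · push Not at hbd
    -- no maximum
    have hnomax : ∀ t : θ.ord.ToType, ∃ i, t < i := by
      intro t
      by_contra! hall
      have h1 : Iic t = Set.univ := by
        ext y
        simpa using hall y
      have h2 : #(Iic t) = #(Iio t) + 1 := by
        rw [← Iio_insert, mk_insert (by simp)]
      have h3 : #(Iic t) < θ := by
        rw [h2]
        exact add_lt_of_lt hθ (mk_Iio_toType_ord_lt t) (one_lt_aleph0.trans_le hθ)
      rw [h1, mk_univ, mk_ord_toType] at h3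
      exact lt_irrefl _ h3
    let W : ι × ι → Type u := fun x => {y : Iio (D x) → Bool // ∃ z ∈ Z, (fun t => z t.1) = y}
    have hW : ∀ x, #(W x) ≤ #ι := by
      intro x
      by_contra! hlt
      obtain ⟨Y'⟩ := hlt.le
      exact hZ (D x) ⟨fun a => (Y' a).1, fun a b hab => Y'.injective (Subtype.ext hab),
        fun a => (Y' a).2⟩
    let g : Z → ∀ x, W x := fun z x => ⟨fun t => z.1 t, z.1, z.2, rfl⟩
    have hg : Function.Injective g := by
      intro z z' hzz
      apply Subtype.ext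
      funext t
      obtain ⟨i, hi⟩ := hnomax t
      obtain ⟨x, hx⟩ := hbd i
      have h1 := congrArg Subtype.val (congrFun hzz x)
      exact congrFun h1 ⟨t, hi.trans_le hx⟩
    calc #Z ≤ #(∀ x, W x) := mk_le_of_injective hg
      _ = prod fun x => #(W x) := mk_pi _
      _ ≤ prod fun _ : ι × ι => #ι := prod_le_prod _ _ hW
      _ = #ι ^ (#ι * #ι) := by simp
      _ ≤ _ := power_mul_self_le _

theorem isStrongPrelimit_add [Nonempty ι] (hns : ¬ SplitsTo G #ι)
    (hX : #X = 2 ^ (max ℵ₀ (2 ^ #ι))) (h : #X < chr G) :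
    IsStrongPrelimit (add G X) := by
  classical
  have hρ : ℵ₀ ≤ max ℵ₀ (2 ^ #ι) := le_max_left _ _
  have hlt : max ℵ₀ (2 ^ #ι) < add G X := lt_add hρ hX h
  have hX2 : 2 ≤ #X := by
    rw [hX]
    exact (Cardinal.natCast_le_aleph0 (n := 2)).trans (hρ.trans (cantor _).le)
  have hω : ℵ₀ < add G X := hρ.trans_lt hlt
  have hb := isBad_add hX2 h
  have hreg := isRegular_add hω.le hb
  have hXne : Nonempty X := by
    rw [← mk_ne_zero_iff]
    rintro h
    rw [h] at hX2
    exact absurd hX2 (by simp)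
  by_contra hnot
  unfold IsStrongPrelimit at hnot
  push Not at hnot
  obtain ⟨x, hx, hx'⟩ := hnot
  -- the least `θ` with `κ ≤ 2 ^ θ`
  let θ : Cardinal.{u} := sInf {y | add G X ≤ 2 ^ y}
  have hθ1 : add G X ≤ 2 ^ θ := csInf_mem (s := {y | add G X ≤ 2 ^ y}) ⟨x, hx'⟩
  have hθ2 : ∀ y < θ, 2 ^ y < add G X := fun y hy => by
    by_contra! hle
    exact (notMem_of_lt_csInf' hy) hle
  have hθ3 : θ < add G X := (csInf_le' (a := x) hx').trans_lt hx
  have hθω : ℵ₀ ≤ θ := by
    by_contra! hfin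
    exact absurd (hθ1.trans_lt (power_lt_aleph0 (natCast_lt_aleph0 (n := 2)) hfin))
      (not_lt.2 hω.le)
  obtain ⟨F, ψ, hF, hψ⟩ := exists_psi (K := (add G X).ord.ToType) (by simp) hb hreg.ne_zero
  have hr : #((add G X).ord.ToType) ≤ #(θ.ord.ToType → Bool) := by simpa using hθ1
  obtain ⟨r⟩ := hr
  let J : Type u := Σ i : θ.ord.ToType, (ι → (Iio i → Bool))
  have hJ : #J < add G X := by
    have h1 : #J = Cardinal.sum fun i : θ.ord.ToType => #(ι → (Iio i → Bool)) := mk_sigma _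
    rw [h1]
    apply sum_lt_of_isRegular hreg (by simpa using hθ3)
    intro i
    have h2 : #(ι → (Iio i → Bool)) = 2 ^ (#(Iio i) * #ι) := by
      simp [power_mul]
    rw [h2]
    apply two_power_mul_lt hω.le
    · exact hθ2 _ (mk_Iio_toType_ord_lt i)
    · exact (le_max_right _ _).trans_lt hlt
  let c : J → Sym2 V → ι := fun j e => Function.invFun j.2 (fun t : Iio j.1 => r (ψ e) t)
  obtain ⟨A, hA, hom⟩ := exists_homogeneous hns hω hX2 hJ c hF
  let Z : Set (θ.ord.ToType → Bool) :=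
    {z | ∃ u ∈ A, ∃ v ∈ A, G.Adj u v ∧ F u v ∧ r (ψ s(u, v)) = z}
  have hZ : #Z ≤ max ℵ₀ (2 ^ #ι) := by
    apply mk_branches_le hθω
    rintro i ⟨Y, hY, hYZ⟩
    obtain ⟨o, ho⟩ := hom ⟨i, Y⟩
    obtain ⟨z, ⟨u, hu, v, hv, huv, -, rfl⟩, hz⟩ := hYZ o
    apply ho u hu v hv huv
    have : c ⟨i, Y⟩ s(u, v) = Function.invFun Y (Y o) := by
      simp only [c]
      rw [hz]
    rw [this]
    exact Function.leftInverse_invFun hY o
  apply hA
  have h4 : Small G X (fun u v => ∃ z : Z, F u v ∧ r (ψ s(u, v)) = z.1) := by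
    apply Small.iUnion_of_lt_add (hZ.trans_lt hlt)
    intro z
    by_cases hz : ∃ k, r k = z.1
    · obtain ⟨k, hk⟩ := hz
      refine (hψ k).mono fun u v _ h => ⟨h.1, ?_⟩
      apply r.injective
      rw [h.2, hk]
    · exact Small.of_empty fun u v _ h => hz ⟨_, h.2⟩
  refine h4.mono fun u v huv h => ?_
  exact ⟨⟨_, u, h.2.1, v, h.2.2, huv, h.1, rfl⟩, h.1, rfl⟩

/-- If `G` does not split to `#ι` parts and its chromatic number is greater than
`2 ^ max ℵ₀ (2 ^ #ι)`, then the additivity is strongly inaccessible. -/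
theorem isInaccessible_add [Nonempty ι] (hns : ¬ SplitsTo G #ι)
    (hX : #X = 2 ^ (max ℵ₀ (2 ^ #ι))) (h : #X < chr G) :
    (add G X).IsInaccessible := by
  have hρ : ℵ₀ ≤ max ℵ₀ (2 ^ #ι) := le_max_left _ _
  have hlt : max ℵ₀ (2 ^ #ι) < add G X := lt_add hρ hX h
  have hX2 : 2 ≤ #X := by
    rw [hX]
    exact (Cardinal.natCast_le_aleph0 (n := 2)).trans (hρ.trans (cantor _).le)
  have hω : ℵ₀ < add G X := hρ.trans_lt hlt
  exact ⟨hω, (isRegular_add hω.le (isBad_add hX2 h)).le_cof_ord,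
    isStrongPrelimit_add hns hX h⟩

end Pool.Agent.Lib.MP_d41870_lc
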