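import Pool.Agent.Lib.MP_d41870_lc.Sing
import Pool.Agent.Lib.MP_d41870_lc.StrongLimit

/-!
# Almost saturated ideals on a cardinal that is not Mahlo
-/

set_option autoImplicit false

namespace Pool.Agent.Lib.MP_d41870_lc

open Cardinal Set

universe u

/-- The functions generated by the club set and the cofinal sequences. -/
def ev {K : Type u} (Φ τ : K → K) (s : K → K → K) : List (Option K) → K → K
  | [], β => β
  | none :: l, β => τ (Φ (ev Φ τ s l β))
  | some i :: l, β => s (Φ (ev Φ τ s l β)) i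

/-- The values whose fibres are positive for the ideal `N`. -/
def Zs {K : Type u} (Φ τ : K → K) (s : K → K → K) (N : Set K → Prop) (l : List (Option K)) :
    Set K :=
  {ξ | ¬ N {β | ev Φ τ s l β = ξ}}

/-- The elements that die in `n` steps. -/
def Qs {K : Type u} [LinearOrder K] (bot : K) (Φ τ : K → K) (s : K → K → K)
    (N : Set K → Prop) : ℕ → List (Option K) → Set K
  | 0, _ => ∅
  | n + 1, l => {β | Φ (ev Φ τ s l β) = bot ∨
      (τ (Φ (ev Φ τ s l β)) ∉ Zs Φ τ s N (none :: l) ∧ β ∈ Qs bot Φ τ s N n (none :: l)) ∨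
      (τ (Φ (ev Φ τ s l β)) ∈ Zs Φ τ s N (none :: l) ∧ ∃ i < τ (Φ (ev Φ τ s l β)),
        s (Φ (ev Φ τ s l β)) i ∉ Zs Φ τ s N (some i :: l) ∧
          β ∈ Qs bot Φ τ s N n (some i :: l)) ∨
      (Φ (ev Φ τ s l β) ≠ bot ∧ τ (Φ (ev Φ τ s l β)) ∈ Zs Φ τ s N (none :: l) ∧
        ∀ i < τ (Φ (ev Φ τ s l β)), s (Φ (ev Φ τ s l β)) i ∈ Zs Φ τ s N (some i :: l))}

theorem Qs_small {K : Type u} [LinearOrder K] {bot : K} {Φ τ : K → K} {s : K → K → K}
    (D : SingData bot Φ τ s) {κ δ : Cardinal.{u}} (hκ : κ.IsInaccessible)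
    (hIio : ∀ k : K, #(Iio k) < κ) (N : Set K → Prop)
    (mono : ∀ A B : Set K, A ⊆ B → N B → N A)
    (union : ∀ (I : Type u) (Y : I → Set K), #I < κ → (∀ i, N (Y i)) → N (⋃ i, Y i))
    (hδ : δ < κ) (sat : ∀ l, #(Zs Φ τ s N l) ≤ δ) (n : ℕ) :
    ∀ (l : List (Option K)) (A : Set K), (∀ ξ, N (A ∩ {β | ev Φ τ s l β = ξ})) →
      N (A ∩ Qs bot Φ τ s N n l) := by
  classical
  have hempty : N ∅ := by
    have := union PEmpty (fun x => x.elim) (by simpa using hκ.pos) (fun x => x.elim)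
    simpa using this
  have union2 : ∀ A B : Set K, N A → N B → N (A ∪ B) := by
    intro A B hA hB
    have := union (ULift Bool) (fun i => if i.down then A else B)
      (by simpa using hκ.nat_lt 2) (by
        rintro ⟨i⟩
        cases i
        · simpa using hB
        · simpa using hA)
    refine mono _ _ ?_ this
    intro x hx
    rw [mem_iUnion]
    rcases hx with h | h
    · exact ⟨⟨true⟩, by simpa using h⟩
    · exact ⟨⟨false⟩, by simpa using h⟩
  induction n with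
  | zero =>
    intro l A _
    simpa [Qs] using hempty
  | succ n ih =>
    intro l A hA
    -- blocks
    have hblock : ∀ γ, N (A ∩ {β | Φ (ev Φ τ s l β) = γ}) := by
      intro γ
      obtain ⟨c, hc⟩ := D.bounded γ
      have := union (Iio c) (fun ξ => A ∩ {β | ev Φ τ s l β = ξ.1}) (hIio c)
        (fun ξ => hA ξ.1)
      refine mono _ _ ?_ this
      rintro β ⟨hβ, hγ⟩
      rw [mem_iUnion]
      exact ⟨⟨ev Φ τ s l β, hc _ hγ⟩, hβ, rfl⟩
    have hP1 : N ({β ∈ A | τ (Φ (ev Φ τ s l β)) ∉ Zs Φ τ s N (none :: l)} ∩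
        Qs bot Φ τ s N n (none :: l)) := by
      apply ih
      intro ξ
      by_cases hξ : ξ ∈ Zs Φ τ s N (none :: l)
      · refine mono _ _ ?_ hempty
        rintro β ⟨⟨-, h1⟩, h2⟩
        change τ (Φ (ev Φ τ s l β)) = ξ at h2
        rw [h2] at h1
        exact absurd hξ h1
      · have : N {β | ev Φ τ s (none :: l) β = ξ} := by
          by_contra hN
          exact hξ hN
        exact mono _ _ inter_subset_right this
    have hP2 : ∀ (t : Zs Φ τ s N (none :: l)) (i : Iio t.1),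
        N ({β ∈ A | τ (Φ (ev Φ τ s l β)) = t.1 ∧
          s (Φ (ev Φ τ s l β)) i.1 ∉ Zs Φ τ s N (some i.1 :: l)} ∩
          Qs bot Φ τ s N n (some i.1 :: l)) := by
      intro t i
      apply ih
      intro ξ
      by_cases hξ : ξ ∈ Zs Φ τ s N (some i.1 :: l)
      · refine mono _ _ ?_ hempty
        rintro β ⟨⟨-, -, h1⟩, h2⟩
        change s (Φ (ev Φ τ s l β)) i.1 = ξ at h2
        rw [h2] at h1
        exact absurd hξ h1
      · have : N {β | ev Φ τ s (some i.1 :: l) β = ξ} := by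
          by_contra hN
          exact hξ hN
        exact mono _ _ inter_subset_right this
    have hP3 : ∀ (t : Zs Φ τ s N (none :: l)) (y : ∀ i : Iio t.1, Zs Φ τ s N (some i.1 :: l)),
        N {β ∈ A | Φ (ev Φ τ s l β) ≠ bot ∧ τ (Φ (ev Φ τ s l β)) = t.1 ∧
          ∀ i : Iio t.1, s (Φ (ev Φ τ s l β)) i.1 = (y i).1} := by
      intro t y
      by_cases hne : ∃ β₀, β₀ ∈ {β ∈ A | Φ (ev Φ τ s l β) ≠ bot ∧
          τ (Φ (ev Φ τ s l β)) = t.1 ∧ ∀ i : Iio t.1, s (Φ (ev Φ τ s l β)) i.1 = (y i).1}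
      · obtain ⟨β₀, -, h1, h2, h3⟩ := hne
        refine mono _ _ ?_ (hblock (Φ (ev Φ τ s l β₀)))
        rintro β ⟨hβ, h1', h2', h3'⟩
        refine ⟨hβ, D.eq_of_eq h1' h1 (h2'.trans h2.symm) fun i hi => ?_⟩
        rw [h2'] at hi
        exact (h3' ⟨i, hi⟩).trans (h3 ⟨i, hi⟩).symm
      · refine mono _ _ ?_ hempty
        intro β hβ
        exact absurd ⟨β, hβ⟩ hne
    have hZ : #(Zs Φ τ s N (none :: l)) < κ := (sat _).trans_lt hδ
    have hP2' : N (⋃ t : Zs Φ τ s N (none :: l), ⋃ i : Iio t.1,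
        ({β ∈ A | τ (Φ (ev Φ τ s l β)) = t.1 ∧
          s (Φ (ev Φ τ s l β)) i.1 ∉ Zs Φ τ s N (some i.1 :: l)} ∩
          Qs bot Φ τ s N n (some i.1 :: l))) :=
      union _ _ hZ fun t => union _ _ (hIio t.1) (hP2 t)
    have hprod : ∀ t : Zs Φ τ s N (none :: l),
        #(∀ i : Iio t.1, Zs Φ τ s N (some i.1 :: l)) < κ := by
      intro t
      calc #(∀ i : Iio t.1, Zs Φ τ s N (some i.1 :: l))
          = prod fun i : Iio t.1 => #(Zs Φ τ s N (some i.1 :: l)) := mk_pi _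
        _ ≤ prod fun _ : Iio t.1 => δ := prod_le_prod _ _ fun i => sat _
        _ = δ ^ #(Iio t.1) := by simp
        _ ≤ (2 ^ δ) ^ #(Iio t.1) := power_le_power_right (cantor δ).le
        _ = 2 ^ (δ * #(Iio t.1)) := by rw [← power_mul]
        _ < κ := two_power_mul_lt hκ.aleph0_lt.le (hκ.isStrongPrelimit hδ)
            (hκ.isStrongPrelimit (hIio t.1))
    have hP3' : N (⋃ t : Zs Φ τ s N (none :: l),
        ⋃ y : (∀ i : Iio t.1, Zs Φ τ s N (some i.1 :: l)),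
        {β ∈ A | Φ (ev Φ τ s l β) ≠ bot ∧ τ (Φ (ev Φ τ s l β)) = t.1 ∧
          ∀ i : Iio t.1, s (Φ (ev Φ τ s l β)) i.1 = (y i).1}) :=
      union _ _ hZ fun t => union _ _ (hprod t) (hP3 t)
    refine mono _ _ ?_ (union2 _ _ (hblock bot) (union2 _ _ hP1 (union2 _ _ hP2' hP3')))
    rintro β ⟨hβ, h | h | h | h⟩
    · exact Or.inl ⟨hβ, h⟩
    · exact Or.inr (Or.inl ⟨⟨hβ, h.1⟩, h.2⟩)
    · refine Or.inr (Or.inr (Or.inl ?_))
      obtain ⟨ht, i, hi, hs, hq⟩ := h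
      rw [mem_iUnion]
      refine ⟨⟨_, ht⟩, ?_⟩
      rw [mem_iUnion]
      exact ⟨⟨i, hi⟩, ⟨hβ, rfl, hs⟩, hq⟩
    · refine Or.inr (Or.inr (Or.inr ?_))
      obtain ⟨hb, ht, hs⟩ := h
      rw [mem_iUnion]
      refine ⟨⟨_, ht⟩, ?_⟩
      rw [mem_iUnion]
      exact ⟨fun i => ⟨_, hs i.1 i.2⟩, hβ, hb, rfl, fun i => rfl⟩

theorem Qs_exists {K : Type u} [LinearOrder K] [WellFoundedLT K] {bot : K} {Φ τ : K → K}
    {s : K → K → K} (D : SingData bot Φ τ s) (N : Set K → Prop) (m : K) :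
    ∀ (l : List (Option K)) (β : K), ev Φ τ s l β ≤ m → ∃ n, β ∈ Qs bot Φ τ s N n l := by
  induction m using WellFoundedLT.induction with
  | ind m ih =>
    intro l β hm
    by_cases hb : Φ (ev Φ τ s l β) = bot
    · exact ⟨1, Or.inl hb⟩
    have hΦm : Φ (ev Φ τ s l β) ≤ m := (D.le _).trans hm
    by_cases hτ : τ (Φ (ev Φ τ s l β)) ∈ Zs Φ τ s N (none :: l)
    · by_cases hs : ∀ i < τ (Φ (ev Φ τ s l β)), s (Φ (ev Φ τ s l β)) i ∈ Zs Φ τ s N (some i :: l)
      · exact ⟨1, Or.inr (Or.inr (Or.inr ⟨hb, hτ, hs⟩))⟩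
      · push Not at hs
        obtain ⟨i, hi, hsi⟩ := hs
        obtain ⟨n, hn⟩ := ih (s (Φ (ev Φ τ s l β)) i) ((D.s_lt _ i hb).trans_le hΦm)
          (some i :: l) β le_rfl
        exact ⟨n + 1, Or.inr (Or.inr (Or.inl ⟨hτ, i, hi, hsi, hn⟩))⟩
    · obtain ⟨n, hn⟩ := ih (τ (Φ (ev Φ τ s l β))) ((D.τ_lt _ hb).trans_le hΦm)
        (none :: l) β le_rfl
      exact ⟨n + 1, Or.inr (Or.inl ⟨hτ, hn⟩)⟩

/-- An almost saturated complete ideal on a cardinal that is not Mahlo is improper. -/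
theorem ideal_univ {K : Type u} [LinearOrder K] [WellFoundedLT K] {bot : K} {Φ τ : K → K}
    {s : K → K → K} (D : SingData bot Φ τ s) {κ δ : Cardinal.{u}} (hκ : κ.IsInaccessible)
    (hIio : ∀ k : K, #(Iio k) < κ) (N : Set K → Prop)
    (mono : ∀ A B : Set K, A ⊆ B → N B → N A)
    (union : ∀ (I : Type u) (Y : I → Set K), #I < κ → (∀ i, N (Y i)) → N (⋃ i, Y i))
    (single : ∀ k, N {k}) (hδ : δ < κ) (sat : ∀ l, #(Zs Φ τ s N l) ≤ δ) : N Set.univ := by
  have h1 : ∀ n : ULift.{u} ℕ, N (Set.univ ∩ Qs bot Φ τ s N n.down []) := fun n =>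
    Qs_small D hκ hIio N mono union hδ sat n.down [] Set.univ fun ξ => by
      refine mono _ _ ?_ (single ξ)
      rintro β ⟨-, h⟩
      exact h
  have h2 := union (ULift.{u} ℕ) _ (by simpa using hκ.aleph0_lt) h1
  refine mono _ _ ?_ h2
  intro β _
  rw [mem_iUnion]
  obtain ⟨n, hn⟩ := Qs_exists D N β [] β le_rfl
  exact ⟨⟨n⟩, mem_univ _, hn⟩

end Pool.Agent.Lib.MP_d41870_lc
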