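import Pool.Agent.Lib.MP_d41870_lc.CaseA
import Pool.Agent.Lib.MP_d41870_lc.CaseB

/-!
# A graph of large chromatic number that does not split yields a Mahlo cardinal
-/

set_option autoImplicit false

namespace Pool.Agent.Lib.MP_d41870_lc

open Cardinal Set

universe u

variable {V : Type u} {G : SimpleGraph V}

/-- If `G` does not split to `δ ≠ 0` parts and its chromatic number is greater than
`2 ^ max ℵ₀ (2 ^ δ)`, then there is a Mahlo cardinal between. -/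
theorem exists_mahlo {δ : Cardinal.{u}} (hδ : δ ≠ 0) (hns : ¬ SplitsTo G δ)
    (hG : 2 ^ max ℵ₀ (2 ^ δ) < chr G) :
    ∃ κ : Cardinal.{u}, IsMahlo κ ∧ max ℵ₀ (2 ^ δ) < κ ∧ κ ≤ chr G := by
  obtain ⟨ι, rfl⟩ : ∃ ι : Type u, #ι = δ := ⟨δ.out, mk_out δ⟩
  have hι : Nonempty ι := mk_ne_zero_iff.1 hδ
  obtain ⟨X, hX⟩ : ∃ X : Type u, #X = 2 ^ max ℵ₀ (2 ^ #ι) := ⟨_, mk_out _⟩
  have h : #X < chr G := by rwa [hX]
  have hρ : ℵ₀ ≤ max ℵ₀ (2 ^ #ι) := le_max_left _ _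
  have hlt : max ℵ₀ (2 ^ #ι) < add G X := lt_add hρ hX h
  have hX2 : 2 ≤ #X := by
    rw [hX]
    exact (Cardinal.natCast_le_aleph0 (n := 2)).trans (hρ.trans (cantor _).le)
  have hκ := isInaccessible_add hns hX h
  refine ⟨add G X, ?_, hlt, add_le_chr hX2 h⟩
  by_contra hM
  obtain ⟨bot, Φ, τ, s, D⟩ := exists_singData hκ hM
  have hb := isBad_add hX2 h
  obtain ⟨F, ψ, hF, hψ⟩ := exists_psi (K := (add G X).ord.ToType) (by simp) hb hκ.ne_zero
  by_cases hf : ∀ f : V → (add G X).ord.ToType,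
      ∃ k, ¬ Small G X (fun u v => F u v ∧ f u = k ∧ f v = k)
  · refine caseA hns hX2 rfl hκ ?_ D ψ hψ hf
    exact ((cantor _).trans_le (le_max_right _ _)).trans hlt
  · push Not at hf
    obtain ⟨f, hf⟩ := hf
    exact hF (caseB D hX2 hκ.aleph0_lt (fun k => mk_Iio_toType_ord_lt k) f hf)

end Pool.Agent.Lib.MP_d41870_lc
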