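import Pool.Agent.Lib.MP_d41870_lc.StDefs

set_option autoImplicit false

section

/-!
# The forcing for a graph that does not split: definitions

`K` is the vertex set (a measurable cardinal, well ordered), `Θ` the index set of the iteration.
-/


namespace Pool.Agent.Lib.MP_d41870_lc.Forc

open Set

/-- A normal measure on the well ordered set `K`, closed under intersections of `ℵ₁` sets. -/
structure NormalMeasure (K : Type) [LinearOrder K] where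
  U : Ultrafilter K
  ioi : ∀ β : K, Ioi β ∈ U
  normal : ∀ T ∈ U, ∀ f : K → K, (∀ δ ∈ T, f δ < δ) → ∃ β, {δ | δ ∈ T ∧ f δ = β} ∈ U
  inter : ∀ (I : Type), Cardinal.mk I ≤ Cardinal.aleph 1 → ∀ s : I → Set K, (∀ i, s i ∈ U) →
    (⋂ i, s i) ∈ U

/-- Forcing conditions: a finite graph `e` on `D` and, for each stage `η ∈ F`, a map `g η : D → ℕ`. -/
@[ext] structure Cond (K Θ : Type) where
  D : Finset K
  F : Finset Θ
  e : K → K → Prop
  g : Θ → K → ℕ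
  hg : ∀ η α, g η α ≠ 0 → η ∈ F ∧ α ∈ D

namespace Cond

variable {K Θ : Type}

instance : Preorder (Cond K Θ) where
  le q p := p.D ⊆ q.D ∧ p.F ⊆ q.F ∧ (∀ α ∈ p.D, ∀ β ∈ p.D, (q.e α β ↔ p.e α β)) ∧
    ∀ η ∈ p.F, ∀ α ∈ p.D, q.g η α = p.g η α
  le_refl p := ⟨subset_rfl, subset_rfl, fun _ _ _ _ => Iff.rfl, fun _ _ _ _ => rfl⟩
  le_trans r q p h1 h2 := ⟨h2.1.trans h1.1, h2.2.1.trans h1.2.1,
    fun α hα β hβ => (h1.2.2.1 α (h2.1 hα) β (h2.1 hβ)).trans (h2.2.2.1 α hα β hβ),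
    fun η hη α hα => (h1.2.2.2 η (h2.2.1 hη) α (h2.1 hα)).trans (h2.2.2.2 η hη α hα)⟩

theorem le_def {q p : Cond K Θ} : q ≤ p ↔ p.D ⊆ q.D ∧ p.F ⊆ q.F ∧
    (∀ α ∈ p.D, ∀ β ∈ p.D, (q.e α β ↔ p.e α β)) ∧
    ∀ η ∈ p.F, ∀ α ∈ p.D, q.g η α = p.g η α := Iff.rfl

open Classical in
/-- The condition with given data; `g` is cut down to `F × D`. -/
noncomputable def of (D : Finset K) (F : Finset Θ) (e : K → K → Prop) (g : Θ → K → ℕ) :
    Cond K Θ where
  D := D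
  F := F
  e := e
  g η α := if η ∈ F ∧ α ∈ D then g η α else 0
  hg η α h := by
    by_contra hc
    exact h (if_neg hc)

open Classical in
/-- Restriction of a condition to the stages below `ξ`. -/
noncomputable def res [LinearOrder Θ] (p : Cond K Θ) (ξ : Θ) : Cond K Θ :=
  of p.D (p.F.filter (· < ξ)) p.e p.g

end Cond

section Iteration

variable {K Θ : Type} [LinearOrder K] [LinearOrder Θ]

/-- A name for a colouring of the pairs of `K` with two colours: `α β` gets colour `1` iff some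
condition `c α β n` is in the generic filter. -/
abbrev Nm (K Θ : Type) : Type := K → K → ℕ → Option (Cond K Θ)

/-- Conditions of `P` which decide that `α β` has colour `1`. -/
def C1 (P : Set (Cond K Θ)) (c : Nm K Θ) (α β : K) : Set (Cond K Θ) :=
  {q | q ∈ P ∧ ∃ n r, c α β n = some r ∧ r ∈ P ∧ q ≤ r}

/-- Links between `a` and `b`: common extensions with the edge `β δ` and no other new edge. -/
def Link (P : Set (Cond K Θ)) (β δ : K) (a b : Cond K Θ) : Set (Cond K Θ) :=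
  {q | q ∈ P ∧ q ≤ a ∧ q ≤ b ∧ β ∈ a.D ∧ δ ∈ b.D ∧ q.e β δ ∧
    ∀ α ∈ a.D, β ≤ α → ∀ α' ∈ b.D, δ ≤ α' → (α ≠ β ∨ α' ≠ δ) → ¬ q.e α α'}

/-- Incompatibility in `P`. -/
def Incomp (P : Set (Cond K Θ)) (p q : Cond K Θ) : Prop := ∀ r ∈ P, ¬ (r ≤ p ∧ r ≤ q)

/-- `a : K → P` is `1`-forced for the name `c`. -/
def OneForced (μ : NormalMeasure K) (P : Set (Cond K Θ)) (c : Nm K Θ) (a : K → Cond K Θ) : Prop :=
  ∃ T ∈ μ.U, (∀ δ ∈ T, a δ ∈ P ∧ δ ∈ (a δ).D) ∧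
    ∀ β ∈ T, ∀ δ ∈ T, β < δ → ∀ s ∈ Link P β δ (a β) (a δ), ∃ s' ≤ s, s' ∈ C1 P c β δ

/-- A family of `1`-forced functions, pairwise incompatible modulo the measure. -/
def IsFam (μ : NormalMeasure K) (P : Set (Cond K Θ)) (c : Nm K Θ) (A : Set (K → Cond K Θ)) :
    Prop :=
  (∀ a ∈ A, OneForced μ P c a) ∧
    ∀ a ∈ A, ∀ b ∈ A, a ≠ b → {δ | Incomp P (a δ) (b δ)} ∈ μ.U

theorem exists_fam (μ : NormalMeasure K) (P : Set (Cond K Θ)) (c : Nm K Θ) :
    ∃ A, IsFam μ P c A ∧ ∀ b, OneForced μ P c b → ∃ a ∈ A, {δ | Incomp P (a δ) (b δ)} ∉ μ.U := by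
  obtain ⟨A, hA⟩ := zorn_subset {A | IsFam μ P c A} (by
    intro C hC hchain
    refine ⟨⋃₀ C, ⟨?_, ?_⟩, fun s hs => subset_sUnion_of_mem hs⟩
    · rintro a ⟨s, hs, ha⟩
      exact (hC hs).1 a ha
    · rintro a ⟨s, hs, ha⟩ b ⟨t, ht, hb⟩ hab
      rcases hchain.total hs ht with h | h
      · exact (hC ht).2 a (h ha) b hb hab
      · exact (hC hs).2 a ha b (h hb) hab)
  refine ⟨A, hA.prop, fun b hb => ?_⟩
  by_contra hcon
  push Not at hcon
  by_cases hbA : b ∈ A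
  · have h1 := hcon b hbA
    obtain ⟨T, hT, h2, -⟩ := hb
    obtain ⟨δ, h3, h4⟩ := μ.U.nonempty_of_mem (Filter.inter_mem h1 hT)
    exact h3 (b δ) (h2 δ h4).1 ⟨le_rfl, le_rfl⟩
  · have h1 : IsFam μ P c (insert b A) := by
      refine ⟨?_, ?_⟩
      · rintro a (rfl | ha)
        · exact hb
        · exact hA.prop.1 a ha
      · rintro a (rfl | ha) a' (rfl | ha') hne
        · exact absurd rfl hne
        · refine Filter.mem_of_superset (hcon a' ha') fun δ hδ r hr h => hδ r hr ⟨h.2, h.1⟩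
        · exact hcon a ha
        · exact hA.prop.2 a ha a' ha' hne
    exact hbA (hA.le_of_ge h1 (subset_insert b A) (mem_insert b A))

/-- A maximal such family. -/
noncomputable def fam (μ : NormalMeasure K) (P : Set (Cond K Θ)) (c : Nm K Θ) :
    Set (K → Cond K Θ) := (exists_fam μ P c).choose

/-- Conditions deciding that `δ` is of type `1`. -/
def Yset (P : Set (Cond K Θ)) (A : Set (K → Cond K Θ)) (δ : K) : Set (Cond K Θ) :=
  {q | q ∈ P ∧ ∃ a ∈ A, a δ ∈ P ∧ q ≤ a δ}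

/-- Conditions deciding that the edge `α β` has to be killed. -/
def Bad (P : Set (Cond K Θ)) (A : Set (K → Cond K Θ)) (c : Nm K Θ) (α β : K) :
    Set (Cond K Θ) :=
  {q | q ∈ P ∧ α ∈ q.D ∧ β ∈ q.D ∧ q.e α β ∧
    ((q ∈ Yset P A α ∧ q ∈ Yset P A β ∧ ∀ r ∈ P, r ≤ q → r ∉ C1 P c α β) ∨
      ((∀ r ∈ P, r ≤ q → r ∉ Yset P A α ∧ r ∉ Yset P A β) ∧ q ∈ C1 P c α β))}

variable [WellFoundedLT Θ] (μ : NormalMeasure K) (nm : Θ → Nm K Θ)

/-- The conditions of the iteration up to stage `ξ`. -/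
noncomputable def Pst : Θ → Set (Cond K Θ) :=
  (wellFounded_lt (α := Θ)).fix fun ξ rec => {p | ∀ η ∈ p.F, ∃ h : η < ξ,
    ∀ α ∈ p.D, ∀ β ∈ p.D, α < β → p.g η α = p.g η β → ∀ s ∈ rec η h, s ≤ p.res η →
      s ∉ Bad (rec η h) (fam μ (rec η h) (nm η)) (nm η) α β}

/-- `p` is a correct condition at stage `η`. -/
def OK (η : Θ) (p : Cond K Θ) : Prop :=
  ∀ α ∈ p.D, ∀ β ∈ p.D, α < β → p.g η α = p.g η β → ∀ s ∈ Pst μ nm η, s ≤ p.res η →
      s ∉ Bad (Pst μ nm η) (fam μ (Pst μ nm η) (nm η)) (nm η) α β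

theorem mem_Pst {ξ : Θ} {p : Cond K Θ} : p ∈ Pst μ nm ξ ↔ ∀ η ∈ p.F, η < ξ ∧ OK μ nm η p := by
  unfold Pst
  rw [WellFounded.fix_eq]
  constructor
  · intro h η hη
    obtain ⟨h1, h2⟩ := h η hη
    exact ⟨h1, h2⟩
  · intro h η hη
    obtain ⟨h1, h2⟩ := h η hη
    exact ⟨h1, h2⟩

/-- The iteration up to stage `ξ : WithTop Θ` (`⊤`: the whole iteration). -/
def PT (ξ : WithTop Θ) : Set (Cond K Θ) := {p | ∀ η ∈ p.F, (η : WithTop Θ) < ξ ∧ OK μ nm η p}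

theorem Pst_eq (ξ : Θ) : Pst μ nm ξ = PT μ nm ξ := by
  ext p
  rw [mem_Pst]
  simp only [PT, mem_setOf_eq, WithTop.coe_lt_coe]

end Iteration

end Pool.Agent.Lib.MP_d41870_lc.Forc

end

section

/-!
# Normal measures: pressing down, Δ-systems, existence
-/


namespace Pool.Agent.Lib.MP_d41870_lc.Forc

open Set

/-- A measurable cardinal is larger than the continuum. -/
theorem IsMeasurable.continuum_lt {κ : Cardinal.{0}} (h : IsMeasurable κ) :
    (2 : Cardinal) ^ Cardinal.aleph0 < κ := by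
  obtain ⟨h0, U, hU, hc⟩ := h
  by_contra hle
  push Not at hle
  have h1 : Cardinal.mk κ.ord.ToType ≤ Cardinal.mk (ℕ → Bool) := by
    simpa using hle
  obtain ⟨f, hf⟩ := Cardinal.le_def _ _ |>.1 h1
  have h2 : ∀ n, ∃ b, {x | f x n = b} ∈ U := by
    intro n
    by_cases h3 : {x | f x n = true} ∈ U
    · exact ⟨true, h3⟩
    · refine ⟨false, ?_⟩
      rw [← Ultrafilter.compl_mem_iff_notMem] at h3
      refine Filter.mem_of_superset h3 fun x hx => ?_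
      simpa using hx
  choose b hb using h2
  have h3 := hc ℕ (by simpa using h0) (fun n => {x | f x n = b n}) hb
  have h4 : (⋂ n, {x | f x n = b n}).Subsingleton := by
    intro x hx y hy
    simp only [mem_iInter, mem_setOf_eq] at hx hy
    exact hf (funext fun n => (hx n).trans (hy n).symm)
  rcases h4.eq_empty_or_singleton with h5 | ⟨x, h5⟩
  · rw [h5] at h3
    exact U.empty_notMem h3
  · rw [h5] at h3
    exact hU x h3

/-- A measurable cardinal carries a normal measure (in the sense of `NormalMeasure`). -/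
theorem exists_normalMeasure {κ : Cardinal.{0}} (h : IsMeasurable κ) :
    Nonempty (NormalMeasure κ.ord.ToType) := by
  classical
  have hcont := h.continuum_lt
  obtain ⟨h0, U, hU, hc⟩ := h
  have hal1 : Cardinal.aleph 1 < κ := by
    refine lt_of_le_of_lt ?_ hcont
    rw [← Cardinal.continuum]
    exact Cardinal.aleph_one_le_continuum
  -- bounded functions are constant
  have hIic : ∀ a : κ.ord.ToType, Cardinal.mk (Iic a) < κ := by
    intro a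
    have h1 := Cardinal.mk_Iio_toType_ord_lt a
    have h2 : Cardinal.mk (Iic a) ≤ Cardinal.mk (Iio a) + 1 := by
      rw [← Iio_insert]
      exact Cardinal.mk_insert_le
    exact h2.trans_lt (Cardinal.add_lt_of_lt h0.le h1 (Cardinal.one_lt_aleph0.trans h0))
  have hbdd : ∀ (f : κ.ord.ToType → κ.ord.ToType) (a : κ.ord.ToType), {x | f x ≤ a} ∈ U →
      ∃ c, {x | f x = c} ∈ U := by
    intro f a hf
    by_contra hcon
    push Not at hcon
    have h1 : (⋂ c : Iic a, {x | f x = c}ᶜ) ∈ U :=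
      hc _ (hIic a) _ fun c => Ultrafilter.compl_mem_iff_notMem.2 (hcon c)
    obtain ⟨x, hx1, hx2⟩ := U.nonempty_of_mem (Filter.inter_mem hf h1)
    simp only [mem_iInter] at hx2
    exact hx2 ⟨f x, hx1⟩ rfl
  have hIoi : ∀ a : κ.ord.ToType, Ioi a ∈ U := by
    intro a
    have h1 : (⋂ c : Iic a, ({c.1} : Set κ.ord.ToType)ᶜ) ∈ U :=
      hc _ (hIic a) _ fun c => Ultrafilter.compl_mem_iff_notMem.2 (hU c)
    refine Filter.mem_of_superset h1 fun x hx => ?_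
    simp only [mem_iInter] at hx
    by_contra hxa
    exact hx ⟨x, mem_Iic.2 (not_lt.1 fun h => hxa h)⟩ rfl
  -- the least nonconstant function
  have hwf : WellFounded (fun f g : κ.ord.ToType → κ.ord.ToType => {x | f x < g x} ∈ U) := by
    rw [wellFounded_iff_isEmpty_descending_chain]
    refine ⟨?_⟩
    rintro ⟨f, hf⟩
    have h1 := hc ℕ (by simpa using h0) (fun n => {x | f (n + 1) x < f n x}) hf
    obtain ⟨x, hx⟩ := U.nonempty_of_mem h1
    simp only [mem_iInter, mem_setOf_eq] at hx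
    exact (wellFounded_iff_isEmpty_descending_chain.1
      (wellFounded_lt (α := κ.ord.ToType))).false ⟨fun n => f n x, hx⟩
  set S : Set (κ.ord.ToType → κ.ord.ToType) := {f | ∀ a, {x | a < f x} ∈ U} with hS
  have hSne : S.Nonempty := ⟨id, fun a => hIoi a⟩
  set f := hwf.min S hSne with hf
  have hfS : f ∈ S := hwf.min_mem S hSne
  have hfmin : ∀ g ∈ S, {x | g x < f x} ∉ U := fun g hg => hwf.not_lt_min S hg
  refine ⟨⟨U.map f, fun β => hfS β, ?_, ?_⟩⟩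
  · intro T hT g hg
    rw [Ultrafilter.mem_map] at hT
    have h1 : {x | g (f x) < f x} ∈ U := Filter.mem_of_superset hT fun x hx => hg _ hx
    have h2 : (fun x => g (f x)) ∉ S := fun h2 => hfmin _ h2 h1
    simp only [hS, mem_setOf_eq, not_forall] at h2
    obtain ⟨a, ha⟩ := h2
    obtain ⟨c, hc⟩ := hbdd (fun x => g (f x)) a (by
      rw [← Ultrafilter.compl_mem_iff_notMem] at ha
      refine Filter.mem_of_superset ha fun x hx => ?_
      simpa using hx)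
    refine ⟨c, ?_⟩
    rw [Ultrafilter.mem_map]
    exact Filter.inter_mem hT hc
  · intro I hI s hs
    rw [Ultrafilter.mem_map, preimage_iInter]
    exact hc I (hI.trans_lt hal1) _ fun i => hs i

namespace NormalMeasure

variable {K : Type} [LinearOrder K] (μ : NormalMeasure K)

/-- A map to a countable type is constant on a large subset. -/
theorem const_countable {T : Set K} (hT : T ∈ μ.U) {X : Type} [Countable X] (f : K → X) :
    ∃ x, {δ | δ ∈ T ∧ f δ = x} ∈ μ.U := by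
  by_contra hcon
  push Not at hcon
  have h1 : (⋂ x, {δ | δ ∈ T ∧ f δ = x}ᶜ) ∈ μ.U := by
    refine μ.inter X ?_ _ fun x => Ultrafilter.compl_mem_iff_notMem.2 (hcon x)
    exact (Cardinal.mk_le_aleph0).trans Cardinal.aleph0_lt_aleph_one.le
  obtain ⟨δ, h2, h3⟩ := μ.U.nonempty_of_mem (Filter.inter_mem hT h1)
  simp only [mem_iInter] at h3
  exact h3 (f δ) ⟨h2, rfl⟩

/-- Diagonal intersections. -/
theorem diag (h : K → Set K) (hh : ∀ β, h β ∈ μ.U) : {δ | ∀ β < δ, δ ∈ h β} ∈ μ.U := by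
  classical
  by_contra hcon
  rw [← Ultrafilter.compl_mem_iff_notMem] at hcon
  have h1 : ∀ δ, ∃ β, δ ∈ {δ | ∀ β < δ, δ ∈ h β}ᶜ → β < δ ∧ δ ∉ h β := by
    intro δ
    by_cases h2 : δ ∈ {δ | ∀ β < δ, δ ∈ h β}ᶜ
    · simp only [mem_compl_iff, mem_setOf_eq, not_forall] at h2
      obtain ⟨β, h3, h4⟩ := h2
      exact ⟨β, fun _ => ⟨h3, h4⟩⟩
    · exact ⟨δ, fun h3 => absurd h3 h2⟩
  choose f hf using h1
  obtain ⟨β, hβ⟩ := μ.normal _ hcon f fun δ hδ => (hf δ hδ).1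
  obtain ⟨δ, h2, h3⟩ := μ.U.nonempty_of_mem (Filter.inter_mem hβ (hh β))
  refine (hf δ h2.1).2 ?_
  rw [h2.2]
  exact h3

theorem fodor_finset_aux : ∀ (n : ℕ) {T : Set K}, T ∈ μ.U → ∀ s : K → Finset K,
    (∀ δ ∈ T, (s δ).card = n ∧ ∀ α ∈ s δ, α < δ) → ∃ R, {δ | δ ∈ T ∧ s δ = R} ∈ μ.U := by
  classical
  intro n
  induction n with
  | zero =>
    intro T hT s hs
    refine ⟨∅, Filter.mem_of_superset hT fun δ hδ => ⟨hδ, Finset.card_eq_zero.1 (hs δ hδ).1⟩⟩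
  | succ n ih =>
    intro T hT s hs
    have h1 : ∀ δ, ∃ α, δ ∈ T → α ∈ s δ := by
      intro δ
      by_cases hδ : δ ∈ T
      · obtain ⟨α, hα⟩ := Finset.card_pos.1 (by rw [(hs δ hδ).1]; omega : 0 < (s δ).card)
        exact ⟨α, fun _ => hα⟩
      · exact ⟨δ, fun h => absurd h hδ⟩
    choose f hf using h1
    obtain ⟨β, hβ⟩ := μ.normal T hT f fun δ hδ => (hs δ hδ).2 _ (hf δ hδ)
    obtain ⟨R, hR⟩ := ih hβ (fun δ => (s δ).erase β) (by
      rintro δ ⟨hδ, rfl⟩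
      refine ⟨?_, fun α hα => (hs δ hδ).2 α (Finset.mem_of_mem_erase hα)⟩
      rw [Finset.card_erase_of_mem (hf δ hδ), (hs δ hδ).1]
      rfl)
    refine ⟨insert β R, Filter.mem_of_superset hR ?_⟩
    rintro δ ⟨⟨hδ, h2⟩, h3⟩
    refine ⟨hδ, ?_⟩
    rw [← h3, Finset.insert_erase]
    rw [← h2]
    exact hf δ hδ

/-- Pressing down for finite sets. -/
theorem fodor_finset {T : Set K} (hT : T ∈ μ.U) (s : K → Finset K)
    (hs : ∀ δ ∈ T, ∀ α ∈ s δ, α < δ) : ∃ R, {δ | δ ∈ T ∧ s δ = R} ∈ μ.U := by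
  obtain ⟨n, hn⟩ := μ.const_countable hT fun δ => (s δ).card
  obtain ⟨R, hR⟩ := μ.fodor_finset_aux n hn s fun δ hδ => ⟨hδ.2, hs δ hδ.1⟩
  exact ⟨R, Filter.mem_of_superset hR fun δ hδ => ⟨hδ.1.1, hδ.2⟩⟩

/-- Δ-systems for arbitrary finite sets. -/
theorem delta_system {X : Type} [DecidableEq X] {T : Set K} (hT : T ∈ μ.U) (s : K → Finset X) :
    ∃ R : Finset X, ∃ T' ∈ μ.U, T' ⊆ T ∧ (∀ δ ∈ T', R ⊆ s δ) ∧
      ∀ β ∈ T', ∀ δ ∈ T', β < δ → s β ∩ s δ = R := by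
  classical
  set W : K → Finset X := fun δ => (s δ).filter fun x => ∃ β < δ, x ∈ s β with hW
  have h1 : ∀ (δ : K) (x : X), ∃ β, x ∈ W δ → β < δ ∧ x ∈ s β := by
    intro δ x
    by_cases h : x ∈ W δ
    · obtain ⟨-, β, h2, h3⟩ := Finset.mem_filter.1 h
      exact ⟨β, fun _ => ⟨h2, h3⟩⟩
    · exact ⟨δ, fun h' => absurd h' h⟩
  choose b hb using h1
  obtain ⟨R1, hR1⟩ := μ.fodor_finset hT (fun δ => (W δ).image (b δ)) (by
    intro δ _ α hα
    obtain ⟨x, hx, rfl⟩ := Finset.mem_image.1 hα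
    exact (hb δ x hx).1)
  set V : Finset X := R1.biUnion s with hV
  obtain ⟨R', hR'⟩ := μ.const_countable hR1 (X := V → Prop) fun δ => fun x => x.1 ∈ W δ
  have hWV : ∀ δ ∈ {δ | δ ∈ {δ | δ ∈ T ∧ (W δ).image (b δ) = R1} ∧
      (fun x : V => x.1 ∈ W δ) = R'}, ∀ x, x ∈ W δ ↔ ∃ h : x ∈ V, R' ⟨x, h⟩ := by
    rintro δ ⟨⟨hδ, h2⟩, h3⟩ x
    constructor
    · intro hx
      have h4 : x ∈ V := by
        refine Finset.mem_biUnion.2 ⟨b δ x, ?_, (hb δ x hx).2⟩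
        rw [← h2]
        exact Finset.mem_image_of_mem _ hx
      refine ⟨h4, ?_⟩
      rw [← h3]
      exact hx
    · rintro ⟨h4, h5⟩
      rw [← h3] at h5
      exact h5
  refine ⟨V.filter fun x => ∃ h : x ∈ V, R' ⟨x, h⟩, _, hR', fun δ hδ => hδ.1.1, ?_, ?_⟩
  · intro δ hδ x hx
    have := (hWV δ hδ x).2 (Finset.mem_filter.1 hx).2
    exact (Finset.mem_filter.1 this).1
  · intro β hβ δ hδ hβδ
    ext x
    rw [Finset.mem_inter, Finset.mem_filter]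
    constructor
    · rintro ⟨h2, h3⟩
      have h4 : x ∈ W δ := Finset.mem_filter.2 ⟨h3, β, hβδ, h2⟩
      have h5 := (hWV δ hδ x).1 h4
      exact ⟨h5.1, h5⟩
    · rintro ⟨-, h5⟩
      exact ⟨(Finset.mem_filter.1 ((hWV β hβ x).2 h5)).1,
        (Finset.mem_filter.1 ((hWV δ hδ x).2 h5)).1⟩

end NormalMeasure

end Pool.Agent.Lib.MP_d41870_lc.Forc

end

section

/-!
# Bookkeeping, and the Δ-system lemma for uncountable families of finite sets
-/


namespace Pool.Agent.Lib.MP_d41870_lc.Forc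

open Set

theorem delta_uncountable_aux {I X : Type} [DecidableEq X] : ∀ (n : ℕ) (S : Set I),
    ¬ S.Countable → ∀ s : I → Finset X, (∀ i ∈ S, (s i).card = n) →
    ∃ J ⊆ S, ¬ J.Countable ∧ ∃ R : Finset X, ∀ i ∈ J, ∀ j ∈ J, i ≠ j → s i ∩ s j = R := by
  classical
  intro n
  induction n with
  | zero =>
    intro S hS s hs
    refine ⟨S, subset_rfl, hS, ∅, fun i hi j _ _ => ?_⟩
    rw [Finset.card_eq_zero.1 (hs i hi)]
    simp
  | succ n ih =>
    intro S hS s hs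
    by_cases h1 : ∃ x, ¬ ({i | i ∈ S ∧ x ∈ s i}).Countable
    · obtain ⟨x, hx⟩ := h1
      obtain ⟨J, hJ, hJ2, R, hR⟩ := ih _ hx (fun i => (s i).erase x) (by
        rintro i ⟨hi, hix⟩
        rw [Finset.card_erase_of_mem hix, hs i hi]
        rfl)
      refine ⟨J, fun i hi => (hJ hi).1, hJ2, insert x R, fun i hi j hj hij => ?_⟩
      rw [← hR i hi j hj hij]
      ext y
      simp only [Finset.mem_inter, Finset.mem_insert, Finset.mem_erase]
      have h2 := (hJ hi).2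
      have h3 := (hJ hj).2
      by_cases hy : y = x
      · subst hy
        simp [h2, h3]
      · simp [hy]
    · push Not at h1
      obtain ⟨J, hJ⟩ := zorn_subset {J : Set I | J ⊆ S ∧ ∀ i ∈ J, ∀ j ∈ J, i ≠ j →
          Disjoint (s i) (s j)} (by
        intro C hC hchain
        refine ⟨⋃₀ C, ⟨sUnion_subset fun t ht => (hC ht).1, ?_⟩,
          fun t ht => subset_sUnion_of_mem ht⟩
        rintro i ⟨t, ht, hi⟩ j ⟨u, hu, hj⟩ hij
        rcases hchain.total ht hu with h | h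
        · exact (hC hu).2 i (h hi) j hj hij
        · exact (hC ht).2 i hi j (h hj) hij)
      refine ⟨J, hJ.prop.1, fun hJc => ?_, ∅, fun i hi j hj hij =>
        Finset.disjoint_iff_inter_eq_empty.1 (hJ.prop.2 i hi j hj hij)⟩
      have h2 : (⋃ i ∈ J, (s i : Set X)).Countable :=
        hJc.biUnion fun i _ => (s i).countable_toSet
      have h3 : (⋃ x ∈ ⋃ i ∈ J, (s i : Set X), {i | i ∈ S ∧ x ∈ s i}).Countable :=
        h2.biUnion fun x _ => h1 x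
      have h4 : ∃ i ∈ S, i ∉ J ∪ ⋃ x ∈ ⋃ i ∈ J, (s i : Set X), {i | i ∈ S ∧ x ∈ s i} := by
        by_contra hcon
        push Not at hcon
        exact hS ((hJc.union h3).mono hcon)
      obtain ⟨i, hiS, hi⟩ := h4
      rw [mem_union, not_or] at hi
      have h5 : ∀ j ∈ J, Disjoint (s i) (s j) := by
        intro j hj
        rw [Finset.disjoint_left]
        intro x hx hxj
        apply hi.2
        simp only [mem_iUnion]
        exact ⟨x, ⟨j, hj, hxj⟩, hiS, hx⟩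
      have h6 : insert i J ⊆ S ∧ ∀ a ∈ insert i J, ∀ b ∈ insert i J, a ≠ b →
          Disjoint (s a) (s b) := by
        refine ⟨insert_subset hiS hJ.prop.1, ?_⟩
        rintro a (rfl | ha) b (rfl | hb) hab
        · exact absurd rfl hab
        · exact h5 b hb
        · exact (h5 a ha).symm
        · exact hJ.prop.2 a ha b hb hab
      exact hi.1 (hJ.le_of_ge h6 (subset_insert i J) (mem_insert i J))

/-- The Δ-system lemma. -/
theorem delta_uncountable {I X : Type} [DecidableEq X] (S : Set I) (hS : ¬ S.Countable)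
    (s : I → Finset X) :
    ∃ J ⊆ S, ¬ J.Countable ∧ ∃ R : Finset X, ∀ i ∈ J, ∀ j ∈ J, i ≠ j → s i ∩ s j = R := by
  have h1 : ∃ n, ¬ ({i | i ∈ S ∧ (s i).card = n}).Countable := by
    by_contra hcon
    push Not at hcon
    apply hS
    refine (countable_iUnion hcon).mono fun i hi => ?_
    simp only [mem_iUnion]
    exact ⟨_, hi, rfl⟩
  obtain ⟨n, hn⟩ := h1
  obtain ⟨J, hJ, h⟩ := delta_uncountable_aux n _ hn s fun i hi => hi.2
  exact ⟨J, fun i hi => (hJ hi).1, h⟩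

/-- The number of conditions. -/
theorem mk_cond_le (K Θ : Type) [Infinite K] (h : Cardinal.mk Θ = 2 ^ Cardinal.mk K) :
    Cardinal.mk (Option (Cond K Θ)) ≤ 2 ^ Cardinal.mk K := by
  classical
  have hK := Cardinal.aleph0_le_mk K
  have h2 : Cardinal.aleph0 ≤ 2 ^ Cardinal.mk K := hK.trans (Cardinal.cantor _).le
  haveI : Infinite Θ := Cardinal.aleph0_le_mk_iff.1 (by rw [h]; exact h2)
  have hsupp : ∀ p : Cond K Θ, (Function.support fun x : Θ × K => p.g x.1 x.2).Finite := by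
    intro p
    refine (p.F ×ˢ p.D).finite_toSet.subset fun x hx => ?_
    have := p.hg x.1 x.2 hx
    simpa using this
  let f : Cond K Θ → Finset K × Finset Θ × (K × K → Prop) × (Θ × K →₀ ℕ) :=
    fun p => (p.D, p.F, (fun x => p.e x.1 x.2), Finsupp.ofSupportFinite _ (hsupp p))
  have hf : Function.Injective f := by
    intro p q hpq
    simp only [f, Prod.mk.injEq] at hpq
    obtain ⟨h1, h2, h3, h4⟩ := hpq
    refine Cond.ext h1 h2 ?_ ?_
    · funext x y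
      exact congrFun h3 (x, y)
    · funext x y
      exact DFunLike.congr_fun h4 (x, y)
  have h3 : Cardinal.mk (Cond K Θ) ≤ 2 ^ Cardinal.mk K := by
    refine (Cardinal.mk_le_of_injective hf).trans ?_
    simp only [Cardinal.mk_prod, Cardinal.lift_id]
    refine Cardinal.mul_le_of_le h2 ?_ (Cardinal.mul_le_of_le h2 ?_ (Cardinal.mul_le_of_le h2 ?_ ?_))
    · rw [Cardinal.mk_finset_of_infinite]
      exact (Cardinal.cantor _).le
    · rw [Cardinal.mk_finset_of_infinite, h]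
    · rw [← Cardinal.power_def, Cardinal.mk_prod, Cardinal.lift_id, Cardinal.mul_eq_self hK]
      simp
    · rw [Cardinal.mk_finsupp_lift_of_infinite]
      simp only [Cardinal.mk_prod, Cardinal.lift_id, Cardinal.mk_nat, Cardinal.lift_aleph0, h]
      refine max_le (Cardinal.mul_le_of_le h2 le_rfl (Cardinal.cantor _).le) h2
  rw [Cardinal.mk_option]
  exact Cardinal.add_le_of_le h2 h3 (Cardinal.one_le_aleph0.trans h2)

/-- Stages of the iteration and names for all stages: `|Θ| = 2 ^ |K|`. -/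
theorem exists_book (K : Type) [Infinite K] : ∃ (Θ : Type) (_ : LinearOrder Θ)
    (_ : WellFoundedLT Θ) (_ : OrderBot Θ) (nm : Θ → Nm K Θ),
    (∀ f : K × K × ℕ → Θ, ∃ η, ∀ x, f x < η) ∧ ∀ (c : Nm K Θ) (η : Θ), ∃ ξ, η < ξ ∧ nm ξ = c := by
  classical
  have hK := Cardinal.aleph0_le_mk K
  set lam : Cardinal.{0} := 2 ^ Cardinal.mk K with hlam
  have h2 : Cardinal.aleph0 ≤ lam := hK.trans (Cardinal.cantor _).le
  set Θ : Type := lam.ord.ToType with hΘ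
  have hcard : Cardinal.mk Θ = lam := by simp [hΘ]
  haveI : Infinite Θ := Cardinal.aleph0_le_mk_iff.1 (by rw [hcard]; exact h2)
  have hbot : ∃ b : Θ, ∀ a, b ≤ a := by
    obtain ⟨b, -, hb⟩ := (wellFounded_lt (α := Θ)).has_min univ ⟨Classical.arbitrary Θ, trivial⟩
    exact ⟨b, fun a => not_lt.1 (hb a trivial)⟩
  obtain ⟨b, hb⟩ := hbot
  have hIio : ∀ i : Θ, Cardinal.mk (Iic i) < lam := by
    intro i
    have h3 := Cardinal.mk_Iio_toType_ord_lt i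
    have h4 : Cardinal.mk (Iic i) ≤ Cardinal.mk (Iio i) + 1 := by
      rw [← Iio_insert]
      exact Cardinal.mk_insert_le
    exact h4.trans_lt (Cardinal.add_lt_of_lt h2 h3
      (Cardinal.one_lt_aleph0.trans_le h2))
  have hKKN : Cardinal.mk (K × K × ℕ) = Cardinal.mk K := by
    simp only [Cardinal.mk_prod, Cardinal.lift_id, Cardinal.mk_nat]
    rw [Cardinal.mul_aleph0_eq hK, Cardinal.mul_eq_self hK]
  have hNm : Cardinal.mk (Nm K Θ) ≤ lam := by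
    have h3 := mk_cond_le K Θ hcard
    have h4 : Cardinal.mk (Nm K Θ) ≤ Cardinal.mk (K × K × ℕ → Option (Cond K Θ)) :=
      Cardinal.mk_le_of_injective (f := fun (c : Nm K Θ) (x : K × K × ℕ) => c x.1 x.2.1 x.2.2) (by
        intro c c' hcc
        funext x y n
        exact congrFun hcc (x, y, n))
    refine h4.trans ?_
    rw [← Cardinal.power_def]
    calc Cardinal.mk (Option (Cond K Θ)) ^ Cardinal.mk (K × K × ℕ)
        ≤ (2 ^ Cardinal.mk K) ^ Cardinal.mk (K × K × ℕ) := Cardinal.power_le_power_right h3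
      _ = lam := by
          rw [← Cardinal.power_mul, hKKN, Cardinal.mul_eq_self hK]
  have hNm0 : Cardinal.mk (Nm K Θ) ≠ 0 := by
    rw [Cardinal.mk_ne_zero_iff]
    exact ⟨fun _ _ _ => none⟩
  obtain ⟨e⟩ : Nonempty (Θ ≃ Θ × Nm K Θ) := by
    rw [← Cardinal.eq, Cardinal.mk_prod, Cardinal.lift_id, Cardinal.lift_id, hcard,
      Cardinal.mul_eq_left h2 hNm hNm0]
  refine ⟨Θ, inferInstance, inferInstance, { bot := b, bot_le := hb }, fun ξ => (e ξ).2, ?_, ?_⟩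
  · intro f
    by_contra hcon
    push Not at hcon
    have h3 : IsCofinal (range f) := fun η => by
      obtain ⟨x, hx⟩ := hcon η
      exact ⟨f x, mem_range_self x, hx⟩
    have h4 := Order.cof_le h3
    have h5 : Order.cof Θ = lam.ord.cof := Ordinal.cof_toType _
    have h6 : Cardinal.mk K < lam.ord.cof := Cardinal.lt_cof_ord_power hK (by
      exact Cardinal.one_lt_two)
    rw [h5] at h4
    exact absurd (h6.trans_le (h4.trans (Cardinal.mk_range_le.trans hKKN.le))) (lt_irrefl _)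
  · intro c η
    by_contra hcon
    push Not at hcon
    have h3 : Cardinal.mk Θ ≤ Cardinal.mk (Iic η) := by
      refine Cardinal.mk_le_of_injective (f := fun x => ⟨e.symm (x, c), ?_⟩) ?_
      · by_contra h4
        exact hcon _ (not_le.1 h4) (by simp)
      · intro x y hxy
        have h5 := congrArg Subtype.val hxy
        simpa using h5
    rw [hcard] at h3
    exact absurd (hIio η) (not_lt.2 h3)

end Pool.Agent.Lib.MP_d41870_lc.Forc

end

section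

/-!
# Amalgamation of conditions
-/


namespace Pool.Agent.Lib.MP_d41870_lc.Forc

open Set

namespace Cond

variable {K Θ : Type}

@[simp] theorem of_D (D : Finset K) (F : Finset Θ) (e : K → K → Prop) (g : Θ → K → ℕ) :
    (of D F e g).D = D := rfl

@[simp] theorem of_F (D : Finset K) (F : Finset Θ) (e : K → K → Prop) (g : Θ → K → ℕ) :
    (of D F e g).F = F := rfl

@[simp] theorem of_e (D : Finset K) (F : Finset Θ) (e : K → K → Prop) (g : Θ → K → ℕ) :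
    (of D F e g).e = e := rfl

theorem of_g {D : Finset K} {F : Finset Θ} {e : K → K → Prop} {g : Θ → K → ℕ} {η : Θ} {α : K}
    (h1 : η ∈ F) (h2 : α ∈ D) : (of D F e g).g η α = g η α := if_pos ⟨h1, h2⟩

variable [LinearOrder Θ]

@[simp] theorem res_D (p : Cond K Θ) (ξ : Θ) : (p.res ξ).D = p.D := rfl

@[simp] theorem res_e (p : Cond K Θ) (ξ : Θ) : (p.res ξ).e = p.e := rfl

theorem mem_res_F {p : Cond K Θ} {ξ η : Θ} : η ∈ (p.res ξ).F ↔ η ∈ p.F ∧ η < ξ := by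
  simp [res]

theorem res_g {p : Cond K Θ} {ξ η : Θ} {α : K} (h1 : η ∈ p.F) (h2 : η < ξ) (h3 : α ∈ p.D) :
    (p.res ξ).g η α = p.g η α := of_g (by simp [h1, h2]) h3

theorem le_res (p : Cond K Θ) (ξ : Θ) : p ≤ p.res ξ := by
  refine ⟨subset_rfl, fun η h => (mem_res_F.1 h).1, fun _ _ _ _ => Iff.rfl, fun η h α hα => ?_⟩
  rw [res_g (mem_res_F.1 h).1 (mem_res_F.1 h).2 hα]

theorem res_mono {p q : Cond K Θ} (h : q ≤ p) (ξ : Θ) : q.res ξ ≤ p.res ξ := by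
  refine ⟨h.1, fun η hη => ?_, h.2.2.1, fun η hη α hα => ?_⟩
  · rw [mem_res_F] at hη ⊢
    exact ⟨h.2.1 hη.1, hη.2⟩
  · rw [mem_res_F] at hη
    rw [res_g hη.1 hη.2 hα, res_g (h.2.1 hη.1) hη.2 (h.1 hα)]
    exact h.2.2.2 η hη.1 α hα

/-- If `p` has no stage above `ξ` then it is equivalent to its restriction. -/
theorem res_le {p : Cond K Θ} {ξ : Θ} (h : ∀ η ∈ p.F, η < ξ) : p.res ξ ≤ p := by
  refine ⟨subset_rfl, fun η hη => mem_res_F.2 ⟨hη, h η hη⟩, fun _ _ _ _ => Iff.rfl,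
    fun η hη α hα => res_g hη (h η hη) hα⟩

theorem res_res {p : Cond K Θ} {ξ η : Θ} (h : ξ ≤ η) : (p.res η).res ξ ≤ p.res ξ := by
  refine ⟨subset_rfl, fun ζ hζ => ?_, fun _ _ _ _ => Iff.rfl, fun ζ hζ α hα => ?_⟩
  · rw [mem_res_F] at hζ
    rw [mem_res_F, mem_res_F]
    exact ⟨⟨hζ.1, hζ.2.trans_le h⟩, hζ.2⟩
  · rw [mem_res_F] at hζ
    rw [res_g hζ.1 hζ.2 hα, res_g (mem_res_F.2 ⟨hζ.1, hζ.2.trans_le h⟩) hζ.2 hα,
      res_g hζ.1 (hζ.2.trans_le h) hα]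

end Cond

variable {K Θ : Type} [LinearOrder K] [LinearOrder Θ] [WellFoundedLT Θ]
  (μ : NormalMeasure K) (nm : Θ → Nm K Θ)

/-- The conditions deciding that the edge `α β` has to be killed at stage `ζ`. -/
def BadAt (ζ : Θ) (α β : K) : Set (Cond K Θ) :=
  Bad (Pst μ nm ζ) (fam μ (Pst μ nm ζ) (nm ζ)) (nm ζ) α β

variable {μ nm}

theorem OK_iff {η : Θ} {p : Cond K Θ} : OK μ nm η p ↔
    ∀ α ∈ p.D, ∀ β ∈ p.D, α < β → p.g η α = p.g η β → ∀ s ∈ Pst μ nm η, s ≤ p.res η →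
      s ∉ BadAt μ nm η α β := Iff.rfl

theorem mem_PT {ξ : WithTop Θ} {p : Cond K Θ} :
    p ∈ PT μ nm ξ ↔ ∀ η ∈ p.F, (η : WithTop Θ) < ξ ∧ OK μ nm η p := Iff.rfl

theorem PT_mono {ξ ξ' : WithTop Θ} (h : ξ ≤ ξ') : PT μ nm ξ ⊆ PT μ nm ξ' :=
  fun _ hp η hη => ⟨(hp η hη).1.trans_le h, (hp η hη).2⟩

theorem res_mem {ξ : WithTop Θ} {p : Cond K Θ} (hp : p ∈ PT μ nm ξ) (η : Θ) :
    p.res η ∈ Pst μ nm η := by
  rw [mem_Pst]
  intro ζ hζ
  rw [Cond.mem_res_F] at hζ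
  refine ⟨hζ.2, ?_⟩
  intro α hα β hβ hαβ hg s hs hsp
  rw [Cond.res_g hζ.1 hζ.2 hα, Cond.res_g hζ.1 hζ.2 hβ] at hg
  exact (hp ζ hζ.1).2 α hα β hβ hαβ hg s hs (hsp.trans (Cond.res_res hζ.2.le))

/-- The general amalgamation lemma. -/
theorem amalg {ξ : WithTop Θ} {η : Θ} {q a b : Cond K Θ} (hηξ : (η : WithTop Θ) ≤ ξ)
    (hq : q ∈ Pst μ nm η) (ha : a ∈ PT μ nm ξ) (hb : b ∈ PT μ nm ξ)
    (hqa : q ≤ a.res η) (hqb : q ≤ b.res η)
    (hc : ∀ ζ ∈ a.F, ζ ∈ b.F → η ≤ ζ → ∀ α ∈ a.D, α ∈ b.D → a.g ζ α = b.g ζ α)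
    (hX : ∀ ζ ∈ a.F, ζ ∈ b.F → η ≤ ζ → ∀ α ∈ a.D, α ∉ b.D → ∀ α' ∈ b.D, α' ∉ a.D →
      a.g ζ α = b.g ζ α' → ∀ s ∈ Pst μ nm ζ, s ≤ q →
        (α < α' → s ∉ BadAt μ nm ζ α α') ∧ (α' < α → s ∉ BadAt μ nm ζ α' α)) :
    ∃ r ∈ PT μ nm ξ, r ≤ a ∧ r ≤ b ∧ r ≤ q ∧ r.D = q.D ∧ r.e = q.e ∧
      ∀ ζ, ζ ∈ r.F ↔ ζ ∈ q.F ∨ ζ ∈ a.F ∨ ζ ∈ b.F := by
  classical
  rw [mem_Pst] at hq
  obtain ⟨N, hN⟩ : ∃ N : ℕ, ∀ ζ ∈ a.F ∪ b.F, ∀ α ∈ a.D ∪ b.D, a.g ζ α < N ∧ b.g ζ α < N := by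
    refine ⟨((a.F ∪ b.F) ×ˢ (a.D ∪ b.D)).sup (fun x => a.g x.1 x.2 + b.g x.1 x.2) + 1, ?_⟩
    intro ζ hζ α hα
    have := Finset.le_sup (f := fun x : Θ × K => a.g x.1 x.2 + b.g x.1 x.2)
      (Finset.mem_product.2 ⟨hζ, hα⟩ : (ζ, α) ∈ (a.F ∪ b.F) ×ˢ (a.D ∪ b.D))
    simp only at this
    omega
  obtain ⟨idx, hidx⟩ : ∃ idx : K → ℕ, ∀ α ∈ q.D, ∀ β ∈ q.D, idx α = idx β → α = β := by
    refine ⟨fun α => if h : α ∈ q.D then (q.D.equivFin ⟨α, h⟩ : ℕ) else 0, ?_⟩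
    intro α hα β hβ h
    simp only [hα, hβ, dif_pos] at h
    have := q.D.equivFin.injective (Fin.val_injective h)
    exact congrArg Subtype.val this
  set G : Θ → K → ℕ := fun ζ α => if ζ ∈ q.F then q.g ζ α else
    if ζ ∈ a.F ∧ α ∈ a.D then a.g ζ α else if ζ ∈ b.F ∧ α ∈ b.D then b.g ζ α else N + idx α
    with hG
  set r : Cond K Θ := Cond.of q.D (q.F ∪ a.F ∪ b.F) q.e G with hr
  have haD : a.D ⊆ q.D := hqa.1
  have hbD : b.D ⊆ q.D := hqb.1
  have hgr : ∀ ζ ∈ r.F, ∀ α ∈ r.D, r.g ζ α = G ζ α := fun ζ hζ α hα => Cond.of_g hζ hα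
  have hge : ∀ ζ, ζ ∉ q.F → ζ ∈ a.F ∨ ζ ∈ b.F → η ≤ ζ := by
    intro ζ h1 h2
    by_contra h3
    push Not at h3
    rcases h2 with h2 | h2
    · exact h1 (hqa.2.1 (Cond.mem_res_F.2 ⟨h2, h3⟩))
    · exact h1 (hqb.2.1 (Cond.mem_res_F.2 ⟨h2, h3⟩))
  have hlt : ∀ ζ ∈ q.F, ζ < η := fun ζ hζ => (hq ζ hζ).1
  have hra : r ≤ a := by
    refine ⟨haD, fun ζ hζ => by simp [hr, hζ], fun α hα β hβ => hqa.2.2.1 α hα β hβ, ?_⟩
    intro ζ hζ α hα
    rw [hgr ζ (by simp [hr, hζ]) α (haD hα)]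
    by_cases h : ζ ∈ q.F
    · simp only [hG, h, if_true]
      rw [hqa.2.2.2 ζ (Cond.mem_res_F.2 ⟨hζ, hlt ζ h⟩) α hα, Cond.res_g hζ (hlt ζ h) hα]
    · simp only [hG, h, if_false, hζ, hα, and_self, if_true]
  have hrb : r ≤ b := by
    refine ⟨hbD, fun ζ hζ => by simp [hr, hζ], fun α hα β hβ => hqb.2.2.1 α hα β hβ, ?_⟩
    intro ζ hζ α hα
    rw [hgr ζ (by simp [hr, hζ]) α (hbD hα)]
    by_cases h : ζ ∈ q.F
    · simp only [hG, h, if_true]
      rw [hqb.2.2.2 ζ (Cond.mem_res_F.2 ⟨hζ, hlt ζ h⟩) α hα, Cond.res_g hζ (hlt ζ h) hα]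
    · by_cases h2 : ζ ∈ a.F ∧ α ∈ a.D
      · simp only [hG, h, if_false, h2, and_self, if_true]
        exact hc ζ h2.1 hζ (hge ζ h (Or.inr hζ)) α h2.2 hα
      · simp only [hG, h, if_false, h2, hζ, hα, and_self, if_true]
  have hrq : r ≤ q := by
    refine ⟨subset_rfl, fun ζ hζ => by simp [hr, hζ], fun _ _ _ _ => Iff.rfl, ?_⟩
    intro ζ hζ α hα
    rw [hgr ζ (by simp [hr, hζ]) α hα]
    simp only [hG, hζ, if_true]
  refine ⟨r, ?_, hra, hrb, hrq, rfl, rfl, fun ζ => by simp [hr]⟩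
  intro ζ hζ
  have hζ' : ζ ∈ q.F ∨ ζ ∈ a.F ∨ ζ ∈ b.F := by
    simpa [hr, or_assoc] using hζ
  refine ⟨?_, ?_⟩
  · rcases hζ' with h | h | h
    · exact lt_of_lt_of_le (WithTop.coe_lt_coe.2 (hlt ζ h)) hηξ
    · exact (ha ζ h).1
    · exact (hb ζ h).1
  · intro α hα β hβ hαβ hg s hs hsr
    have hα' : α ∈ q.D := hα
    have hβ' : β ∈ q.D := hβ
    rw [hgr ζ hζ α hα, hgr ζ hζ β hβ] at hg
    by_cases h : ζ ∈ q.F
    · simp only [hG, h, if_true] at hg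
      exact (hq ζ h).2 α hα β hβ hαβ hg s hs (hsr.trans (Cond.res_mono hrq ζ))
    · have hηζ : η ≤ ζ := hge ζ h (hζ'.resolve_left h)
      simp only [hG, h, if_false] at hg
      have hsa : s ≤ a.res ζ := hsr.trans (Cond.res_mono hra ζ)
      have hsb : s ≤ b.res ζ := hsr.trans (Cond.res_mono hrb ζ)
      have hsq : s ≤ q := by
        refine hsr.trans ((Cond.res_mono hrq ζ).trans (Cond.res_le fun x hx => ?_))
        exact (hlt x hx).trans_le hηζ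
      have hNa : ∀ x, ζ ∈ a.F → x ∈ a.D → a.g ζ x < N := fun x h1 h2 =>
        (hN ζ (by simp [h1]) x (by simp [h2])).1
      have hNb : ∀ x, ζ ∈ b.F → x ∈ b.D → b.g ζ x < N := fun x h1 h2 =>
        (hN ζ (by simp [h1]) x (by simp [h2])).2
      by_cases h1 : ζ ∈ a.F ∧ α ∈ a.D
      · rw [if_pos h1] at hg
        by_cases h2 : ζ ∈ a.F ∧ β ∈ a.D
        · rw [if_pos h2] at hg
          exact (ha ζ h1.1).2 α h1.2 β h2.2 hαβ hg s hs hsa
        · rw [if_neg h2] at hg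
          by_cases h3 : ζ ∈ b.F ∧ β ∈ b.D
          · rw [if_pos h3] at hg
            by_cases h4 : α ∈ b.D
            · refine (hb ζ h3.1).2 α h4 β h3.2 hαβ ?_ s hs hsb
              rw [← hg]
              exact (hc ζ h1.1 h3.1 hηζ α h1.2 h4).symm
            · exact (hX ζ h1.1 h3.1 hηζ α h1.2 h4 β h3.2 (fun h5 => h2 ⟨h1.1, h5⟩) hg s hs
                hsq).1 hαβ
          · rw [if_neg h3] at hg
            have := hNa α h1.1 h1.2
            omega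
      · rw [if_neg h1] at hg
        by_cases h3 : ζ ∈ b.F ∧ α ∈ b.D
        · rw [if_pos h3] at hg
          by_cases h2 : ζ ∈ a.F ∧ β ∈ a.D
          · rw [if_pos h2] at hg
            by_cases h4 : β ∈ b.D
            · refine (hb ζ h3.1).2 α h3.2 β h4 hαβ ?_ s hs hsb
              rw [hg]
              exact hc ζ h2.1 h3.1 hηζ β h2.2 h4
            · exact (hX ζ h2.1 h3.1 hηζ β h2.2 h4 α h3.2 (fun h5 => h1 ⟨h2.1, h5⟩) hg.symm s hs
                hsq).2 hαβ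
          · rw [if_neg h2] at hg
            by_cases h4 : ζ ∈ b.F ∧ β ∈ b.D
            · rw [if_pos h4] at hg
              exact (hb ζ h3.1).2 α h3.2 β h4.2 hαβ hg s hs hsb
            · rw [if_neg h4] at hg
              have := hNb α h3.1 h3.2
              omega
        · rw [if_neg h3] at hg
          by_cases h2 : ζ ∈ a.F ∧ β ∈ a.D
          · rw [if_pos h2] at hg
            have := hNa β h2.1 h2.2
            omega
          · rw [if_neg h2] at hg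
            by_cases h4 : ζ ∈ b.F ∧ β ∈ b.D
            · rw [if_pos h4] at hg
              have := hNb β h4.1 h4.2
              omega
            · rw [if_neg h4] at hg
              exact absurd (hidx α hα' β hβ' (by omega)) hαβ.ne

theorem BadAt.edge {ζ : Θ} {α β : K} {s : Cond K Θ} (h : s ∈ BadAt μ nm ζ α β) :
    α ∈ s.D ∧ β ∈ s.D ∧ s.e α β := ⟨h.2.1, h.2.2.1, h.2.2.2.1⟩

/-- A condition without stages. -/
noncomputable def base (Θ : Type) {K : Type} (D : Finset K) (e : K → K → Prop) : Cond K Θ :=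
  Cond.of D ∅ e fun _ _ => 0

omit [LinearOrder K] [LinearOrder Θ] [WellFoundedLT Θ] in
theorem le_base {p : Cond K Θ} {D : Finset K} {e : K → K → Prop} (h : D ⊆ p.D)
    (he : ∀ α ∈ D, ∀ β ∈ D, (p.e α β ↔ e α β)) : p ≤ base Θ D e :=
  ⟨h, Finset.empty_subset _, he, fun η hη => absurd hη (Finset.notMem_empty η)⟩

theorem base_mem_Pst (D : Finset K) (e : K → K → Prop) (η : Θ) :
    base Θ D e ∈ Pst μ nm η := by
  rw [mem_Pst]
  exact fun η hη => absurd hη (Finset.notMem_empty η)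

theorem base_mem_PT (D : Finset K) (e : K → K → Prop) (ξ : WithTop Θ) :
    base Θ D e ∈ PT μ nm ξ := fun η hη => absurd hη (Finset.notMem_empty η)

theorem Pst_le {ξ : WithTop Θ} {η : Θ} (h : (η : WithTop Θ) ≤ ξ) : Pst μ nm η ⊆ PT μ nm ξ := by
  rw [Pst_eq]
  exact PT_mono h

/-- Extending a restriction. -/
theorem exists_proj {ξ : WithTop Θ} {η : Θ} (hηξ : (η : WithTop Θ) ≤ ξ) {p q : Cond K Θ}
    (hp : p ∈ PT μ nm ξ) (hq : q ∈ Pst μ nm η) (h : q ≤ p.res η) :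
    ∃ r ∈ PT μ nm ξ, r ≤ p ∧ r ≤ q ∧ r.D = q.D ∧ r.e = q.e ∧
      (∀ ζ, ζ ∈ r.F ↔ ζ ∈ q.F ∨ ζ ∈ p.F) ∧ q ≤ r.res η := by
  obtain ⟨r, h1, h2, -, h3, h4, h5, h6⟩ := amalg (a := p) (b := base Θ ∅ fun _ _ => False) hηξ hq
    hp (base_mem_PT _ _ _) h ⟨Finset.empty_subset _, fun ζ hζ => by
      simp [Cond.mem_res_F, base] at hζ, fun α hα => absurd hα (Finset.notMem_empty α),
      fun ζ hζ => by simp [Cond.mem_res_F, base] at hζ⟩
    (fun ζ _ hζ => absurd hζ (Finset.notMem_empty ζ))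
    (fun ζ _ hζ => absurd hζ (Finset.notMem_empty ζ))
  have h6' : ∀ ζ, ζ ∈ r.F ↔ ζ ∈ q.F ∨ ζ ∈ p.F := by
    intro ζ
    rw [h6]
    simp [base]
  have h7 : ∀ ζ ∈ (r.res η).F, ζ ∈ q.F := by
    intro ζ hζ
    rw [Cond.mem_res_F, h6'] at hζ
    rcases hζ.1 with h | h'
    · exact h
    · exact h.2.1 (Cond.mem_res_F.2 ⟨h', hζ.2⟩)
  refine ⟨r, h1, h2, h3, h4, h5, h6', ?_, h7, ?_, ?_⟩
  · rw [Cond.res_D, h4]
  · intro α _ β _
    rw [Cond.res_e, h5]
  · intro ζ hζ α hα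
    rw [Cond.res_D, h4] at hα
    rw [Cond.res_g (Cond.mem_res_F.1 hζ).1 (Cond.mem_res_F.1 hζ).2 (by rwa [h4]),
      h3.2.2.2 ζ (h7 ζ hζ) α hα]

variable [OrderBot Θ]

/-- Points can be added to the domain of a condition. -/
theorem exists_point {ξ : WithTop Θ} {p : Cond K Θ} (hp : p ∈ PT μ nm ξ) (α : K) :
    ∃ r ∈ PT μ nm ξ, r ≤ p ∧ α ∈ r.D := by
  classical
  have hb : ((⊥ : Θ) : WithTop Θ) ≤ ξ := by
    cases ξ with
    | top => exact le_top
    | coe x => exact WithTop.coe_le_coe.2 bot_le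
  obtain ⟨r, h1, h2, -, h4, -⟩ := exists_proj (q := base Θ (insert α p.D) p.e) hb hp
    (base_mem_Pst _ _ _) ⟨Finset.subset_insert _ _, fun ζ hζ => by
      simp [Cond.mem_res_F] at hζ, fun _ _ _ _ => Iff.rfl, fun ζ hζ => by
      simp [Cond.mem_res_F] at hζ⟩
  exact ⟨r, h1, h2, by rw [h4]; exact Finset.mem_insert_self _ _⟩

/-- Stages can be added to the domain of a condition. -/
theorem exists_stage {ξ : WithTop Θ} {p : Cond K Θ} (hp : p ∈ PT μ nm ξ) {ζ : Θ}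
    (hζ : (ζ : WithTop Θ) < ξ) : ∃ r ∈ PT μ nm ξ, r ≤ p ∧ ζ ∈ r.F := by
  classical
  have hb : ((⊥ : Θ) : WithTop Θ) ≤ ξ := by
    cases ξ with
    | top => exact le_top
    | coe x => exact WithTop.coe_le_coe.2 bot_le
  set b : Cond K Θ := Cond.of ∅ {ζ} (fun _ _ => False) fun _ _ => 0 with hbdef
  have hbP : b ∈ PT μ nm ξ := by
    intro η hη
    have : η = ζ := Finset.mem_singleton.1 hη
    subst this
    exact ⟨hζ, fun α hα => absurd hα (Finset.notMem_empty α)⟩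
  obtain ⟨r, h1, h2, h3, -⟩ := amalg (a := p) (b := b) (q := base Θ p.D p.e) hb
    (base_mem_Pst _ _ _) hp hbP ⟨subset_rfl, fun ζ hζ => by
      simp [Cond.mem_res_F] at hζ, fun _ _ _ _ => Iff.rfl, fun ζ hζ => by
      simp [Cond.mem_res_F] at hζ⟩ ⟨Finset.empty_subset _, fun ζ hζ => by
      simp [Cond.mem_res_F] at hζ, fun α hα => absurd hα (Finset.notMem_empty α), fun ζ hζ => by
      simp [Cond.mem_res_F] at hζ⟩
    (fun _ _ _ _ α _ hα => absurd hα (Finset.notMem_empty α))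
    (fun _ _ _ _ α _ _ α' hα' => absurd hα' (Finset.notMem_empty α'))
  exact ⟨r, h1, h2, h3.2.1 (Finset.mem_singleton_self ζ)⟩

/-- Amalgamation without new edges. -/
theorem exists_free {ξ : WithTop Θ} {a b : Cond K Θ} (ha : a ∈ PT μ nm ξ) (hb : b ∈ PT μ nm ξ)
    (he : ∀ α ∈ a.D, α ∈ b.D → ∀ β ∈ a.D, β ∈ b.D → (a.e α β ↔ b.e α β))
    (hg : ∀ ζ ∈ a.F, ζ ∈ b.F → ∀ α ∈ a.D, α ∈ b.D → a.g ζ α = b.g ζ α) :
    ∃ r ∈ PT μ nm ξ, r ≤ a ∧ r ≤ b := by
  classical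
  have hbot : ((⊥ : Θ) : WithTop Θ) ≤ ξ := by
    cases ξ with
    | top => exact le_top
    | coe x => exact WithTop.coe_le_coe.2 bot_le
  set E : K → K → Prop := fun x y => (x ∈ a.D ∧ y ∈ a.D ∧ a.e x y) ∨ (x ∈ b.D ∧ y ∈ b.D ∧ b.e x y)
    with hE
  obtain ⟨r, h1, h2, h3, -⟩ := amalg (a := a) (b := b) (q := base Θ (a.D ∪ b.D) E) hbot
    (base_mem_Pst _ _ _) ha hb
    ⟨Finset.subset_union_left, fun ζ hζ => by simp [Cond.mem_res_F] at hζ, fun α hα β hβ => by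
        have hα' : α ∈ a.D := hα
        have hβ' : β ∈ a.D := hβ
        show E α β ↔ a.e α β
        constructor
        · rintro (h | h)
          · exact h.2.2
          · exact (he α hα' h.1 β hβ' h.2.1).2 h.2.2
        · exact fun h => Or.inl ⟨hα', hβ', h⟩,
      fun ζ hζ => by simp [Cond.mem_res_F] at hζ⟩
    ⟨Finset.subset_union_right, fun ζ hζ => by simp [Cond.mem_res_F] at hζ, fun α hα β hβ => by
        have hα' : α ∈ b.D := hα
        have hβ' : β ∈ b.D := hβ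
        show E α β ↔ b.e α β
        constructor
        · rintro (h | h)
          · exact (he α h.1 hα' β h.2.1 hβ').1 h.2.2
          · exact h.2.2
        · exact fun h => Or.inr ⟨hα', hβ', h⟩,
      fun ζ hζ => by simp [Cond.mem_res_F] at hζ⟩
    (fun ζ h1 h2 _ => hg ζ h1 h2)
    (by
      intro ζ _ _ _ α hα hα' α' hβ hβ' _ s _ hsq
      have hD : ∀ x ∈ a.D ∪ b.D, ∀ y ∈ a.D ∪ b.D, (s.e x y ↔ E x y) := hsq.2.2.1
      refine ⟨fun _ hs => ?_, fun _ hs => ?_⟩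
      · have := (hD α (Finset.mem_union_left _ hα) α' (Finset.mem_union_right _ hβ)).1
          (BadAt.edge hs).2.2
        rcases this with h | h
        · exact hβ' h.2.1
        · exact hα' h.1
      · have := (hD α' (Finset.mem_union_right _ hβ) α (Finset.mem_union_left _ hα)).1
          (BadAt.edge hs).2.2
        rcases this with h | h
        · exact hβ' h.1
        · exact hα' h.2.1)
  exact ⟨r, h1, h2, h3⟩

end Pool.Agent.Lib.MP_d41870_lc.Forc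

end

section

/-!
# The countable chain condition and the existence of links
-/


namespace Pool.Agent.Lib.MP_d41870_lc.Forc

open Set

variable {K Θ : Type} [LinearOrder K] [LinearOrder Θ] [WellFoundedLT Θ] [OrderBot Θ]
  {μ : NormalMeasure K} {nm : Θ → Nm K Θ}

theorem exists_pair_of_uncountable {I X : Type} [Countable X] {S : Set I} (hS : ¬ S.Countable)
    (f : I → X) : ∃ i ∈ S, ∃ j ∈ S, i ≠ j ∧ f i = f j := by
  by_contra h
  push Not at h
  refine hS (Set.MapsTo.countable_of_injOn (mapsTo_univ f S) ?_ (Set.countable_univ))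
  intro i hi j hj hij
  by_contra hne
  exact h i hi j hj hne hij

/-- The countable chain condition. -/
theorem ccc (ξ : WithTop Θ) {I : Type} {S : Set I} (hS : ¬ S.Countable) (a : I → Cond K Θ)
    (ha : ∀ i ∈ S, a i ∈ PT μ nm ξ) :
    ∃ i ∈ S, ∃ j ∈ S, i ≠ j ∧ ∃ r ∈ PT μ nm ξ, r ≤ a i ∧ r ≤ a j := by
  classical
  obtain ⟨J, hJS, hJ, R, hR⟩ := delta_uncountable S hS fun i => (a i).D
  obtain ⟨J', hJ'J, hJ', F, hF⟩ := delta_uncountable J hJ fun i => (a i).F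
  obtain ⟨i, hi, j, hj, hij, hval⟩ := exists_pair_of_uncountable (I := I)
    (X := ((R × R → Prop) × (F × R → ℕ))) hJ' fun i =>
      (fun x => (a i).e x.1 x.2, fun x => (a i).g x.1 x.2)
  refine ⟨i, hJS (hJ'J hi), j, hJS (hJ'J hj), hij, ?_⟩
  have hRij := hR i (hJ'J hi) j (hJ'J hj) hij
  have hFij := hF i hi j hj hij
  simp only [Prod.mk.injEq] at hval
  refine exists_free (ha i (hJS (hJ'J hi))) (ha j (hJS (hJ'J hj))) ?_ ?_
  · intro α h1 h2 β h3 h4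
    have h5 : α ∈ R := by rw [← hRij]; exact Finset.mem_inter.2 ⟨h1, h2⟩
    have h6 : β ∈ R := by rw [← hRij]; exact Finset.mem_inter.2 ⟨h3, h4⟩
    exact iff_of_eq (congrFun hval.1 (⟨α, h5⟩, ⟨β, h6⟩))
  · intro ζ h3 h4 α h1 h2
    have h5 : α ∈ R := by rw [← hRij]; exact Finset.mem_inter.2 ⟨h1, h2⟩
    have h6 : ζ ∈ F := by rw [← hFij]; exact Finset.mem_inter.2 ⟨h3, h4⟩
    exact congrFun hval.2 (⟨ζ, h6⟩, ⟨α, h5⟩)

theorem fam_spec (P : Set (Cond K Θ)) (c : Nm K Θ) : IsFam μ P c (fam μ P c) ∧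
    ∀ b, OneForced μ P c b → ∃ a ∈ fam μ P c, {δ | Incomp P (a δ) (b δ)} ∉ μ.U :=
  (exists_fam μ P c).choose_spec

theorem fam_countable (η : Θ) (c : Nm K Θ) : (fam μ (Pst μ nm η) c).Countable := by
  by_contra hunc
  have hfam := (fam_spec (μ := μ) (Pst μ nm η) c).1
  have h1 : Cardinal.aleph 1 ≤ Cardinal.mk (fam μ (Pst μ nm η) c) := by
    rw [← Cardinal.succ_aleph0, Order.succ_le_iff]
    rw [← not_le, Cardinal.le_aleph0_iff_set_countable]
    exact hunc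
  obtain ⟨J, hJsub, hJcard⟩ := Cardinal.le_mk_iff_exists_subset.1 h1
  have hJunc : ¬ (univ : Set J).Countable := by
    intro h
    have h2 : Cardinal.mk J ≤ Cardinal.aleph0 := by
      rw [Cardinal.mk_le_aleph0_iff]
      exact Set.countable_univ_iff.1 h
    rw [hJcard] at h2
    exact absurd h2 (not_le.2 Cardinal.aleph0_lt_aleph_one)
  have hmem : (⋂ x : J × J, {δ | (x.1.1 δ) ∈ Pst μ nm η ∧
      (x.1 ≠ x.2 → Incomp (Pst μ nm η) (x.1.1 δ) (x.2.1 δ))}) ∈ μ.U := by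
    refine μ.inter _ ?_ _ ?_
    · rw [Cardinal.mk_prod, hJcard]
      simp
    · rintro ⟨x, y⟩
      obtain ⟨T, hT, hT2, -⟩ := hfam.1 x.1 (hJsub x.2)
      by_cases hxy : x = y
      · refine Filter.mem_of_superset hT fun δ hδ => ⟨(hT2 δ hδ).1, fun h => absurd hxy h⟩
      · have h3 := hfam.2 x.1 (hJsub x.2) y.1 (hJsub y.2) (fun h => hxy (Subtype.ext h))
        refine Filter.mem_of_superset (Filter.inter_mem hT h3) fun δ hδ =>
          ⟨(hT2 δ hδ.1).1, fun _ => hδ.2⟩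
  obtain ⟨δ, hδ⟩ := μ.U.nonempty_of_mem hmem
  simp only [mem_iInter] at hδ
  obtain ⟨i, -, j, -, hij, r, hr, hri, hrj⟩ := ccc (μ := μ) (nm := nm) (η : WithTop Θ) hJunc
    (fun x => x.1 δ) (fun x _ => by rw [← Pst_eq]; exact (hδ (x, x)).1)
  rw [← Pst_eq] at hr
  exact (hδ (i, j)).2 hij r hr ⟨hri, hrj⟩

/-- Normalisation of a function `K → P` on a large set. -/
structure Normalised (a : K → Cond K Θ) (T : Set K) (R : Finset K) (F : Finset Θ) : Prop where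
  mem : ∀ δ ∈ T, δ ∈ (a δ).D
  root : ∀ δ ∈ T, ∀ α, α ∈ R ↔ α ∈ (a δ).D ∧ α < δ
  lt : ∀ β ∈ T, ∀ δ ∈ T, β < δ → ∀ α ∈ (a β).D, α < δ
  stages : ∀ β ∈ T, ∀ δ ∈ T, β < δ → ∀ ζ ∈ (a β).F, ζ ∈ (a δ).F → ζ ∈ F
  stages' : ∀ δ ∈ T, F ⊆ (a δ).F
  g : ∀ β ∈ T, ∀ δ ∈ T, ∀ ζ ∈ F, ∀ α ∈ R, (a β).g ζ α = (a δ).g ζ α
  e : ∀ β ∈ T, ∀ δ ∈ T, ∀ α ∈ R, ∀ α' ∈ R, ((a β).e α α' ↔ (a δ).e α α')

omit [WellFoundedLT Θ] [OrderBot Θ] in
theorem exists_normalised {T : Set K} (hT : T ∈ μ.U) (a : K → Cond K Θ)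
    (ha : ∀ δ ∈ T, δ ∈ (a δ).D) :
    ∃ T' ∈ μ.U, T' ⊆ T ∧ ∃ R F, Normalised a T' R F := by
  classical
  obtain ⟨R, hR⟩ := μ.fodor_finset hT (fun δ => (a δ).D.filter (· < δ)) (by simp)
  set T1 := {δ | δ ∈ T ∧ (a δ).D.filter (· < δ) = R} with hT1
  obtain ⟨F, T2, hT2, hT21, hF1, hF2⟩ := μ.delta_system hR (fun δ => (a δ).F)
  obtain ⟨x, hx⟩ := μ.const_countable hT2 (X := ((R × R → Prop) × (F × R → ℕ)))
    fun i => (fun x => (a i).e x.1 x.2, fun x => (a i).g x.1 x.2)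
  have hdiag := μ.diag (fun β => {δ | ∀ α ∈ (a β).D, α < δ}) (by
    intro β
    have : {δ | ∀ α ∈ (a β).D, α < δ} = ⋂ α ∈ (a β).D, Ioi α := by
      ext δ
      simp
    rw [this]
    exact (Filter.biInter_finset_mem _).2 fun α _ => μ.ioi α)
  refine ⟨{δ | δ ∈ T2 ∧ ((fun x => (a δ).e x.1 x.2, fun x => (a δ).g x.1 x.2) :
      ((R × R → Prop) × (F × R → ℕ))) = x} ∩ {δ | ∀ β < δ, δ ∈ {δ | ∀ α ∈ (a β).D, α < δ}},
    Filter.inter_mem hx hdiag, fun δ hδ => (hT21 hδ.1.1).1, R, F, ?_, ?_, ?_, ?_, ?_, ?_, ?_⟩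
  · exact fun δ hδ => ha δ (hT21 hδ.1.1).1
  · intro δ hδ α
    rw [← (hT21 hδ.1.1).2]
    simp
  · intro β hβ δ hδ hβδ α hα
    exact hδ.2 β hβδ α hα
  · intro β hβ δ hδ hβδ ζ h1 h2
    rw [← hF2 β hβ.1.1 δ hδ.1.1 hβδ]
    exact Finset.mem_inter.2 ⟨h1, h2⟩
  · exact fun δ hδ => hF1 δ hδ.1.1
  · intro β hβ δ hδ ζ hζ α hα
    have h1 := hβ.1.2.trans hδ.1.2.symm
    simp only [Prod.mk.injEq] at h1
    exact congrFun h1.2 (⟨ζ, hζ⟩, ⟨α, hα⟩)
  · intro β hβ δ hδ α hα α' hα'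
    have h1 := hβ.1.2.trans hδ.1.2.symm
    simp only [Prod.mk.injEq] at h1
    exact iff_of_eq (congrFun h1.1 (⟨α, hα⟩, ⟨α', hα'⟩))

omit [WellFoundedLT Θ] [OrderBot Θ] in
theorem Normalised.mono {a : K → Cond K Θ} {T T' : Set K} {R : Finset K} {F : Finset Θ}
    (h : Normalised a T R F) (hT : T' ⊆ T) : Normalised a T' R F :=
  ⟨fun δ hδ => h.mem δ (hT hδ), fun δ hδ => h.root δ (hT hδ),
    fun β hβ δ hδ => h.lt β (hT hβ) δ (hT hδ), fun β hβ δ hδ => h.stages β (hT hβ) δ (hT hδ),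
    fun δ hδ => h.stages' δ (hT hδ), fun β hβ δ hδ => h.g β (hT hβ) δ (hT hδ),
    fun β hβ δ hδ => h.e β (hT hβ) δ (hT hδ)⟩

section

variable {a : K → Cond K Θ} {T : Set K} {R : Finset K} {F : Finset Θ}

omit [WellFoundedLT Θ] [OrderBot Θ] in
theorem Normalised.mem_R (h : Normalised a T R F) {β δ : K} (hβ : β ∈ T) (hδ : δ ∈ T)
    (hβδ : β < δ) {α : K} (h1 : α ∈ (a β).D) (h2 : α ∈ (a δ).D) : α ∈ R :=
  (h.root δ hδ α).2 ⟨h2, h.lt β hβ δ hδ hβδ α h1⟩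

omit [WellFoundedLT Θ] [OrderBot Θ] in
theorem Normalised.le_left (h : Normalised a T R F) {β δ : K} (hβ : β ∈ T) (hδ : δ ∈ T)
    {α : K} (h1 : α ∈ (a β).D) (h2 : α ∉ (a δ).D) : β ≤ α := by
  by_contra h3
  push Not at h3
  exact h2 ((h.root δ hδ α).1 ((h.root β hβ α).2 ⟨h1, h3⟩)).1

end

/-- Property (H): links exist. -/
theorem link_exists : ∀ (ξ : WithTop Θ) (T : Set K), T ∈ μ.U → ∀ a : K → Cond K Θ,
    (∀ δ ∈ T, a δ ∈ PT μ nm ξ ∧ δ ∈ (a δ).D) →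
      ∃ β ∈ T, ∃ δ ∈ T, β < δ ∧ (Link (PT μ nm ξ) β δ (a β) (a δ)).Nonempty := by
  classical
  intro ξ
  induction ξ using WellFoundedLT.induction with
  | ind ξ IH =>
  intro T hT a ha
  obtain ⟨T1, hT1, hT1T, R, F, hn⟩ := exists_normalised hT a fun δ hδ => (ha δ hδ).2
  by_cases hF : F = ∅
  · -- no common stages
    subst hF
    obtain ⟨β, hβ⟩ := μ.U.nonempty_of_mem hT1
    obtain ⟨δ, hδ, hβδ⟩ := μ.U.nonempty_of_mem (Filter.inter_mem hT1 (μ.ioi β))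
    have hβδ' : β < δ := hβδ
    refine ⟨β, hT1T hβ, δ, hT1T hδ, hβδ', ?_⟩
    set E : K → K → Prop := fun x y => (x ∈ (a β).D ∧ y ∈ (a β).D ∧ (a β).e x y) ∨
      (x ∈ (a δ).D ∧ y ∈ (a δ).D ∧ (a δ).e x y) ∨ (x = β ∧ y = δ) with hE
    have hbot : ((⊥ : Θ) : WithTop Θ) ≤ ξ := by
      cases ξ with
      | top => exact le_top
      | coe x => exact WithTop.coe_le_coe.2 bot_le
    have hδβ : δ ∉ (a β).D := fun h => lt_irrefl _ (hn.lt β hβ δ hδ hβδ' δ h)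
    have hβδD : β ∉ (a δ).D := by
      intro h
      have := (hn.root δ hδ β).2 ⟨h, hβδ'⟩
      exact lt_irrefl _ ((hn.root β hβ β).1 this).2
    obtain ⟨r, h1, h2, h3, -, h5, h6, -⟩ := amalg (a := a β) (b := a δ)
      (q := base Θ ((a β).D ∪ (a δ).D) E) hbot (base_mem_Pst _ _ _) (ha β (hT1T hβ)).1
      (ha δ (hT1T hδ)).1
      ⟨Finset.subset_union_left, fun ζ hζ => by simp [Cond.mem_res_F] at hζ, fun α hα α' hα' => by
        have hα1 : α ∈ (a β).D := hα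
        have hα1' : α' ∈ (a β).D := hα'
        show E α α' ↔ (a β).e α α'
        constructor
        · rintro (h | h | h)
          · exact h.2.2
          · exact (hn.e β hβ δ hδ α (hn.mem_R hβ hδ hβδ' hα1 h.1) α'
              (hn.mem_R hβ hδ hβδ' hα1' h.2.1)).2 h.2.2
          · exact absurd (h.2 ▸ hα1') hδβ
        · exact fun h => Or.inl ⟨hα1, hα1', h⟩,
        fun ζ hζ => by simp [Cond.mem_res_F] at hζ⟩
      ⟨Finset.subset_union_right, fun ζ hζ => by simp [Cond.mem_res_F] at hζ, fun α hα α' hα' => by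
        have hα1 : α ∈ (a δ).D := hα
        have hα1' : α' ∈ (a δ).D := hα'
        show E α α' ↔ (a δ).e α α'
        constructor
        · rintro (h | h | h)
          · exact (hn.e β hβ δ hδ α (hn.mem_R hβ hδ hβδ' h.1 hα1) α'
              (hn.mem_R hβ hδ hβδ' h.2.1 hα1')).1 h.2.2
          · exact h.2.2
          · exact absurd (h.1 ▸ hα1) hβδD
        · exact fun h => Or.inr (Or.inl ⟨hα1, hα1', h⟩),
        fun ζ hζ => by simp [Cond.mem_res_F] at hζ⟩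
      (fun ζ h1 h2 _ => absurd (hn.stages β hβ δ hδ hβδ' ζ h1 h2) (Finset.notMem_empty ζ))
      (fun ζ h1 h2 _ => absurd (hn.stages β hβ δ hδ hβδ' ζ h1 h2) (Finset.notMem_empty ζ))
    refine ⟨r, h1, h2, h3, hn.mem β hβ, hn.mem δ hδ, ?_, ?_⟩
    · rw [h6]
      exact Or.inr (Or.inr ⟨rfl, rfl⟩)
    · intro α hα hβα α' hα' hδα' hne
      rw [h6]
      rintro (h | h | h)
      · exact absurd (hn.lt β hβ δ hδ hβδ' α' h.2.1) (not_lt.2 hδα')
      · have := hn.mem_R hβ hδ hβδ' hα h.1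
        exact absurd ((hn.root β hβ α).1 this).2 (not_lt.2 hβα)
      · rcases hne with h' | h'
        · exact h' h.1
        · exact h' h.2
  · -- the largest common stage
    obtain ⟨η, hηF, hηmax⟩ : ∃ η ∈ F, ∀ ζ ∈ F, ζ ≤ η :=
      ⟨F.max' (Finset.nonempty_iff_ne_empty.2 hF), Finset.max'_mem _ _,
        fun ζ hζ => Finset.le_max' _ _ hζ⟩
    obtain ⟨δ0, hδ0⟩ := μ.U.nonempty_of_mem hT1
    have hηξ : (η : WithTop Θ) < ξ := ((ha δ0 (hT1T hδ0)).1 η (hn.stages' δ0 hδ0 hηF)).1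
    set P := Pst μ nm η with hP
    set A := fam μ P (nm η) with hA
    have hbP : ∀ δ ∈ T1, (a δ).res η ∈ P := fun δ hδ => res_mem (ha δ (hT1T hδ)).1 η
    -- the properties of the chosen extensions
    obtain ⟨T2, hT2, hT21, p', hp'P, hp'b, hp'⟩ : ∃ T2 ∈ μ.U, T2 ⊆ T1 ∧ ∃ p' : K → Cond K Θ,
        (∀ δ ∈ T2, p' δ ∈ P) ∧ (∀ δ ∈ T2, p' δ ≤ (a δ).res η) ∧
        ∀ T3 ∈ μ.U, T3 ⊆ T2 → ∃ β ∈ T3, ∃ δ ∈ T3, β < δ ∧ ∃ q ∈ Link P β δ (p' β) (p' δ),
          ∀ s ∈ P, s ≤ q → s ∉ Bad P A (nm η) β δ := by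
      by_cases hcase : ∃ f ∈ A, {δ | δ ∈ T1 ∧ f δ ∈ P ∧ ∃ r ∈ P, r ≤ (a δ).res η ∧ r ≤ f δ} ∈ μ.U
      · obtain ⟨f, hfA, hf⟩ := hcase
        obtain ⟨Tf, hTf, hTf1, hTf2⟩ := (fam_spec (μ := μ) P (nm η)).1.1 f hfA
        have hch : ∀ δ, ∃ r, δ ∈ {δ | δ ∈ T1 ∧ f δ ∈ P ∧ ∃ r ∈ P, r ≤ (a δ).res η ∧ r ≤ f δ} →
            r ∈ P ∧ r ≤ (a δ).res η ∧ r ≤ f δ := by
          intro δ
          by_cases h : δ ∈ {δ | δ ∈ T1 ∧ f δ ∈ P ∧ ∃ r ∈ P, r ≤ (a δ).res η ∧ r ≤ f δ}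
          · obtain ⟨-, -, r, h1, h2⟩ := h
            exact ⟨r, fun _ => ⟨h1, h2⟩⟩
          · exact ⟨a δ, fun h' => absurd h' h⟩
        choose p' hp' using hch
        refine ⟨_, Filter.inter_mem hf hTf, fun δ hδ => hδ.1.1, p', fun δ hδ => (hp' δ hδ.1).1,
          fun δ hδ => (hp' δ hδ.1).2.1, ?_⟩
        intro T3 hT3 hT32
        obtain ⟨β, hβ, δ, hδ, hβδ, q, hq⟩ := IH (η : WithTop Θ) hηξ T3 hT3 p' (by
          intro δ hδ
          rw [← Pst_eq]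
          refine ⟨(hp' δ (hT32 hδ).1).1, (hp' δ (hT32 hδ).1).2.1.1 ?_⟩
          exact hn.mem δ (hT32 hδ).1.1)
        rw [← Pst_eq] at hq
        refine ⟨β, hβ, δ, hδ, hβδ, q, hq, ?_⟩
        have hβf := (hp' β (hT32 hβ).1).2.2
        have hδf := (hp' δ (hT32 hδ).1).2.2
        intro s hsP hsq hs
        obtain ⟨-, hs1, hs2, hs3, hs4⟩ := hs
        rcases hs4 with ⟨-, -, hs4⟩ | ⟨hs4, -⟩
        · obtain ⟨s', hs', hs'C⟩ := hTf2 β (hT32 hβ).2 δ (hT32 hδ).2 hβδ s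
            ⟨hsP, hsq.trans (hq.2.1.trans hβf), hsq.trans (hq.2.2.1.trans hδf),
              (hTf1 β (hT32 hβ).2).2, (hTf1 δ (hT32 hδ).2).2, hs3, by
              intro α hα hβα α' hα' hδα' hne
              have h1 : α ∈ (p' β).D := hβf.1 hα
              have h2 : α' ∈ (p' δ).D := hδf.1 hα'
              rw [hsq.2.2.1 α (hq.2.1.1 h1) α' (hq.2.2.1.1 h2)]
              exact hq.2.2.2.2.2.2 α h1 hβα α' h2 hδα' hne⟩
          exact hs4 s' hs'C.1 hs' hs'C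
        · exact (hs4 s hsP le_rfl).1 ⟨hsP, f, hfA, (hTf1 β (hT32 hβ).2).1,
            hsq.trans (hq.2.1.trans hβf)⟩
      · -- no member of the family is compatible on a large set
        have hT2 : {δ | δ ∈ T1 ∧ ∀ f ∈ A, f δ ∈ P → ∀ r ∈ P, ¬ (r ≤ (a δ).res η ∧ r ≤ f δ)} ∈
            μ.U := by
          by_contra hneg
          have hneg' := Ultrafilter.compl_mem_iff_notMem.2 hneg
          apply hcase
          have hex : ∀ δ, ∃ f, δ ∈ T1 ∩ {δ | δ ∈ T1 ∧ ∀ f ∈ A, f δ ∈ P → ∀ r ∈ P,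
              ¬ (r ≤ (a δ).res η ∧ r ≤ f δ)}ᶜ →
              f ∈ A ∧ f δ ∈ P ∧ ∃ r ∈ P, r ≤ (a δ).res η ∧ r ≤ f δ := by
            intro δ
            by_cases h : δ ∈ T1 ∩ {δ | δ ∈ T1 ∧ ∀ f ∈ A, f δ ∈ P → ∀ r ∈ P,
              ¬ (r ≤ (a δ).res η ∧ r ≤ f δ)}ᶜ
            · obtain ⟨h1, h2⟩ := h
              have h3 : ¬ (δ ∈ T1 ∧ ∀ f ∈ A, f δ ∈ P → ∀ r ∈ P,
                ¬ (r ≤ (a δ).res η ∧ r ≤ f δ)) := h2
              push Not at h3
              obtain ⟨f, hf, hfP, r, hr, hr2⟩ := h3 h1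
              exact ⟨f, fun _ => ⟨hf, hfP, r, hr, hr2⟩⟩
            · exact ⟨a, fun h' => absurd h' h⟩
          choose f hf using hex
          have hTT := Filter.inter_mem hT1 hneg'
          haveI : Countable A := (fam_countable η (nm η)).to_subtype
          obtain ⟨δ1, hδ1⟩ := μ.U.nonempty_of_mem hTT
          obtain ⟨x, hx⟩ := μ.const_countable hTT (X := A) fun δ =>
            if h : f δ ∈ A then ⟨f δ, h⟩ else ⟨f δ1, (hf δ1 hδ1).1⟩
          refine ⟨x.1, x.2, Filter.mem_of_superset hx ?_⟩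
          rintro δ ⟨hδ, hδx⟩
          have h1 := hf δ hδ
          rw [dif_pos h1.1] at hδx
          have h2 : f δ = x.1 := congrArg Subtype.val hδx
          rw [← h2]
          exact ⟨hδ.1, h1.2⟩
        refine ⟨_, hT2, fun δ hδ => hδ.1, fun δ => (a δ).res η, fun δ hδ => hbP δ hδ.1,
          fun δ _ => le_rfl, ?_⟩
        intro T3 hT3 hT32
        have hnot : ¬ OneForced μ P (nm η) fun δ => (a δ).res η := by
          intro h
          obtain ⟨f, hfA, hf⟩ := (fam_spec (μ := μ) P (nm η)).2 _ h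
          obtain ⟨Tf, hTf, hTf1, -⟩ := (fam_spec (μ := μ) P (nm η)).1.1 f hfA
          refine hf (Filter.mem_of_superset (Filter.inter_mem hT2 hTf) ?_)
          rintro δ ⟨hδ1, hδ2⟩ r hr hr2
          exact hδ1.2 f hfA (hTf1 δ hδ2).1 r hr ⟨hr2.2, hr2.1⟩
        unfold OneForced at hnot
        push Not at hnot
        obtain ⟨β, hβ, δ, hδ, hβδ, q, hq, hq2⟩ := hnot T3 hT3 fun δ hδ =>
          ⟨hbP δ (hT32 hδ).1, hn.mem δ (hT32 hδ).1⟩
        refine ⟨β, hβ, δ, hδ, hβδ, q, hq, ?_⟩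
        intro s hsP hsq hs
        obtain ⟨-, hs1, hs2, hs3, hs4⟩ := hs
        rcases hs4 with ⟨-, hs4, -⟩ | ⟨-, hs4⟩
        · obtain ⟨-, f, hfA, hfP, hsf⟩ := hs4
          exact (hT32 hδ).2 f hfA hfP s hsP ⟨hsq.trans hq.2.2.1, hsf⟩
        · exact hq2 s hsq hs4
    -- put the rest of `a δ` on top of `p' δ`
    have hch : ∀ δ, ∃ r, δ ∈ T2 → r ∈ PT μ nm ξ ∧ r ≤ a δ ∧ r ≤ p' δ ∧ r.D = (p' δ).D ∧
        r.e = (p' δ).e ∧ (∀ ζ, ζ ∈ r.F ↔ ζ ∈ (p' δ).F ∨ ζ ∈ (a δ).F) ∧ p' δ ≤ r.res η := by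
      intro δ
      by_cases h : δ ∈ T2
      · obtain ⟨r, hr⟩ := exists_proj hηξ.le (ha δ (hT1T (hT21 h))).1 (hp'P δ h) (hp'b δ h)
        exact ⟨r, fun _ => hr⟩
      · exact ⟨a δ, fun h' => absurd h' h⟩
    choose p hp using hch
    obtain ⟨T3, hT3, hT32, R', F', hn'⟩ := exists_normalised hT2 p (by
      intro δ hδ
      rw [(hp δ hδ).2.2.2.1]
      exact (hp'b δ hδ).1 (hn.mem δ (hT21 hδ)))
    obtain ⟨β, hβ, δ, hδ, hβδ, q, hq, hqbad⟩ := hp' T3 hT3 hT32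
    have hβ2 := hT32 hβ
    have hδ2 := hT32 hδ
    obtain ⟨hβP, hβa, hβp', hβD, hβe, hβF, hβr⟩ := hp β hβ2
    obtain ⟨hδP, hδa, hδp', hδD, hδe, hδF, hδr⟩ := hp δ hδ2
    have hηF' : η ∈ F' := hn'.stages β hβ δ hδ hβδ η
      ((hβF η).2 (Or.inr (hn.stages' β (hT21 hβ2) hηF)))
      ((hδF η).2 (Or.inr (hn.stages' δ (hT21 hδ2) hηF)))
    have hlt : ∀ x ∈ T2, ∀ ζ ∈ (p' x).F, ζ < η := fun x hx ζ hζ =>
      ((mem_Pst μ nm).1 (hp'P x hx) ζ hζ).1
    have hcommon : ∀ ζ ∈ (p β).F, ζ ∈ (p δ).F → η ≤ ζ → ζ = η := by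
      intro ζ h1 h2 h3
      have h4 : ζ ∈ (a β).F := ((hβF ζ).1 h1).resolve_left fun h => not_lt.2 h3 (hlt β hβ2 ζ h)
      have h5 : ζ ∈ (a δ).F := ((hδF ζ).1 h2).resolve_left fun h => not_lt.2 h3 (hlt δ hδ2 ζ h)
      exact le_antisymm (hηmax ζ (hn.stages β (hT21 hβ2) δ (hT21 hδ2) hβδ ζ h4 h5)) h3
    obtain ⟨r, hr1, hr2, hr3, -, hr5, hr6, -⟩ := amalg (a := p β) (b := p δ) (q := q) hηξ.le hq.1
      hβP hδP (hq.2.1.trans hβr) (hq.2.2.1.trans hδr)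
      (by
        intro ζ h1 h2 h3 α hα hα'
        obtain rfl := hcommon ζ h1 h2 h3
        exact hn'.g β hβ δ hδ ζ hηF' α (hn'.mem_R hβ hδ hβδ hα hα'))
      (by
        intro ζ h1 h2 h3 α hα hα2 α' hα' hα'2 hg s hs hsq
        obtain rfl := hcommon ζ h1 h2 h3
        have h4 : β ≤ α := hn'.le_left hβ hδ hα hα2
        have h5 : δ ≤ α' := hn'.le_left hδ hβ hα' hα'2
        have h6 : α < δ := hn'.lt β hβ δ hδ hβδ α hα
        refine ⟨fun _ hbad => ?_, fun h => absurd h (not_lt.2 (h6.le.trans h5))⟩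
        have h7 : α ∈ (p' β).D := by rwa [← hβD]
        have h8 : α' ∈ (p' δ).D := by rwa [← hδD]
        have h9 : q.e α α' := (hsq.2.2.1 α (hq.2.1.1 h7) α' (hq.2.2.1.1 h8)).1
          (BadAt.edge hbad).2.2
        by_cases h10 : α ≠ β ∨ α' ≠ δ
        · exact hq.2.2.2.2.2.2 α h7 h4 α' h8 h5 h10 h9
        · push Not at h10
          obtain ⟨rfl, rfl⟩ := h10
          exact hqbad s hs hsq hbad)
    refine ⟨β, hT1T (hT21 hβ2), δ, hT1T (hT21 hδ2), hβδ, r, hr1, hr2.trans hβa, hr3.trans hδa,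
      hn.mem β (hT21 hβ2), hn.mem δ (hT21 hδ2), ?_, ?_⟩
    · rw [hr6]
      exact hq.2.2.2.2.2.1
    · intro α hα hβα α' hα' hδα' hne
      rw [hr6]
      exact hq.2.2.2.2.2.2 α ((hp'b β hβ2).1 hα) hβα α' ((hp'b δ hδ2).1 hα') hδα' hne

end Pool.Agent.Lib.MP_d41870_lc.Forc

end

section

/-!
# The poset: what the forcing does, without mentioning the iteration
-/


namespace Pool.Agent.Lib.MP_d41870_lc.Forc

open Set

/-- A notion of forcing `P` adding a graph on `K` (`edge α β` for `α < β`) such that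
* every map `K → ℕ` of the extension is constant on some edge;
* for every colouring of the edges with two colours in the extension there is a map `K → ℕ` each
  of whose classes contains edges of one colour only. -/
structure Killer (P K : Type) [Preorder P] [LinearOrder K] where
  edge : K → K → LowerSet P
  chrom : ∀ F : K → ℕ → P → Prop, (∀ α n p q, q ≤ p → F α n p → F α n q) → ∀ p,
    (∀ α, ∀ q ≤ p, ∃ r ≤ q, ∃ n, F α n r) →
      ∃ α β n, α < β ∧ ∃ r ≤ p, r ∈ edge α β ∧ F α n r ∧ F β n r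
  homog : ∀ c : K → K → P → Prop, (∀ α β p q, q ≤ p → c α β p → c α β q) →
    ∃ g : K → ℕ → LowerSet P, (∀ α p, ∃ q ≤ p, ∃ n, q ∈ g α n) ∧
      (∀ α n m p, p ∈ g α n → p ∈ g α m → n = m) ∧
      ∀ n, (∀ α β p, α < β → p ∈ edge α β → p ∈ g α n → p ∈ g β n → ∃ r ≤ p, c α β r) ∨
        ∀ α β p, α < β → p ∈ edge α β → p ∈ g α n → p ∈ g β n → ¬ c α β p

variable {K Θ : Type} [LinearOrder K] [LinearOrder Θ] [WellFoundedLT Θ] [OrderBot Θ]
  {μ : NormalMeasure K} {nm : Θ → Nm K Θ}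

/-- A monotone set of conditions has a countable predense subset. -/
theorem exists_countable_predense (S : Set (Cond K Θ)) (hS : S ⊆ PT μ nm ⊤) :
    ∃ f : ℕ → Option (Cond K Θ), (∀ n r, f n = some r → r ∈ S) ∧
      ∀ s ∈ S, ∃ n r, f n = some r ∧ ∃ t ∈ PT μ nm ⊤, t ≤ s ∧ t ≤ r := by
  classical
  obtain ⟨A, hA⟩ := zorn_subset {A : Set (Cond K Θ) | A ⊆ S ∧
      ∀ a ∈ A, ∀ b ∈ A, a ≠ b → Incomp (PT μ nm ⊤) a b} (by
    intro C hC hchain
    refine ⟨⋃₀ C, ⟨?_, ?_⟩, fun s hs => subset_sUnion_of_mem hs⟩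
    · exact sUnion_subset fun s hs => (hC hs).1
    · rintro a ⟨s, hs, ha⟩ b ⟨t, ht, hb⟩ hab
      rcases hchain.total hs ht with h | h
      · exact (hC ht).2 a (h ha) b hb hab
      · exact (hC hs).2 a ha b (h hb) hab)
  have hcount : A.Countable := by
    by_contra hunc
    obtain ⟨i, hi, j, hj, hij, r, hr, h1, h2⟩ := ccc (μ := μ) (nm := nm) ⊤ hunc id
      fun i hi => hS (hA.prop.1 hi)
    exact hA.prop.2 i hi j hj hij r hr ⟨h1, h2⟩
  obtain ⟨f, hf⟩ : ∃ f : ℕ → Option (Cond K Θ), ∀ r, (∃ n, f n = some r) ↔ r ∈ A := by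
    rcases A.eq_empty_or_nonempty with h | h
    · refine ⟨fun _ => none, fun r => ?_⟩
      simp [h]
    · obtain ⟨f, hf⟩ := hcount.exists_eq_range h
      refine ⟨fun n => some (f n), fun r => ?_⟩
      rw [hf]
      simp
  refine ⟨f, fun n r h => hA.prop.1 ((hf r).1 ⟨n, h⟩), fun s hs => ?_⟩
  by_contra hcon
  push Not at hcon
  have hins : insert s A ∈ {A : Set (Cond K Θ) | A ⊆ S ∧
      ∀ a ∈ A, ∀ b ∈ A, a ≠ b → Incomp (PT μ nm ⊤) a b} := by
    refine ⟨insert_subset hs hA.prop.1, ?_⟩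
    rintro a (rfl | ha) b (rfl | hb) hab
    · exact absurd rfl hab
    · obtain ⟨n, hn⟩ := (hf b).2 hb
      exact fun r hr h => hcon n b hn r hr h.1 h.2
    · obtain ⟨n, hn⟩ := (hf a).2 ha
      exact fun r hr h => hcon n a hn r hr h.2 h.1
    · exact hA.prop.2 a ha b hb hab
  have hsA : s ∈ A := hA.le_of_ge hins (subset_insert s A) (mem_insert s A)
  obtain ⟨n, hn⟩ := (hf s).2 hsA
  exact hcon n s hn s (hS hs) le_rfl le_rfl

/-- The edges of the generic graph. -/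
def edgeSet (μ : NormalMeasure K) (nm : Θ → Nm K Θ) (α β : K) : LowerSet ↥(PT μ nm ⊤) where
  carrier := {p | α ∈ p.1.D ∧ β ∈ p.1.D ∧ p.1.e α β}
  lower' := by
    rintro p q hqp ⟨h1, h2, h3⟩
    exact ⟨hqp.1 h1, hqp.1 h2, (hqp.2.2.1 α h1 β h2).2 h3⟩

/-- Conditions which decide the type of `α` at stage `ξ`. -/
def Typ (μ : NormalMeasure K) (nm : Θ → Nm K Θ) (ξ : Θ) (α : K) : Bool → Cond K Θ → Prop
  | true, p => p.res ξ ∈ Yset (Pst μ nm ξ) (fam μ (Pst μ nm ξ) (nm ξ)) α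
  | false, p => ∀ r ∈ Pst μ nm ξ, r ≤ p.res ξ →
      r ∉ Yset (Pst μ nm ξ) (fam μ (Pst μ nm ξ) (nm ξ)) α

omit [OrderBot Θ] in
theorem Typ.mono {ξ : Θ} {α : K} {b : Bool} {p q : Cond K Θ} (hq : q ∈ PT μ nm ⊤) (h : q ≤ p)
    (hp : Typ μ nm ξ α b p) : Typ μ nm ξ α b q := by
  cases b with
  | true =>
    obtain ⟨-, a, ha, haP, hle⟩ := hp
    exact ⟨res_mem hq ξ, a, ha, haP, (Cond.res_mono h ξ).trans hle⟩
  | false => exact fun r hr hrq => hp r hr (hrq.trans (Cond.res_mono h ξ))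

omit [OrderBot Θ] in
theorem Typ.unique {ξ : Θ} {α : K} {b b' : Bool} {p : Cond K Θ} (hp : p ∈ PT μ nm ⊤)
    (h : Typ μ nm ξ α b p) (h' : Typ μ nm ξ α b' p) : b = b' := by
  cases b <;> cases b'
  · rfl
  · exact absurd h' (h (p.res ξ) (res_mem hp ξ) le_rfl)
  · exact absurd h (h' (p.res ξ) (res_mem hp ξ) le_rfl)
  · rfl

omit [OrderBot Θ] in
theorem Typ.exists {ξ : Θ} (α : K) {p : Cond K Θ} (hp : p ∈ PT μ nm ⊤) :
    ∃ q ∈ PT μ nm ⊤, q ≤ p ∧ ∃ b, Typ μ nm ξ α b q := by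
  by_cases h : Typ μ nm ξ α false p
  · exact ⟨p, hp, le_rfl, false, h⟩
  · simp only [Typ] at h
    push Not at h
    obtain ⟨r, hr, hrp, a, ha⟩ := h
    obtain ⟨s, hs, hsp, hsr, -, -, -, hrs⟩ := exists_proj le_top hp hr hrp
    refine ⟨s, hs, hsp, true, res_mem hs ξ, ?_⟩
    obtain ⟨b, hb, hbP, hle⟩ := ha
    have h1 : s.res ξ ≤ r.res ξ := Cond.res_mono hsr ξ
    exact ⟨b, hb, hbP, (h1.trans (Cond.res_le fun η hη => ((mem_Pst μ nm).1 hr η hη).1)).trans hle⟩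

/-- The main theorem on the iteration. -/
theorem exists_killer (hcof : ∀ f : K × K × ℕ → Θ, ∃ η, ∀ x, f x < η)
    (hnm : ∀ (c : Nm K Θ) (η : Θ), ∃ ξ, η < ξ ∧ nm ξ = c) :
    Nonempty (Killer ↥(PT μ nm ⊤) K) := by
  classical
  refine ⟨⟨edgeSet μ nm, ?_, ?_⟩⟩
  · -- the graph is uncountably chromatic
    intro F hF p hp
    have hch : ∀ δ : K, ∃ r : ↥(PT μ nm ⊤), ∃ n, r ≤ p ∧ F δ n r ∧ δ ∈ r.1.D := by
      intro δ
      obtain ⟨r, hr, n, hn⟩ := hp δ p le_rfl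
      obtain ⟨s, hs, hsr, hδ⟩ := exists_point r.2 δ
      exact ⟨⟨s, hs⟩, n, le_trans (show (⟨s, hs⟩ : ↥(PT μ nm ⊤)) ≤ r from hsr) hr,
        hF δ n r ⟨s, hs⟩ hsr hn, hδ⟩
    choose a n ha hFa haD using hch
    obtain ⟨m, hm⟩ := μ.const_countable Filter.univ_mem n
    obtain ⟨β, hβ, δ, hδ, hβδ, q, hq⟩ := link_exists (μ := μ) (nm := nm) ⊤ _ hm
      (fun δ => (a δ).1) fun δ _ => ⟨(a δ).2, haD δ⟩
    obtain ⟨hqP, hqβ, hqδ, hβD, hδD, hqe, -⟩ := hq
    refine ⟨β, δ, m, hβδ, ⟨q, hqP⟩, le_trans (show (⟨q, hqP⟩ : ↥(PT μ nm ⊤)) ≤ a β from hqβ)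
      (ha β), ⟨hqβ.1 hβD, hqδ.1 hδD, hqe⟩, ?_, ?_⟩
    · have := hFa β
      rw [hβ.2] at this
      exact hF β m _ _ (show (⟨q, hqP⟩ : ↥(PT μ nm ⊤)) ≤ a β from hqβ) this
    · have := hFa δ
      rw [hδ.2] at this
      exact hF δ m _ _ (show (⟨q, hqP⟩ : ↥(PT μ nm ⊤)) ≤ a δ from hqδ) this
  · -- colourings
    intro c hc
    have hname : ∀ x : K × K, ∃ f : ℕ → Option (Cond K Θ),
        (∀ n r, f n = some r → ∃ h : r ∈ PT μ nm ⊤, c x.1 x.2 ⟨r, h⟩) ∧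
        ∀ s (hs : s ∈ PT μ nm ⊤), c x.1 x.2 ⟨s, hs⟩ →
          ∃ n r, f n = some r ∧ ∃ t ∈ PT μ nm ⊤, t ≤ s ∧ t ≤ r := by
      intro x
      obtain ⟨f, hf1, hf2⟩ := exists_countable_predense (μ := μ) (nm := nm)
        {r | ∃ h : r ∈ PT μ nm ⊤, c x.1 x.2 ⟨r, h⟩} fun r hr => hr.1
      exact ⟨f, hf1, fun s hs h => hf2 s ⟨hs, h⟩⟩
    choose f hf1 hf2 using hname
    set cn : Nm K Θ := fun α β n => f (α, β) n with hcn
    -- a stage after all conditions of the name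
    obtain ⟨η, hη⟩ := hcof fun x => match f (x.1, x.2.1) x.2.2 with
      | some r => if h : r.F.Nonempty then r.F.max' h else ⊥
      | none => ⊥
    have hηF : ∀ α β n r, f (α, β) n = some r → r ∈ Pst μ nm η := by
      intro α β n r hr
      rw [mem_Pst]
      intro ζ hζ
      refine ⟨?_, ((hf1 (α, β) n r hr).1 ζ hζ).2⟩
      have h1 := hη (α, β, n)
      simp only [hr] at h1
      have hne : r.F.Nonempty := ⟨ζ, hζ⟩
      rw [dif_pos hne] at h1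
      exact (Finset.le_max' _ _ hζ).trans_lt h1
    obtain ⟨ξ, hηξ, hξ⟩ := hnm cn η
    have hfξ : ∀ α β n r, f (α, β) n = some r → r ∈ Pst μ nm ξ := by
      intro α β n r hr
      have h1 := hηF α β n r hr
      rw [Pst_eq] at h1 ⊢
      exact PT_mono (WithTop.coe_le_coe.2 hηξ.le) h1
    -- membership in `C1` and the colour
    have hC1 : ∀ α β (p : ↥(PT μ nm ⊤)), c α β p →
        ∃ r ∈ Pst μ nm ξ, r ≤ p.1.res ξ ∧ r ∈ C1 (Pst μ nm ξ) (nm ξ) α β := by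
      intro α β p hp
      obtain ⟨n, r, hr, t, ht, htp, htr⟩ := hf2 (α, β) p.1 p.2 hp
      refine ⟨t.res ξ, res_mem ht ξ, Cond.res_mono htp ξ, res_mem ht ξ, n, r, ?_,
        hfξ α β n r hr, ?_⟩
      · rw [hξ]; exact hr
      · refine (Cond.res_mono htr ξ).trans (Cond.res_le fun ζ hζ => ?_)
        exact ((mem_Pst μ nm).1 (hfξ α β n r hr) ζ hζ).1
    have hC1' : ∀ α β (p : ↥(PT μ nm ⊤)) r, r ≤ p.1.res ξ →
        r ∈ C1 (Pst μ nm ξ) (nm ξ) α β → ∃ q ≤ p, c α β q := by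
      intro α β p r hrp hr
      obtain ⟨hrP, n, s, hs, hsP, hrs⟩ := hr
      obtain ⟨t, ht, htp, htr, -⟩ := exists_proj le_top p.2 hrP hrp
      rw [hξ] at hs
      obtain ⟨h1, h2⟩ := hf1 (α, β) n s hs
      exact ⟨⟨t, ht⟩, htp, hc α β ⟨s, h1⟩ ⟨t, ht⟩ (htr.trans hrs) h2⟩
    -- the classes
    let G : K → ℕ → LowerSet ↥(PT μ nm ⊤) := fun α k =>
      ⟨{p | ξ ∈ p.1.F ∧ α ∈ p.1.D ∧ ∃ b : Bool, Typ μ nm ξ α b p.1 ∧
        k = 2 * p.1.g ξ α + b.toNat}, by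
        rintro p q hqp ⟨h1, h2, b, h3, h4⟩
        refine ⟨hqp.2.1 h1, hqp.1 h2, b, Typ.mono q.2 hqp h3, ?_⟩
        rw [hqp.2.2.2 ξ h1 α h2]
        exact h4⟩
    refine ⟨G, ?_, ?_, ?_⟩
    · intro α p
      obtain ⟨q, hq, hqp, h1⟩ := exists_stage p.2 (ζ := ξ) (WithTop.coe_lt_top ξ)
      obtain ⟨r, hr, hrq, h2⟩ := exists_point hq α
      obtain ⟨s, hs, hsr, b, h3⟩ := Typ.exists (ξ := ξ) α hr
      exact ⟨⟨s, hs⟩, hsr.trans (hrq.trans hqp), _, hsr.2.1 (hrq.2.1 h1), hsr.1 h2, b, h3, rfl⟩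
    · rintro α n m p ⟨-, -, b, h1, rfl⟩ ⟨-, -, b', h2, rfl⟩
      rw [Typ.unique p.2 h1 h2]
    · intro k
      rcases Nat.even_or_odd k with hk | hk
      · -- type 0: no edge of colour 1
        right
        rintro α β p hαβ ⟨hα, hβ, he⟩ ⟨h1, -, b, h2, h3⟩ ⟨-, -, b', h4, h5⟩ hcp
        have hb : b = false := by
          cases b
          · rfl
          · obtain ⟨j, hj⟩ := hk
            simp only [Bool.toNat_true] at h3
            omega
        have hb' : b' = false := by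
          cases b'
          · rfl
          · obtain ⟨j, hj⟩ := hk
            simp only [Bool.toNat_true] at h5
            omega
        subst hb hb'
        have hg : p.1.g ξ α = p.1.g ξ β := by
          simp only [Bool.toNat_false, add_zero] at h3 h5
          omega
        obtain ⟨r, hrP, hrp, hrC⟩ := hC1 α β p hcp
        have hrD : ∀ x ∈ p.1.D, x ∈ r.D := fun x hx => hrp.1 hx
        refine (p.2 ξ h1).2 α hα β hβ hαβ hg r hrP hrp ⟨hrP, hrD α hα, hrD β hβ, ?_, Or.inr ⟨?_, hrC⟩⟩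
        · exact (hrp.2.2.1 α hα β hβ).2 he
        · exact fun s hs hsr => ⟨h2 s hs (hsr.trans hrp), h4 s hs (hsr.trans hrp)⟩
      · -- type 1: no edge of colour 0
        left
        rintro α β p hαβ ⟨hα, hβ, he⟩ ⟨h1, -, b, h2, h3⟩ ⟨-, -, b', h4, h5⟩
        have hb : b = true := by
          cases b
          · obtain ⟨j, hj⟩ := hk
            simp only [Bool.toNat_false] at h3
            omega
          · rfl
        have hb' : b' = true := by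
          cases b'
          · obtain ⟨j, hj⟩ := hk
            simp only [Bool.toNat_false] at h5
            omega
          · rfl
        subst hb hb'
        have hg : p.1.g ξ α = p.1.g ξ β := by
          simp only [Bool.toNat_true] at h3 h5
          omega
        by_contra hcon
        push Not at hcon
        refine (p.2 ξ h1).2 α hα β hβ hαβ hg (p.1.res ξ) (res_mem p.2 ξ) le_rfl
          ⟨res_mem p.2 ξ, hα, hβ, he, Or.inl ⟨h2, h4, ?_⟩⟩
        intro r _ hrp hrC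
        obtain ⟨q, hq, hcq⟩ := hC1' α β p r hrp hrC
        exact hcon q hq hcq

end Pool.Agent.Lib.MP_d41870_lc.Forc

end
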