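import Pool.Agent.Lib.MP_9708fd_lc.FForce

/-!
# Names for functions between ground model sets

`P` is a preorder.  `VFun P W A` is the type of names of functions from the set `W` to the set
`A` (both in the ground model).
-/

set_option autoImplicit false

namespace Pool.Agent.Lib.MP_d41870_lc.Pos

open MP9708F

/-- A name of a function from `W` to `A`: `dec x a p` says that `p` decides the value at `x` to
be `a`. -/
structure VFun (P : Type) [Preorder P] (W A : Type) where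
  dec : W → A → P → Prop
  mono : ∀ {x a p q}, q ≤ p → dec x a p → dec x a q
  uniq : ∀ {x a a' p}, dec x a p → dec x a' p → a = a'
  tot : ∀ x p, ∃ q ≤ p, ∃ a, dec x a q

variable {P : Type} [Preorder P] {W A X : Type}

/-- A function name from a dense set of decisions. -/
theorem exists_VFun (G : W → A → P → Prop) (hm : ∀ x a p q, q ≤ p → G x a p → G x a q)
    (hd : ∀ x p, ∃ q ≤ p, ∃ a, G x a q) :
    ∃ F : VFun P W A, ∀ x a p, F.dec x a p → G x a p := by
  have h1 : ∀ x, ∃ C : Set P, C ⊆ {p | ∃ a, G x a p} ∧ Antichain' C ∧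
      ∀ p ∈ {p | ∃ a, G x a p}, ∃ c ∈ C, ∃ r, r ≤ c ∧ r ≤ p :=
    fun x => exists_maximal_antichain _
  choose C hC1 hC2 hC3 using h1
  have h2 : ∀ x (c : C x), ∃ a, G x a c.1 := fun x c => hC1 x c.2
  choose lab hlab using h2
  refine ⟨⟨fun x a p => ∃ c : C x, p ≤ c.1 ∧ a = lab x c, ?_, ?_, ?_⟩, ?_⟩
  · rintro x a p q hqp ⟨c, hc, ha⟩
    exact ⟨c, hqp.trans hc, ha⟩
  · rintro x a a' p ⟨c, hc, ha⟩ ⟨c', hc', ha'⟩
    have : c = c' := Subtype.ext (hC2 x c.1 c.2 c'.1 c'.2 p hc hc')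
    rw [ha, ha', this]
  · intro x p
    obtain ⟨q, hq, a, ha⟩ := hd x p
    obtain ⟨c, hc, r, hrc, hrq⟩ := hC3 x q ⟨a, ha⟩
    exact ⟨r, hrq.trans hq, lab x ⟨c, hc⟩, ⟨c, hc⟩, hrc, rfl⟩
  · rintro x a p ⟨c, hc, rfl⟩
    exact hm _ _ _ _ hc (hlab x c)

/-- Two vertices have the same name of a value. -/
def VFun.Same (F : VFun P W A) (x y : W) : Prop :=
  ∀ p a a', F.dec x a p → F.dec y a' p → a = a'

/-- The countable chain condition. -/
def CCC (P : Type) [Preorder P] : Prop := ∀ C : Set P, Antichain' C → C.Countable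

/-- There are few names of elements of a small set. -/
theorem exists_code (hccc : CCC P) (e : (ℕ → Option (P × A)) ↪ X) (F : VFun P W A) :
    ∃ N : W → X, ∀ x y, N x = N y → F.Same x y := by
  have h1 : ∀ x, ∃ C : Set P, C ⊆ {p | ∃ a, F.dec x a p} ∧ Antichain' C ∧
      ∀ p ∈ {p | ∃ a, F.dec x a p}, ∃ c ∈ C, ∃ r, r ≤ c ∧ r ≤ p :=
    fun x => exists_maximal_antichain _
  choose C hC1 hC2 hC3 using h1
  have h2 : ∀ x, ∃ f : ℕ → Option (P × A), ∀ s : P × A, (s.1 ∈ C x ∧ F.dec x s.2 s.1) ↔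
      ∃ n, f n = some s := by
    intro x
    have h3 : {s : P × A | s.1 ∈ C x ∧ F.dec x s.2 s.1}.Countable := by
      have h4 : Set.InjOn Prod.fst {s : P × A | s.1 ∈ C x ∧ F.dec x s.2 s.1} := by
        rintro ⟨p, a⟩ ⟨-, ha⟩ ⟨p', a'⟩ ⟨-, ha'⟩ (rfl : p = p')
        exact Prod.ext rfl (F.uniq ha ha')
      exact Set.MapsTo.countable_of_injOn (t := C x) (fun s hs => hs.1) h4 (hccc _ (hC2 x))
    rcases {s : P × A | s.1 ∈ C x ∧ F.dec x s.2 s.1}.eq_empty_or_nonempty with h5 | h5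
    · refine ⟨fun _ => none, fun s => ⟨fun hs => ?_, fun ⟨n, hn⟩ => by simp at hn⟩⟩
      have : s ∈ {s : P × A | s.1 ∈ C x ∧ F.dec x s.2 s.1} := hs
      rw [h5] at this
      exact this.elim
    · obtain ⟨f, hf⟩ := h3.exists_eq_range h5
      refine ⟨fun n => some (f n), fun s => ?_⟩
      have : s ∈ {s : P × A | s.1 ∈ C x ∧ F.dec x s.2 s.1} ↔ s ∈ Set.range f := by rw [hf]
      simpa using this
  choose f hf using h2
  refine ⟨fun x => e (f x), fun x y hxy p a a' ha ha' => ?_⟩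
  have hfe : f x = f y := e.injective hxy
  obtain ⟨c, hc, r, hrc, hrp⟩ := hC3 x p ⟨a, ha⟩
  obtain ⟨b, hb⟩ := hC1 x hc
  have h6 := (hf x (c, b)).1 ⟨hc, hb⟩
  rw [hfe] at h6
  obtain ⟨-, h7⟩ := (hf y (c, b)).2 h6
  have h8 : a = b := F.uniq (F.mono hrp ha) (F.mono hrc hb)
  have h9 : a' = b := F.uniq (F.mono hrp ha') (F.mono hrc h7)
  rw [h8, h9]

end Pool.Agent.Lib.MP_d41870_lc.Pos
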