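import Pool.Agent.Lib.MP_d41870_lc.PLarge
import Pool.Agent.Lib.MP_d41870_lc.NSIter

/-!
# Adding Cohen reals: graph names with small chromatic number

`Fn I` is the poset of finite partial functions from `I` to `Bool`.
-/

set_option autoImplicit false

namespace Pool.Agent.Lib.MP_d41870_lc.Pos

open MP9708F Cardinal Set Filter

/-- Finite partial functions from `I` to `Bool` (given by their graphs). -/
def Fn (I : Type) : Type := {p : Finset (I × Bool) // ∀ i, (i, true) ∈ p → (i, false) ∉ p}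

instance (I : Type) : Preorder (Fn I) where
  le q p := p.1 ⊆ q.1
  le_refl _ := subset_rfl
  le_trans _ _ _ h1 h2 := h2.trans h1

instance (I : Type) : Nonempty (Fn I) := ⟨⟨∅, by simp⟩⟩

theorem Fn.le_def {I : Type} {q p : Fn I} : q ≤ p ↔ p.1 ⊆ q.1 := Iff.rfl

theorem Fn.uniq {I : Type} (p : Fn I) {i : I} {a b : Bool} (ha : (i, a) ∈ p.1)
    (hb : (i, b) ∈ p.1) : a = b := by
  cases a <;> cases b
  · rfl
  · exact absurd ha (p.2 i hb)
  · exact absurd hb (p.2 i ha)
  · rfl

theorem Fn.ccc (I : Type) : CCC (Fn I) := by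
  classical
  intro C hC
  by_contra hcon
  obtain ⟨J, hJC, hJ, R, hR⟩ := Forc.delta_uncountable C hcon fun p : Fn I => p.1.image Prod.fst
  have h1 : ∃ t : Finset (I × Bool), ¬ ({p | p ∈ J ∧ p.1.filter (fun x => x.1 ∈ R) = t}).Countable := by
    by_contra hc
    push Not at hc
    apply hJ
    refine ((R ×ˢ (Finset.univ : Finset Bool)).powerset.countable_toSet.biUnion
      (t := fun t _ => {p | p ∈ J ∧ p.1.filter (fun x => x.1 ∈ R) = t}) fun t _ => hc t).mono ?_
    intro p hp
    simp only [mem_iUnion]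
    refine ⟨p.1.filter (fun x => x.1 ∈ R), ?_, hp, rfl⟩
    simp only [Finset.coe_powerset, mem_preimage, mem_powerset_iff, Finset.coe_subset]
    intro x hx
    simp only [Finset.mem_filter] at hx
    simp [hx.2]
  obtain ⟨t, ht⟩ := h1
  have h2 : ({p | p ∈ J ∧ p.1.filter (fun x => x.1 ∈ R) = t}).Nontrivial := by
    rw [← not_subsingleton_iff]
    exact fun h => ht h.countable
  obtain ⟨p, ⟨hp, hpt⟩, q, ⟨hq, hqt⟩, hpq⟩ := h2
  have h3 : ∀ i a b, (i, a) ∈ p.1 → (i, b) ∈ q.1 → a = b := by
    intro i a b ha hb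
    have h4 : i ∈ R := by
      rw [← hR p hp q hq hpq, Finset.mem_inter]
      exact ⟨Finset.mem_image_of_mem _ ha, Finset.mem_image_of_mem _ hb⟩
    have h5 : (i, b) ∈ p.1.filter (fun x => x.1 ∈ R) := by
      rw [hpt, ← hqt]
      simp [hb, h4]
    exact p.uniq ha (Finset.mem_filter.1 h5).1
  refine hpq (hC p (hJC hp) q (hJC hq) ⟨p.1 ∪ q.1, ?_⟩ ?_ ?_)
  · intro i h4 h5
    rw [Finset.mem_union] at h4 h5
    rcases h4 with h4 | h4 <;> rcases h5 with h5 | h5
    · exact p.2 i h4 h5
    · exact absurd (h3 i _ _ h4 h5) (by simp)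
    · exact absurd (h3 i _ _ h5 h4) (by simp)
    · exact q.2 i h4 h5
  · exact Finset.subset_union_left
  · exact Finset.subset_union_right

section Germs

variable {K I : Type} (U : Ultrafilter K)

/-- A function to a countable set is constant on a set in a countably complete ultrafilter. -/
theorem const_of_countable (hσ : ∀ s : ℕ → Set K, (∀ n, s n ∈ U) → (⋂ n, s n) ∈ U) {Y : Type}
    [Countable Y] (f : K → Y) : ∃ y, ∀ᶠ k in (U : Filter K), f k = y := by
  by_contra hcon
  push Not at hcon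
  obtain ⟨k0⟩ : Nonempty K := by
    by_contra hne
    rw [not_nonempty_iff] at hne
    exact U.neBot.ne (Filter.filter_eq_bot_of_isEmpty _)
  have : Nonempty Y := ⟨f k0⟩
  obtain ⟨g, hg⟩ := exists_surjective_nat Y
  have h1 : ∀ n, {k | f k ≠ g n} ∈ U := fun n => hcon (g n)
  obtain ⟨k, hk⟩ := U.nonempty_of_mem (hσ _ h1)
  obtain ⟨n, hn⟩ := hg (f k)
  exact (mem_iInter.1 hk n) hn.symm

/-- The germ of a function. -/
abbrev Grm (U : Ultrafilter K) (I : Type) : Type := Filter.Germ (U : Filter K) I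

/-- A representative of a germ. -/
noncomputable def rp (g : Grm U I) : K → I := Quotient.out g

theorem rp_coe (g : Grm U I) : ((rp U g : K → I) : Grm U I) = g := Quotient.out_eq g

theorem rp_eventually (s : K → I) : ∀ᶠ k in (U : Filter K), rp U (s : Grm U I) k = s k :=
  Filter.Germ.coe_eq.1 (rp_coe U (s : Grm U I))

theorem rp_ne {g g' : Grm U I} (h : g ≠ g') : ∀ᶠ k in (U : Filter K), rp U g k ≠ rp U g' k := by
  rw [Ultrafilter.eventually_not]
  intro h'
  exact h (by rw [← rp_coe U g, ← rp_coe U g']; exact Filter.Germ.coe_eq.2 h')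

theorem rp_ne_const {g : Grm U I} {i : I} (h : g ≠ ((fun _ => i : K → I) : Grm U I)) :
    ∀ᶠ k in (U : Filter K), rp U g k ≠ i := by
  rw [Ultrafilter.eventually_not]
  intro h'
  exact h (by rw [← rp_coe U g]; exact Filter.Germ.coe_eq.2 h')

theorem rp_const {g : Grm U I} {i : I} (h : g = ((fun _ => i : K → I) : Grm U I)) :
    ∀ᶠ k in (U : Filter K), rp U g k = i := by
  rw [h]
  exact rp_eventually U _

theorem exists_germs_aux [DecidableEq I] : ∀ (n : ℕ) (q : K → Finset (I × Bool)),
    (∀ᶠ k in (U : Filter K), (q k).card = n) → ∃ Q : Finset (Grm U I × Bool),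
      ∀ᶠ k in (U : Filter K), ∀ x, x ∈ q k ↔ ∃ g ∈ Q, x = (rp U g.1 k, g.2) := by
  classical
  intro n
  induction n with
  | zero =>
    intro q hq
    refine ⟨∅, hq.mono fun k hk x => ?_⟩
    rw [Finset.card_eq_zero] at hk
    simp [hk]
  | succ n ih =>
    intro q hq
    have h1 : ∃ s : K → I × Bool, ∀ᶠ k in (U : Filter K), s k ∈ q k := by
      obtain ⟨k0, hk0⟩ := hq.exists
      obtain ⟨x0, -⟩ := Finset.card_pos.1 (hk0 ▸ Nat.succ_pos n : 0 < (q k0).card)
      refine ⟨fun k => if h : (q k).Nonempty then h.choose else x0, hq.mono fun k hk => ?_⟩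
      have h2 : (q k).Nonempty := Finset.card_pos.1 (by rw [hk]; exact Nat.succ_pos n)
      simp only [h2, dif_pos]
      exact h2.choose_spec
    obtain ⟨s, hs⟩ := h1
    obtain ⟨Q, hQ⟩ := ih (fun k => (q k).erase (s k)) (by
      filter_upwards [hq, hs] with k hk hk'
      rw [Finset.card_erase_of_mem hk', hk]
      rfl)
    have h3 : ∃ b, ∀ᶠ k in (U : Filter K), (s k).2 = b := by
      by_cases h4 : ∀ᶠ k in (U : Filter K), (s k).2 = true
      · exact ⟨true, h4⟩
      · rw [← Ultrafilter.eventually_not] at h4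
        exact ⟨false, h4.mono fun k hk => by simpa using hk⟩
    obtain ⟨b, hb⟩ := h3
    refine ⟨insert (((fun k => (s k).1 : K → I) : Grm U I), b) Q, ?_⟩
    filter_upwards [hs, hQ, hb, rp_eventually U (fun k => (s k).1)] with k h1 h2 h3 h4
    intro x
    have h5 : x ∈ q k ↔ x = s k ∨ x ∈ (q k).erase (s k) := by
      rw [Finset.mem_erase]
      by_cases h : x = s k
      · simp [h, h1]
      · simp [h]
    rw [h5, h2]
    simp only [Finset.mem_insert, exists_eq_or_imp]
    refine or_congr ?_ Iff.rfl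
    rw [h4, ← h3]

/-- A family of finite sets is the family of values of a finite set of germs. -/
theorem exists_germs (hσ : ∀ s : ℕ → Set K, (∀ n, s n ∈ U) → (⋂ n, s n) ∈ U)
    (q : K → Finset (I × Bool)) : ∃ Q : Finset (Grm U I × Bool),
      ∀ᶠ k in (U : Filter K), ∀ x, x ∈ q k ↔ ∃ g ∈ Q, x = (rp U g.1 k, g.2) := by
  classical
  obtain ⟨n, hn⟩ := const_of_countable U hσ fun k => (q k).card
  exact exists_germs_aux U n q hn

/-- A consistent finite set of germs whose constant part lies in `p` can be added to `p`. -/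
theorem exists_ext (Q : Finset (Grm U I × Bool)) (hQ : ∀ g, (g, true) ∈ Q → (g, false) ∉ Q)
    (p : Fn I) (hp : ∀ g ∈ Q, ∀ i : I, g.1 = ((fun _ => i : K → I) : Grm U I) →
      (i, g.2) ∈ p.1) :
    ∀ᶠ k in (U : Filter K), ∃ r ≤ p, ∀ g ∈ Q, (rp U g.1 k, g.2) ∈ r.1 := by
  classical
  -- values of germs against the support of `p`
  have h1 : ∀ᶠ k in (U : Filter K), ∀ g ∈ Q, ∀ x ∈ p.1, rp U g.1 k = x.1 → x.2 = g.2 := by
    rw [Filter.eventually_all_finset]
    intro g hg
    rw [Filter.eventually_all_finset]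
    intro x hx
    by_cases h : g.1 = ((fun _ => x.1 : K → I) : Grm U I)
    · exact Eventually.of_forall fun k _ => p.uniq (i := x.1) hx (hp g hg _ h)
    · exact (rp_ne_const U h).mono fun k hk hk' => absurd hk' hk
  have h2 : ∀ᶠ k in (U : Filter K), ∀ g ∈ Q, ∀ g' ∈ Q, rp U g.1 k = rp U g'.1 k → g.2 = g'.2 := by
    rw [Filter.eventually_all_finset]
    rintro ⟨g, a⟩ hg
    rw [Filter.eventually_all_finset]
    rintro ⟨g', a'⟩ hg'
    by_cases h : g = g'
    · subst h
      refine Eventually.of_forall fun k _ => ?_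
      cases a <;> cases a'
      · rfl
      · exact absurd hg (hQ g hg')
      · exact absurd hg' (hQ g hg)
      · rfl
    · exact (rp_ne U h).mono fun k hk hk' => absurd hk' hk
  filter_upwards [h1, h2] with k hk1 hk2
  refine ⟨⟨p.1 ∪ Q.image fun g => (rp U g.1 k, g.2), ?_⟩, Finset.subset_union_left, fun g hg => ?_⟩
  · intro i h3 h4
    simp only [Finset.mem_union, Finset.mem_image, Prod.mk.injEq] at h3 h4
    rcases h3 with h3 | ⟨g, hg, hgi, hgb⟩ <;> rcases h4 with h4 | ⟨g', hg', hgi', hgb'⟩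
    · exact p.2 i h3 h4
    · have := hk1 g' hg' _ h3 hgi'
      rw [hgb'] at this
      exact absurd this (by simp)
    · have := hk1 g hg _ h4 hgi
      rw [hgb] at this
      exact absurd this (by simp)
    · have := hk2 g hg g' hg' (hgi.trans hgi'.symm)
      rw [hgb, hgb'] at this
      exact absurd this (by simp)
  · exact Finset.mem_union_right _ (Finset.mem_image_of_mem (fun g => (rp U g.1 k, g.2)) hg)

end Germs

end Pool.Agent.Lib.MP_d41870_lc.Pos
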