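import Pool.Agent.Lib.MP_d41870_lc.PMeas

/-!
# Names of graphs in the Cohen extension: the combinatorial theorem
-/

set_option autoImplicit false

namespace Pool.Agent.Lib.MP_d41870_lc.Pos

open MP9708F Cardinal Set Filter

theorem mk_fn_le (I : Type) {μ : Cardinal.{0}} (hμ : ℵ₀ ≤ μ) (hI : #I ≤ μ) : #(Fn I) ≤ μ := by
  refine (mk_subtype_le _).trans ?_
  have h1 : #(I × Bool) ≤ μ := by
    simp only [mk_prod, lift_id, Cardinal.mk_bool]
    exact mul_le_of_le hμ hI ((natCast_le_aleph0 (n := 2)).trans hμ)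
  rcases finite_or_infinite (I × Bool) with h | h
  · exact (Cardinal.lt_aleph0_of_finite _).le.trans hμ
  · rw [mk_finset_of_infinite]
    exact h1

section

variable {K : Type} [Infinite K]

theorem power_le {A J : Type} (hA : #A ≤ 2 ^ #K) (hJ : #J ≤ #K) : #(J → A) ≤ 2 ^ #K := by
  rw [← power_def]
  calc #A ^ #J ≤ (2 ^ #K) ^ #J := power_le_power_right hA
    _ = 2 ^ (#K * #J) := (power_mul).symm
    _ ≤ 2 ^ #K := by
      refine power_le_power_left two_ne_zero ?_
      exact mul_le_of_le (aleph0_le_mk K) le_rfl hJ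

theorem two_power : ℵ₀ ≤ (2 : Cardinal.{0}) ^ #K := (aleph0_le_mk K).trans (cantor _).le

theorem mk_idx_le : #(Idx K (K → Bool)) ≤ 2 ^ #K := by
  have h2 := two_power (K := K)
  have hX : #(K → Bool) = 2 ^ #K := by simp
  have hS : #(Sym2 (K → Bool)) ≤ 2 ^ #K := by
    refine (mk_le_of_surjective (f := fun z : (K → Bool) × (K → Bool) => s(z.1, z.2)) ?_).trans ?_
    · intro z
      induction z using Sym2.ind with
      | _ a b => exact ⟨(a, b), rfl⟩
    · simp only [mk_prod, lift_id, hX]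
      exact mul_le_of_le h2 le_rfl le_rfl
  simp only [Idx, mk_sum, mk_prod, lift_id, hX, mk_nat]
  refine add_le_of_le h2 (mul_le_of_le h2 (cantor _).le hS) (mul_le_of_le h2 le_rfl h2)

/-- **The combinatorial theorem.** If `K` carries a nonprincipal countably complete ultrafilter
and there is no inaccessible cardinal between `#K` and `#(W × W)`, then in the Cohen extension
every graph on `W` which does not split has countable chromatic number. -/
theorem exists_poset (U : Ultrafilter K) (hU0 : ∀ k, {k} ∉ U)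
    (hσ : ∀ s : ℕ → Set K, (∀ n, s n ∈ U) → (⋂ n, s n) ∈ U) :
    ∃ (P : Type) (_ : Preorder P), Nonempty P ∧ #P ≤ 2 ^ #K ∧
      ∀ (W : Type), (∀ κ : Cardinal.{0}, #K < κ → κ ≤ #(W × W) → ¬ κ.IsInaccessible) →
        ∀ (E : W → W → P → Prop) (b₀ : P), Mono E → Symm E → (∀ x p, ¬ E x x p) →
        NoSplit E b₀ → ∃ b ≤ b₀, ∃ F : VFun P W ℕ, ∀ p ≤ b, ∀ x y n, E x y p →
          F.dec x n p → F.dec y n p → False := by
  set X : Type := K → Bool with hXdef
  have h2 := two_power (K := K)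
  have hX : #X = 2 ^ #K := by simp [hXdef]
  have hI : #(Idx K X) ≤ 2 ^ #K := mk_idx_le
  have hP : #(Fn (Idx K X)) ≤ 2 ^ #K := mk_fn_le _ h2 hI
  have hopt : ∀ A : Type, #A ≤ 2 ^ #K → #(ℕ → Option (Fn (Idx K X) × A)) ≤ 2 ^ #K := by
    intro A hA
    refine power_le ?_ (by simp)
    rw [mk_option]
    refine add_le_of_le h2 ?_ (one_le_aleph0.trans h2)
    simp only [mk_prod, lift_id]
    exact mul_le_of_le h2 hP hA
  obtain ⟨eP⟩ : Nonempty ((ℕ → Option (Fn (Idx K X) × X)) ↪ X) := by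
    rw [← Cardinal.le_def, hX]
    exact hopt _ hX.le
  obtain ⟨eP'⟩ : Nonempty ((ℕ → Option (Fn (Idx K X) × (ℕ × Bool))) ↪ X) := by
    rw [← Cardinal.le_def, hX]
    refine hopt _ ?_
    exact (mk_le_aleph0 (α := ℕ × Bool)).trans h2
  obtain ⟨eK⟩ : Nonempty ((K → X) ↪ X) := by
    rw [← Cardinal.le_def, hX]
    exact power_le hX.le le_rfl
  obtain ⟨jG⟩ : Nonempty (Grm U (Idx K X) ↪ X) := by
    rw [← Cardinal.le_def, hX]
    refine le_trans ?_ (power_le hI le_rfl)
    exact mk_le_of_surjective (f := fun s : K → Idx K X => (s : Grm U (Idx K X)))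
      Quotient.mk_surjective
  have hinf : Infinite X := aleph0_le_mk_iff.1 (by rw [hX]; exact h2)
  refine ⟨Fn (Idx K X), inferInstance, inferInstance, hP, ?_⟩
  intro W hin E b₀ hm hs hirr hns
  obtain ⟨b, hb, hsm⟩ := exists_small (Fn.ccc _) eP eP' eK hin hm hs hirr hns
  obtain ⟨F, hF⟩ := exists_countable hU0 hσ jG hm hns hb hsm
  exact ⟨b, hb, F, hF⟩

end

end Pool.Agent.Lib.MP_d41870_lc.Pos
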