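import Pool.Agent.Lib.MP_d41870_lc.QCut

/-!
# The name of `V_λ`, `λ` inaccessible
-/

set_option autoImplicit false

namespace Pool.Agent.Lib.MP_d41870_lc.Pos

open MP9708F Forc Cardinal

/-- Codes of hereditarily small names; `L` is a well order. -/
inductive CN (P : Type) [Preorder P] (L : Type) [LinearOrder L] : Type
  | mk (a : L) (w : {b : L // b < a} → LowerSet P) (x : {b : L // b < a} → CN P L) : CN P L

section

variable {P : Type} [Preorder P] {L : Type} [LinearOrder L]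

/-- The name with a given code. -/
def emb : CN P L → Nam P
  | .mk a w x => ⟨{b : L // b < a}, w, fun i => emb (x i)⟩

/-- The set of all coded names. -/
def vN (P L : Type) [Preorder P] [LinearOrder L] : Nam P := ⟨CN P L, fun _ => ⊤, emb⟩

/-- The name `z` has a code. -/
def Sm (L : Type) [LinearOrder L] (z : Nam P) : Prop := ∃ j : CN P L, ∀ p, feq z (emb j) p

theorem fmem_vN {z : Nam P} {p : P} : fmem z (vN P L) p ↔ DB (fun q => ∃ j : CN P L,
    feq z (emb j) q) p := by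
  constructor
  · intro h q hq
    obtain ⟨r, hr, j, -, h2⟩ := h q hq
    exact ⟨r, hr, j, h2⟩
  · intro h q hq
    obtain ⟨r, hr, j, h2⟩ := h q hq
    exact ⟨r, hr, j, trivial, h2⟩

theorem Sm.mem {z : Nam P} (h : Sm L z) (p : P) : fmem z (vN P L) p := by
  obtain ⟨j, hj⟩ := h
  exact fmem_vN.2 fun q _ => ⟨q, le_rfl, j, hj q⟩

theorem sm_emb (j : CN P L) : Sm L (emb j) := ⟨j, fun p => feq_refl _ p⟩

theorem sm_el (j : CN P L) (i : (emb j).idx) : Sm L ((emb j).el i) := by
  cases j with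
  | mk a w x => exact ⟨x i, fun p => feq_refl _ p⟩

end

section

variable {P : Type} [Preorder P] {lam : Cardinal.{0}}

theorem mk_idx_lt (j : CN P lam.ord.ToType) : #(emb j).idx < lam := by
  cases j with
  | mk a w x => exact Cardinal.mk_Iio_toType_ord_lt a

theorem exists_emb {ι : Type} (hι : #ι < lam) :
    ∃ a : lam.ord.ToType, Nonempty (ι ↪ {b : lam.ord.ToType // b < a}) := by
  have h3 : (#ι).ord < lam.ord := Cardinal.ord_lt_ord.2 hι
  obtain ⟨e⟩ : Nonempty (ι ≃ (#ι).ord.ToType) := Cardinal.eq.1 (by simp)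
  let a : lam.ord.ToType := Ordinal.ToType.mk ⟨(#ι).ord, h3⟩
  have hmem : ∀ i, (Ordinal.ToType.mk.symm (e i)).1 ∈ Set.Iio lam.ord := fun i =>
    Set.mem_Iio.2 (lt_trans (Set.mem_Iio.1 (Ordinal.ToType.mk.symm (e i)).2) h3)
  have hlt : ∀ i, Ordinal.ToType.mk (⟨(Ordinal.ToType.mk.symm (e i)).1, hmem i⟩ :
      Set.Iio lam.ord) < a := fun i =>
    (OrderIso.lt_iff_lt _).2 (Ordinal.ToType.mk.symm (e i)).2
  refine ⟨a, ⟨⟨fun i => ⟨_, hlt i⟩, fun i i' hii => ?_⟩⟩⟩
  have h4 := congrArg Subtype.val hii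
  have h5 := congrArg Subtype.val ((OrderIso.injective _) h4)
  exact e.injective ((OrderIso.injective _) (Subtype.ext h5))

/-- A small family of coded names is coded. -/
theorem sm_mk {ι : Type} (hι : #ι < lam) (hlam : lam.IsInaccessible) (w : ι → LowerSet P)
    (x : ι → Nam P) (hx : ∀ i, Sm lam.ord.ToType (x i)) : Sm lam.ord.ToType (⟨ι, w, x⟩ : Nam P) := by
  classical
  obtain ⟨a, ⟨g⟩⟩ := exists_emb hι
  choose j hj using hx
  have hne : Nonempty lam.ord.ToType := by
    rw [← Cardinal.mk_ne_zero_iff, Cardinal.mk_toType, Cardinal.card_ord]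
    exact (Cardinal.aleph0_pos.trans hlam.aleph0_lt).ne'
  obtain ⟨b0, -, hb0⟩ := (wellFounded_lt (α := lam.ord.ToType)).has_min Set.univ
    ⟨Classical.arbitrary _, trivial⟩
  let e0 : CN P lam.ord.ToType := .mk b0 (fun b => absurd b.2 (hb0 b.1 trivial))
    (fun b => absurd b.2 (hb0 b.1 trivial))
  refine ⟨.mk a (fun b => if h : ∃ i, g i = b then w h.choose else ⊥)
    (fun b => if h : ∃ i, g i = b then j h.choose else e0), fun p => ?_⟩
  have hgc : ∀ i, ∃ h : ∃ i', g i' = g i, h.choose = i := fun i =>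
    ⟨⟨i, rfl⟩, g.injective (⟨i, rfl⟩ : ∃ i', g i' = g i).choose_spec⟩
  rw [feq_iff]
  constructor
  · intro i q _ hqi
    obtain ⟨h, hi⟩ := hgc i
    refine ⟨q, le_rfl, g i, ?_, ?_⟩
    · show q ∈ (if h : ∃ i', g i' = g i then w h.choose else ⊥)
      rw [dif_pos h, hi]
      exact hqi
    · show feq (x i) (emb (if h : ∃ i', g i' = g i then j h.choose else e0)) q
      rw [dif_pos h, hi]
      exact hj i q
  · intro b q _ hqb
    have hqb' : q ∈ (if h : ∃ i, g i = b then w h.choose else (⊥ : LowerSet P)) := hqb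
    by_cases h : ∃ i, g i = b
    · rw [dif_pos h] at hqb'
      refine ⟨q, le_rfl, h.choose, hqb', ?_⟩
      show feq (x h.choose) (emb (if h : ∃ i', g i' = b then j h.choose else e0)) q
      rw [dif_pos h]
      exact hj _ q
    · rw [dif_neg h] at hqb'
      exact absurd hqb' (by simp)

section closure

variable (hlam : lam.IsInaccessible) (hP : #P < lam)

include hlam

theorem mk_bool_lt : #(ULift Bool : Type) < lam := by
  have : #(ULift Bool : Type) = 2 := by simp
  rw [this]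
  exact (Cardinal.natCast_lt_aleph0 (n := 2)).trans hlam.aleph0_lt

theorem sm_pair {x y : Nam P} (hx : Sm lam.ord.ToType x) (hy : Sm lam.ord.ToType y) :
    Sm lam.ord.ToType (Nam.pair x y) := by
  refine sm_mk (mk_bool_lt hlam) hlam _ _ fun b => ?_
  by_cases h : b.down
  · simpa [h] using hx
  · simpa [h] using hy

theorem sm_union (j : CN P lam.ord.ToType) : Sm lam.ord.ToType (Nam.sUnion (emb j)) := by
  refine sm_mk ?_ hlam _ _ ?_
  · rw [mk_sigma]
    refine sum_lt_of_isRegular hlam.isRegular (mk_idx_lt j) fun i => ?_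
    cases j with
    | mk a w x => exact mk_idx_lt (x i)
  · rintro ⟨i, k⟩
    cases j with
    | mk a w x => exact sm_el (x i) k

theorem sm_omega : Sm lam.ord.ToType (Nam.omega : Nam P) := by
  have hω : #(ULift ℕ : Type) < lam := by simpa using hlam.aleph0_lt
  refine sm_mk hω hlam _ _ fun n => ?_
  obtain ⟨n⟩ := n
  dsimp only
  induction n with
  | zero =>
    exact sm_mk (by simpa using Cardinal.aleph0_pos.trans hlam.aleph0_lt) hlam _ _ fun i => i.elim
  | succ n ih =>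
    obtain ⟨j, hj⟩ := ih
    have h1 : Sm lam.ord.ToType (Nam.succ (emb j)) := by
      refine sm_mk ?_ hlam _ _ ?_
      · rw [mk_option]
        exact add_lt_of_lt hlam.aleph0_lt.le (mk_idx_lt j) (one_lt_aleph0.trans hlam.aleph0_lt)
      · rintro (_ | k)
        · exact sm_emb j
        · exact sm_el j k
    obtain ⟨j', hj'⟩ := h1
    exact ⟨j', fun p => feq_trans (feq_succ (hj p)) (hj' p)⟩

include hP

theorem mk_lowerSet_lt : #(LowerSet P) < lam := by
  refine lt_of_le_of_lt ?_ (hlam.isStrongLimit.isStrongPrelimit hP)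
  rw [← mk_set]
  exact mk_le_of_injective (f := fun s : LowerSet P => (s : Set P)) SetLike.coe_injective

theorem sm_power (j : CN P lam.ord.ToType) : Sm lam.ord.ToType (Nam.power (emb j)) := by
  refine sm_mk ?_ hlam _ _ fun χ => ?_
  · rw [← power_def]
    have h1 := mk_lowerSet_lt hlam hP
    refine lt_of_le_of_lt (power_le_power_right (cantor _).le) ?_
    rw [← power_mul]
    exact hlam.isStrongLimit.isStrongPrelimit (mul_lt_of_lt hlam.aleph0_lt.le h1 (mk_idx_lt j))
  · exact sm_mk (mk_idx_lt j) hlam _ _ fun i => sm_el j i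

/-- The images of coded names are coded. -/
theorem sm_image (j : CN P lam.ord.ToType) (t g : Nam P) (p : P)
    (ht : ∀ z, ∀ q ≤ p, fmem z t q → fmem z (vN P lam.ord.ToType) q)
    (hg : ∀ z, ∀ q ≤ p, fmem z t q → DB (fun r => ∃ y, fmem y (emb j) r ∧
      fmem (opair y z) g r) q)
    (hu : ∀ y z z', ∀ q ≤ p, fmem (opair y z) g q → fmem (opair y z') g q → feq z z' q) :
    ∃ t', Sm lam.ord.ToType t' ∧ feq t t' p := by
  classical
  have h1 : ∀ i : (emb j).idx, ∃ C : Set P, C ⊆ {q | q ≤ p ∧ ∃ k : CN P lam.ord.ToType,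
      fmem (opair ((emb j).el i) (emb k)) g q} ∧ Antichain' C ∧
      ∀ q ∈ {q | q ≤ p ∧ ∃ k : CN P lam.ord.ToType,
      fmem (opair ((emb j).el i) (emb k)) g q}, ∃ c ∈ C, ∃ r, r ≤ c ∧ r ≤ q :=
    fun i => exists_maximal_antichain _
  choose C hC1 hC2 hC3 using h1
  have h2 : ∀ (i : (emb j).idx) (c : C i), ∃ k : CN P lam.ord.ToType,
      fmem (opair ((emb j).el i) (emb k)) g c.1 := fun i c => (hC1 i c.2).2
  choose k hk using h2
  refine ⟨⟨Σ i : (emb j).idx, C i, fun s => ⟨{q | q ≤ s.2.1 ∧ fmem (emb (k s.1 s.2)) t q},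
    fun _ _ hqp hp => ⟨hqp.trans hp.1, fmem_mono hqp hp.2⟩⟩, fun s => emb (k s.1 s.2)⟩, ?_, ?_⟩
  · refine sm_mk ?_ hlam _ _ fun s => sm_emb _
    rw [mk_sigma]
    exact sum_lt_of_isRegular hlam.isRegular (mk_idx_lt j)
      fun i => (mk_set_le _).trans_lt hP
  · refine feq_of_fmem fun z q hq => ⟨fun hz r hr => ?_, fun hz => fmem_reg fun r hr => ?_⟩
    · have hrp : r ≤ p := hr.trans hq
      obtain ⟨r1, hr1, k1, hk1⟩ := fmem_vN.1 (ht z q hq hz) r hr
      obtain ⟨r2, hr2, y, hy, hyz⟩ := hg z q hq hz r1 (hr1.trans hr)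
      obtain ⟨r3, hr3, i, hi, hyi⟩ := hy r2 le_rfl
      have hr3p : r3 ≤ p := ((hr3.trans hr2).trans hr1).trans hrp
      have h3 : fmem (opair ((emb j).el i) (emb k1)) g r3 :=
        fmem_congr_left (feq_opair hyi (feq_mono (hr3.trans hr2) hk1)) (fmem_mono hr3 hyz)
      obtain ⟨c, hc, s, hsc, hsr⟩ := hC3 i r3 ⟨hr3p, k1, h3⟩
      have h4 := fmem_mono hsc (hk i ⟨c, hc⟩)
      have h5 : feq (emb k1) (emb (k i ⟨c, hc⟩)) s :=
        hu _ _ _ s (hsr.trans hr3p) (fmem_mono hsr h3) h4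
      have hsr1 : s ≤ r1 := (hsr.trans hr3).trans hr2
      have h6 : feq z (emb (k i ⟨c, hc⟩)) s := feq_trans (feq_mono hsr1 hk1) h5
      exact ⟨s, hsr1.trans hr1, ⟨i, ⟨c, hc⟩⟩,
        ⟨hsc, fmem_congr_left h6 (fmem_mono ((hsr1.trans hr1).trans hr) hz)⟩, h6⟩
    · obtain ⟨s, hs, ⟨i, c⟩, ⟨-, h3⟩, h4⟩ := hz r hr
      exact ⟨s, hs, fmem_congr_left (feq_symm h4) h3⟩

end closure

end

/-! ### The closure properties, forced -/

/-- The closure properties, as formulas; `v` has index `0`. -/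
def fZ1 : SetFormula := .all (.all (imp (.mem 0 2) (imp (.mem 1 0) (.mem 1 2))))

@[inherit_doc fZ1]
def fZ2 : SetFormula :=
  .all (.all (imp (.mem 0 2) (imp (.all (imp (.mem 0 2) (.mem 0 1))) (.mem 1 2))))

@[inherit_doc fZ1]
def fZ3 : SetFormula :=
  .all (.all (imp (.mem 0 2) (imp (.mem 1 2) (SetFormula.and (.mem 0 3)
    (.all (iff' (.mem 0 1) (or' (.eq 0 2) (.eq 0 3))))).ex)))

@[inherit_doc fZ1]
def fZ4 : SetFormula :=
  .all (imp (.mem 0 1) (SetFormula.and (.mem 0 2)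
    (.all (iff' (.mem 0 1) (SetFormula.and (.mem 0 3) (.mem 1 0)).ex))).ex)

@[inherit_doc fZ1]
def fZ5 : SetFormula :=
  .all (imp (.mem 0 1) (SetFormula.and (.mem 0 2)
    (.all (iff' (.mem 0 1) (.all (imp (.mem 0 1) (.mem 0 3)))))).ex)

@[inherit_doc fZ1]
def fZ6 : SetFormula := (SetFormula.and (.mem 0 1) (fInd 0)).ex

@[inherit_doc fZ1]
def fZ7 : SetFormula :=
  .all (.all (.all (imp (.mem 2 3) (imp (.all (imp (.mem 0 2) (.mem 0 4)))
    (imp (.all (imp (.mem 0 2) (SetFormula.and (.mem 0 4) (fHas 2 0 1)).ex))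
      (imp (.all (.all (.all (imp (fHas 3 2 1) (imp (fHas 3 2 0) (.eq 1 0))))))
        (.mem 1 3)))))))

section

variable {P : Type} [Preorder P] {lam : Cardinal.{0}} (hlam : lam.IsInaccessible)
  (hP : #P < lam) {v : ℕ → Nam P} (h0 : v 0 = vN P lam.ord.ToType) (p : P)

include h0

theorem forces_fZ1 : fZ1.Forces v p := by
  unfold fZ1
  simp only [SetFormula.Forces, Forc.forces_imp, push_succ', push_zero', h0]
  intro x y q _ hy r hr hxy
  refine fmem_reg fun s hs => ?_
  obtain ⟨t, ht, j, hj⟩ := fmem_vN.1 hy s (hs.trans hr)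
  obtain ⟨u, hu, i, hi, hxi⟩ := fmem_congr_right hj (fmem_mono (ht.trans hs) hxy) t le_rfl
  exact ⟨u, hu.trans ht, fmem_congr_left (feq_symm hxi) ((sm_el j i).mem u)⟩

include hlam

theorem forces_fZ2 : fZ2.Forces v p := by
  unfold fZ2
  simp only [SetFormula.Forces, Forc.forces_imp, push_succ', push_zero', h0]
  intro x y q _ hy r hr hxy
  refine fmem_reg fun s hs => ?_
  obtain ⟨t, ht, j, hj⟩ := fmem_vN.1 hy s (hs.trans hr)
  have h1 : fmem x (Nam.power (emb j)) t := by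
    rw [fmem_power]
    intro w u hu hw
    exact fmem_congr_right (feq_mono hu hj) (hxy w u (hu.trans (ht.trans hs)) hw)
  obtain ⟨u, hu, χ, -, hχ⟩ := h1 t le_rfl
  refine ⟨u, hu.trans ht, fmem_congr_left (feq_symm hχ) ?_⟩
  exact (sm_mk (mk_idx_lt j) hlam _ _ fun i => sm_el j i).mem u

theorem forces_fZ3 : fZ3.Forces v p := by
  unfold fZ3
  simp only [SetFormula.Forces, Forc.forces_imp, forces_ex', forces_iff, forces_or, push_succ',
    push_zero', h0]
  intro x y q _ hy r hr hx s hs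
  obtain ⟨t, ht, j, hj⟩ := fmem_vN.1 hy s (hs.trans hr)
  obtain ⟨u, hu, k, hk⟩ := fmem_vN.1 hx t (ht.trans hs)
  refine ⟨u, hu.trans ht, Nam.pair y x, ?_, fun w u' _ => fmem_pair⟩
  exact fmem_congr_left (feq_symm (feq_pair_congr (feq_mono hu hj) hk))
    ((sm_pair hlam (sm_emb j) (sm_emb k)).mem u)

theorem forces_fZ4 : fZ4.Forces v p := by
  unfold fZ4
  simp only [SetFormula.Forces, Forc.forces_imp, forces_ex', forces_iff, push_succ',
    push_zero', h0]
  intro x q _ hx s hs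
  obtain ⟨t, ht, j, hj⟩ := fmem_vN.1 hx s hs
  refine ⟨t, ht, Nam.sUnion (emb j), (sm_union hlam j).mem t, fun z u hu => ?_⟩
  rw [fmem_sUnion]
  constructor
  · refine DB.imp fun r hr ⟨w, hw, hz⟩ => ⟨w, ?_, hz⟩
    exact fmem_congr_right (feq_symm (feq_mono (hr.trans hu) hj)) hw
  · refine DB.imp fun r hr ⟨w, hw, hz⟩ => ⟨w, ?_, hz⟩
    exact fmem_congr_right (feq_mono (hr.trans hu) hj) hw

include hP in
theorem forces_fZ5 : fZ5.Forces v p := by
  unfold fZ5
  simp only [SetFormula.Forces, Forc.forces_imp, forces_ex', forces_iff, push_succ',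
    push_zero', h0]
  intro x q _ hx s hs
  obtain ⟨t, ht, j, hj⟩ := fmem_vN.1 hx s hs
  refine ⟨t, ht, Nam.power (emb j), (sm_power hlam hP j).mem t, fun z u hu => ?_⟩
  rw [fmem_power]
  constructor
  · intro h w r hr hw
    exact fmem_congr_right (feq_symm (feq_mono (hr.trans hu) hj)) (h w r hr hw)
  · intro h w r hr hw
    exact fmem_congr_right (feq_mono (hr.trans hu) hj) (h w r hr hw)

theorem forces_fZ6 : fZ6.Forces v p := by
  unfold fZ6
  simp only [SetFormula.Forces, forces_ex', forces_fInd, push_succ', push_zero', h0]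
  intro q _
  exact ⟨q, le_rfl, Nam.omega, (sm_omega hlam).mem q, infinity_forced.1 q,
    fun y r _ h => infinity_forced.2 y r h⟩

include hP in
theorem forces_fZ7 : fZ7.Forces v p := by
  unfold fZ7
  simp only [SetFormula.Forces, Forc.forces_imp, forces_ex', forces_fHas, push_succ',
    push_zero', h0]
  intro x t g q _ hx r hr ht r1 hr1 hg r2 hr2 hu
  refine fmem_reg fun s hs => ?_
  obtain ⟨s1, hs1, j, hj⟩ := fmem_vN.1 hx s (hs.trans (hr2.trans (hr1.trans hr)))
  have hs1r : s1 ≤ r2 := hs1.trans hs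
  obtain ⟨t', ht', ht''⟩ := sm_image hlam hP j t g s1
    (fun z q hq hz => ht z q (hq.trans (hs1r.trans (hr2.trans hr1))) hz)
    (fun z q hq hz => by
      refine DB.imp (fun r' hr' ⟨y, hy, hyz⟩ => ⟨y, ?_, hyz⟩)
        (hg z q (hq.trans (hs1r.trans hr2)) hz)
      exact fmem_congr_right (feq_mono (hr'.trans hq) hj) hy)
    (fun y z z' q hq h1 h2 => hu y z z' q (hq.trans hs1r) h1 q le_rfl h2)
  exact ⟨s1, hs1, fmem_congr_left (feq_symm ht'') (ht'.mem s1)⟩

end

/-- In every model given by `exists_model`, the set named by `vN` is closed. -/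
theorem closed_vN {P : Type} [Preorder P] {lam : Cardinal.{0}} (hlam : lam.IsInaccessible)
    (hP : #P < lam) {M : Type 1} {E : M → M → Prop} (i : Nam P → M)
    (hi : ∀ (φ : SetFormula) (v : ℕ → Nam P), (∀ p, φ.Forces v p) →
      φ.Holds E (fun n => i (v n))) : Closed E (i (vN P lam.ord.ToType)) := by
  let a : ℕ → Nam P := fun _ => vN P lam.ord.ToType
  have hv0 : a 0 = vN P lam.ord.ToType := rfl
  have h1 := hi fZ1 a fun p => forces_fZ1 (lam := lam) hv0 p
  have h2 := hi fZ2 a fun p => forces_fZ2 hlam hv0 p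
  have h3 := hi fZ3 a fun p => forces_fZ3 hlam hv0 p
  have h4 := hi fZ4 a fun p => forces_fZ4 hlam hv0 p
  have h5 := hi fZ5 a fun p => forces_fZ5 hlam hP hv0 p
  have h6 := hi fZ6 a fun p => forces_fZ6 hlam hv0 p
  have h7 := hi fZ7 a fun p => forces_fZ7 hlam hP hv0 p
  simp only [fZ1, fZ2, fZ3, fZ4, fZ5, fZ6, fZ7, SetFormula.Holds, Forc.holds_imp, holds_ex,
    holds_iff, holds_or, holds_fHas, holds_fInd, push_succ', push_zero'] at h1 h2 h3 h4 h5 h6 h7
  exact ⟨h1, h2, h3, h4, h5, h6, h7⟩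

end Pool.Agent.Lib.MP_d41870_lc.Pos
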