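import Pool.Agent.Lib.MP_d41870_lc.PCore
import Pool.Agent.Lib.MP_d41870_lc.QName

/-!
# From names of graphs to graph names on ground model sets
-/

set_option autoImplicit false

namespace Pool.Agent.Lib.MP_d41870_lc.Pos

open MP9708F Forc

section

variable {P : Type} [Preorder P] (h H : Nam P) [LinearOrder h.idx] [WellFoundedLT h.idx]

/-- The index `x` is the first name of its element. -/
def Act (x : h.idx) (p : P) : Prop :=
  p ∈ h.wt x ∧ ∀ x' < x, ∀ q ≤ p, q ∈ h.wt x' → ¬ feq (h.el x') (h.el x) q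

/-- The edge relation on the indices. -/
def Ed (x y : h.idx) (p : P) : Prop :=
  x ≠ y ∧ Act h x p ∧ Act h y p ∧ fmem (Nam.pair (h.el x) (h.el y)) H p

variable {h H}

omit [WellFoundedLT h.idx] in
theorem Act.mono {x : h.idx} {p q : P} (hq : q ≤ p) (hx : Act h x p) : Act h x q :=
  ⟨(h.wt x).lower hq hx.1, fun x' hx' r hr => hx.2 x' hx' r (hr.trans hq)⟩

omit [WellFoundedLT h.idx] in
theorem Act.mem {x : h.idx} {p : P} (hx : Act h x p) : fmem (h.el x) h p := fmem_of_wt hx.1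

omit [WellFoundedLT h.idx] in
theorem Act.inj {x y : h.idx} {p : P} (hx : Act h x p) (hy : Act h y p)
    (hxy : feq (h.el x) (h.el y) p) : x = y := by
  rcases lt_trichotomy x y with h1 | h1 | h1
  · exact absurd hxy (hy.2 x h1 p le_rfl hx.1)
  · exact h1
  · exact absurd (feq_symm hxy) (hx.2 y h1 p le_rfl hy.1)

theorem exists_act {a : Nam P} {p : P} (ha : fmem a h p) :
    ∀ q ≤ p, ∃ r ≤ q, ∃ x, Act h x r ∧ feq a (h.el x) r := by
  intro q hq
  obtain ⟨r, hr, j, hj, haj⟩ := ha q hq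
  have h1 : {x | ∃ s ≤ r, s ∈ h.wt x ∧ feq (h.el x) (h.el j) s}.Nonempty :=
    ⟨j, r, le_rfl, hj, feq_refl _ _⟩
  obtain ⟨x, ⟨s, hs, hsx, hxj⟩, hmin⟩ := wellFounded_lt.has_min _ h1
  refine ⟨s, hs.trans hr, x, ⟨hsx, ?_⟩, ?_⟩
  · intro x' hx' t ht htx' heq
    exact hmin x' ⟨t, ht.trans hs, htx', feq_trans heq (feq_mono ht hxj)⟩ hx'
  · exact feq_trans (feq_mono hs haj) (feq_symm hxj)

theorem feq_pair_comm (a b : Nam P) (p : P) : feq (Nam.pair a b) (Nam.pair b a) p := by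
  refine feq_of_fmem fun z q _ => ?_
  rw [fmem_pair, fmem_pair]
  constructor
  · exact DB.imp fun r _ h => h.symm
  · exact DB.imp fun r _ h => h.symm

omit [WellFoundedLT h.idx] in
theorem Ed.mono : Mono (Ed h H) := fun _ _ _ _ hq hE =>
  ⟨hE.1, hE.2.1.mono hq, hE.2.2.1.mono hq, fmem_mono hq hE.2.2.2⟩

omit [WellFoundedLT h.idx] in
theorem Ed.symm : Symm (Ed h H) := fun _ _ p hE =>
  ⟨hE.1.symm, hE.2.2.1, hE.2.1, fmem_congr_left (feq_pair_comm _ _ p) hE.2.2.2⟩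

omit [WellFoundedLT h.idx] in
/-- Two representations of an edge are equal. -/
theorem pair_cases {x y x' y' : h.idx} {p : P} (hxy : x ≠ y) (hx : Act h x p) (hy : Act h y p)
    (hx' : Act h x' p) (hy' : Act h y' p)
    (heq : feq (Nam.pair (h.el x) (h.el y)) (Nam.pair (h.el x') (h.el y')) p) :
    (x = x' ∧ y = y') ∨ (x = y' ∧ y = x') := by
  have key : ∀ z, Act h z p → fmem (h.el z) (Nam.pair (h.el x') (h.el y')) p →
      z = x' ∨ z = y' := by
    intro z hz hm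
    obtain ⟨r, hr, h1 | h1⟩ := fmem_pair.1 hm p le_rfl
    · exact Or.inl ((hz.mono hr).inj (hx'.mono hr) h1)
    · exact Or.inr ((hz.mono hr).inj (hy'.mono hr) h1)
  have h1 := key x hx (fmem_congr_right heq (fmem_pair_left _ _ _))
  have h2 := key y hy (fmem_congr_right heq (fmem_pair_right _ _ _))
  rcases h1 with rfl | rfl <;> rcases h2 with rfl | rfl
  · exact absurd rfl hxy
  · exact Or.inl ⟨rfl, rfl⟩
  · exact Or.inr ⟨rfl, rfl⟩
  · exact absurd rfl hxy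

variable {b₀ : P} {v : ℕ → Nam P}

/-- Every edge has a representation. -/
theorem exists_ed (h0 : v 0 = h) (h1 : v 1 = H) (hgr : (fGr 0 1).Forces v b₀) {e : Nam P}
    {p : P} (hp : p ≤ b₀) (he : fmem e H p) :
    ∃ q ≤ p, ∃ x y, Ed h H x y q ∧ feq e (Nam.pair (h.el x) (h.el y)) q := by
  unfold fGr at hgr
  simp only [SetFormula.Forces, forces_ex', forces_iff, forces_or, Forc.forces_imp, push_succ',
    push_zero', h0, h1] at hgr
  obtain ⟨q, hq, a, ha⟩ := hgr e p hp he p le_rfl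
  obtain ⟨r, hr, b, h2, h3, h4, h5⟩ := ha q le_rfl
  obtain ⟨s, hs, x, hx, hax⟩ := exists_act h2 r le_rfl
  obtain ⟨t, ht, y, hy, hby⟩ := exists_act (fmem_mono hs h3) s le_rfl
  have h6 : feq e (Nam.pair a b) r := feq_pair'.1 h5
  have h7 : feq e (Nam.pair (h.el x) (h.el y)) t :=
    feq_trans (feq_mono (ht.trans hs) h6) (feq_pair_congr (feq_mono ht hax) hby)
  have htp : t ≤ p := ((ht.trans hs).trans hr).trans hq
  refine ⟨t, htp, x, y, ⟨?_, hx.mono ht, hy, fmem_congr_left h7 (fmem_mono htp he)⟩, h7⟩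
  rintro rfl
  exact h4 t (ht.trans hs) (feq_trans (feq_mono ht hax) (feq_symm hby))

/-- `f` is a function from `h` to `ω`, at `p`. -/
def IsFun (h f : Nam P) (p : P) : Prop :=
  (∀ z, ∀ q ≤ p, fmem z f q → DB (fun r => ∃ a, DB (fun s => ∃ b, fmem a h s ∧
      fmem b Nam.omega s ∧ feq z (opair a b) s) r) q) ∧
    (∀ a, ∀ q ≤ p, fmem a h q → DB (fun r => ∃ b, fmem (opair a b) f r) q) ∧
    ∀ a b b', ∀ q ≤ p, fmem (opair a b) f q → ∀ r ≤ q, fmem (opair a b') f r → feq b b' r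

/-- The class `n` of `f` contains an edge of `H`, at `p`. -/
def Cls (f n H : Nam P) (p : P) : Prop :=
  DB (fun r => ∃ e, fmem e H r ∧ ∀ z, ∀ s ≤ r, fmem z e s → fmem (opair z n) f s) p

omit [LinearOrder h.idx] [WellFoundedLT h.idx] in
theorem IsFun.exists_val {f : Nam P} {p : P} (hf : IsFun h f p) {a : Nam P} {q : P} (hq : q ≤ p)
    (ha : fmem a h q) : ∃ r ≤ q, ∃ n : ℕ, fmem (opair a (Nam.fin n)) f r := by
  obtain ⟨t, ht, b, hb⟩ := hf.2.1 a q hq ha q le_rfl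
  obtain ⟨t1, ht1, a', ha'⟩ := hf.1 _ t (ht.trans hq) hb t le_rfl
  obtain ⟨t2, ht2, b', -, hb', hpair⟩ := ha' t1 le_rfl
  obtain ⟨t3, ht3, n, hn⟩ := fmem_omega.1 hb' t2 le_rfl
  refine ⟨t3, ((ht3.trans ht2).trans ht1).trans ht, n, ?_⟩
  have h5 := (opair_inj hpair).2
  exact fmem_congr_left (feq_opair (feq_refl _ _) (feq_trans (feq_mono ht3 h5) hn))
    (fmem_mono ((ht3.trans ht2).trans ht1) hb)

/-- **(C2)** A countable proper colouring of the graph name refutes that the graph is uncountably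
chromatic. -/
theorem not_unc (h0 : v 0 = h) (h1 : v 1 = H) (hgr : (fGr 0 1).Forces v b₀)
    (hunc : (fUnc 0 1).Forces v b₀) {b : P} (hb : b ≤ b₀) (F : VFun P h.idx ℕ)
    (hF : ∀ p ≤ b, ∀ x y n, Ed h H x y p → F.dec x n p → F.dec y n p → False) : False := by
  set f : Nam P := ⟨h.idx × ℕ, fun z => ⟨{q | Act h z.1 q ∧ F.dec z.1 z.2 q},
    fun _ _ hqp hp => ⟨hp.1.mono hqp, F.mono hqp hp.2⟩⟩,
    fun z => opair (h.el z.1) (Nam.fin z.2)⟩ with hfdef
  have hfi : ∀ x n q, Act h x q → F.dec x n q → fmem (opair (h.el x) (Nam.fin n)) f q :=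
    fun x n q hx hn => fmem_of_wt (y := f) (j := ((x, n) : h.idx × ℕ)) ⟨hx, hn⟩
  have hfv : ∀ x (m : ℕ) (n : Nam P) q, Act h x q → feq n (Nam.fin m) q →
      fmem (opair (h.el x) n) f q → ∃ r ≤ q, F.dec x m r := by
    intro x m n q hx hn hm
    obtain ⟨r, hr, ⟨x', m'⟩, ⟨h2, h3⟩, h4⟩ := hm q le_rfl
    obtain ⟨h5, h6⟩ := opair_inj h4
    have h7 : x = x' := (hx.mono hr).inj h2 h5
    have h8 : m = m' := fin_inj (feq_trans (feq_symm (feq_mono hr hn)) h6)
    subst h7 h8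
    exact ⟨r, hr, h3⟩
  unfold fUnc at hunc
  simp only [SetFormula.Forces, forces_ex', Forc.forces_imp, forces_fOm, forces_fFun, forces_fCls,
    push_succ', push_zero', h0, h1] at hunc
  obtain ⟨q, hq, n, hn, hcl⟩ := hunc Nam.omega b hb (feq_refl _ _) f b le_rfl (by
    refine ⟨?_, ?_, ?_⟩
    · intro z q _ hz r hr
      obtain ⟨s, hs, ⟨x, n⟩, ⟨h2, -⟩, h3⟩ := hz r hr
      exact ⟨s, hs, h.el x, fun t ht => ⟨t, le_rfl, Nam.fin n, (h2.mono ht).mem,
        fmem_omega_fin n t, feq_mono ht h3⟩⟩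
    · intro a q _ ha r hr
      obtain ⟨s, hs, x, hx, hax⟩ := exists_act ha r hr
      obtain ⟨t, ht, n, hn⟩ := F.tot x s
      exact ⟨t, ht.trans hs, Nam.fin n, fmem_congr_left
        (feq_opair (feq_symm (feq_mono ht hax)) (feq_refl _ _)) (hfi x n t (hx.mono ht) hn)⟩
    · intro a b1 b2 q _ hb1 r hr hb2
      refine feq_reg fun t1 ht1 => ?_
      obtain ⟨t2, ht2, ⟨x, n⟩, ⟨h2, h2'⟩, h3⟩ := hb1 t1 (ht1.trans hr)
      obtain ⟨t3, ht3, ⟨x', n'⟩, ⟨h4, h4'⟩, h5⟩ := hb2 t2 (ht2.trans ht1)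
      obtain ⟨h6, h7⟩ := opair_inj h3
      obtain ⟨h8, h9⟩ := opair_inj h5
      have h10 : x = x' := (h2.mono ht3).inj h4 (feq_trans (feq_symm (feq_mono ht3 h6)) h8)
      subst h10
      have h11 : n = n' := F.uniq (F.mono ht3 h2') h4'
      subst h11
      exact ⟨t3, ht3.trans ht2, feq_trans (feq_mono ht3 h7) (feq_symm h9)⟩) b le_rfl
  obtain ⟨q1, hq1, m, hm⟩ := fmem_omega.1 hn q le_rfl
  obtain ⟨q2, hq2, e, he, hz⟩ := hcl q1 hq1
  have hq2b : q2 ≤ b := (hq2.trans hq1).trans hq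
  obtain ⟨q3, hq3, x, y, hE, hexy⟩ := exists_ed h0 h1 hgr (hq2b.trans hb) he
  have h2 : fmem (h.el x) e q3 := fmem_congr_right (feq_symm hexy) (fmem_pair_left _ _ _)
  have h3 : fmem (h.el y) e q3 := fmem_congr_right (feq_symm hexy) (fmem_pair_right _ _ _)
  have hm3 : feq n (Nam.fin m) q3 := feq_mono (hq3.trans hq2) hm
  obtain ⟨q4, hq4, h4⟩ := hfv x m n q3 hE.2.1 hm3 (hz _ q3 hq3 h2)
  obtain ⟨q5, hq5, h5⟩ := hfv y m n q4 (hE.2.2.1.mono hq4) (feq_mono hq4 hm3)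
    (fmem_mono hq4 (hz _ q3 hq3 h3))
  exact hF q5 ((hq5.trans hq4).trans (hq3.trans hq2b)) x y m (Ed.mono _ _ _ _ (hq5.trans hq4) hE)
    (F.mono hq5 h4) h5

/-- **(C1)** A graph which does not split gives a graph name which does not split. -/
theorem noSplit (h0 : v 0 = h) (h1 : v 1 = H) (hgr : (fGr 0 1).Forces v b₀)
    (hns : (SetFormula.neg (fSpl 0 1)).Forces v b₀) : NoSplit (Ed h H) b₀ := by
  classical
  intro H' hm hs
  -- the two parts
  set N1 : Nam P := ⟨h.idx × h.idx, fun z => ⟨{q | Ed h H z.1 z.2 q ∧ H' z.1 z.2 q},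
    fun _ _ hqp hp => ⟨Ed.mono _ _ _ _ hqp hp.1, hm _ _ _ _ hqp hp.2⟩⟩,
    fun z => Nam.pair (h.el z.1) (h.el z.2)⟩ with hN1
  set N0 : Nam P := ⟨h.idx × h.idx, fun z => ⟨{q | Ed h H z.1 z.2 q ∧ ∀ r ≤ q, ¬ H' z.1 z.2 r},
    fun _ _ hqp hp => ⟨Ed.mono _ _ _ _ hqp hp.1, fun r hr => hp.2 r (hr.trans hqp)⟩⟩,
    fun z => Nam.pair (h.el z.1) (h.el z.2)⟩ with hN0
  have hi1 : ∀ x y q, Ed h H x y q → H' x y q → fmem (Nam.pair (h.el x) (h.el y)) N1 q :=
    fun x y q hE hH => fmem_of_wt (y := N1) (j := ((x, y) : h.idx × h.idx)) ⟨hE, hH⟩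
  have hi0 : ∀ x y q, Ed h H x y q → (∀ r ≤ q, ¬ H' x y r) →
      fmem (Nam.pair (h.el x) (h.el y)) N0 q :=
    fun x y q hE hH => fmem_of_wt (y := N0) (j := ((x, y) : h.idx × h.idx)) ⟨hE, hH⟩
  -- witnesses that the parts do not split
  have hdense : ∀ q ≤ b₀, ∃ r ≤ q, ∃ f, IsFun h f r ∧ ∀ n, ∀ s ≤ r, fmem n Nam.omega s →
      ¬ (Cls f n N0 s ∧ Cls f n N1 s) := by
    intro q hq
    by_contra hcon
    push Not at hcon
    apply hns q hq
    unfold fSpl
    simp only [SetFormula.Forces, forces_ex', forces_iff, forces_or, Forc.forces_imp, forces_fOm,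
      forces_fFun, forces_fCls, push_succ', push_zero', h0, h1]
    intro q1 hq1
    refine ⟨q1, le_rfl, N0, fun q2 hq2 => ⟨q2, le_rfl, N1, ?_, ?_, ?_⟩⟩
    · intro e q3 hq3
      constructor
      · intro he q4 hq4
        have hq4b : q4 ≤ b₀ := (hq4.trans hq3).trans (hq2.trans (hq1.trans hq))
        obtain ⟨q5, hq5, x, y, hE, hexy⟩ := exists_ed h0 h1 hgr hq4b (fmem_mono hq4 he)
        by_cases hc : ∃ r ≤ q5, H' x y r
        · obtain ⟨r, hr, hr'⟩ := hc
          exact ⟨r, hr.trans hq5, Or.inr (fmem_congr_left (feq_symm (feq_mono hr hexy))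
            (hi1 x y r (Ed.mono _ _ _ _ hr hE) hr'))⟩
        · push Not at hc
          exact ⟨q5, hq5, Or.inl (fmem_congr_left (feq_symm hexy) (hi0 x y q5 hE hc))⟩
      · intro he
        refine fmem_reg fun q4 hq4 => ?_
        obtain ⟨q5, hq5, he5 | he5⟩ := he q4 hq4
        · obtain ⟨q6, hq6, ⟨x, y⟩, ⟨hE, -⟩, h6⟩ := he5 q5 le_rfl
          exact ⟨q6, hq6.trans hq5, fmem_congr_left (feq_symm h6) hE.2.2.2⟩
        · obtain ⟨q6, hq6, ⟨x, y⟩, ⟨hE, -⟩, h6⟩ := he5 q5 le_rfl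
          exact ⟨q6, hq6.trans hq5, fmem_congr_left (feq_symm h6) hE.2.2.2⟩
    · rintro e q3 - ⟨he0, he1⟩
      obtain ⟨q4, hq4, ⟨x, y⟩, ⟨hE, hH⟩, h4⟩ := he0 q3 le_rfl
      obtain ⟨q5, hq5, ⟨x', y'⟩, ⟨hE', hH'⟩, h5⟩ := he1 q4 hq4
      rcases pair_cases hE.1 (hE.2.1.mono hq5) (hE.2.2.1.mono hq5) hE'.2.1 hE'.2.2.1
        (feq_trans (feq_symm (feq_mono hq5 h4)) h5) with ⟨hx, hy⟩ | ⟨hx, hy⟩
      · dsimp only at hx hy hH'
        subst hx hy
        exact hH q5 hq5 hH'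
      · dsimp only at hx hy hH'
        subst hx hy
        exact hH q5 hq5 (hs _ _ _ hH')
    · intro w q3 hq3 hw f q4 hq4 hf q5 hq5
      have hww : feq w Nam.omega q5 := feq_mono (hq5.trans hq4) hw
      have hf' : IsFun h f q5 := by
        obtain ⟨hf1, hf2, hf3⟩ := hf
        refine ⟨fun z q6 hq6 hz => ?_, fun a q6 hq6 => hf2 a q6 (hq6.trans hq5),
          fun a b b' q6 hq6 => hf3 a b b' q6 (hq6.trans hq5)⟩
        have h6 := hf1 z q6 (hq6.trans hq5) hz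
        refine DB.imp (fun r hr h7 => ?_) h6
        obtain ⟨a, ha⟩ := h7
        refine ⟨a, DB.imp (fun s hs h8 => ?_) ha⟩
        obtain ⟨b, h8, h9, h10⟩ := h8
        exact ⟨b, h8, fmem_congr_right (feq_mono (hs.trans (hr.trans hq6)) hww) h9, h10⟩
      have hq5q : q5 ≤ q := ((hq5.trans hq4).trans hq3).trans (hq2.trans hq1)
      obtain ⟨n, s, hs', hn, hc0, hc1⟩ := hcon q5 hq5q f hf'
      exact ⟨s, hs', n, fmem_congr_right (feq_symm (feq_mono hs' hww)) hn, hc0, hc1⟩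
  -- mixing
  obtain ⟨C, hC1, hC2, hC3⟩ := exists_maximal_antichain {r : P | ∃ f, IsFun h f r ∧
    ∀ n, ∀ s ≤ r, fmem n Nam.omega s → ¬ (Cls f n N0 s ∧ Cls f n N1 s)}
  have hC1' : ∀ c : C, ∃ f, IsFun h f c.1 ∧
    ∀ n, ∀ s ≤ c.1, fmem n Nam.omega s → ¬ (Cls f n N0 s ∧ Cls f n N1 s) := fun c => hC1 c.2
  choose f hf hcl using hC1'
  obtain ⟨g, hg⟩ := exists_VFun (P := P) (W := h.idx) (A := ℕ × Bool)
    (fun x a q => (∃ c : C, q ≤ c.1 ∧ ((Act h x q ∧ fmem (opair (h.el x) (Nam.fin a.1)) (f c) q ∧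
      (a.2 = true → ∀ r ≤ q, ¬ Cls (f c) (Nam.fin a.1) N0 r) ∧
      (a.2 = false → Cls (f c) (Nam.fin a.1) N0 q)) ∨ ((∀ r ≤ q, ¬ Act h x r) ∧ a = (0, false)))) ∨
      ((∀ c ∈ C, ∀ r ≤ q, ¬ r ≤ c) ∧ a = (0, false))) (by
    rintro x a p q hq (⟨c, hc, ⟨h2, h3, h4, h5⟩ | ⟨h2, h3⟩⟩ | ⟨h2, h3⟩)
    · exact Or.inl ⟨c, hq.trans hc, Or.inl ⟨h2.mono hq, fmem_mono hq h3,
        fun h6 r hr => h4 h6 r (hr.trans hq), fun h6 => DB.mono hq (h5 h6)⟩⟩
    · exact Or.inl ⟨c, hq.trans hc, Or.inr ⟨fun r hr => h2 r (hr.trans hq), h3⟩⟩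
    · exact Or.inr ⟨fun c hc r hr => h2 c hc r (hr.trans hq), h3⟩) (by
    intro x p
    by_cases h2 : ∃ c : C, ∃ r ≤ p, r ≤ c.1
    · obtain ⟨c, r, hrp, hrc⟩ := h2
      by_cases h3 : ∃ s ≤ r, Act h x s
      · obtain ⟨s, hs, hx⟩ := h3
        obtain ⟨t, ht, n, hn⟩ := (hf c).exists_val (hs.trans hrc) hx.mem
        by_cases h4 : ∃ u ≤ t, Cls (f c) (Nam.fin n) N0 u
        · obtain ⟨u, hu, h5⟩ := h4
          refine ⟨u, ((hu.trans ht).trans hs).trans hrp, (n, false), Or.inl ⟨c,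
            ((hu.trans ht).trans hs).trans hrc, Or.inl ⟨hx.mono (hu.trans ht), fmem_mono hu hn,
            fun h6 => absurd h6 (by simp), fun _ => h5⟩⟩⟩
        · push Not at h4
          exact ⟨t, (ht.trans hs).trans hrp, (n, true), Or.inl ⟨c, (ht.trans hs).trans hrc,
            Or.inl ⟨hx.mono ht, hn, fun _ => h4, fun h6 => absurd h6 (by simp)⟩⟩⟩
      · push Not at h3
        exact ⟨r, hrp, (0, false), Or.inl ⟨c, hrc, Or.inr ⟨h3, rfl⟩⟩⟩
    · push Not at h2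
      exact ⟨p, le_rfl, (0, false), Or.inr ⟨fun c hc r hr => h2 ⟨c, hc⟩ r hr, rfl⟩⟩)
  refine ⟨g, fun p hp x y n i hE hx hy => ?_⟩
  have key : ∀ z, Act h z p → g.dec z (n, i) p → ∃ c : C, p ≤ c.1 ∧
      fmem (opair (h.el z) (Nam.fin n)) (f c) p ∧
      (i = true → ∀ r ≤ p, ¬ Cls (f c) (Nam.fin n) N0 r) ∧
      (i = false → Cls (f c) (Nam.fin n) N0 p) := by
    intro z hz hd
    rcases hg z (n, i) p hd with ⟨c, hc, ⟨-, h3, h4, h5⟩ | ⟨h2, -⟩⟩ | ⟨h2, -⟩
    · exact ⟨c, hc, h3, h4, h5⟩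
    · exact absurd hz (h2 p le_rfl)
    · obtain ⟨d, hd, hd'⟩ := hdense p hp
      obtain ⟨c, hc, r, hrc, hrd⟩ := hC3 d hd'
      exact absurd hrc (h2 c hc r (hrd.trans hd))
  obtain ⟨c, hc, hx1, hx2, hx3⟩ := key x hE.2.1 hx
  obtain ⟨c', hc', hy1, -, -⟩ := key y hE.2.2.1 hy
  obtain rfl : c = c' := Subtype.ext (hC2 _ c.2 _ c'.2 p hc hc')
  have hz : ∀ z, ∀ s ≤ p, fmem z (Nam.pair (h.el x) (h.el y)) s →
      fmem (opair z (Nam.fin n)) (f c) s := by
    intro z s hs hz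
    refine fmem_reg fun t ht => ?_
    obtain ⟨u, hu, h6 | h6⟩ := fmem_pair.1 hz t ht
    · exact ⟨u, hu, fmem_congr_left (feq_opair (feq_symm h6) (feq_refl _ _))
        (fmem_mono ((hu.trans ht).trans hs) hx1)⟩
    · exact ⟨u, hu, fmem_congr_left (feq_opair (feq_symm h6) (feq_refl _ _))
        (fmem_mono ((hu.trans ht).trans hs) hy1)⟩
  have hcls : ∀ (N : Nam P), ∀ q ≤ p, fmem (Nam.pair (h.el x) (h.el y)) N q →
      Cls (f c) (Nam.fin n) N q := by
    intro N q hq hN r hr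
    exact ⟨r, le_rfl, _, fmem_mono hr hN, fun z s hs => hz z s (hs.trans (hr.trans hq))⟩
  constructor
  · intro hi q hq
    by_contra hcon
    push Not at hcon
    exact hx2 hi q hq (hcls N0 q hq (hi0 x y q (Ed.mono _ _ _ _ hq hE) hcon))
  · intro hi q hq hH
    exact hcl c (Nam.fin n) q (hq.trans hc) (fmem_omega_fin n q)
      ⟨DB.mono hq (hx3 hi), hcls N1 q hq (hi1 x y q (Ed.mono _ _ _ _ hq hE) hH)⟩

end

/-- The conclusion of the combinatorial theorem for graph names on `W`. -/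
def Good' (P : Type) [Preorder P] (W : Type) : Prop :=
  ∀ (E : W → W → P → Prop) (b₀ : P), Mono E → Symm E → (∀ x p, ¬ E x x p) →
    NoSplit E b₀ → ∃ b ≤ b₀, ∃ F : VFun P W ℕ, ∀ p ≤ b, ∀ x y n, E x y p →
      F.dec x n p → F.dec y n p → False

/-- No condition forces that `⟨h, H⟩` is uncountably chromatic and does not split. -/
theorem not_counterexample {P : Type} [Preorder P] {h H : Nam P} (hP : Good' P h.idx)
    {v : ℕ → Nam P} (h0 : v 0 = h) (h1 : v 1 = H) {b₀ : P} (hgr : (fGr 0 1).Forces v b₀)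
    (hunc : (fUnc 0 1).Forces v b₀) (hns : (SetFormula.neg (fSpl 0 1)).Forces v b₀) : False := by
  obtain ⟨lo, wf⟩ := exists_wellFoundedLT h.idx
  obtain ⟨b, hb, F, hF⟩ := hP (Ed h H) b₀ Ed.mono Ed.symm (fun x p hE => hE.1 rfl)
    (noSplit (h := h) (H := H) h0 h1 hgr hns)
  exact not_unc (h := h) (H := H) h0 h1 hgr hunc hb F hF

theorem exists_neg {P : Type} [Preorder P] {φ : SetFormula} {v : ℕ → Nam P} {r : P}
    (h : ¬ φ.Forces v r) : ∃ b₀ ≤ r, (SetFormula.neg φ).Forces v b₀ := by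
  by_contra hc
  push Not at hc
  apply h
  refine (φ.forces_reg _).reg fun s hs => ?_
  by_contra hc'
  push Not at hc'
  exact hc s hs fun t ht => hc' t ht

/-- If graph names which do not split are countably chromatic, then it is forced that every
uncountably chromatic graph splits to two parts. -/
theorem forces_all_split {P : Type} [Preorder P] (hP : ∀ W, Good' P W) (v : ℕ → Nam P) (p : P) :
    (SetFormula.all (SetFormula.all (imp (fGr 0 1) (imp (fUnc 0 1) (fSpl 0 1))))).Forces v p := by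
  intro H h
  rw [Forc.forces_imp]
  intro q hq hgr
  rw [Forc.forces_imp]
  intro r hr hunc
  by_contra hcon
  obtain ⟨b₀, hb₀, hns⟩ := exists_neg hcon
  exact not_counterexample (h := h) (H := H) (hP _) rfl rfl
    ((fGr 0 1).forces_mono _ (hb₀.trans hr) hgr) ((fUnc 0 1).forces_mono _ hb₀ hunc) hns

/-- The same for the graphs whose vertex set has a small name. -/
theorem forces_small_split {P : Type} [Preorder P] {L : Type} [LinearOrder L]
    (hP : ∀ j : CN P L, Good' P (emb j).idx) (v : ℕ → Nam P) (h0 : v 0 = vN P L) (p : P) :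
    (SetFormula.all (SetFormula.all (imp (.mem 0 2)
      (imp (fGr 0 1) (imp (fUnc 0 1) (fSpl 0 1)))))).Forces v p := by
  intro H h
  rw [Forc.forces_imp]
  intro q _ hh
  rw [Forc.forces_imp]
  intro q1 hq1 hgr
  rw [Forc.forces_imp]
  intro r hr hunc
  by_contra hcon
  obtain ⟨b₀, hb₀, hns⟩ := exists_neg hcon
  have hh' : fmem h (vN P L) q := by
    have : fmem h (v 0) q := hh
    rwa [h0] at this
  obtain ⟨b, hb, j, hj⟩ := fmem_vN.1 hh' b₀ ((hb₀.trans hr).trans hq1)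
  have hcongr : ∀ n, feq (push h (push H v) n) (push (emb j) (push H v) n) b := by
    intro n
    cases n with
    | zero => exact hj
    | succ n => exact feq_refl _ _
  exact not_counterexample (h := emb j) (H := H) (hP j) rfl rfl
    ((fGr 0 1).forces_congr hcongr ((fGr 0 1).forces_mono _ ((hb.trans hb₀).trans hr) hgr))
    ((fUnc 0 1).forces_congr hcongr ((fUnc 0 1).forces_mono _ (hb.trans hb₀) hunc))
    ((SetFormula.neg (fSpl 0 1)).forces_congr hcongr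
      ((SetFormula.neg (fSpl 0 1)).forces_mono _ hb hns))

/-- **The positive theorem.** If there is a measurable cardinal, there is a model of ZFC in which
every uncountably chromatic graph splits to two parts. -/
theorem exists_model_all_split {κ : Cardinal.{0}} (hκ : IsMeasurable κ) :
    ∃ (M : Type 1) (E : M → M → Prop), ModelsZFC E ∧
      ∀ h H, IsGraph E h H → UncountablyChromatic E h H → SplitsToTwo E h H := by
  obtain ⟨h0, U, hU, hc⟩ := hκ
  have hK : Cardinal.mk κ.ord.ToType = κ := by simp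
  have : Infinite κ.ord.ToType := by
    rw [Cardinal.infinite_iff, hK]
    exact h0.le
  obtain ⟨P, _, hP0, hPc, hP⟩ := exists_poset U hU (fun s hs => hc ℕ (by simpa using h0) s hs)
  rw [hK] at hPc hP
  obtain ⟨M, E, i, hi, hM, hi'⟩ := exists_model P
  by_cases hin : ∃ lam : Cardinal.{0}, κ < lam ∧ lam.IsInaccessible
  · -- cut at the least inaccessible cardinal above `κ`
    obtain ⟨lam, ⟨hκl, hlam⟩, hmin⟩ := wellFounded_lt.has_min
      {lam : Cardinal.{0} | κ < lam ∧ lam.IsInaccessible} hin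
    have hPl : Cardinal.mk P < lam := hPc.trans_lt (hlam.isStrongLimit.isStrongPrelimit hκl)
    have hv := closed_vN hlam hPl i hi'
    have h1 := hi' _ (fun _ => vN P lam.ord.ToType) (forces_small_split (fun j => by
      refine hP _ fun μ hμ hμW hμi => ?_
      have h2 : μ < lam := by
        refine hμW.trans_lt ?_
        rw [Cardinal.mk_prod, Cardinal.lift_id]
        exact Cardinal.mul_lt_of_lt hlam.aleph0_lt.le (mk_idx_lt j) (mk_idx_lt j)
      exact hmin μ ⟨hμ, hμi⟩ h2) (fun _ => vN P lam.ord.ToType) rfl)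
    refine ⟨_, Sub E (i (vN P lam.ord.ToType)), hv.modelsZFC hM, fun h H hgr hunc => ?_⟩
    have h2 := h1 H.1 h.1
    rw [Forc.holds_imp, Forc.holds_imp, Forc.holds_imp, holds_fGr, holds_fUnc, holds_fSpl] at h2
    exact hv.split_down hM (h2 h.2 ((hv.isGraph_iff hM _ _).1 hgr) (hv.unc_up hM hunc))
  · push Not at hin
    have h1 := hi' _ (fun _ => Nam.empty) (forces_all_split
      (fun W => hP W fun μ hμ _ => hin μ hμ) fun _ => Nam.empty)
    refine ⟨M, E, hM, fun h H hgr hunc => ?_⟩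
    have h2 := h1 H h
    rw [Forc.holds_imp, Forc.holds_imp, holds_fGr, holds_fUnc, holds_fSpl] at h2
    exact h2 hgr hunc

end Pool.Agent.Lib.MP_d41870_lc.Pos
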