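import Pool.Agent.Lib.MP_d41870_lc.PBase

/-!
# Graph names with large chromatic number

If the name `E` of a graph is nowhere a graph of small chromatic number and does not split, there
is an inaccessible cardinal.
-/

set_option autoImplicit false

namespace Pool.Agent.Lib.MP_d41870_lc.Pos

open MP9708F Cardinal Set

variable {P : Type} [Preorder P] {W A X K : Type}

/-- A name of a set of pairs: a monotone predicate. -/
def Mono (R : W → W → P → Prop) : Prop := ∀ x y p q, q ≤ p → R x y p → R x y q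

/-- A symmetric name. -/
def Symm (R : W → W → P → Prop) : Prop := ∀ x y p, R x y p → R y x p

/-- No set of pairs splits the graph name `E` below `b₀`: for every `H ⊆ E` there is a name of a
countable partition `h` such that every class has edges only in `H` (label `true`) or only
outside `H` (label `false`). -/
def NoSplit (E : W → W → P → Prop) (b₀ : P) : Prop :=
  ∀ H : W → W → P → Prop, Mono H → Symm H → ∃ h : VFun P W (ℕ × Bool), ∀ p ≤ b₀, ∀ x y n i,
    E x y p → h.dec x (n, i) p → h.dec y (n, i) p →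
      (i = true → ∀ q ≤ p, ∃ r ≤ q, H x y r) ∧ (i = false → ∀ q ≤ p, ¬ H x y q)

/-- Below `b`, the edges in `R` are properly coloured by some ground model function to `X`. -/
def Small (X : Type) (b : P) (R : W → W → P → Prop) : Prop :=
  ∃ F : W → X, ∀ p ≤ b, ∀ x y, R x y p → F x ≠ F y

theorem Small.of_sub {b b' : P} (hb : b' ≤ b) {R S : W → W → P → Prop}
    (h : ∀ x y, ∀ p ≤ b', S x y p → ∃ q ≤ p, R x y q) (hR : Small X b R) : Small X b' S := by
  obtain ⟨F, hF⟩ := hR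
  refine ⟨F, fun p hp x y hS => ?_⟩
  obtain ⟨q, hq, hR⟩ := h x y p hp hS
  exact hF q (hq.trans (hp.trans hb)) x y hR

/-- The ideal of small sets is closed under unions of length `K`. -/
theorem Small.iUnion {J : Type} (e : (J → X) ↪ X) {b : P} {R : J → W → W → P → Prop}
    (h : ∀ j, Small X b (R j)) : Small X b (fun x y p => ∃ j, R j x y p) := by
  choose F hF using h
  refine ⟨fun x => e fun j => F j x, ?_⟩
  rintro p hp x y ⟨j, hj⟩ heq
  exact hF j p hp x y hj (congrFun (e.injective heq) j)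

/-- If a set is small below densely many conditions below `b`, it is small below `b`. -/
theorem Small.of_dense [Nonempty X] (hccc : CCC P) (e : (ℕ → X) ↪ X) {b : P}
    {R : W → W → P → Prop} (hR : Mono R) (h : ∀ b' ≤ b, ∃ b'' ≤ b', Small X b'' R) :
    Small X b R := by
  obtain ⟨C, hC1, hC2, hC3⟩ := exists_maximal_antichain {p : P | Small X p R}
  have hC1' : ∀ c : C, Small X c.1 R := fun c => hC1 c.2
  choose F hF using hC1'
  obtain ⟨b1, -, hb1⟩ := h b le_rfl
  obtain ⟨c0, hc0, -⟩ := hC3 b1 hb1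
  obtain ⟨f, hf⟩ := (hccc C hC2).exists_eq_range ⟨c0, hc0⟩
  have hfC : ∀ n, f n ∈ C := fun n => by rw [hf]; exact mem_range_self n
  refine ⟨fun x => e fun n => F ⟨f n, hfC n⟩ x, ?_⟩
  intro p hp x y hxy heq
  obtain ⟨q, hq, hqs⟩ := h p hp
  obtain ⟨c, hc, r, hrc, hrq⟩ := hC3 q hqs
  have hc' : c ∈ range f := by rw [← hf]; exact hc
  obtain ⟨n, rfl⟩ := hc'
  exact hF ⟨f n, hfC n⟩ r hrc x y (hR _ _ _ _ (hrq.trans hq) hxy) (congrFun (e.injective heq) n)

/-- A bad family of size `κ`. -/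
def Bad (X : Type) (E : W → W → P → Prop) (b₀ : P) (κ : Cardinal.{0}) : Prop :=
  ∃ b ≤ b₀, ∃ (I : Type) (R : I → W → W → P → Prop), #I = κ ∧ (∀ i, Mono (R i)) ∧
    (∀ i, Symm (R i)) ∧ (∀ i x y p, R i x y p → E x y p) ∧ (∀ i, Small X b (R i)) ∧
    ∀ b' ≤ b, ¬ Small X b' (fun x y p => ∃ i, R i x y p)

theorem exists_bad [Infinite X] {E : W → W → P → Prop} {b₀ : P} (hm : Mono E) (hs : Symm E)
    (hirr : ∀ x p, ¬ E x x p) (h : ∀ b ≤ b₀, ¬ Small X b E) : Bad X E b₀ #(W × W) := by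
  classical
  obtain ⟨a0, a1, ha⟩ := exists_pair_ne X
  refine ⟨b₀, le_rfl, W × W, fun i x y p => E x y p ∧ ((x = i.1 ∧ y = i.2) ∨
    (x = i.2 ∧ y = i.1)), rfl, ?_, ?_, ?_, ?_, ?_⟩
  · rintro i x y p q hq ⟨h1, h2⟩
    exact ⟨hm _ _ _ _ hq h1, h2⟩
  · rintro i x y p ⟨h1, h2⟩
    exact ⟨hs _ _ _ h1, by tauto⟩
  · rintro i x y p ⟨h1, h2⟩
    exact h1
  · rintro ⟨u, v⟩
    refine ⟨fun x => if x = u then a0 else a1, ?_⟩
    rintro p hp x y ⟨h1, h2⟩
    have hxy : x ≠ y := by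
      rintro rfl
      exact hirr _ _ h1
    rcases h2 with ⟨rfl, rfl⟩ | ⟨rfl, rfl⟩
    · simp [hxy.symm, ha]
    · simp [hxy, ha.symm]
  · intro b' hb' hsm
    refine h b' hb' (hsm.of_sub le_rfl fun x y p _ hxy => ⟨p, le_rfl, (x, y), hxy, ?_⟩)
    exact Or.inl ⟨rfl, rfl⟩

/-- **Theorem B.** A graph name that does not split and has nowhere a small chromatic number
gives an inaccessible cardinal `≤ #(W × W)`. -/
theorem exists_small [Infinite X] (hccc : CCC P) (eP : (ℕ → Option (P × X)) ↪ X)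
    (eP' : (ℕ → Option (P × (ℕ × Bool))) ↪ X)
    (eK : (K → X) ↪ X) [Infinite K]
    (hin : ∀ κ : Cardinal.{0}, #K < κ → κ ≤ #(W × W) → ¬ κ.IsInaccessible)
    {E : W → W → P → Prop} {b₀ : P} (hm : Mono E) (hs : Symm E) (hirr : ∀ x p, ¬ E x x p)
    (hns : NoSplit E b₀) : ∃ b ≤ b₀, Small X b E := by
  classical
  by_contra hcon
  push Not at hcon
  have hκ₀ := exists_bad hm hs hirr hcon
  have hne : {κ | Bad X E b₀ κ}.Nonempty := ⟨_, hκ₀⟩
  set κ : Cardinal.{0} := sInf {κ | Bad X E b₀ κ} with hκ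
  have hbad : Bad X E b₀ κ := csInf_mem hne
  -- countable powers
  obtain ⟨g⟩ : Nonempty (ℕ ↪ K) := ⟨Infinite.natEmbedding K⟩
  have eN : (ℕ → X) ↪ X := by
    refine ⟨fun f => eK fun k => if h : ∃ n, g n = k then f h.choose else
      Classical.arbitrary X, ?_⟩
    intro f f' hff
    have h1 := eK.injective hff
    funext n
    have h2 := congrFun h1 (g n)
    have h3 : ∃ m, g m = g n := ⟨n, rfl⟩
    have h4 : h3.choose = n := g.injective h3.choose_spec
    simpa [h3, h4] using h2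
  -- completeness
  have hcomp : ∀ (J : Type) (R : J → W → W → P → Prop) (b : P), b ≤ b₀ → #J < κ →
      (∀ j, Mono (R j)) → (∀ j, Symm (R j)) → (∀ j x y p, R j x y p → E x y p) →
      (∀ j, Small X b (R j)) → Small X b (fun x y p => ∃ j, R j x y p) := by
    intro J R b hb hJ h1 h2 h3 h4
    refine Small.of_dense hccc eN (fun x y p q hq ⟨j, hj⟩ => ⟨j, h1 j _ _ _ _ hq hj⟩) ?_
    by_contra hc
    push Not at hc
    obtain ⟨b', hb', hc⟩ := hc
    exact notMem_of_lt_csInf' hJ ⟨b', hb'.trans hb, J, R, rfl, h1, h2, h3,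
      fun j => (h4 j).of_sub hb' fun x y p _ hxy => ⟨p, le_rfl, hxy⟩, hc⟩
  obtain ⟨b, hb, I, R', hI, hR1', hR2', hR3', hR4', hR5'⟩ := hbad
  -- reindex by an initial ordinal
  obtain ⟨eI⟩ : Nonempty (κ.ord.ToType ≃ I) := Cardinal.eq.1 (by simp [hI])
  set R : κ.ord.ToType → W → W → P → Prop := fun i => R' (eI i) with hR
  have hR1 : ∀ i, Mono (R i) := fun i => hR1' _
  have hR2 : ∀ i, Symm (R i) := fun i => hR2' _
  have hR3 : ∀ i x y p, R i x y p → E x y p := fun i => hR3' _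
  have hR4 : ∀ i, Small X b (R i) := fun i => hR4' _
  have hR5 : ¬ Small X b (fun x y p => ∃ i, R i x y p) := by
    intro h
    refine hR5' b le_rfl (h.of_sub le_rfl fun x y p _ ⟨i, hi⟩ => ⟨p, le_rfl, eI.symm i, ?_⟩)
    simpa [hR] using hi
  -- `κ` is large
  have hKκ : #K < κ := by
    by_contra hle
    push Not at hle
    have h1 : #κ.ord.ToType ≤ #K := by simpa using hle
    obtain ⟨f⟩ := h1
    apply hR5
    have x0 : X := Classical.arbitrary X
    refine Small.iUnion ⟨fun u => eK fun k => if h : ∃ i, f i = k then u h.choose else x0, ?_⟩ hR4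
    intro u u' huu
    have h1 := eK.injective huu
    funext n
    have h2 := congrFun h1 (f n)
    have h3 : ∃ m, f m = f n := ⟨n, rfl⟩
    have h4 : h3.choose = n := f.injective h3.choose_spec
    simpa [h3, h4] using h2
  have hω : ℵ₀ < κ := (aleph0_le_mk K).trans_lt hKκ
  -- regularity
  have hIic : ∀ i : κ.ord.ToType, #(Iic i) < κ := by
    intro i
    have h3 := Cardinal.mk_Iio_toType_ord_lt i
    have h4 : Cardinal.mk (Iic i) ≤ Cardinal.mk (Iio i) + 1 := by
      rw [← Iio_insert]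
      exact Cardinal.mk_insert_le
    exact h4.trans_lt (Cardinal.add_lt_of_lt hω.le h3 (Cardinal.one_lt_aleph0.trans hω))
  have hreg : κ ≤ κ.ord.cof := by
    by_contra! hlt
    obtain ⟨S, hS, hS'⟩ := Order.exists_cof_eq κ.ord.ToType
    rw [Ordinal.cof_toType] at hS'
    apply hR5
    have h1 : ∀ s : S, Small X b (fun x y p => ∃ k : Iic s.1, R k x y p) := fun s =>
      hcomp _ _ b hb (hIic s.1) (fun k => hR1 _) (fun k => hR2 _) (fun k => hR3 _)
        fun k => hR4 _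
    have h2 := hcomp S (fun s x y p => ∃ k : Iic s.1, R k x y p) b hb (by rw [hS']; exact hlt)
      (fun s x y p q hq ⟨k, hk⟩ => ⟨k, hR1 _ _ _ _ _ hq hk⟩)
      (fun s x y p ⟨k, hk⟩ => ⟨k, hR2 _ _ _ _ hk⟩) (fun s x y p ⟨k, hk⟩ => hR3 _ _ _ _ hk) h1
    refine h2.of_sub le_rfl fun x y p _ ⟨i, hi⟩ => ?_
    obtain ⟨s, hs, his⟩ := hS i
    exact ⟨p, le_rfl, ⟨s, hs⟩, ⟨i, his⟩, hi⟩
  -- the first index
  set Ψ : κ.ord.ToType → W → W → P → Prop := fun i x y p =>
    R i x y p ∧ ∀ j < i, ∀ q ≤ p, ¬ R j x y q with hΨ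
  have hΨm : ∀ i x y p q, q ≤ p → Ψ i x y p → Ψ i x y q := fun i x y p q hq h =>
    ⟨hR1 i _ _ _ _ hq h.1, fun j hj r hr => h.2 j hj r (hr.trans hq)⟩
  have hΨs : ∀ i x y p, Ψ i x y p → Ψ i y x p := fun i x y p h =>
    ⟨hR2 i _ _ _ h.1, fun j hj q hq hR => h.2 j hj q hq (hR2 j _ _ _ hR)⟩
  have hΨu : ∀ i j x y p, Ψ i x y p → Ψ j x y p → i = j := by
    intro i j x y p hi hj
    rcases lt_trichotomy i j with h | h | h
    · exact absurd hi.1 (hj.2 i h p le_rfl)
    · exact h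
    · exact absurd hj.1 (hi.2 j h p le_rfl)
  have hΨd : ∀ i x y p, R i x y p → ∃ q ≤ p, ∃ j, Ψ j x y q := by
    intro i x y p hi
    have h1 : {j | ∃ q ≤ p, R j x y q}.Nonempty := ⟨i, p, le_rfl, hi⟩
    obtain ⟨j, ⟨q, hq, hj⟩, hmin⟩ := wellFounded_lt.has_min _ h1
    exact ⟨q, hq, j, hj, fun j' hj' r hr hR => hmin j' ⟨r, hr.trans hq, hR⟩ hj'⟩
  -- strong limit
  have hstrong : ∀ θ : Cardinal.{0}, θ < κ → 2 ^ θ < κ := by
    intro θ hθ
    by_contra! hle
    obtain ⟨T, rfl⟩ : ∃ T : Type, #T = θ := ⟨θ.out, by simp⟩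
    have h1 : #κ.ord.ToType ≤ #(T → Bool) := by simpa using hle
    obtain ⟨e⟩ := h1
    set H : T → W → W → P → Prop := fun j x y p => ∃ i, Ψ i x y p ∧ e i j = true with hH
    have h2 : ∀ j, ∃ h : VFun P W (ℕ × Bool), ∀ p ≤ b₀, ∀ x y n i,
        E x y p → h.dec x (n, i) p → h.dec y (n, i) p →
        (i = true → ∀ q ≤ p, ∃ r ≤ q, H j x y r) ∧ (i = false → ∀ q ≤ p, ¬ H j x y q) := by
      intro j
      refine hns (H j) ?_ ?_
      · rintro x y p q hq ⟨i, hi, hij⟩
        exact ⟨i, hΨm _ _ _ _ _ hq hi, hij⟩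
      · rintro x y p ⟨i, hi, hij⟩
        exact ⟨i, hΨs _ _ _ _ hi, hij⟩
    choose h hh using h2
    choose N hN using fun j => exists_code hccc eP' (h j)
    choose F hF using hR4
    -- the value of `ψ` from the vertex
    set G : W → κ.ord.ToType → P → Prop := fun x i p =>
      ∀ j, ∀ q ≤ p, ∃ r ≤ q, ∃ n, (h j).dec x (n, e i j) r with hG
    have hGm : ∀ x i p q, q ≤ p → G x i p → G x i q := fun x i p q hq hp j r hr =>
      hp j r (hr.trans hq)
    have hGu : ∀ x i i' p, G x i p → G x i' p → i = i' := by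
      intro x i i' p hi hi'
      apply e.injective
      funext j
      obtain ⟨q, hq, n, hn⟩ := hi j p le_rfl
      obtain ⟨r, hr, n', hn'⟩ := hi' j q hq
      have := (h j).uniq ((h j).mono hr hn) hn'
      exact (Prod.ext_iff.1 this).2
    have x0 : X := Classical.arbitrary X
    obtain ⟨D, hD⟩ := exists_VFun (P := P) (W := W) (A := X)
      (fun x a p => (∃ i, G x i p ∧ a = F i x) ∨ (a = x0 ∧ ∀ i, ∀ q ≤ p, ¬ G x i q)) (by
        rintro x a p q hq (⟨i, hi, ha⟩ | ⟨ha, hn⟩)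
        · exact Or.inl ⟨i, hGm _ _ _ _ hq hi, ha⟩
        · exact Or.inr ⟨ha, fun i r hr => hn i r (hr.trans hq)⟩) (by
        intro x p
        by_cases h3 : ∃ i, ∃ q ≤ p, G x i q
        · obtain ⟨i, q, hq, hi⟩ := h3
          exact ⟨q, hq, F i x, Or.inl ⟨i, hi, rfl⟩⟩
        · push Not at h3
          exact ⟨p, le_rfl, x0, Or.inr ⟨rfl, h3⟩⟩)
    obtain ⟨N', hN'⟩ := exists_code hccc eP D
    -- the two kinds of edges
    have hS1 : Small X b (fun x y p => (∃ i, R i x y p) ∧ ∀ j, N j x = N j y) := by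
      refine ⟨N', ?_⟩
      rintro p hp x y ⟨⟨i₀, hi₀⟩, hNxy⟩ heq
      obtain ⟨q, hq, i, hi⟩ := hΨd i₀ x y p hi₀
      have hqb : q ≤ b₀ := hq.trans (hp.trans hb)
      have hkey : ∀ j, ∀ q' ≤ q, ∃ r ≤ q', ∃ n, (h j).dec x (n, e i j) r ∧
          (h j).dec y (n, e i j) r := by
        intro j q' hq'
        obtain ⟨r, hr, ⟨n, ι⟩, hn⟩ := (h j).tot x q'
        obtain ⟨s, hs, ⟨n', ι'⟩, hn'⟩ := (h j).tot y r
        have h4 := hN j x y (hNxy j) s (n, ι) (n', ι') ((h j).mono hs hn) hn'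
        have hn2 := (h j).mono hs hn
        rw [← h4] at hn'
        have hsq : s ≤ q := (hs.trans hr).trans hq'
        have hE : E x y s := hR3 i _ _ _ (hR1 i _ _ _ _ hsq hi.1)
        have h5 := hh j s (hsq.trans hqb) x y n ι hE hn2 hn'
        refine ⟨s, hs.trans hr, n, ?_⟩
        have h6 : ι = e i j := by
          cases ι with
          | true =>
            obtain ⟨t, ht, i', hi', hij⟩ := h5.1 rfl s le_rfl
            have : i' = i := hΨu _ _ _ _ _ hi' (hΨm _ _ _ _ _ (ht.trans hsq) hi)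
            rw [← this, hij]
          | false =>
            by_contra h7
            have h8 : e i j = true := by
              cases h9 : e i j
              · exact absurd h9.symm h7
              · rfl
            exact h5.2 rfl s le_rfl ⟨i, hΨm _ _ _ _ _ hsq hi, h8⟩
        rw [← h6]
        exact ⟨hn2, hn'⟩
      have hGx : G x i q := fun j q' hq' => by
        obtain ⟨r, hr, n, h1, -⟩ := hkey j q' hq'
        exact ⟨r, hr, n, h1⟩
      have hGy : G y i q := fun j q' hq' => by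
        obtain ⟨r, hr, n, -, h1⟩ := hkey j q' hq'
        exact ⟨r, hr, n, h1⟩
      obtain ⟨r, hr, a, ha⟩ := D.tot x q
      obtain ⟨s, hs, a', ha'⟩ := D.tot y r
      have h9 := hN' x y heq s a a' (D.mono hs ha) ha'
      have hsq : s ≤ q := hs.trans hr
      have h10 : a = F i x := by
        rcases hD x a r ha with ⟨i', hi', rfl⟩ | ⟨-, hn⟩
        · rw [hGu x i i' r (hGm _ _ _ _ hr hGx) hi']
        · exact absurd (hGm _ _ _ _ hr hGx) (hn i r le_rfl)
      have h11 : a' = F i y := by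
        rcases hD y a' s ha' with ⟨i', hi', rfl⟩ | ⟨-, hn⟩
        · rw [hGu y i i' s (hGm _ _ _ _ hsq hGy) hi']
        · exact absurd (hGm _ _ _ _ hsq hGy) (hn i s le_rfl)
      refine hF i q (hq.trans hp) x y hi.1 ?_
      rw [← h10, ← h11, h9]
    have hS2 : Small X b (fun x y p => ∃ j, (∃ i, R i x y p) ∧ N j x ≠ N j y) := by
      refine hcomp T (fun j x y p => (∃ i, R i x y p) ∧ N j x ≠ N j y) b hb hθ ?_ ?_ ?_ ?_
      · rintro j x y p q hq ⟨⟨i, hi⟩, hne⟩
        exact ⟨⟨i, hR1 i _ _ _ _ hq hi⟩, hne⟩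
      · rintro j x y p ⟨⟨i, hi⟩, hne⟩
        exact ⟨⟨i, hR2 i _ _ _ hi⟩, hne.symm⟩
      · rintro j x y p ⟨⟨i, hi⟩, hne⟩
        exact hR3 _ _ _ _ hi
      · intro j
        exact ⟨N j, fun p _ x y h => h.2⟩
    apply hR5
    have h12 := Small.iUnion (J := ℕ) eN (b := b) (R := fun n x y p => if n = 0 then
      ((∃ i, R i x y p) ∧ ∀ j, N j x = N j y) else ∃ j, (∃ i, R i x y p) ∧ N j x ≠ N j y) (by
        intro n
        by_cases hn : n = 0
        · simpa [hn] using hS1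
        · simpa [hn] using hS2)
    refine h12.of_sub le_rfl fun x y p _ hxy => ⟨p, le_rfl, ?_⟩
    by_cases h13 : ∀ j, N j x = N j y
    · refine ⟨0, ?_⟩
      rw [if_pos rfl]
      exact ⟨hxy, h13⟩
    · push Not at h13
      obtain ⟨j, hj⟩ := h13
      refine ⟨1, ?_⟩
      rw [if_neg one_ne_zero]
      exact ⟨j, hxy, hj⟩
  exact hin κ hKκ (csInf_le' hκ₀) ⟨hω, hreg, fun θ hθ => hstrong θ hθ⟩

end Pool.Agent.Lib.MP_d41870_lc.Pos
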