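import Pool.Agent.Lib.MP_d41870_lc.PCohen

/-!
# Theorem A: names of graphs of small chromatic number in the Cohen extension

`K` carries a nonprincipal countably complete ultrafilter.  The poset adds Cohen colourings of
the pairs of `X`, one for every `k : K`, and `X` many Cohen reals.
-/

set_option autoImplicit false

namespace Pool.Agent.Lib.MP_d41870_lc.Pos

open MP9708F Cardinal Set Filter

/-- The index set of the Cohen poset. -/
abbrev Idx (K X : Type) : Type := (K × Sym2 X) ⊕ (X × ℕ)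

/-- The first `m` bits of the `y`-th real of `β`. -/
noncomputable def str {K X : Type} (β : Idx K X → Bool) (y : X) (m : ℕ) : Finset ℕ :=
  (Finset.range m).filter fun t => β (Sum.inr (y, t)) = true

theorem mem_str {K X : Type} {β : Idx K X → Bool} {y : X} {m t : ℕ} :
    t ∈ str β y m ↔ t < m ∧ β (Sum.inr (y, t)) = true := by
  simp [str]

section

variable {K X W : Type} (U : Ultrafilter K)

/-- The germ of the coordinate of the pair `a b` in the Cohen colourings. -/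
def tg (a b : X) : Grm U (Idx K X) := ((fun k => Sum.inl (k, s(a, b)) : K → Idx K X) : Grm U (Idx K X))

theorem tg_comm (a b : X) : tg U a b = tg U b a := by
  unfold tg
  rw [Sym2.eq_swap]

/-- The colour values. -/
abbrev CV : Type := (ℕ × Bool) × ℕ × Finset (Finset ℕ × Bool) × Finset ℕ

/-- `q` decides the colour of the vertex `x` to be `c`. -/
def Good (jG : Grm U (Idx K X) ↪ X) (f : W → X) (h : K → VFun (Fn (Idx K X)) W (ℕ × Bool))
    (x : W) (c : CV) (q : Fn (Idx K X)) : Prop :=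
  ∃ (Q : Finset (Grm U (Idx K X) × Bool)) (β : Idx K X → Bool) (Y : Finset X),
    (∀ᶠ k in (U : Filter K), ∀ r : Fn (Idx K X), (∀ g ∈ Q, (rp U g.1 k, g.2) ∈ r.1) →
      (h k).dec x c.1 r) ∧
    (∀ g ∈ Q, ∀ i : Idx K X, g.1 = ((fun _ => i : K → Idx K X) : Grm U (Idx K X)) →
      (i, g.2) ∈ q.1) ∧
    (∀ y ∈ Y, ∀ t < c.2.1, (Sum.inr (y, t), β (Sum.inr (y, t))) ∈ q.1) ∧
    (∀ y ∈ Y, ∀ y' ∈ Y, str β y c.2.1 = str β y' c.2.1 → y = y') ∧
    (∀ S, S ∈ c.2.2.1 ↔ ∃ g ∈ Q, S = (str β (jG g.1) c.2.1, g.2)) ∧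
    c.2.2.2 = str β (f x) c.2.1 ∧
    (∀ g, (g, true) ∈ Q → (g, false) ∉ Q) ∧
    (∀ g ∈ Q, jG g.1 ∈ Y) ∧ f x ∈ Y ∧ ∀ b u, (tg U (f x) b, u) ∈ Q → b ∈ Y

variable {U} {jG : Grm U (Idx K X) ↪ X} {f : W → X}
  {h : K → VFun (Fn (Idx K X)) W (ℕ × Bool)}

theorem Good.mono {x : W} {c : CV} {p q : Fn (Idx K X)} (hq : q ≤ p) (hg : Good U jG f h x c p) :
    Good U jG f h x c q := by
  obtain ⟨Q, β, Y, h1, h2, h3, h4⟩ := hg
  exact ⟨Q, β, Y, h1, fun g hg i hi => hq (h2 g hg i hi), fun y hy t ht => hq (h3 y hy t ht), h4⟩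

theorem const_ne (hU0 : ∀ k, {k} ∉ U) {a b : X} (i : Idx K X) :
    tg U a b ≠ ((fun _ => i : K → Idx K X) : Grm U (Idx K X)) := by
  intro heq
  have h1 : ∀ᶠ k in (U : Filter K), (Sum.inl (k, s(a, b)) : Idx K X) = i :=
    Filter.Germ.coe_eq.1 heq
  obtain ⟨k0, hk0⟩ := h1.exists
  refine hU0 k0 (mem_of_superset h1 fun k hk => ?_)
  have h2 : (Sum.inl (k, s(a, b)) : Idx K X) = Sum.inl (k0, s(a, b)) := by
    rw [hk0]
    exact hk
  simp only [Sum.inl.injEq, Prod.mk.injEq] at h2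
  exact h2.1

theorem tg_inj {a b b' : X} (heq : tg U a b = tg U a b') : b = b' := by
  have h1 : ∀ᶠ k in (U : Filter K), (Sum.inl (k, s(a, b)) : Idx K X) = Sum.inl (k, s(a, b')) :=
    Filter.Germ.coe_eq.1 heq
  obtain ⟨k0, hk0⟩ := h1.exists
  simp only [Sum.inl.injEq, Prod.mk.injEq, true_and] at hk0
  exact Sym2.congr_right.1 hk0

theorem const_inj {i i' : Idx K X} (heq : ((fun _ => i : K → Idx K X) : Grm U (Idx K X)) =
    ((fun _ => i' : K → Idx K X) : Grm U (Idx K X))) : i = i' := by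
  have h1 : ∀ᶠ _k in (U : Filter K), i = i' := Filter.Germ.coe_eq.1 heq
  exact h1.exists.choose_spec

/-- Colours are decided densely. -/
theorem Good.dense (hσ : ∀ s : ℕ → Set K, (∀ n, s n ∈ U) → (⋂ n, s n) ∈ U) (x : W)
    (p : Fn (Idx K X)) : ∃ q ≤ p, ∃ c, Good U jG f h x c q := by
  classical
  have h1 : ∀ k, ∃ q ≤ p, ∃ a, (h k).dec x a q := fun k => (h k).tot x p
  choose r hrp a hra using h1
  obtain ⟨a0, ha0⟩ := const_of_countable U hσ a
  obtain ⟨Q, hQ⟩ := exists_germs U hσ fun k => (r k).1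
  -- functionality
  have hfun : ∀ g, (g, true) ∈ Q → (g, false) ∉ Q := by
    intro g h1 h2
    obtain ⟨k, hk⟩ := hQ.exists
    exact (r k).2 (rp U g k) ((hk _).2 ⟨_, h1, rfl⟩) ((hk _).2 ⟨_, h2, rfl⟩)
  -- the constant part
  set D₀ : Set (Idx K X) := {i | ∃ u, (((fun _ => i : K → Idx K X) : Grm U (Idx K X)), u) ∈ Q}
    with hD₀
  have hD₀f : D₀.Finite := by
    have h2 : D₀ ⊆ (fun i => ((fun _ => i : K → Idx K X) : Grm U (Idx K X))) ⁻¹'
        ((Q.image Prod.fst : Finset _) : Set _) := by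
      rintro i ⟨u, hu⟩
      simp only [mem_preimage, Finset.coe_image, mem_image, Finset.mem_coe]
      exact ⟨_, hu, rfl⟩
    exact ((Finset.finite_toSet _).preimage fun i _ i' _ h => const_inj h).subset h2
  have hpD : ∀ i u, (i, u) ∈ p.1 →
      (((fun _ => i : K → Idx K X) : Grm U (Idx K X)), u) ∈ Q := by
    intro i u hi
    by_contra hcon
    have h2 : ∀ᶠ k in (U : Filter K), ∀ g ∈ Q, (i, u) ≠ (rp U g.1 k, g.2) := by
      rw [Filter.eventually_all_finset]
      rintro ⟨g, v⟩ hg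
      by_cases h3 : g = ((fun _ => i : K → Idx K X) : Grm U (Idx K X))
      · refine Eventually.of_forall fun k hk => hcon ?_
        simp only [Prod.mk.injEq] at hk
        rw [← h3, hk.2]
        exact hg
      · refine (rp_ne_const U h3).mono fun k hk hk' => hk ?_
        simp only [Prod.mk.injEq] at hk'
        exact hk'.1.symm
    obtain ⟨k, hk1, hk2⟩ := (h2.and hQ).exists
    obtain ⟨g, hg, hgi⟩ := (hk2 (i, u)).1 (hrp k hi)
    exact hk1 g hg hgi
  -- the relevant reals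
  have hBf : {b | ∃ u, (tg U (f x) b, u) ∈ Q}.Finite := by
    have h2 : {b | ∃ u, (tg U (f x) b, u) ∈ Q} ⊆ (fun b => tg U (f x) b) ⁻¹'
        ((Q.image Prod.fst : Finset _) : Set _) := by
      rintro b ⟨u, hu⟩
      simp only [mem_preimage, Finset.coe_image, mem_image, Finset.mem_coe]
      exact ⟨_, hu, rfl⟩
    exact ((Finset.finite_toSet _).preimage fun i _ i' _ h => tg_inj h).subset h2
  set Y : Finset X := insert (f x) ((Q.image fun g => jG g.1) ∪ hBf.toFinset) with hY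
  obtain ⟨ix, hix⟩ : ∃ ix : X → ℕ, ∀ y ∈ Y, ∀ y' ∈ Y, ix y = ix y' → y = y' := by
    refine ⟨fun y => if hy : y ∈ Y then (Y.equivFin ⟨y, hy⟩ : ℕ) else 0, ?_⟩
    intro y hy y' hy' heq
    simp only [hy, hy', dif_pos] at heq
    have := Y.equivFin.injective (Fin.ext heq)
    exact congrArg Subtype.val this
  -- coordinates above `m₀` are not used
  obtain ⟨m₀, hm₀⟩ : ∃ m₀, ∀ y t, (Sum.inr (y, t) : Idx K X) ∈ D₀ → t < m₀ := by
    have h2 : ((fun i : Idx K X => Sum.elim (fun _ => 0) (fun z => z.2) i) '' D₀).Finite :=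
      hD₀f.image _
    obtain ⟨m, hm⟩ := h2.bddAbove
    refine ⟨m + 1, fun y t ht => Nat.lt_succ_of_le (hm ?_)⟩
    exact ⟨_, ht, rfl⟩
  set m : ℕ := m₀ + Y.sup ix + 1 with hm
  set β : Idx K X → Bool := fun i =>
    if (((fun _ => i : K → Idx K X) : Grm U (Idx K X)), true) ∈ Q then true
    else if (((fun _ => i : K → Idx K X) : Grm U (Idx K X)), false) ∈ Q then false
    else Sum.elim (fun _ => false) (fun z => decide (z.2 = m₀ + ix z.1)) i with hβ
  have hβ1 : ∀ i u, (((fun _ => i : K → Idx K X) : Grm U (Idx K X)), u) ∈ Q → β i = u := by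
    intro i u hu
    cases u with
    | true => simp [hβ, hu]
    | false =>
      have h2 : (((fun _ => i : K → Idx K X) : Grm U (Idx K X)), true) ∉ Q := fun h2 =>
        hfun _ h2 hu
      simp [hβ, hu, h2]
  have hβ2 : ∀ y t, m₀ ≤ t → β (Sum.inr (y, t)) = decide (t = m₀ + ix y) := by
    intro y t ht
    have h2 : ∀ u, (((fun _ => (Sum.inr (y, t) : Idx K X) : K → Idx K X) :
        Grm U (Idx K X)), u) ∉ Q := by
      intro u hu
      exact absurd (hm₀ y t ⟨u, hu⟩) (not_lt.2 ht)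
    simp [hβ, h2]
  have hstr : ∀ y ∈ Y, ∀ y' ∈ Y, str β y m = str β y' m → y = y' := by
    intro y hy y' hy' heq
    have h2 : m₀ + ix y ∈ str β y m := by
      rw [mem_str]
      refine ⟨?_, ?_⟩
      · have : ix y ≤ Y.sup ix := Finset.le_sup hy
        omega
      · rw [hβ2 _ _ (Nat.le_add_right _ _)]
        simp
    rw [heq, mem_str, hβ2 _ _ (Nat.le_add_right _ _)] at h2
    refine hix y hy y' hy' ?_
    have := h2.2
    simp only [decide_eq_true_eq] at this
    omega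
  -- the condition
  set D : Finset (Idx K X) := hD₀f.toFinset ∪ (Y ×ˢ Finset.range m).image Sum.inr with hD
  refine ⟨⟨D.image fun i => (i, β i), ?_⟩, ?_, (a0, m, Q.image (fun g => (str β (jG g.1) m, g.2)),
    str β (f x) m), Q, β, Y, ?_, ?_, ?_, ?_, ?_, rfl, hfun, ?_, ?_, ?_⟩
  · intro i h2 h3
    simp only [Finset.mem_image, Prod.mk.injEq] at h2 h3
    obtain ⟨i1, -, rfl, h2⟩ := h2
    obtain ⟨i2, -, rfl, h3⟩ := h3
    rw [h2] at h3
    exact absurd h3 (by simp)
  · rintro ⟨i, u⟩ hi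
    have h2 := hpD i u hi
    simp only [Finset.mem_image, Prod.mk.injEq]
    refine ⟨i, ?_, rfl, hβ1 i u h2⟩
    rw [hD, Finset.mem_union, Finite.mem_toFinset]
    exact Or.inl ⟨u, h2⟩
  · filter_upwards [hQ, ha0] with k hk1 hk2
    intro r' hr'
    have h2 : r' ≤ r k := by
      intro z hz
      obtain ⟨g, hg, rfl⟩ := (hk1 z).1 hz
      exact hr' g hg
    exact (h k).mono h2 (hk2 ▸ hra k)
  · rintro ⟨g, u⟩ hg i hi
    simp only [Finset.mem_image, Prod.mk.injEq]
    have h2 : (((fun _ => i : K → Idx K X) : Grm U (Idx K X)), u) ∈ Q := hi ▸ hg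
    refine ⟨i, ?_, rfl, hβ1 i u h2⟩
    rw [hD, Finset.mem_union, Finite.mem_toFinset]
    exact Or.inl ⟨u, h2⟩
  · intro y hy t ht
    simp only [Finset.mem_image, Prod.mk.injEq]
    refine ⟨_, ?_, rfl, rfl⟩
    rw [hD, Finset.mem_union]
    right
    rw [Finset.mem_image]
    exact ⟨(y, t), by simpa using ⟨hy, ht⟩, rfl⟩
  · exact hstr
  · intro S
    simp only [Finset.mem_image]
    constructor
    · rintro ⟨g, hg, rfl⟩
      exact ⟨g, hg, rfl⟩
    · rintro ⟨g, hg, rfl⟩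
      exact ⟨g, hg, rfl⟩
  · intro g hg
    rw [hY, Finset.mem_insert, Finset.mem_union]
    exact Or.inr (Or.inl (Finset.mem_image_of_mem (fun g : Grm U (Idx K X) × Bool => jG g.1) hg))
  · rw [hY]
    exact Finset.mem_insert_self _ _
  · intro b u hb
    rw [hY, Finset.mem_insert, Finset.mem_union]
    right
    right
    rw [Finite.mem_toFinset]
    exact ⟨u, hb⟩

/-- The main point: adjacent vertices get different colours. -/
theorem Good.ne (hU0 : ∀ k, {k} ∉ U) {E : W → W → Fn (Idx K X) → Prop} {b₀ : Fn (Idx K X)}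
    (hm : Mono E)
    (hh : ∀ k, ∀ p ≤ b₀, ∀ x y n i, E x y p → (h k).dec x (n, i) p → (h k).dec y (n, i) p →
      (i = true → ∀ q ≤ p, ∃ r ≤ q, (Sum.inl (k, s(f x, f y)), true) ∈ r.1) ∧
      (i = false → ∀ q ≤ p, (Sum.inl (k, s(f x, f y)), true) ∉ q.1))
    {p : Fn (Idx K X)} (hp : p ≤ b₀) {x y : W} (hE : E x y p) (hf : f x ≠ f y) {c : CV}
    (hx : Good U jG f h x c p) (hy : Good U jG f h y c p) : False := by
  classical
  obtain ⟨Q, β, Y, h1, h2, h3, h4, h5, h6, h7, h8, h9, h10⟩ := hx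
  obtain ⟨Q', β', Y', h1', h2', h3', h4', h5', h6', h7', h8', h9', h10'⟩ := hy
  obtain ⟨⟨n, i⟩, m, T, σ⟩ := c
  dsimp only at h1 h2 h3 h4 h5 h6 h1' h2' h3' h4' h5' h6'
  -- the two readings of a real agree
  have hagree : ∀ z, z ∈ Y → z ∈ Y' → str β z m = str β' z m := by
    intro z hz hz'
    ext t
    rw [mem_str, mem_str]
    refine and_congr_right fun ht => ?_
    rw [p.uniq (h3 z hz t ht) (h3' z hz' t ht)]
  -- no conflict between `Q` and `Q'`
  have hcons : ∀ g u v, (g, u) ∈ Q → (g, v) ∈ Q' → u = v := by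
    intro g u v hu hv
    have h11 : (str β' (jG g) m, v) ∈ T := (h5' _).2 ⟨_, hv, rfl⟩
    obtain ⟨g', hg', heq⟩ := (h5 _).1 h11
    simp only [Prod.mk.injEq] at heq
    have h12 := hagree (jG g) (h8 _ hu) (h8' _ hv)
    have h13 : jG g = jG g'.1 := h4 _ (h8 _ hu) _ (h8 _ hg') (h12.trans heq.1)
    have h14 : g = g'.1 := jG.injective h13
    have h15 : (g, v) ∈ Q := by
      rw [h14, heq.2]
      exact hg'
    cases u <;> cases v
    · rfl
    · exact absurd hu (h7 g h15)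
    · exact absurd h15 (h7 g hu)
    · rfl
  -- the pair `f x, f y` is not used
  have hx1 : ∀ u, (tg U (f x) (f y), u) ∉ Q := by
    intro u hu
    have h11 : f y ∈ Y := h10 _ _ hu
    have h12 : str β (f y) m = str β (f x) m := by
      rw [hagree (f y) h11 h9', ← h6', ← h6]
    exact hf (h4 _ h11 _ h9 h12).symm
  have hy1 : ∀ u, (tg U (f x) (f y), u) ∉ Q' := by
    intro u hu
    rw [tg_comm] at hu
    have h11 : f x ∈ Y' := h10' _ _ hu
    have h12 : str β' (f x) m = str β' (f y) m := by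
      rw [← hagree (f x) h9 h11, ← h6, ← h6']
    exact hf (h4' _ h11 _ h9' h12)
  -- the extension
  have h16 := exists_ext U (Q ∪ Q' ∪ {(tg U (f x) (f y), !i)}) (by
    intro g hg hg'
    simp only [Finset.mem_union, Finset.mem_singleton, Prod.mk.injEq] at hg hg'
    rcases hg with (hg | hg) | ⟨rfl, hg⟩ <;> rcases hg' with (hg' | hg') | ⟨hgg, hg'⟩
    · exact h7 g hg hg'
    · exact absurd (hcons g _ _ hg hg') (by simp)
    · subst hgg
      exact hx1 _ hg
    · exact absurd (hcons g _ _ hg' hg) (by simp)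
    · exact h7' g hg hg'
    · subst hgg
      exact hy1 _ hg
    · exact hx1 _ hg'
    · exact hy1 _ hg'
    · rw [← hg] at hg'
      exact absurd hg' (by simp)) p (by
    intro g hg i' hi'
    simp only [Finset.mem_union, Finset.mem_singleton] at hg
    rcases hg with (hg | hg) | rfl
    · exact h2 g hg i' hi'
    · exact h2' g hg i' hi'
    · exact absurd hi' (const_ne hU0 i'))
  have h17 : ∀ᶠ k in (U : Filter K), rp U (tg U (f x) (f y)) k =
      (Sum.inl (k, s(f x, f y)) : Idx K X) := rp_eventually U _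
  obtain ⟨k, hk1, hk2, ⟨r, hr, hk3⟩, hk4⟩ := (h1.and (h1'.and (h16.and h17))).exists
  have hd1 : (h k).dec x (n, i) r := hk1 r fun g hg => hk3 g (by simp [hg])
  have hd2 : (h k).dec y (n, i) r := hk2 r fun g hg => hk3 g (by simp [hg])
  have hbit : ((Sum.inl (k, s(f x, f y)) : Idx K X), !i) ∈ r.1 := by
    have := hk3 (tg U (f x) (f y), !i) (by simp)
    rw [hk4] at this
    exact this
  have h18 := hh k r (hr.trans hp) x y n i (hm _ _ _ _ hr hE) hd1 hd2
  cases i with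
  | true =>
    obtain ⟨r', hr', h19⟩ := h18.1 rfl r le_rfl
    exact r'.2 _ h19 (hr' hbit)
  | false => exact h18.2 rfl r le_rfl hbit

/-- **Theorem A.** A graph name that does not split and has small chromatic number below `b` is
countably chromatic below `b`. -/
theorem exists_countable (hU0 : ∀ k, {k} ∉ U)
    (hσ : ∀ s : ℕ → Set K, (∀ n, s n ∈ U) → (⋂ n, s n) ∈ U) (jG : Grm U (Idx K X) ↪ X)
    {E : W → W → Fn (Idx K X) → Prop} {b₀ b : Fn (Idx K X)} (hm : Mono E)
    (hns : NoSplit E b₀) (hb : b ≤ b₀) (hsm : Small X b E) :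
    ∃ F : VFun (Fn (Idx K X)) W ℕ, ∀ p ≤ b, ∀ x y n, E x y p → F.dec x n p → F.dec y n p →
      False := by
  classical
  obtain ⟨f, hf⟩ := hsm
  have h1 : ∀ k : K, ∃ h : VFun (Fn (Idx K X)) W (ℕ × Bool), ∀ p ≤ b₀, ∀ x y n i,
      E x y p → h.dec x (n, i) p → h.dec y (n, i) p →
      (i = true → ∀ q ≤ p, ∃ r ≤ q, (Sum.inl (k, s(f x, f y)), true) ∈ r.1) ∧
      (i = false → ∀ q ≤ p, (Sum.inl (k, s(f x, f y)), true) ∉ q.1) := by
    intro k
    refine hns (fun x y q => (Sum.inl (k, s(f x, f y)), true) ∈ q.1) ?_ ?_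
    · intro x y p q hq h
      exact hq h
    · intro x y p h
      rw [Sym2.eq_swap]
      exact h
  choose h hh using h1
  obtain ⟨e, he⟩ := Countable.exists_injective_nat CV
  obtain ⟨F, hF⟩ := exists_VFun (P := Fn (Idx K X)) (W := W) (A := ℕ)
    (fun x n q => ∃ c, e c = n ∧ Good U jG f h x c q)
    (fun x n p q hq ⟨c, hc, hg⟩ => ⟨c, hc, hg.mono hq⟩) (by
      intro x p
      obtain ⟨q, hq, c, hc⟩ := Good.dense (jG := jG) (f := f) (h := h) hσ x p
      exact ⟨q, hq, e c, c, rfl, hc⟩)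
  refine ⟨F, fun p hp x y n hE hx hy => ?_⟩
  obtain ⟨c, hc, hx⟩ := hF x n p hx
  obtain ⟨c', hc', hy⟩ := hF y n p hy
  obtain rfl : c = c' := he (hc.trans hc'.symm)
  exact Good.ne hU0 hm hh (hp.trans hb) hE (hf p hp x y hE) hx hy

end

end Pool.Agent.Lib.MP_d41870_lc.Pos
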