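import Pool.Agent.Lib.MP_d41870_lc.PForce

/-!
# One Cohen real

After adding one Cohen real, a graph name which does not split and has a small chromatic number
(at most the continuum, by a colouring in the ground model) is countably chromatic.  So no large
cardinal is needed for the positive theorem.
-/

set_option autoImplicit false

namespace Pool.Agent.Lib.MP_d41870_lc.Pos

open MP9708F Cardinal Set

/-- The poset which adds one Cohen real, in the form of `ℕ` many rows of bits. -/
abbrev Co : Type := Fn (ℕ × ℕ)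

/-- The first digit where `f x` and `f y` differ. -/
noncomputable def dg {W : Type} (f : W → ℕ → Bool) (x y : W) : ℕ := sInf {m | f x m ≠ f y m}

theorem dg_comm {W : Type} (f : W → ℕ → Bool) (x y : W) : dg f x y = dg f y x := by
  unfold dg
  congr 1
  ext m
  exact ne_comm

theorem dg_spec {W : Type} {f : W → ℕ → Bool} {x y : W} (h : f x ≠ f y) :
    f x (dg f x y) ≠ f y (dg f x y) := by
  have h1 : {m | f x m ≠ f y m}.Nonempty := by
    by_contra hne
    rw [Set.not_nonempty_iff_eq_empty] at hne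
    apply h
    funext m
    by_contra hm
    have : m ∈ {m | f x m ≠ f y m} := hm
    rw [hne] at this
    exact this
  exact Nat.sInf_mem h1

/-- A row of bits which is not used by two conditions. -/
theorem exists_row (p q : Co) : ∃ t : ℕ, ∀ m v, ((t, m), v) ∉ p.1 ∧ ((t, m), v) ∉ q.1 := by
  classical
  obtain ⟨t, ht⟩ := Infinite.exists_notMem_finset ((p.1 ∪ q.1).image fun z => z.1.1)
  refine ⟨t, fun m v => ⟨fun h => ht ?_, fun h => ht ?_⟩⟩
  · exact Finset.mem_image.2 ⟨_, Finset.mem_union_left _ h, rfl⟩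
  · exact Finset.mem_image.2 ⟨_, Finset.mem_union_right _ h, rfl⟩

/-- The digits used by a condition are bounded. -/
theorem exists_bd (p : Co) : ∃ M : ℕ, ∀ t m v, ((t, m), v) ∈ p.1 → m < M := by
  classical
  refine ⟨(p.1.image fun z => z.1.2).sup id + 1, fun t m v h => Nat.lt_succ_of_le ?_⟩
  exact Finset.le_sup (f := id) (Finset.mem_image.2 ⟨_, h, rfl⟩)

/-- **Theorem C.** After adding one Cohen real, a graph name that does not split and has small
chromatic number below `b` is countably chromatic below `b`. -/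
theorem exists_countable_one {W : Type} {E : W → W → Co → Prop} {b₀ b : Co} (hm : Mono E)
    (hs : Symm E) (hns : NoSplit E b₀) (hb : b ≤ b₀) (hsm : Small (ℕ → Bool) b E) :
    ∃ F : VFun Co W ℕ, ∀ p ≤ b, ∀ x y n, E x y p → F.dec x n p → F.dec y n p → False := by
  classical
  obtain ⟨f, hf⟩ := hsm
  choose C hC1 hC2 hC3 using fun S : Set Co => exists_maximal_antichain S
  choose t ht using fun w : Co => exists_row w b₀
  -- the colouring
  set S : W → W → Set Co := fun x y => {w | E x y w} with hS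
  have hSs : ∀ x y, S x y = S y x := by
    intro x y
    ext w
    exact ⟨hs x y w, hs y x w⟩
  set H : W → W → Co → Prop := fun x y p =>
    ∃ w ∈ C (S x y), p ≤ w ∧ ((t w, dg f x y), true) ∈ p.1 with hH
  obtain ⟨h, hh⟩ := hns H (by
    rintro x y p q hqp ⟨w, hw, hpw, hbit⟩
    exact ⟨w, hw, hqp.trans hpw, hqp hbit⟩) (by
    rintro x y p ⟨w, hw, hpw, hbit⟩
    exact ⟨w, by rw [hSs]; exact hw, hpw, by rw [dg_comm]; exact hbit⟩)
  -- the new colouring
  obtain ⟨e, he⟩ := Countable.exists_injective_nat ((ℕ × Bool) × ℕ × Finset ℕ)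
  set G : W → (ℕ × Bool) × ℕ × Finset ℕ → Co → Prop := fun x c q =>
    ∃ r : Co, q ≤ r ∧ h.dec x c.1 r ∧ (∀ t m v, ((t, m), v) ∈ r.1 → m < c.2.1) ∧
      c.2.2 = (Finset.range c.2.1).filter fun m => f x m = true with hG
  obtain ⟨F, hF⟩ := exists_VFun (P := Co) (W := W) (A := ℕ)
    (fun x n q => ∃ c, e c = n ∧ G x c q)
    (by
      rintro x n p q hq ⟨c, hc, r, hr, h1⟩
      exact ⟨c, hc, r, hq.trans hr, h1⟩) (by
      intro x p
      obtain ⟨q, hq, a, ha⟩ := h.tot x p
      obtain ⟨M, hM⟩ := exists_bd q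
      exact ⟨q, hq, _, (a, M, (Finset.range M).filter fun m => f x m = true), rfl, q, le_rfl, ha,
        hM, rfl⟩)
  refine ⟨F, fun p hp x y n hE hx hy => ?_⟩
  obtain ⟨c, hc, rx, hrx, hx1, hx2, hx3⟩ := hF x n p hx
  obtain ⟨c', hc', ry, hry, hy1, hy2, hy3⟩ := hF y n p hy
  obtain rfl : c = c' := he (hc.trans hc'.symm)
  obtain ⟨⟨n, i⟩, M, T⟩ := c
  dsimp only at hx1 hx2 hx3 hy1 hy2 hy3
  -- the first difference is not used by `rx`, `ry`
  have hne : f x ≠ f y := hf p hp x y hE
  have hd := dg_spec hne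
  set d := dg f x y with hdd
  have hMd : M ≤ d := by
    by_contra hlt
    push Not at hlt
    apply hd
    have h1 : d ∈ T ↔ f x d = true := by
      rw [hx3, Finset.mem_filter, Finset.mem_range]
      exact ⟨fun h => h.2, fun h => ⟨hlt, h⟩⟩
    have h2 : d ∈ T ↔ f y d = true := by
      rw [hy3, Finset.mem_filter, Finset.mem_range]
      exact ⟨fun h => h.2, fun h => ⟨hlt, h⟩⟩
    rw [Bool.eq_iff_iff, ← h1, ← h2]
  -- the condition which decides the edge
  obtain ⟨w, hw, s, hsw, hsp⟩ := hC3 (S x y) p hE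
  have hEw : E x y w := hC1 (S x y) hw
  have hsb : s ≤ b₀ := hsp.trans (hp.trans hb)
  have hsub : ∀ z, z ∈ rx.1 ∪ ry.1 ∪ w.1 ∪ b₀.1 → z ∈ s.1 := by
    intro z hz
    simp only [Finset.mem_union] at hz
    rcases hz with ((hz | hz) | hz) | hz
    · exact hsp (hrx hz)
    · exact hsp (hry hz)
    · exact hsw hz
    · exact hsb hz
  have hfree : ∀ v, ((t w, d), v) ∉ rx.1 ∪ ry.1 ∪ w.1 ∪ b₀.1 := by
    intro v hv
    simp only [Finset.mem_union] at hv
    rcases hv with ((hv | hv) | hv) | hv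
    · exact absurd (hx2 _ _ _ hv) (not_lt.2 hMd)
    · exact absurd (hy2 _ _ _ hv) (not_lt.2 hMd)
    · exact (ht w d v).1 hv
    · exact (ht w d v).2 hv
  set z : Co := ⟨insert ((t w, d), !i) (rx.1 ∪ ry.1 ∪ w.1 ∪ b₀.1), by
    intro j h1 h2
    rw [Finset.mem_insert] at h1 h2
    rcases h1 with h1 | h1 <;> rcases h2 with h2 | h2
    · rw [← h2] at h1
      simp at h1
    · have h3 : j = (t w, d) := (Prod.ext_iff.1 h1).1
      rw [h3] at h2
      exact hfree _ h2
    · have h3 : j = (t w, d) := (Prod.ext_iff.1 h2).1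
      rw [h3] at h1
      exact hfree _ h1
    · exact s.2 j (hsub _ h1) (hsub _ h2)⟩ with hz
  have hzx : z ≤ rx := fun a ha => Finset.mem_insert_of_mem (by simp [ha])
  have hzy : z ≤ ry := fun a ha => Finset.mem_insert_of_mem (by simp [ha])
  have hzw : z ≤ w := fun a ha => Finset.mem_insert_of_mem (by simp [ha])
  have hzb : z ≤ b₀ := fun a ha => Finset.mem_insert_of_mem (by simp [ha])
  have hbit : ((t w, d), !i) ∈ z.1 := Finset.mem_insert_self _ _
  have key := hh z hzb x y n i (hm _ _ _ _ hzw hEw) (h.mono hzx hx1) (h.mono hzy hy1)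
  cases i with
  | true =>
    obtain ⟨r, hr, w', hw', hrw', hbit'⟩ := key.1 rfl z le_rfl
    have hww : w' = w := hC2 (S x y) w' hw' w hw r hrw' (hr.trans hzw)
    rw [hww] at hbit'
    exact r.2 _ hbit' (hr hbit)
  | false =>
    exact key.2 rfl z le_rfl ⟨w, hw, hzw, hbit⟩

/-- The combinatorial theorem for the poset which adds one Cohen real. -/
theorem good_one (W : Type) (hin : ∀ κ : Cardinal.{0}, ℵ₀ < κ → κ ≤ #(W × W) →
    ¬ κ.IsInaccessible) : Good' Co W := by
  intro E b₀ hm hs hirr hns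
  have hX : #(ℕ → Bool) = 2 ^ #ℕ := by simp
  have h2 : ℵ₀ ≤ (2 : Cardinal.{0}) ^ #ℕ := two_power
  have hP : #Co ≤ 2 ^ #ℕ := by
    refine mk_fn_le _ h2 ?_
    exact (mk_le_aleph0 (α := ℕ × ℕ)).trans h2
  have hopt : ∀ A : Type, #A ≤ 2 ^ #ℕ → #(ℕ → Option (Co × A)) ≤ 2 ^ #ℕ := by
    intro A hA
    refine power_le ?_ le_rfl
    rw [mk_option]
    refine add_le_of_le h2 ?_ (one_le_aleph0.trans h2)
    simp only [mk_prod, lift_id]
    exact mul_le_of_le h2 hP hA
  obtain ⟨eP⟩ : Nonempty ((ℕ → Option (Co × (ℕ → Bool))) ↪ (ℕ → Bool)) := by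
    rw [← Cardinal.le_def, hX]
    exact hopt _ hX.le
  obtain ⟨eP'⟩ : Nonempty ((ℕ → Option (Co × (ℕ × Bool))) ↪ (ℕ → Bool)) := by
    rw [← Cardinal.le_def, hX]
    exact hopt _ ((mk_le_aleph0 (α := ℕ × Bool)).trans h2)
  obtain ⟨eK⟩ : Nonempty ((ℕ → ℕ → Bool) ↪ (ℕ → Bool)) := by
    rw [← Cardinal.le_def, hX]
    exact power_le hX.le le_rfl
  obtain ⟨b, hb, hsm⟩ := exists_small (Fn.ccc _) eP eP' eK (by
    intro κ hκ
    rw [mk_nat] at hκ
    exact hin κ hκ) hm hs hirr hns
  obtain ⟨F, hF⟩ := exists_countable_one hm hs hns hb hsm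
  exact ⟨b, hb, F, hF⟩

open Forc in
/-- **The positive theorem, without hypothesis.** There is a model of ZFC in which every
uncountably chromatic graph splits to two parts. -/
theorem exists_model_all_split_one : ∃ (M : Type 1) (E : M → M → Prop), ModelsZFC E ∧
    ∀ h H, IsGraph E h H → UncountablyChromatic E h H → SplitsToTwo E h H := by
  obtain ⟨M, E, i, hi, hM, hi'⟩ := exists_model Co
  have hPc : #Co ≤ ℵ₀ := by
    refine mk_fn_le _ le_rfl ?_
    exact mk_le_aleph0 (α := ℕ × ℕ)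
  by_cases hin : ∃ lam : Cardinal.{0}, lam.IsInaccessible
  · -- cut at the least inaccessible cardinal
    obtain ⟨lam, hlam, hmin⟩ := wellFounded_lt.has_min {lam : Cardinal.{0} | lam.IsInaccessible} hin
    have hPl : Cardinal.mk Co < lam := hPc.trans_lt hlam.aleph0_lt
    have hv := closed_vN hlam hPl i hi'
    have h1 := hi' _ (fun _ => vN Co lam.ord.ToType) (forces_small_split (fun j => by
      refine good_one _ fun μ hμ hμW hμi => ?_
      have h2 : μ < lam := by
        refine hμW.trans_lt ?_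
        rw [Cardinal.mk_prod, Cardinal.lift_id]
        exact Cardinal.mul_lt_of_lt hlam.aleph0_lt.le (mk_idx_lt j) (mk_idx_lt j)
      exact hmin μ hμi h2) (fun _ => vN Co lam.ord.ToType) rfl)
    refine ⟨_, Sub E (i (vN Co lam.ord.ToType)), hv.modelsZFC hM, fun h H hgr hunc => ?_⟩
    have h2 := h1 H.1 h.1
    rw [Forc.holds_imp, Forc.holds_imp, Forc.holds_imp, holds_fGr, holds_fUnc, holds_fSpl] at h2
    exact hv.split_down hM (h2 h.2 ((hv.isGraph_iff hM _ _).1 hgr) (hv.unc_up hM hunc))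
  · push Not at hin
    have h1 := hi' _ (fun _ => Nam.empty) (forces_all_split
      (fun W => good_one W fun μ _ _ => hin μ) fun _ => Nam.empty)
    refine ⟨M, E, hM, fun h H hgr hunc => ?_⟩
    have h2 := h1 H h
    rw [Forc.holds_imp, Forc.holds_imp, holds_fGr, holds_fUnc, holds_fSpl] at h2
    exact h2 hgr hunc

end Pool.Agent.Lib.MP_d41870_lc.Pos
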