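import Pool.Agent.Lib.MP_d41870_lc.NSMain

/-!
# Set models inside models

If a set `v` of a model `(M, E)` of ZFC has the closure properties of `V_λ`, `λ` inaccessible,
then the elements of `v` form a model of ZFC, with the same notions of graph, countable partition
and splitting.
-/

set_option autoImplicit false

namespace Pool.Agent.Lib.MP_d41870_lc.Pos

open MP9708F Forc

universe u

/-- The variable `i` at depth `d`; the set `v` has index `d`. -/
def ix (d i : ℕ) : ℕ := if i < d then i else i + 1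

/-- Relativisation of a formula to the set with index `d`. -/
def rel : ℕ → SetFormula → SetFormula
  | d, .mem i j => .mem (ix d i) (ix d j)
  | d, .eq i j => .eq (ix d i) (ix d j)
  | d, .neg φ => .neg (rel d φ)
  | d, .and φ ψ => .and (rel d φ) (rel d ψ)
  | d, .all φ => .all (imp (.mem 0 (d + 1)) (rel (d + 1) φ))

section

variable {M : Type u} {E : M → M → Prop} {v : M}

/-- The membership relation on the elements of `v`. -/
def Sub (E : M → M → Prop) (v : M) : {x : M // E x v} → {x : M // E x v} → Prop :=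
  fun x y => E x.1 y.1

theorem holds_rel (φ : SetFormula) : ∀ (d : ℕ) (w : ℕ → M) (a : ℕ → {x : M // E x v}),
    w d = v → (∀ i, w (ix d i) = (a i).1) → ((rel d φ).Holds E w ↔ φ.Holds (Sub E v) a) := by
  induction φ with
  | mem i j =>
    intro d w a _ hw
    simp only [rel, SetFormula.Holds, hw, Sub]
  | eq i j =>
    intro d w a _ hw
    simp only [rel, SetFormula.Holds, hw]
    exact Subtype.ext_iff.symm
  | neg φ ih =>
    intro d w a hd hw
    simp only [rel, SetFormula.Holds, ih d w a hd hw]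
  | and φ ψ ih1 ih2 =>
    intro d w a hd hw
    simp only [rel, SetFormula.Holds, ih1 d w a hd hw, ih2 d w a hd hw]
  | all φ ih =>
    intro d w a hd hw
    simp only [rel, SetFormula.Holds, Forc.holds_imp, push_zero', push_succ', hd]
    have key : ∀ x : {x : M // E x v}, ((rel (d + 1) φ).Holds E (push x.1 w) ↔
        φ.Holds (Sub E v) (push x a)) := by
      intro x
      refine ih (d + 1) (push x.1 w) (push x a) hd ?_
      intro i
      cases i with
      | zero => simp [ix]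
      | succ i =>
        have h1 : ix (d + 1) (i + 1) = ix d i + 1 := by
          unfold ix
          by_cases h : i < d
          · simp [h]
          · simp [h]
        rw [h1]
        exact hw i
    constructor
    · intro h x
      exact (key x).1 (h x.1 x.2)
    · intro h x hx
      exact (key ⟨x, hx⟩).2 (h ⟨x, hx⟩)

/-- The closure properties of `V_λ`. -/
structure Closed (E : M → M → Prop) (v : M) : Prop where
  trans : ∀ x y, E y v → E x y → E x v
  sub : ∀ x y, E y v → (∀ z, E z x → E z y) → E x v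
  pair : ∀ x y, E y v → E x v → ∃ z, E z v ∧ ∀ w, E w z ↔ w = y ∨ w = x
  union : ∀ x, E x v → ∃ y, E y v ∧ ∀ z, E z y ↔ ∃ w, E w x ∧ E z w
  power : ∀ x, E x v → ∃ y, E y v ∧ ∀ z, E z y ↔ ∀ w, E w z → E w x
  omega : ∃ w, E w v ∧ IsInductive E w
  repl : ∀ x t g, E x v → (∀ z, E z t → E z v) → (∀ z, E z t → ∃ y, E y x ∧ HasPair E g y z) →
    (∀ y z z', HasPair E g y z → HasPair E g y z' → z = z') → E t v

section pairs

variable (hM : ModelsZFC E)

include hM

/-- A set of the given form exists for every ordered pair. -/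
theorem exists_pair (a b : M) : ∃ p, IsPair E p a b := by
  obtain ⟨s, hs⟩ := hM.pairing a a
  obtain ⟨d, hd⟩ := hM.pairing a b
  obtain ⟨p, hp⟩ := hM.pairing s d
  refine ⟨p, fun z => ?_⟩
  rw [hp]
  constructor
  · rintro (rfl | rfl)
    · left
      intro w
      rw [hs]
      simp
    · right
      exact hd
  · rintro (h | h)
    · left
      exact hM.extensionality _ _ fun w => by rw [h, hs]; simp
    · right
      exact hM.extensionality _ _ fun w => by rw [h, hd]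

theorem isPair_unique {p p' a b : M} (h : IsPair E p a b) (h' : IsPair E p' a b) : p = p' :=
  hM.extensionality _ _ fun z => by rw [h z, h' z]

theorem isPair_inj {p a b a' b' : M} (h : IsPair E p a b) (h' : IsPair E p a' b') :
    a = a' ∧ b = b' := by
  obtain ⟨s, hs⟩ := hM.pairing a a
  obtain ⟨d, hd⟩ := hM.pairing a b
  obtain ⟨s', hs'⟩ := hM.pairing a' a'
  obtain ⟨d', hd'⟩ := hM.pairing a' b'
  have e1 : E s p := (h s).2 (Or.inl fun w => by rw [hs]; simp)
  have e2 : E d p := (h d).2 (Or.inr hd)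
  have e3 : E s' p := (h' s').2 (Or.inl fun w => by rw [hs']; simp)
  have e4 : E d' p := (h' d').2 (Or.inr hd')
  -- `a = a'`
  have ha : a = a' := by
    rcases (h' s).1 e1 with h1 | h1
    · exact (h1 a).1 ((hs a).2 (Or.inl rfl))
    · have := (h1 a').2 (Or.inl rfl)
      rcases (hs a').1 this with h2 | h2
      · exact h2.symm
      · exact h2.symm
  subst ha
  refine ⟨rfl, ?_⟩
  rcases (h' d).1 e2 with h1 | h1
  · -- `d = {a}`, so `b = a`
    have hb : b = a := (h1 b).1 ((hd b).2 (Or.inr rfl))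
    rcases (h d').1 e4 with h2 | h2
    · rw [hb, (h2 b').1 ((hd' b').2 (Or.inr rfl))]
    · rcases (h2 b').1 ((hd' b').2 (Or.inr rfl)) with h3 | h3
      · rw [hb, h3]
      · exact h3.symm
  · rcases (h1 b).1 ((hd b).2 (Or.inr rfl)) with h2 | h2
    · -- `b = a`
      rcases (h1 b').2 (Or.inr rfl) |> (hd b').1 with h3 | h3
      · rw [h2, h3]
      · exact h3.symm
    · exact h2

end pairs

variable (hM : ModelsZFC E) (hv : Closed E v)

include hM hv

/-- Pairs of elements of `v` are elements of `v`. -/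
theorem Closed.pair_mem {p a b : M} (ha : E a v) (hb : E b v) (hp : IsPair E p a b) : E p v := by
  obtain ⟨s, hs, hs'⟩ := hv.pair a a ha ha
  obtain ⟨d, hd, hd'⟩ := hv.pair b a ha hb
  obtain ⟨q, hq, hq'⟩ := hv.pair d s hs hd
  have : p = q := by
    refine hM.extensionality _ _ fun z => ?_
    rw [hp z, hq']
    constructor
    · rintro (h | h)
      · left
        exact hM.extensionality _ _ fun w => by rw [h, hs']; simp
      · right
        exact hM.extensionality _ _ fun w => by rw [h, hd']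
    · rintro (rfl | rfl)
      · left
        intro w
        rw [hs']
        simp
      · right
        exact hd'
  rw [this]
  exact hq

/-- The components of a pair in `v` are in `v`. -/
theorem Closed.of_pair_mem {p a b : M} (hp : IsPair E p a b) (h : E p v) : E a v ∧ E b v := by
  obtain ⟨d, hd⟩ := hM.pairing a b
  have h1 : E d v := hv.trans _ _ h ((hp d).2 (Or.inr hd))
  exact ⟨hv.trans _ _ h1 ((hd a).2 (Or.inl rfl)), hv.trans _ _ h1 ((hd b).2 (Or.inr rfl))⟩

/-- Being an ordered pair is absolute. -/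
theorem Closed.isPair_iff (p a b : {x : M // E x v}) :
    IsPair (Sub E v) p a b ↔ IsPair E p.1 a.1 b.1 := by
  have h1 : ∀ z : {x : M // E x v}, (∀ w, Sub E v w z ↔ w = a) ↔ ∀ w, E w z.1 ↔ w = a.1 := by
    intro z
    constructor
    · intro h w
      constructor
      · intro hw
        exact congrArg Subtype.val ((h ⟨w, hv.trans _ _ z.2 hw⟩).1 hw)
      · rintro rfl
        exact (h a).2 rfl
    · intro h w
      rw [Subtype.ext_iff]
      exact h w.1
  have h2 : ∀ z : {x : M // E x v}, (∀ w, Sub E v w z ↔ w = a ∨ w = b) ↔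
      ∀ w, E w z.1 ↔ w = a.1 ∨ w = b.1 := by
    intro z
    constructor
    · intro h w
      constructor
      · intro hw
        exact ((h ⟨w, hv.trans _ _ z.2 hw⟩).1 hw).imp (congrArg Subtype.val)
          (congrArg Subtype.val)
      · rintro (rfl | rfl)
        · exact (h a).2 (Or.inl rfl)
        · exact (h b).2 (Or.inr rfl)
    · intro h w
      rw [Subtype.ext_iff, Subtype.ext_iff]
      exact h w.1
  constructor
  · intro h z
    constructor
    · intro hz
      have := (h ⟨z, hv.trans _ _ p.2 hz⟩).1 hz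
      rwa [h1, h2] at this
    · intro hz
      have hzv : E z v := by
        rcases hz with hz | hz
        · obtain ⟨s, hs, hs'⟩ := hv.pair a.1 a.1 a.2 a.2
          have : z = s := hM.extensionality _ _ fun w => by rw [hz, hs']; simp
          rw [this]
          exact hs
        · obtain ⟨s, hs, hs'⟩ := hv.pair b.1 a.1 a.2 b.2
          have : z = s := hM.extensionality _ _ fun w => by rw [hz, hs']
          rw [this]
          exact hs
      refine (h ⟨z, hzv⟩).2 ?_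
      rwa [h1, h2]
  · intro h z
    rw [h1, h2]
    exact h z.1

/-- The elements of `v` form a model of ZFC. -/
theorem Closed.modelsZFC : ModelsZFC (Sub E v) where
  extensionality := by
    intro x y h
    refine Subtype.ext (hM.extensionality _ _ fun z => ⟨fun hz => ?_, fun hz => ?_⟩)
    · exact (h ⟨z, hv.trans _ _ x.2 hz⟩).1 hz
    · exact (h ⟨z, hv.trans _ _ y.2 hz⟩).2 hz
  foundation := by
    rintro x ⟨y, hy⟩
    obtain ⟨z, hz, hz'⟩ := hM.foundation x.1 ⟨y.1, hy⟩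
    exact ⟨⟨z, hv.trans _ _ x.2 hz⟩, hz, fun w hw => hz' w.1 hw⟩
  pairing := by
    intro x y
    obtain ⟨z, hz, hz'⟩ := hv.pair y.1 x.1 x.2 y.2
    refine ⟨⟨z, hz⟩, fun w => ?_⟩
    rw [Subtype.ext_iff, Subtype.ext_iff]
    exact hz' w.1
  union := by
    intro x
    obtain ⟨y, hy, hy'⟩ := hv.union x.1 x.2
    refine ⟨⟨y, hy⟩, fun z => ?_⟩
    constructor
    · intro hz
      obtain ⟨w, hw, hzw⟩ := (hy' z.1).1 hz
      exact ⟨⟨w, hv.trans _ _ x.2 hw⟩, hw, hzw⟩
    · rintro ⟨w, hw, hzw⟩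
      exact (hy' z.1).2 ⟨w.1, hw, hzw⟩
  powerset := by
    intro x
    obtain ⟨y, hy, hy'⟩ := hv.power x.1 x.2
    refine ⟨⟨y, hy⟩, fun z => ?_⟩
    constructor
    · intro hz w hw
      exact (hy' z.1).1 hz w.1 hw
    · intro h
      exact (hy' z.1).2 fun w hw => h ⟨w, hv.trans _ _ z.2 hw⟩ hw
  infinity := by
    obtain ⟨w, hw, ⟨y, hy, hy'⟩, h2⟩ := hv.omega
    refine ⟨⟨w, hw⟩, ⟨⟨y, hv.trans _ _ hw hy⟩, hy, fun z => hy' z.1⟩, ?_⟩
    intro z hz
    obtain ⟨t, ht, ht'⟩ := h2 z.1 hz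
    refine ⟨⟨t, hv.trans _ _ hw ht⟩, ht, fun s => ?_⟩
    rw [Subtype.ext_iff]
    exact ht' s.1
  separation := by
    intro φ a x
    obtain ⟨y, hy⟩ := hM.separation (rel 1 φ) (push v fun i => (a i).1) x.1
    have h1 : E y v := hv.sub _ _ x.2 fun z hz => ((hy z).1 hz).1
    refine ⟨⟨y, h1⟩, fun z => ?_⟩
    have h2 : (rel 1 φ).Holds E (push z.1 (push v fun i => (a i).1)) ↔
        φ.Holds (Sub E v) (push z a) := by
      refine holds_rel φ 1 _ _ rfl fun i => ?_
      cases i <;> simp [ix, push]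
    rw [← h2]
    exact hy z.1
  replacement := by
    intro φ a x hx
    -- the image
    let f : ℕ → ℕ := fun n => match n with | 0 => 1 | 1 => 0 | n + 2 => n + 3
    let f2 : ℕ → ℕ := fun n => match n with | 0 => 0 | 1 => 1 | n + 2 => n + 4
    have hf : ∀ (z y : {x : M // E x v}), (fun n => push y (push z (push x a)) (f n)) =
        push z (push y a) := by
      intro z y
      funext n
      match n with
      | 0 => rfl
      | 1 => rfl
      | n + 2 => rfl
    have hf2 : ∀ (p z y : {x : M // E x v}),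
        (fun n => push z (push y (push p (push x a))) (f2 n)) = push z (push y a) := by
      intro p z y
      funext n
      match n with
      | 0 => rfl
      | 1 => rfl
      | n + 2 => rfl
    have hrel : ∀ (ψ : SetFormula) (z : {x : M // E x v}),
        (rel 1 ψ).Holds E (push z.1 (push v fun i => (push x a i).1)) ↔
          ψ.Holds (Sub E v) (push z (push x a)) := by
      intro ψ z
      refine holds_rel ψ 1 _ _ rfl fun i => ?_
      cases i <;> simp [ix, push]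
    obtain ⟨t, ht⟩ := hM.separation (rel 1 (SetFormula.and (.mem 0 2) (φ.rename f)).ex)
      (push v fun i => (push x a i).1) v
    obtain ⟨g, hg⟩ := hM.separation
      (rel 1 (SetFormula.and (fPair 2 1 0) (.and (.mem 1 3) (φ.rename f2))).ex.ex)
      (push v fun i => (push x a i).1) v
    have ht' : ∀ z : {x : M // E x v}, E z.1 t ↔ ∃ y, Sub E v y x ∧
        φ.Holds (Sub E v) (push z (push y a)) := by
      intro z
      rw [ht z.1, hrel]
      simp only [holds_ex, SetFormula.Holds, holds_rename, hf, push_zero', push_succ']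
      exact and_iff_right z.2
    have hg' : ∀ y z : {x : M // E x v}, HasPair E g y.1 z.1 ↔
        Sub E v y x ∧ φ.Holds (Sub E v) (push z (push y a)) := by
      intro y z
      obtain ⟨p, hp⟩ := exists_pair hM y.1 z.1
      have hpv : E p v := hv.pair_mem hM y.2 z.2 hp
      have h1 : HasPair E g y.1 z.1 ↔ E p g := by
        constructor
        · rintro ⟨q, hq, hq'⟩
          rw [isPair_unique hM hp hq']
          exact hq
        · intro h
          exact ⟨p, h, hp⟩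
      have h2 : (rel 1 (SetFormula.and (fPair 2 1 0) (.and (.mem 1 3) (φ.rename f2))).ex.ex).Holds E
          (push p (push v fun i => (push x a i).1)) ↔ _ := hrel _ ⟨p, hpv⟩
      rw [h1, hg p, h2]
      simp only [holds_ex, SetFormula.Holds, holds_rename, hf2, holds_fPair, push_zero',
        push_succ', hv.isPair_iff hM]
      constructor
      · rintro ⟨-, y', z', h3, h4, h5⟩
        obtain ⟨e1, e2⟩ := isPair_inj hM hp h3
        rw [← Subtype.ext_iff] at e1 e2
        subst e1 e2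
        exact ⟨h4, h5⟩
      · rintro ⟨h3, h4⟩
        exact ⟨hpv, y, z, hp, h3, h4⟩
    have htv : E t v := by
      refine hv.repl x.1 t g x.2 (fun z hz => ((ht z).1 hz).1) ?_ ?_
      · intro z hz
        have hz' := ((ht z).1 hz).1
        obtain ⟨y, hy, hyz⟩ := (ht' ⟨z, hz'⟩).1 hz
        exact ⟨y.1, hy, (hg' y ⟨z, hz'⟩).2 ⟨hy, hyz⟩⟩
      · intro y z z' h1 h2
        have hgv : ∀ p, E p g → E p v := fun p hp => ((hg p).1 hp).1
        obtain ⟨p, hp, hp'⟩ := h1
        obtain ⟨q, hq, hq'⟩ := h2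
        obtain ⟨hy, hz⟩ := hv.of_pair_mem hM hp' (hgv p hp)
        obtain ⟨-, hz'⟩ := hv.of_pair_mem hM hq' (hgv q hq)
        obtain ⟨h3, h4⟩ := (hg' ⟨y, hy⟩ ⟨z, hz⟩).1 ⟨p, hp, hp'⟩
        obtain ⟨h5, h6⟩ := (hg' ⟨y, hy⟩ ⟨z', hz'⟩).1 ⟨q, hq, hq'⟩
        exact congrArg Subtype.val ((hx ⟨y, hy⟩ h3).unique h4 h6)
    exact ⟨⟨t, htv⟩, ht'⟩
  choice := by
    intro x h1 h2
    obtain ⟨c, hc⟩ := hM.choice x.1 (fun y hy => by
      obtain ⟨z, hz⟩ := h1 ⟨y, hv.trans _ _ x.2 hy⟩ hy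
      exact ⟨z.1, hz⟩) (fun y z hy hz ⟨w, hw, hw'⟩ => by
      have := h2 ⟨y, hv.trans _ _ x.2 hy⟩ ⟨z, hv.trans _ _ x.2 hz⟩ hy hz
        ⟨⟨w, hv.trans _ _ (hv.trans _ _ x.2 hy) hw⟩, hw, hw'⟩
      exact congrArg Subtype.val this)
    obtain ⟨s, hs, hs'⟩ := hv.union x.1 x.2
    obtain ⟨c', hc'⟩ := hM.separation (.mem 0 1) (fun _ => c) s
    have h3 : E c' v := hv.sub _ _ hs fun z hz => ((hc' z).1 hz).1
    refine ⟨⟨c', h3⟩, fun y hy => ?_⟩
    obtain ⟨z, ⟨hz, hz'⟩, hu⟩ := hc y.1 hy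
    have h4 : E z s := (hs' z).2 ⟨y.1, hy, hz'⟩
    refine ⟨⟨z, hv.trans _ _ hs h4⟩, ⟨(hc' z).2 ⟨h4, hz⟩, hz'⟩, ?_⟩
    rintro w ⟨hw, hw'⟩
    exact Subtype.ext (hu w.1 ⟨((hc' w.1).1 hw).2, hw'⟩)

/-! ### Absoluteness -/

theorem Closed.hasPair_iff (f a b : {x : M // E x v}) :
    HasPair (Sub E v) f a b ↔ HasPair E f.1 a.1 b.1 := by
  constructor
  · rintro ⟨p, hp, hp'⟩
    exact ⟨p.1, hp, (hv.isPair_iff hM _ _ _).1 hp'⟩
  · rintro ⟨p, hp, hp'⟩
    exact ⟨⟨p, hv.trans _ _ f.2 hp⟩, hp, (hv.isPair_iff hM _ _ _).2 hp'⟩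

theorem Closed.hasPair_mem {f : {x : M // E x v}} {a b : M} (h : HasPair E f.1 a b) :
    E a v ∧ E b v := by
  obtain ⟨p, hp, hp'⟩ := h
  exact hv.of_pair_mem hM hp' (hv.trans _ _ f.2 hp)

theorem Closed.isInductive_iff (w : {x : M // E x v}) :
    IsInductive (Sub E v) w ↔ IsInductive E w.1 := by
  constructor
  · rintro ⟨⟨y, hy, hy'⟩, h⟩
    refine ⟨⟨y.1, hy, fun z hz => hy' ⟨z, hv.trans _ _ y.2 hz⟩ hz⟩, fun z hz => ?_⟩
    obtain ⟨t, ht, ht'⟩ := h ⟨z, hv.trans _ _ w.2 hz⟩ hz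
    refine ⟨t.1, ht, fun u => ⟨fun hu => ?_, fun hu => ?_⟩⟩
    · exact ((ht' ⟨u, hv.trans _ _ t.2 hu⟩).1 hu).imp id (congrArg Subtype.val)
    · rcases hu with hu | rfl
      · exact (ht' ⟨u, hv.trans _ _ (hv.trans _ _ w.2 hz) hu⟩).2 (Or.inl hu)
      · exact (ht' ⟨u, hv.trans _ _ w.2 hz⟩).2 (Or.inr rfl)
  · rintro ⟨⟨y, hy, hy'⟩, h⟩
    refine ⟨⟨⟨y, hv.trans _ _ w.2 hy⟩, hy, fun z => hy' z.1⟩, fun z hz => ?_⟩
    obtain ⟨t, ht, ht'⟩ := h z.1 hz
    refine ⟨⟨t, hv.trans _ _ w.2 ht⟩, ht, fun u => ?_⟩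
    rw [Subtype.ext_iff]
    exact ht' u.1

/-- `ω` is absolute. -/
theorem Closed.isOmega_iff (w : {x : M // E x v}) :
    IsOmega (Sub E v) w ↔ IsOmega E w.1 := by
  constructor
  · rintro ⟨h1, h2⟩
    refine ⟨(hv.isInductive_iff hM w).1 h1, fun w' hw' y hy => ?_⟩
    -- intersect with `w`
    obtain ⟨s, hs⟩ := hM.separation (.mem 0 1) (fun _ => w') w.1
    have hsv : E s v := hv.sub _ _ w.2 fun z hz => ((hs z).1 hz).1
    have hsi : IsInductive E s := by
      obtain ⟨⟨e, he, he'⟩, h3⟩ := (hv.isInductive_iff hM w).1 h1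
      obtain ⟨⟨e2, he2, he2'⟩, h4⟩ := hw'
      have hee : e = e2 := hM.extensionality _ _ fun z => iff_of_false (he' z) (he2' z)
      refine ⟨⟨e, (hs e).2 ⟨he, hee ▸ he2⟩, he'⟩, fun z hz => ?_⟩
      obtain ⟨hz1, hz2⟩ := (hs z).1 hz
      obtain ⟨t, ht, ht'⟩ := h3 z hz1
      obtain ⟨t2, ht2, ht2'⟩ := h4 z hz2
      have htt : t = t2 := hM.extensionality _ _ fun u => by rw [ht', ht2']
      exact ⟨t, (hs t).2 ⟨ht, htt ▸ ht2⟩, ht'⟩
    have h3 := h2 ⟨s, hsv⟩ ((hv.isInductive_iff hM _).2 hsi) ⟨y, hv.trans _ _ w.2 hy⟩ hy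
    exact ((hs y).1 h3).2
  · rintro ⟨h1, h2⟩
    refine ⟨(hv.isInductive_iff hM w).2 h1, fun w' hw' y hy => ?_⟩
    exact h2 w'.1 ((hv.isInductive_iff hM w').1 hw') y.1 hy

theorem Closed.isFunc_iff (f x y : {x : M // E x v}) :
    IsFunc (Sub E v) f x y ↔ IsFunc E f.1 x.1 y.1 := by
  constructor
  · rintro ⟨h1, h2, h3⟩
    refine ⟨fun p hp => ?_, fun a ha => ?_, fun a b b' hb hb' => ?_⟩
    · obtain ⟨a, b, ha, hb, hab⟩ := h1 ⟨p, hv.trans _ _ f.2 hp⟩ hp
      exact ⟨a.1, b.1, ha, hb, (hv.isPair_iff hM _ _ _).1 hab⟩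
    · obtain ⟨b, hb⟩ := h2 ⟨a, hv.trans _ _ x.2 ha⟩ ha
      exact ⟨b.1, (hv.hasPair_iff hM _ _ _).1 hb⟩
    · obtain ⟨ha, hbv⟩ := hv.hasPair_mem hM hb
      obtain ⟨-, hbv'⟩ := hv.hasPair_mem hM hb'
      exact congrArg Subtype.val (h3 ⟨a, ha⟩ ⟨b, hbv⟩ ⟨b', hbv'⟩
        ((hv.hasPair_iff hM _ _ _).2 hb) ((hv.hasPair_iff hM _ _ _).2 hb'))
  · rintro ⟨h1, h2, h3⟩
    refine ⟨fun p hp => ?_, fun a ha => ?_, fun a b b' hb hb' => ?_⟩
    · obtain ⟨a, b, ha, hb, hab⟩ := h1 p.1 hp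
      exact ⟨⟨a, hv.trans _ _ x.2 ha⟩, ⟨b, hv.trans _ _ y.2 hb⟩, ha, hb,
        (hv.isPair_iff hM _ _ _).2 hab⟩
    · obtain ⟨b, hb⟩ := h2 a.1 ha
      obtain ⟨-, hbv⟩ := hv.hasPair_mem hM hb
      exact ⟨⟨b, hbv⟩, (hv.hasPair_iff hM _ _ _).2 hb⟩
    · exact Subtype.ext (h3 _ _ _ ((hv.hasPair_iff hM _ _ _).1 hb)
        ((hv.hasPair_iff hM _ _ _).1 hb'))

/-- A function between elements of `v` is an element of `v`. -/
theorem Closed.func_mem {f x y : M} (hx : E x v) (hy : E y v) (hf : IsFunc E f x y) :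
    E f v := by
  obtain ⟨s, hs, hs'⟩ := hv.pair y x hx hy
  obtain ⟨u, hu, hu'⟩ := hv.union s hs
  obtain ⟨q, hq, hq'⟩ := hv.power u hu
  obtain ⟨q2, hq2, hq2'⟩ := hv.power q hq
  refine hv.sub f q2 hq2 fun p hp => ?_
  obtain ⟨a, b, ha, hb, hab⟩ := hf.1 p hp
  have hau : E a u := (hu' a).2 ⟨x, (hs' x).2 (Or.inl rfl), ha⟩
  have hbu : E b u := (hu' b).2 ⟨y, (hs' y).2 (Or.inr rfl), hb⟩
  rw [hq2']
  intro z hz
  rw [hq']
  intro w hw
  rcases (hab z).1 hz with h | h
  · rw [h] at hw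
    rw [hw]
    exact hau
  · rw [h] at hw
    rcases hw with rfl | rfl
    · exact hau
    · exact hbu

theorem Closed.isGraph_iff (h H : {x : M // E x v}) :
    IsGraph (Sub E v) h H ↔ IsGraph E h.1 H.1 := by
  have key : ∀ e a b : {x : M // E x v}, (∀ z, Sub E v z e ↔ z = a ∨ z = b) ↔
      ∀ z, E z e.1 ↔ z = a.1 ∨ z = b.1 := by
    intro e a b
    constructor
    · intro hz z
      constructor
      · intro hze
        exact ((hz ⟨z, hv.trans _ _ e.2 hze⟩).1 hze).imp (congrArg Subtype.val)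
          (congrArg Subtype.val)
      · rintro (rfl | rfl)
        · exact (hz a).2 (Or.inl rfl)
        · exact (hz b).2 (Or.inr rfl)
    · intro hz z
      rw [Subtype.ext_iff, Subtype.ext_iff]
      exact hz z.1
  constructor
  · intro hgr e he
    obtain ⟨a, b, ha, hb, hab, hz⟩ := hgr ⟨e, hv.trans _ _ H.2 he⟩ he
    exact ⟨a.1, b.1, ha, hb, fun h => hab (Subtype.ext h), (key _ _ _).1 hz⟩
  · intro hgr e he
    obtain ⟨a, b, ha, hb, hab, hz⟩ := hgr e.1 he
    exact ⟨⟨a, hv.trans _ _ h.2 ha⟩, ⟨b, hv.trans _ _ h.2 hb⟩, ha, hb,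
      fun h => hab (congrArg Subtype.val h), (key e ⟨a, _⟩ ⟨b, _⟩).2 hz⟩

theorem Closed.cls_iff (f n H : {x : M // E x v}) :
    ClassHasEdge (Sub E v) f n H ↔ ClassHasEdge E f.1 n.1 H.1 := by
  constructor
  · rintro ⟨e, he, hz⟩
    exact ⟨e.1, he, fun z hze => (hv.hasPair_iff hM f ⟨z, hv.trans _ _ e.2 hze⟩ n).1
      (hz ⟨z, hv.trans _ _ e.2 hze⟩ hze)⟩
  · rintro ⟨e, he, hz⟩
    exact ⟨⟨e, hv.trans _ _ H.2 he⟩, he, fun z hze => (hv.hasPair_iff hM f z n).2 (hz z.1 hze)⟩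

/-- Being uncountably chromatic goes up from `v`. -/
theorem Closed.unc_up {h H : {x : M // E x v}} (hunc : UncountablyChromatic (Sub E v) h H) :
    UncountablyChromatic E h.1 H.1 := by
  intro w hw f hf
  obtain ⟨w0, hw0, hw0'⟩ := hv.omega
  have hwv : E w v := hv.sub _ _ hw0 fun z hz => hw.2 w0 hw0' z hz
  have hfv : E f v := hv.func_mem hM h.2 hwv hf
  obtain ⟨n, hn, hcls⟩ := hunc ⟨w, hwv⟩ ((hv.isOmega_iff hM _).2 hw) ⟨f, hfv⟩
    ((hv.isFunc_iff hM _ _ _).2 hf)
  exact ⟨n.1, hn, (hv.cls_iff hM _ _ _).1 hcls⟩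

/-- A splitting of a graph in `v` is a splitting in the sense of `v`. -/
theorem Closed.split_down {h H : {x : M // E x v}} (hs : SplitsToTwo E h.1 H.1) :
    SplitsToTwo (Sub E v) h H := by
  obtain ⟨H0, H1, h1, h2, h3⟩ := hs
  have hv0 : E H0 v := hv.sub _ _ H.2 fun z hz => (h1 z).2 (Or.inl hz)
  have hv1 : E H1 v := hv.sub _ _ H.2 fun z hz => (h1 z).2 (Or.inr hz)
  refine ⟨⟨H0, hv0⟩, ⟨H1, hv1⟩, fun e => h1 e.1, fun e => h2 e.1, fun w hw f hf => ?_⟩
  obtain ⟨n, hn, hc0, hc1⟩ := h3 w.1 ((hv.isOmega_iff hM _).1 hw) f.1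
    ((hv.isFunc_iff hM _ _ _).1 hf)
  exact ⟨⟨n, hv.trans _ _ w.2 hn⟩, hn, (hv.cls_iff hM f ⟨n, _⟩ ⟨H0, hv0⟩).2 hc0,
    (hv.cls_iff hM f ⟨n, _⟩ ⟨H1, hv1⟩).2 hc1⟩

end

end Pool.Agent.Lib.MP_d41870_lc.Pos
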