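import Pool.Agent.Lib.MP_d41870_lc.Defs

/-!
# The ideal of edge sets colourable with `#X` colours
-/

set_option autoImplicit false

namespace Pool.Agent.Lib.MP_d41870_lc

open Cardinal

universe u

variable {V X : Type u} {G : SimpleGraph V}

/-- The edges of `G` in the relation `R` can be properly coloured with the elements of `X`. -/
def Small (G : SimpleGraph V) (X : Type u) (R : V → V → Prop) : Prop :=
  ∃ c : V → X, ∀ u v, G.Adj u v → R u v → c u ≠ c v

theorem Small.mono {R S : V → V → Prop} (hS : Small G X S)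
    (h : ∀ u v, G.Adj u v → R u v → S u v) : Small G X R := by
  obtain ⟨c, hc⟩ := hS
  exact ⟨c, fun u v huv hR => hc u v huv (h u v huv hR)⟩

theorem Small.symm {R : V → V → Prop} (hR : Small G X R) :
    Small G X (fun u v => R u v ∨ R v u) := by
  obtain ⟨c, hc⟩ := hR
  refine ⟨c, fun u v huv h => ?_⟩
  rcases h with h | h
  · exact hc u v huv h
  · exact (hc v u huv.symm h).symm

theorem Small.of_empty [Nonempty X] {R : V → V → Prop}
    (h : ∀ u v, G.Adj u v → ¬ R u v) : Small G X R :=
  ⟨fun _ => Classical.arbitrary X, fun u v huv hR => absurd hR (h u v huv)⟩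

/-- A disjoint union of small edge sets is small. -/
theorem Small.of_fibers {P : Type*} [Nonempty X] (π : V → P) {R : V → V → Prop}
    (h : ∀ p, Small G X (fun u v => R u v ∧ π u = p ∧ π v = p)) :
    Small G X (fun u v => R u v ∧ π u = π v) := by
  choose c hc using h
  refine ⟨fun w => c (π w) w, fun u v huv hR => ?_⟩
  have := hc (π u) u v huv ⟨hR.1, rfl, hR.2.symm⟩
  simpa [hR.2] using this

/-- A union of `#I` small edge sets is small if `#X ^ #I ≤ #X`. -/
theorem Small.iUnion_of_power {I : Type u} (hI : #X ^ #I ≤ #X) {R : I → V → V → Prop}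
    (h : ∀ i, Small G X (R i)) : Small G X (fun u v => ∃ i, R i u v) := by
  choose c hc using h
  have : #(I → X) ≤ #X := by simpa using hI
  obtain ⟨e⟩ := this
  refine ⟨fun w => e (fun i => c i w), fun u v huv hR hne => ?_⟩
  obtain ⟨i, hi⟩ := hR
  have := congrFun (e.injective hne) i
  exact hc i u v huv hi this

/-- The completeness of the ideal of small edge sets. -/
def IsBad (G : SimpleGraph V) (X : Type u) (κ : Cardinal.{u}) : Prop :=
  ∃ (I : Type u) (R : I → V → V → Prop), #I = κ ∧ (∀ i, Small G X (R i)) ∧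
    ¬ Small G X (fun u v => ∃ i, R i u v)

/-- The additivity of the ideal of small edge sets. -/
noncomputable def add (G : SimpleGraph V) (X : Type u) : Cardinal.{u} :=
  sInf {κ | IsBad G X κ}

theorem Small.iUnion_of_lt_add {I : Type u} (hI : #I < add G X) {R : I → V → V → Prop}
    (h : ∀ i, Small G X (R i)) : Small G X (fun u v => ∃ i, R i u v) := by
  by_contra hn
  exact (notMem_of_lt_csInf' hI) ⟨I, R, rfl, h, hn⟩

theorem add_mem (h : ∃ κ, IsBad G X κ) : IsBad G X (add G X) :=
  csInf_mem (s := {κ | IsBad G X κ}) h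

theorem Small.bipartite (hX : 2 ≤ #X) {P : Type*} (π : V → P) (p : P) :
    Small G X (fun u v => π u = p ∧ π v ≠ p) := by
  obtain ⟨a, b, hab⟩ := Cardinal.two_le_iff.1 hX
  classical
  refine ⟨fun w => if π w = p then a else b, fun u v _ hR => ?_⟩
  simp [hR.1, hR.2, hab]

theorem Small.of_coloring_lt (hX : 2 ≤ #X) {P : Type u} (hP : #P < add G X) (π : V → P) :
    Small G X (fun u v => π u ≠ π v) := by
  have := Small.iUnion_of_lt_add (G := G) (X := X) hP
    (R := fun p u v => π u = p ∧ π v ≠ p) (fun p => Small.bipartite hX π p)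
  refine this.mono fun u v _ h => ⟨π u, rfl, h.symm⟩

theorem Small.union (h2 : (2 : Cardinal) < add G X) {R S : V → V → Prop} (hR : Small G X R)
    (hS : Small G X S) : Small G X (fun u v => R u v ∨ S u v) := by
  have := Small.iUnion_of_lt_add (G := G) (X := X) (I := ULift Bool) (by simpa using h2)
    (R := fun i u v => if i.down then R u v else S u v) (by
      rintro ⟨i⟩
      cases i
      · simpa using hS
      · simpa using hR)
  refine this.mono fun u v _ h => ?_
  rcases h with h | h
  · exact ⟨⟨true⟩, by simpa using h⟩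
  · exact ⟨⟨false⟩, by simpa using h⟩

end Pool.Agent.Lib.MP_d41870_lc
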