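import Mathlib

/-!
# Measurable cardinals; graphs, countable partitions and splittings inside a structure `(M, E)`

These are the definitions used in the statement: `E x y` is read as `x ∈ y`.
-/

set_option autoImplicit false

namespace Pool.Agent.Lib.MP_d41870_lc.Forc

open Set

universe u

/-- `κ` is a measurable cardinal: it is uncountable and carries a nonprincipal `κ`-complete
ultrafilter. -/
def IsMeasurable (κ : Cardinal.{0}) : Prop :=
  Cardinal.aleph0 < κ ∧ ∃ U : Ultrafilter κ.ord.ToType, (∀ x, {x} ∉ U) ∧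
    ∀ (I : Type), Cardinal.mk I < κ → ∀ s : I → Set κ.ord.ToType, (∀ i, s i ∈ U) → (⋂ i, s i) ∈ U

section Statement

variable {M : Type u} (E : M → M → Prop)

/-- `p` is the Kuratowski pair `(a, b)`. -/
def IsPair (p a b : M) : Prop :=
  ∀ z, E z p ↔ (∀ w, E w z ↔ w = a) ∨ (∀ w, E w z ↔ w = a ∨ w = b)

/-- `(a, b) ∈ f`. -/
def HasPair (f a b : M) : Prop := ∃ p, E p f ∧ IsPair E p a b

/-- `w` is an inductive set: it contains the empty set and `y ∪ {y}` for all `y ∈ w`. -/
def IsInductive (w : M) : Prop :=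
  (∃ y, E y w ∧ ∀ z, ¬ E z y) ∧ ∀ y, E y w → ∃ z, E z w ∧ ∀ u, E u z ↔ E u y ∨ u = y

/-- `w` is the set `ω` of natural numbers: the least inductive set. -/
def IsOmega (w : M) : Prop :=
  IsInductive E w ∧ ∀ w', IsInductive E w' → ∀ y, E y w → E y w'

/-- `f` is a function from `x` to `y`. -/
def IsFunc (f x y : M) : Prop :=
  (∀ p, E p f → ∃ a b, E a x ∧ E b y ∧ IsPair E p a b) ∧
    (∀ a, E a x → ∃ b, HasPair E f a b) ∧
    ∀ a b b', HasPair E f a b → HasPair E f a b' → b = b'

/-- `H` is a set of unordered pairs of elements of `h`: the edge set of a graph `⟨h, H⟩`. -/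
def IsGraph (h H : M) : Prop :=
  ∀ e, E e H → ∃ a b, E a h ∧ E b h ∧ a ≠ b ∧ ∀ z, E z e ↔ z = a ∨ z = b

/-- The class `{x : f x = n}` contains an edge belonging to `H`. -/
def ClassHasEdge (f n H : M) : Prop := ∃ e, E e H ∧ ∀ z, E z e → HasPair E f z n

/-- The graph `⟨h, H⟩` is `(> ℵ₀)`-chromatic: for every partition of `h` into countably many
pieces, given by a function `f : h → ω`, some piece contains an edge. -/
def UncountablyChromatic (h H : M) : Prop :=
  ∀ w, IsOmega E w → ∀ f, IsFunc E f h w → ∃ n, E n w ∧ ClassHasEdge E f n H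

/-- The graph `⟨h, H⟩` splits to two parts: `H` is the union of two disjoint sets `H₀`, `H₁` such
that for every partition of `h` into countably many pieces, given by a function `f : h → ω`, one
piece contains an edge in `H₀` and an edge in `H₁`. -/
def SplitsToTwo (h H : M) : Prop :=
  ∃ H₀ H₁, (∀ e, E e H ↔ E e H₀ ∨ E e H₁) ∧ (∀ e, ¬ (E e H₀ ∧ E e H₁)) ∧
    ∀ w, IsOmega E w → ∀ f, IsFunc E f h w →
      ∃ n, E n w ∧ ClassHasEdge E f n H₀ ∧ ClassHasEdge E f n H₁

end Statement

end Pool.Agent.Lib.MP_d41870_lc.Forc
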